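import Pool.Agent.H992.LR.Nd

/-!
# Clusters of levels: quadratic relations between three eigenvectors of one eigenvalue
-/

set_option autoImplicit false
set_option linter.unusedSectionVars false

open Set Filter Topology MeasureTheory
open Pool.Agent.Y262.QE Pool.Agent.Y264.QR
open Pool.Agent.Q233.GLV (kf kf_apply kf_lin kf_int kf_symm ex kf_ex)
open Q101.QG (EV)

noncomputable section

namespace Pool.Agent.H992.LR

/-- diagonalization of quadratic forms -/
lemma diagn {n : ℕ} (A : Matrix (Fin n) (Fin n) ℝ) (hA : A.IsHermitian) (h0 : A ≠ 0) :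
    ∃ (U : Fin n → Fin n → ℝ) (l : Fin n → ℝ), (∃ i, l i ≠ 0) ∧
      (∀ i j, ∑ p, U p i * U p j = if i = j then 1 else 0) ∧
      ∀ z : Fin n → ℝ, ∑ p, ∑ q, A p q * (z p * z q) = ∑ i, l i * (∑ p, U p i * z p) ^ 2 := by
  obtain ⟨U, hU⟩ : ∃ U : Matrix (Fin n) (Fin n) ℝ,
    U = (hA.eigenvectorUnitary : Matrix (Fin n) (Fin n) ℝ) := ⟨_, rfl⟩
  refine ⟨U, hA.eigenvalues, ?_, ?_, ?_⟩
  · by_contra hcon
    push Not at hcon
    exact h0 (hA.eigenvalues_eq_zero_iff.1 (funext hcon))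
  · intro i j
    have h1 : star U * U = 1 := by
      rw [hU]
      exact Unitary.coe_star_mul_self hA.eigenvectorUnitary
    have h2 := congrFun (congrFun h1 i) j
    rw [Matrix.mul_apply, Matrix.one_apply] at h2
    rw [← h2]
    refine Finset.sum_congr rfl fun p _ => ?_
    rw [Matrix.star_apply, star_trivial]
  · intro z
    have h1 : A = U * Matrix.diagonal hA.eigenvalues * star U := by
      have h2 := hA.spectral_theorem
      rw [Unitary.conjStarAlgAut_apply] at h2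
      rw [hU]
      exact h2
    have h2 : ∀ p q, A p q = ∑ i, U p i * hA.eigenvalues i * U q i := by
      intro p q
      have h3 : A p q = (U * Matrix.diagonal hA.eigenvalues * star U) p q := by rw [← h1]
      rw [h3, Matrix.mul_apply]
      refine Finset.sum_congr rfl fun i _ => ?_
      rw [Matrix.mul_diagonal, Matrix.star_apply, star_trivial]
    have h4 : ∀ i, hA.eigenvalues i * (∑ p, U p i * z p) ^ 2 =
        ∑ p, ∑ q, U p i * hA.eigenvalues i * U q i * (z p * z q) := by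
      intro i
      rw [sq, Finset.sum_mul_sum, Finset.mul_sum]
      refine Finset.sum_congr rfl fun p _ => ?_
      rw [Finset.mul_sum]
      refine Finset.sum_congr rfl fun q _ => ?_
      ring
    calc ∑ p, ∑ q, A p q * (z p * z q) =
        ∑ p, ∑ q, ∑ i, U p i * hA.eigenvalues i * U q i * (z p * z q) := by
          refine Finset.sum_congr rfl fun p _ => Finset.sum_congr rfl fun q _ => ?_
          rw [h2, Finset.sum_mul]
      _ = ∑ p, ∑ i, ∑ q, U p i * hA.eigenvalues i * U q i * (z p * z q) :=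
          Finset.sum_congr rfl fun p _ => Finset.sum_comm
      _ = ∑ i, ∑ p, ∑ q, U p i * hA.eigenvalues i * U q i * (z p * z q) := Finset.sum_comm
      _ = _ := Finset.sum_congr rfl fun i _ => (h4 i).symm

lemma third (i j : Fin 3) (h : i ≠ j) : ∃ k, ∀ f : Fin 3 → ℝ, ∑ p, f p = f i + f j + f k := by
  fin_cases i <;> fin_cases j
  · exact absurd rfl h
  · exact ⟨2, fun f => by rw [Fin.sum_univ_three]; rfl⟩
  · exact ⟨1, fun f => by rw [Fin.sum_univ_three]; show _ = f 0 + f 2 + f 1; ring⟩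
  · exact ⟨2, fun f => by rw [Fin.sum_univ_three]; show _ = f 1 + f 0 + f 2; ring⟩
  · exact absurd rfl h
  · exact ⟨0, fun f => by rw [Fin.sum_univ_three]; show _ = f 1 + f 2 + f 0; ring⟩
  · exact ⟨1, fun f => by rw [Fin.sum_univ_three]; show _ = f 2 + f 0 + f 1; ring⟩
  · exact ⟨0, fun f => by rw [Fin.sum_univ_three]; show _ = f 2 + f 1 + f 0; ring⟩
  · exact absurd rfl h

variable {M : Type} [MetricSpace M] [CompactSpace M] [MeasurableSpace M] [BorelSpace M]
  {μ : Measure M} [IsFiniteMeasure μ] {H : Type} [NormedAddCommGroup H] [InnerProductSpace ℝ H]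
  {i : H →L[ℝ] Lp ℝ 2 μ} {a : H →L[ℝ] H →L[ℝ] ℝ} {b : C(M, ℝ) → H →L[ℝ] H →L[ℝ] ℝ}

/-- eigenvectors of one eigenvalue with `u v = w²` are proportional -/
def CZ (μ : Measure M) (i : H →L[ℝ] Lp ℝ 2 μ) (a : H →L[ℝ] H →L[ℝ] ℝ)
    (b : C(M, ℝ) → H →L[ℝ] H →L[ℝ] ℝ) : Prop :=
  ∀ (φ : C(M, ℝ)) (lam : ℝ) (u v w : H), (∀ x, a u x = lam * b φ u x) →
    (∀ x, a v x = lam * b φ v x) → (∀ x, a w x = lam * b φ w x) →
    (∀ᵐ x ∂μ, (i u : M → ℝ) x * (i v : M → ℝ) x = ((i w : M → ℝ) x) ^ 2) →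
    (∀ᵐ x ∂μ, (i u : M → ℝ) x = 0) ∨ ∃ c : ℝ, ∀ᵐ x ∂μ, (i v : M → ℝ) x = c * (i u : M → ℝ) x

lemma i_two (c d : ℝ) (v w : H) : ∀ᵐ x ∂μ, (i (c • v + d • w) : M → ℝ) x =
    c * (i v : M → ℝ) x + d * (i w : M → ℝ) x := by
  rw [map_add, map_smul, map_smul]
  filter_upwards [Lp.coeFn_add (c • i v) (d • i w), Lp.coeFn_smul c (i v),
    Lp.coeFn_smul d (i w)] with x h1 h2 h3
  rw [h1, Pi.add_apply, h2, h3, Pi.smul_apply, Pi.smul_apply, smul_eq_mul, smul_eq_mul]

lemma i_fin {n : ℕ} (c : Fin n → ℝ) (v : Fin n → H) : ∀ᵐ x ∂μ, (i (∑ p, c p • v p) : M → ℝ) x =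
    ∑ p, c p * (i (v p) : M → ℝ) x := by
  have key : ∀ s : Finset (Fin n), ∀ᵐ x ∂μ, (i (∑ p ∈ s, c p • v p) : M → ℝ) x =
      ∑ p ∈ s, c p * (i (v p) : M → ℝ) x := by
    intro s
    induction s using Finset.induction_on with
    | empty =>
      simp only [Finset.sum_empty, map_zero]
      filter_upwards [Lp.coeFn_zero ℝ 2 μ] with x hx
      rw [hx]
      rfl
    | insert p s hp ih =>
      rw [Finset.sum_insert hp, map_add, map_smul]
      filter_upwards [Lp.coeFn_add (c p • i (v p)) (i (∑ p ∈ s, c p • v p)),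
        Lp.coeFn_smul (c p) (i (v p)), ih] with x h1 h2 h3
      rw [h1, Pi.add_apply, h2, h3, Pi.smul_apply, smul_eq_mul, Finset.sum_insert hp]
  exact key Finset.univ

/-- two orthonormal eigenvectors of one eigenvalue have no combinations with `u v = w²` -/
lemma two_conic (hB : IsB μ i b) (hF : ∀ φ, Fm a (b φ)) (hcz : CZ μ i a b) {φ : C(M, ℝ)} {lam : ℝ}
    {x y z : H} (hx : ∀ t, a x t = lam * b φ x t) (hy : ∀ t, a y t = lam * b φ y t)
    (hz : ∀ t, a z t = lam * b φ z t) (hxx : b φ x x = 1) (hyy : b φ y y = 1) (hxy : b φ x y = 0)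
    {α β γ : ℝ} (hα : 0 < α) (hβ : 0 < β)
    (h : ∀ᵐ t ∂μ, (α * (i x : M → ℝ) t) ^ 2 = (β * (i y : M → ℝ) t) ^ 2 +
      (γ * (i z : M → ℝ) t) ^ 2) : False := by
  have hev : ∀ c d : ℝ, ∀ t, a (c • x + d • y) t = lam * b φ (c • x + d • y) t := by
    intro c d t
    simp only [map_add, map_smul, _root_.add_apply, _root_.smul_apply, smul_eq_mul, hx, hy]
    ring
  have hnb : ∀ c d : ℝ, b φ (c • x + d • y) (c • x + d • y) = c ^ 2 + d ^ 2 := by
    intro c d
    simp only [map_add, map_smul, _root_.add_apply, _root_.smul_apply, smul_eq_mul, hxx, hyy,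
      hxy, (hF φ).sb y x]
    ring
  have hne : ∀ c d : ℝ, (∀ᵐ t ∂μ, (i (c • x + d • y) : M → ℝ) t = 0) → c ^ 2 + d ^ 2 = 0 := by
    intro c d h1
    rw [← hnb]
    exact b_zero hB h1
  have hez : ∀ t, a (γ • z) t = lam * b φ (γ • z) t := by
    intro t
    simp only [map_smul, _root_.smul_apply, smul_eq_mul, hz]
    ring
  have h1 : ∀ᵐ t ∂μ, (i (α • x + (-β) • y) : M → ℝ) t * (i (α • x + β • y) : M → ℝ) t =
      ((i (γ • z) : M → ℝ) t) ^ 2 := by
    filter_upwards [h, i_two (i := i) α (-β) x y, i_two (i := i) α β x y,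
      Lp.coeFn_smul γ (i z)] with t h2 h3 h4 h5
    rw [h3, h4, map_smul, h5, Pi.smul_apply, smul_eq_mul]
    linear_combination h2
  rcases hcz φ lam _ _ _ (hev _ _) (hev _ _) hez h1 with h2 | ⟨c, h2⟩
  · have := hne _ _ h2
    nlinarith
  · have h3 : ∀ᵐ t ∂μ, (i ((α - c * α) • x + (β + c * β) • y) : M → ℝ) t = 0 := by
      filter_upwards [h2, i_two (i := i) α (-β) x y, i_two (i := i) α β x y,
        i_two (i := i) (α - c * α) (β + c * β) x y] with t h4 h5 h6 h7
      rw [h7]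
      rw [h5, h6] at h4
      linear_combination h4
    have h4 := hne _ _ h3
    have h5 : (α - c * α) ^ 2 = 0 := by nlinarith [sq_nonneg (α - c * α), sq_nonneg (β + c * β)]
    have h6 : (β + c * β) ^ 2 = 0 := by nlinarith [sq_nonneg (α - c * α), sq_nonneg (β + c * β)]
    have h7 : α * (1 - c) = 0 := by
      have := pow_eq_zero_iff (two_ne_zero) |>.1 h5
      linarith
    have h8 : β * (1 + c) = 0 := by
      have := pow_eq_zero_iff (two_ne_zero) |>.1 h6
      linarith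
    have h9 := (mul_eq_zero.1 h7).resolve_left hα.ne'
    have h10 := (mul_eq_zero.1 h8).resolve_left hβ.ne'
    linarith

/-- **there is no quadratic relation between three orthonormal eigenvectors of one eigenvalue** -/
theorem quad3 (hB : IsB μ i b) (hF : ∀ φ, Fm a (b φ)) (hcz : CZ μ i a b) {φ : C(M, ℝ)} {lam : ℝ}
    {v : Fin 3 → H} (hv : ∀ p x, a (v p) x = lam * b φ (v p) x)
    (hor : ∀ p q, b φ (v p) (v q) = if p = q then 1 else 0) (A : Matrix (Fin 3) (Fin 3) ℝ)
    (hA : A.IsHermitian) (hA0 : A ≠ 0)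
    (h : ∀ᵐ z ∂μ, ∑ p, ∑ q, A p q * ((i (v p) : M → ℝ) z * (i (v q) : M → ℝ) z) = 0) : False := by
  obtain ⟨U, l, ⟨i₀, hl⟩, hU, hQ⟩ := diagn A hA hA0
  obtain ⟨y, hy⟩ : ∃ y : Fin 3 → H, y = fun j => ∑ p, U p j • v p := ⟨_, rfl⟩
  have hyl : ∀ j x, b φ (y j) x = ∑ p, U p j * b φ (v p) x := by
    intro j x
    rw [hy]
    simp only
    rw [map_sum, _root_.sum_apply]
    exact Finset.sum_congr rfl fun p _ => by rw [map_smul, _root_.smul_apply, smul_eq_mul]
  have hye : ∀ j x, a (y j) x = lam * b φ (y j) x := by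
    intro j x
    rw [hyl, hy]
    simp only
    rw [map_sum, _root_.sum_apply, Finset.mul_sum]
    refine Finset.sum_congr rfl fun p _ => ?_
    rw [map_smul, _root_.smul_apply, smul_eq_mul, hv]
    ring
  have hyo : ∀ j k, b φ (y j) (y k) = if j = k then 1 else 0 := by
    intro j k
    rw [hyl, ← hU j k]
    refine Finset.sum_congr rfl fun p _ => ?_
    rw [(hF φ).sb, hyl]
    simp only [hor, mul_ite, mul_one, mul_zero, Finset.sum_ite_eq', Finset.mem_univ, if_true]
  have hyi : ∀ j, ∀ᵐ z ∂μ, (i (y j) : M → ℝ) z = ∑ p, U p j * (i (v p) : M → ℝ) z := by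
    intro j
    rw [hy]
    exact i_fin (fun p => U p j) v
  have hyi' : ∀ᵐ z ∂μ, ∀ j, (i (y j) : M → ℝ) z = ∑ p, U p j * (i (v p) : M → ℝ) z :=
    ae_all_iff.2 hyi
  have hsum : ∀ᵐ z ∂μ, ∑ j, l j * ((i (y j) : M → ℝ) z) ^ 2 = 0 := by
    filter_upwards [h, hyi'] with z h1 h2
    simp only [h2]
    rw [← hQ fun p => (i (v p) : M → ℝ) z]
    exact h1
  have hone : ∀ j, ¬ ∀ᵐ z ∂μ, (i (y j) : M → ℝ) z = 0 := by
    intro j hj
    have h1 := b_zero hB (φ := φ) hj
    rw [hyo, if_pos rfl] at h1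
    exact one_ne_zero h1
  by_cases hopp : ∃ j k, 0 < l j ∧ l k < 0
  · obtain ⟨j, k, hj, hk⟩ := hopp
    have hjk : j ≠ k := fun h => by rw [h] at hj; linarith
    obtain ⟨t, ht⟩ := third j k hjk
    have hb1 : b φ (y j) (y k) = 0 := by rw [hyo, if_neg hjk]
    have hb2 : b φ (y k) (y j) = 0 := by rw [hyo, if_neg (Ne.symm hjk)]
    have hb3 : ∀ j, b φ (y j) (y j) = 1 := fun j => by rw [hyo, if_pos rfl]
    rcases le_or_gt 0 (l t) with hlt | hlt
    · -- `|l k| y k ^ 2 = l j y j ^ 2 + l t y t ^ 2`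
      refine two_conic hB hF hcz (hye k) (hye j) (hye t) (hb3 k) (hb3 j) hb2
        (α := Real.sqrt (-l k)) (β := Real.sqrt (l j)) (γ := Real.sqrt (l t))
        (Real.sqrt_pos.2 (by linarith)) (Real.sqrt_pos.2 hj) ?_
      filter_upwards [hsum] with z hz
      rw [ht] at hz
      rw [mul_pow, mul_pow, mul_pow, Real.sq_sqrt (by linarith : 0 ≤ -l k), Real.sq_sqrt hj.le,
        Real.sq_sqrt hlt]
      linarith
    · refine two_conic hB hF hcz (hye j) (hye k) (hye t) (hb3 j) (hb3 k) hb1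
        (α := Real.sqrt (l j)) (β := Real.sqrt (-l k)) (γ := Real.sqrt (-l t))
        (Real.sqrt_pos.2 hj) (Real.sqrt_pos.2 (by linarith)) ?_
      filter_upwards [hsum] with z hz
      rw [ht] at hz
      rw [mul_pow, mul_pow, mul_pow, Real.sq_sqrt hj.le, Real.sq_sqrt (by linarith : 0 ≤ -l k),
        Real.sq_sqrt (by linarith : 0 ≤ -l t)]
      linarith
  · push Not at hopp
    rcases lt_or_gt_of_ne hl with hneg | hpos
    · have hall : ∀ j, l j ≤ 0 := by
        intro j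
        by_contra hcon
        exact absurd (hopp j i₀ (not_le.1 hcon)) (not_le.2 hneg)
      refine hone i₀ ?_
      filter_upwards [hsum] with z hz
      have h1 : ∑ j, -(l j * ((i (y j) : M → ℝ) z) ^ 2) = 0 := by
        rw [Finset.sum_neg_distrib, hz, neg_zero]
      have h2 := (Finset.sum_eq_zero_iff_of_nonneg (fun j _ => by
        have := hall j
        have := sq_nonneg ((i (y j) : M → ℝ) z)
        nlinarith)).1 h1 i₀ (Finset.mem_univ _)
      have h3 : l i₀ * ((i (y i₀) : M → ℝ) z) ^ 2 = 0 := by linarith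
      exact pow_eq_zero_iff (two_ne_zero) |>.1 ((mul_eq_zero.1 h3).resolve_left hneg.ne)
    · have hall : ∀ j, 0 ≤ l j := fun j => hopp i₀ j hpos
      refine hone i₀ ?_
      filter_upwards [hsum] with z hz
      have h2 := (Finset.sum_eq_zero_iff_of_nonneg (fun j _ => by
        have := hall j
        positivity)).1 hz i₀ (Finset.mem_univ _)
      exact pow_eq_zero_iff (two_ne_zero) |>.1 ((mul_eq_zero.1 h2).resolve_left hpos.ne')

end Pool.Agent.H992.LR
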