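import Pool.Agent.H992.LR.Cl1

/-!
# Clusters of levels: the rank of the masses of a cluster
-/

set_option autoImplicit false
set_option linter.unusedSectionVars false

open Set Filter Topology MeasureTheory
open Pool.Agent.Y262.QE Pool.Agent.Y264.QR
open Pool.Agent.Q233.GLV (kf kf_apply kf_lin kf_int kf_symm ex kf_ex)
open Q101.QG (EV)

noncomputable section

namespace Pool.Agent.H992.LR

/-- the traceless part of a matrix -/
def tl (n : ℕ) : (Fin n → Fin n → ℝ) →ₗ[ℝ] (Fin n → Fin n → ℝ) where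
  toFun K p q := K p q - if p = q then (∑ r, K r r) / n else 0
  map_add' K L := by
    funext p q
    simp only [Pi.add_apply, Finset.sum_add_distrib]
    split_ifs <;> ring
  map_smul' c K := by
    funext p q
    simp only [Pi.smul_apply, smul_eq_mul, RingHom.id_apply, ← Finset.mul_sum]
    split_ifs <;> ring

lemma tl_apply (n : ℕ) (K : Fin n → Fin n → ℝ) (p q : Fin n) :
    tl n K p q = K p q - if p = q then (∑ r, K r r) / n else 0 := rfl

/-- the coordinates of a traceless symmetric matrix with three rows -/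
def co5 : (Fin 3 → Fin 3 → ℝ) →ₗ[ℝ] (Fin 5 → ℝ) where
  toFun K := ![K 0 0 - K 2 2, K 1 1 - K 2 2, K 0 1, K 0 2, K 1 2]
  map_add' K L := by
    funext j
    fin_cases j <;> simp <;> ring
  map_smul' c K := by
    funext j
    fin_cases j <;> simp <;> ring

lemma co5_tl (K : Fin 3 → Fin 3 → ℝ) : co5 (tl 3 K) = co5 K := by
  funext j
  fin_cases j <;> simp [co5, tl]

/-- a maximal linearly independent subfamily -/
lemma pick {V : Type} [AddCommGroup V] [Module ℝ V] [FiniteDimensional ℝ V] (x : ℕ → V) {d : ℕ}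
    (hd : d ≤ Module.finrank ℝ (Submodule.span ℝ (range x))) :
    ∃ J : Fin d → ℕ, LinearIndependent ℝ fun j => x (J j) := by
  obtain ⟨f, hf1, -, hf3⟩ := Submodule.exists_fun_fin_finrank_span_eq ℝ (range x)
  choose J hJ using hf1
  refine ⟨fun j => J (Fin.castLE hd j), ?_⟩
  have h1 : (fun j : Fin d => x (J (Fin.castLE hd j))) = f ∘ Fin.castLE hd := by
    funext j
    exact hJ _
  rw [h1]
  exact hf3.comp _ (Fin.castLE_injective hd)

variable {M : Type} [MetricSpace M] [CompactSpace M] [MeasurableSpace M] [BorelSpace M]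
  {μ : Measure M} [IsFiniteMeasure μ] {H : Type} [NormedAddCommGroup H] [InnerProductSpace ℝ H]
  {i : H →L[ℝ] Lp ℝ 2 μ} {a : H →L[ℝ] H →L[ℝ] ℝ} {b : C(M, ℝ) → H →L[ℝ] H →L[ℝ] ℝ}

/-- the traceless masses of `n` orthonormal eigenvectors of one eigenvalue have the rank `≥ d` -/
def Rk (a : H →L[ℝ] H →L[ℝ] ℝ) (b : C(M, ℝ) → H →L[ℝ] H →L[ℝ] ℝ) (n d : ℕ) : Prop :=
  ∀ (g : ℕ → C(M, ℝ)), Dense (Submodule.span ℝ (range g) : Set C(M, ℝ)) →
    ∀ (φ : C(M, ℝ)) (lam : ℝ) (v : Fin n → H), (∀ p x, a (v p) x = lam * b φ (v p) x) →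
    (∀ p q, b φ (v p) (v q) = if p = q then 1 else 0) →
    ∃ J : Fin d → ℕ, LinearIndependent ℝ fun j =>
      tl n fun p q => kf b (g (J j) * ex φ) (v p) (v q)

/-- **three eigenvectors have the full rank `5`** -/
theorem rk3 (hB : IsB μ i b) (hF : ∀ φ, Fm a (b φ)) (hcz : CZ μ i a b) : Rk a b 3 5 := by
  intro g hg φ lam v hv hor
  obtain ⟨S, hS⟩ : ∃ S : ℕ → Fin 3 → Fin 3 → ℝ,
    S = fun n p q => kf b (g n * ex φ) (v p) (v q) := ⟨_, rfl⟩
  have hsym : ∀ n p q, S n p q = S n q p := by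
    intro n p q
    rw [hS]
    exact kf_symm hB _ _ _
  have htop : Submodule.span ℝ (range fun n => co5 (S n)) = ⊤ := by
    by_contra hcon
    obtain ⟨f, hf0, hf⟩ := Submodule.exists_le_ker_of_lt_top _ (lt_top_iff_ne_top.2 hcon)
    obtain ⟨c, hc⟩ : ∃ c : Fin 5 → ℝ, c = fun j => f (fun k => if j = k then 1 else 0) := ⟨_, rfl⟩
    have hfc : ∀ y : Fin 5 → ℝ, f y = ∑ j, y j * c j := by
      intro y
      rw [LinearMap.pi_apply_eq_sum_univ f y, hc]
      rfl
    obtain ⟨A, hA⟩ : ∃ A : Fin 3 → Fin 3 → ℝ, A = ![![c 0, c 2 / 2, c 3 / 2],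
      ![c 2 / 2, c 1, c 4 / 2], ![c 3 / 2, c 4 / 2, -(c 0 + c 1)]] := ⟨_, rfl⟩
    have hAh : (Matrix.of A).IsHermitian := by
      rw [hA]
      ext j k
      fin_cases j <;> fin_cases k <;> simp [Matrix.conjTranspose]
    have hA0 : Matrix.of A ≠ 0 := by
      intro h0
      apply hf0
      have e : ∀ j k, A j k = 0 := fun j k => congrFun (congrFun h0 j) k
      have c0 : c 0 = 0 := by have := e 0 0; rw [hA] at this; simpa using this
      have c1 : c 1 = 0 := by have := e 1 1; rw [hA] at this; simpa using this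
      have c2 : c 2 = 0 := by have := e 0 1; rw [hA] at this; simpa using this
      have c3 : c 3 = 0 := by have := e 0 2; rw [hA] at this; simpa using this
      have c4 : c 4 = 0 := by have := e 1 2; rw [hA] at this; simpa using this
      refine LinearMap.ext fun y => ?_
      rw [hfc, Fin.sum_univ_five, c0, c1, c2, c3, c4]
      simp
    have hrel : ∀ K : Fin 3 → Fin 3 → ℝ, (∀ p q, K p q = K q p) →
        f (co5 K) = ∑ p, ∑ q, A p q * K p q := by
      intro K hK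
      rw [hfc, Fin.sum_univ_five]
      simp only [Fin.sum_univ_three]
      rw [hA, hK 1 0, hK 2 0, hK 2 1]
      simp [co5]
      ring
    have hz0 : ∀ n, ∑ p, ∑ q, A p q * S n p q = 0 := by
      intro n
      rw [← hrel _ (hsym n)]
      exact hf (Submodule.subset_span ⟨n, rfl⟩)
    -- the quadratic form vanishes
    have ci := fun u w : H => Pool.Agent.Q233.RSP.cross_int (μ := μ) (i := i) φ u w
    have hWi : Integrable (fun z => ∑ p, ∑ q, A p q * (Real.exp (φ z) *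
        ((i (v p) : M → ℝ) z * (i (v q) : M → ℝ) z))) μ :=
      integrable_finsetSum _ fun p _ => integrable_finsetSum _ fun q _ => (ci _ _).const_mul _
    have hz := Pool.Agent.Q233.RSP.zero_of_total μ hWi (range g) hg (by
      rintro _ ⟨n, rfl⟩
      have h1 := hz0 n
      have h2 : ∑ p, ∑ q, A p q * S n p q = ∫ z, ∑ p, ∑ q, A p q *
          ((g n * ex φ) z * ((i (v p) : M → ℝ) z * (i (v q) : M → ℝ) z)) ∂μ := by
        rw [integral_finsetSum _ fun p _ => integrable_finsetSum _ fun q _ =>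
          (kf_int (g n * ex φ) (v p) (v q)).const_mul _]
        refine Finset.sum_congr rfl fun p _ => ?_
        rw [integral_finsetSum _ fun q _ => (kf_int (g n * ex φ) (v p) (v q)).const_mul _]
        refine Finset.sum_congr rfl fun q _ => ?_
        rw [integral_const_mul, hS]
        simp only
        rw [kf_apply hB]
      rw [← h1, h2]
      refine integral_congr_ae (Eventually.of_forall fun z => ?_)
      simp only [ContinuousMap.mul_apply, ex_apply, Finset.mul_sum]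
      refine Finset.sum_congr rfl fun p _ => Finset.sum_congr rfl fun q _ => ?_
      ring)
    refine quad3 hB hF hcz hv hor (Matrix.of A) hAh hA0 ?_
    filter_upwards [hz] with z hz
    simp only [Pi.zero_apply] at hz
    have h2 : Real.exp (φ z) * ∑ p, ∑ q, A p q * ((i (v p) : M → ℝ) z * (i (v q) : M → ℝ) z) =
        0 := by
      rw [← hz]
      simp only [Finset.mul_sum]
      refine Finset.sum_congr rfl fun p _ => Finset.sum_congr rfl fun q _ => ?_
      ring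
    have h3 := (mul_eq_zero.1 h2).resolve_left (Real.exp_pos _).ne'
    simp only [Matrix.of_apply]
    exact h3
  obtain ⟨J, hJ⟩ := pick (fun n => co5 (S n)) (d := 5) (by
    rw [htop, finrank_top]
    simp)
  refine ⟨J, LinearIndependent.of_comp co5 ?_⟩
  have h1 : (co5 ∘ fun j => tl 3 fun p q => kf b (g (J j) * ex φ) (v p) (v q)) =
      fun j => co5 (S (J j)) := by
    funext j
    simp only [Function.comp_apply]
    rw [co5_tl, hS]
  rw [h1]
  exact hJ

/-- the masses of a cluster, weighted by the inverse eigenvalues -/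
def Km (b : C(M, ℝ) → H →L[ℝ] H →L[ℝ] ℝ) (n m : ℕ) (g φ : C(M, ℝ)) (e : ℕ → H) (E : ℕ → ℝ)
    (p q : Fin n) : ℝ :=
  kf b (g * ex φ) (e (m + 1 + p)) (e (m + 1 + q)) *
    ((Real.sqrt (E (m + 1 + p)))⁻¹ * (Real.sqrt (E (m + 1 + q)))⁻¹)

/-- **nondegeneracy** near a cluster of equal eigenvalues -/
theorem ndn [CompleteSpace H] (hS : Sf μ i a) (hB : IsB μ i b) {n d : ℕ} (hn : 0 < n)
    (hrk : Rk a b n d)
    (g : ℕ → C(M, ℝ)) (hg : Dense (Submodule.span ℝ (range g) : Set C(M, ℝ))) (φ₀ : C(M, ℝ))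
    (m : ℕ) (hpos : 0 < Ev a (b φ₀) (m + 1))
    (heq : ∀ p < n, Ev a (b φ₀) (m + 1 + p) = Ev a (b φ₀) (m + 1)) :
    ∃ (N : ℕ) (γ : ℝ), 0 < γ ∧ ∀ᶠ φ in 𝓝 φ₀, ∀ (e : ℕ → H) (E : ℕ → ℝ), Eg a (b φ) e E →
      ∃ J : Fin d → ℕ, (∀ j, J j < N) ∧ ∀ τ : Fin d → ℝ,
        γ * ‖τ‖ ≤ ‖∑ j, τ j • tl n (Km b n m (g (J j)) φ e E)‖ := by
  obtain ⟨hF, -, hexp, -⟩ := Pool.Agent.Q205.QLim.facts μ i a b hS hB
  have hEc := (tLip M μ H a b hF hexp).2.2.2.1
  by_contra hcon
  push Not at hcon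
  have h1 : ∀ N : ℕ, ∃ (φ : C(M, ℝ)) (e : ℕ → H) (E : ℕ → ℝ), dist φ φ₀ < 1 / ((N : ℝ) + 1) ∧
      Eg a (b φ) e E ∧ ∀ J : Fin d → ℕ, (∀ j, J j < N) → ∃ τ : Fin d → ℝ,
        ‖∑ j, τ j • tl n (Km b n m (g (J j)) φ e E)‖ < 1 / ((N : ℝ) + 1) * ‖τ‖ := by
    intro N
    have h2 := hcon N (1 / ((N : ℝ) + 1)) (by positivity)
    have h3 := h2.and_eventually (Metric.ball_mem_nhds φ₀ (by positivity : 0 < 1 / ((N : ℝ) + 1)))
    obtain ⟨φ, ⟨e, E, h4, h5⟩, h6⟩ := h3.exists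
    exact ⟨φ, e, E, h6, h4, h5⟩
  choose φs es Es hd hE hsm using h1
  have hφ : Tendsto φs atTop (𝓝 φ₀) := by
    rw [tendsto_iff_dist_tendsto_zero]
    exact squeeze_zero (fun n => dist_nonneg) (fun n => (hd n).le)
      tendsto_one_div_add_atTop_nhds_zero_nat
  obtain ⟨lam, hlam⟩ : ∃ lam, lam = Ev a (b φ₀) (m + 1) := ⟨_, rfl⟩
  have hlam0 : 0 < lam := by rw [hlam]; exact hpos
  obtain ⟨k, rfl⟩ : ∃ k, n = k + 1 := ⟨n - 1, by omega⟩
  obtain ⟨κ, v, hκ, hv, hlim⟩ := comp hS hB hφ hE (fun p : Fin (k + 1) => m + 1 + p) lam (by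
    intro p
    rw [hlam]
    exact heq p p.2)
  have hκt := hκ.tendsto_atTop
  have hone : ∀ (φ : C(M, ℝ)) (x y : H), kf b (1 * ex φ) x y = b φ x y := by
    intro φ x y
    rw [one_mul, kf_ex hB]
  have hor : ∀ p q, b φ₀ (v p) (v q) = if p = q then 1 else 0 := by
    intro p q
    have h2 := hlim 1 p q
    simp only [hone, (hE _).orth] at h2
    have h3 := tendsto_nhds_unique h2 tendsto_const_nhds
    rw [h3]
    by_cases hpq : p = q
    · rw [if_pos hpq, if_pos (by rw [hpq])]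
    · rw [if_neg hpq, if_neg (by
        intro h
        apply hpq
        apply Fin.ext
        omega)]
  obtain ⟨J, hJ⟩ := hrk g hg φ₀ lam v hv hor
  -- the limits
  have hEvs : ∀ n l, Ev a (b (φs n)) l = Es n l :=
    fun n l => Pool.Agent.Y592.QE.mm H a (b (φs n)) (hF _) (es n) (Es n) (hE n) l
  have hEl : ∀ p : Fin (k + 1), Tendsto (fun n => Es (κ n) (m + 1 + p)) atTop (𝓝 lam) := by
    intro p
    have h2 := ((hEc (m + 1 + p)).tendsto φ₀).comp (hφ.comp hκt)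
    rw [heq p p.2, ← hlam] at h2
    exact h2.congr fun n => hEvs _ _
  have hsl : (Real.sqrt lam)⁻¹ * (Real.sqrt lam)⁻¹ = lam⁻¹ := by
    rw [← mul_inv, Real.mul_self_sqrt hlam0.le]
  have hsq : Real.sqrt lam ≠ 0 := (Real.sqrt_pos.2 hlam0).ne'
  have hK : ∀ f : C(M, ℝ), Tendsto (fun n => Km b (k + 1) m f (φs (κ n)) (es (κ n)) (Es (κ n)))
      atTop (𝓝 (lam⁻¹ • fun p q => kf b (f * ex φ₀) (v p) (v q))) := by
    intro f
    rw [tendsto_pi_nhds]
    intro p
    rw [tendsto_pi_nhds]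
    intro q
    have h2 := (hlim f p q).mul (((hEl p).sqrt.inv₀ hsq).mul ((hEl q).sqrt.inv₀ hsq))
    rw [hsl, mul_comm _ lam⁻¹] at h2
    exact h2
  -- the limit family is independent
  obtain ⟨y, hy⟩ : ∃ y : Fin d → Fin (k + 1) → Fin (k + 1) → ℝ, y = fun j =>
    tl (k + 1) (lam⁻¹ • fun p q => kf b (g (J j) * ex φ₀) (v p) (v q)) := ⟨_, rfl⟩
  have hyi : LinearIndependent ℝ y := by
    have h2 : y = fun j => (Units.mk0 lam⁻¹ (inv_pos.2 hlam0).ne') •
        tl (k + 1) (fun p q => kf b (g (J j) * ex φ₀) (v p) (v q)) := by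
      rw [hy]
      funext j
      rw [map_smul]
      rfl
    rw [h2]
    exact hJ.units_smul fun _ => Units.mk0 lam⁻¹ (inv_pos.2 hlam0).ne'
  obtain ⟨γ, hγ, hγy⟩ : ∃ γ : ℝ, 0 < γ ∧ ∀ τ : Fin d → ℝ, γ * ‖τ‖ ≤ ‖∑ j, τ j • y j‖ := by
    obtain ⟨L, hL⟩ : ∃ L : (Fin d → ℝ) →ₗ[ℝ] (Fin (k + 1) → Fin (k + 1) → ℝ),
      L = Fintype.linearCombination ℝ y := ⟨_, rfl⟩
    have hLa : ∀ τ, L τ = ∑ j, τ j • y j := by
      intro τ
      rw [hL, Fintype.linearCombination_apply]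
    have hker : LinearMap.ker L = ⊥ := by
      rw [LinearMap.ker_eq_bot']
      intro τ hτ
      rw [hLa] at hτ
      funext j
      exact Fintype.linearIndependent_iff.1 hyi τ hτ j
    obtain ⟨K, hK0, hKL⟩ := L.exists_antilipschitzWith hker
    refine ⟨(K : ℝ)⁻¹, by positivity, fun τ => ?_⟩
    have h2 := hKL.le_mul_dist τ 0
    rw [map_zero, dist_zero_right, dist_zero_right, hLa] at h2
    rw [inv_mul_le_iff₀ (by exact_mod_cast hK0)]
    exact h2
  have hyl : ∀ j, Tendsto (fun n => tl (k + 1) (Km b (k + 1) m (g (J j)) (φs (κ n)) (es (κ n))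
      (Es (κ n)))) atTop (𝓝 (y j)) := by
    intro j
    rw [hy]
    exact ((tl (k + 1)).continuous_of_finiteDimensional.tendsto _).comp (hK (g (J j)))
  have hev : ∀ᶠ n in atTop, ∑ j, ‖tl (k + 1) (Km b (k + 1) m (g (J j)) (φs (κ n)) (es (κ n))
      (Es (κ n))) - y j‖ < γ / 2 := by
    have h2 : Tendsto (fun n => ∑ j, ‖tl (k + 1) (Km b (k + 1) m (g (J j)) (φs (κ n)) (es (κ n))
        (Es (κ n))) - y j‖) atTop (𝓝 (∑ _j : Fin d, (0 : ℝ))) := by
      refine tendsto_finsetSum _ fun j _ => ?_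
      have := ((hyl j).sub_const (y j)).norm
      rwa [sub_self, norm_zero] at this
    rw [Finset.sum_const_zero] at h2
    exact h2.eventually_lt_const (by positivity)
  have hev2 : ∀ᶠ n in atTop, 1 / ((κ n : ℝ) + 1) < γ / 2 := by
    have h3 : Tendsto (fun n => 1 / ((κ n : ℝ) + 1)) atTop (𝓝 0) :=
      tendsto_one_div_add_atTop_nhds_zero_nat.comp hκt
    exact h3.eventually_lt_const (by positivity)
  have hev3 : ∀ᶠ n in atTop, ∀ j, J j < κ n := by
    filter_upwards [hκt.eventually_gt_atTop (∑ j, J j)] with n hn j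
    exact (Finset.single_le_sum (f := J) (fun _ _ => Nat.zero_le _) (Finset.mem_univ j)).trans_lt hn
  obtain ⟨n, hn1, hn2, hn3⟩ := (hev.and (hev2.and hev3)).exists
  obtain ⟨τ, hτ⟩ := hsm (κ n) J hn3
  have h2 := hγy τ
  have h3 : ∑ j, τ j • y j = ∑ j, τ j • tl (k + 1) (Km b (k + 1) m (g (J j)) (φs (κ n)) (es (κ n))
      (Es (κ n))) - ∑ j, τ j • (tl (k + 1) (Km b (k + 1) m (g (J j)) (φs (κ n)) (es (κ n))
      (Es (κ n))) - y j) := by
    rw [← Finset.sum_sub_distrib]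
    refine Finset.sum_congr rfl fun j _ => ?_
    rw [smul_sub]
    abel
  have h4 : ‖∑ j, τ j • (tl (k + 1) (Km b (k + 1) m (g (J j)) (φs (κ n)) (es (κ n))
      (Es (κ n))) - y j)‖ ≤ ‖τ‖ * ∑ j, ‖tl (k + 1) (Km b (k + 1) m (g (J j)) (φs (κ n)) (es (κ n))
      (Es (κ n))) - y j‖ := by
    refine (norm_sum_le _ _).trans ?_
    rw [Finset.mul_sum]
    refine Finset.sum_le_sum fun j _ => ?_
    rw [norm_smul]
    exact mul_le_mul_of_nonneg_right (norm_le_pi_norm τ j) (norm_nonneg _)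
  have h5 : ‖∑ j, τ j • y j‖ ≤ ‖∑ j, τ j • tl (k + 1) (Km b (k + 1) m (g (J j)) (φs (κ n))
      (es (κ n)) (Es (κ n)))‖ + ‖τ‖ * ∑ j, ‖tl (k + 1) (Km b (k + 1) m (g (J j)) (φs (κ n))
      (es (κ n)) (Es (κ n))) - y j‖ := by
    rw [h3]
    exact (norm_sub_le _ _).trans (by linarith)
  have h0 := norm_nonneg τ
  have h6 : ‖τ‖ * ∑ j, ‖tl (k + 1) (Km b (k + 1) m (g (J j)) (φs (κ n))
      (es (κ n)) (Es (κ n))) - y j‖ ≤ ‖τ‖ * (γ / 2) := mul_le_mul_of_nonneg_left hn1.le h0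
  have h7 : 1 / ((κ n : ℝ) + 1) * ‖τ‖ ≤ γ / 2 * ‖τ‖ := mul_le_mul_of_nonneg_right hn2.le h0
  linarith

end Pool.Agent.H992.LR
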