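import Pool.Agent.H992.LR.Cl2

/-!
# Clusters of levels: narrow clusters give cones
-/

set_option autoImplicit false
set_option linter.unusedSectionVars false

open Set Filter Topology MeasureTheory
open Pool.Agent.Y262.QE Pool.Agent.Y264.QR
open Pool.Agent.Q233.GLV (kf kf_apply kf_lin kf_int kf_symm ex kf_ex)
open Q101.QG (EV)

noncomputable section

namespace Pool.Agent.H992.LR

/-- a quadratic form -/
def qf {n : ℕ} (K : Fin n → Fin n → ℝ) (c : Fin n → ℝ) : ℝ := ∑ p, ∑ q, c p * c q * K p q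

lemma qf_two {n : ℕ} (K : Fin n → Fin n → ℝ) {p q : Fin n} (hpq : p ≠ q) (s t : ℝ) :
    qf K (fun r => (if r = p then s else 0) + if r = q then t else 0) =
      s * s * K p p + s * t * K p q + t * s * K q p + t * t * K q q ∧
    ∑ r, ((if r = p then s else 0) + if r = q then t else 0 : ℝ) ^ 2 = s ^ 2 + t ^ 2 := by
  constructor
  · unfold qf
    simp only [add_mul, mul_add, Finset.sum_add_distrib, ite_mul, mul_ite, zero_mul, mul_zero,
      Finset.sum_ite_eq', Finset.mem_univ, if_true]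
    ring
  · have h1 : ∀ r, ((if r = p then s else 0) + if r = q then t else 0 : ℝ) ^ 2 =
        (if r = p then s ^ 2 else 0) + if r = q then t ^ 2 else 0 := by
      intro r
      by_cases h1 : r = p
      · rw [if_pos h1, if_neg (by rw [h1]; exact hpq), if_pos h1, if_neg (by rw [h1]; exact hpq)]
        ring
      · rw [if_neg h1, if_neg h1]
        by_cases h2 : r = q
        · rw [if_pos h2, if_pos h2]; ring
        · rw [if_neg h2, if_neg h2]; ring
    rw [Finset.sum_congr rfl fun r _ => h1 r, Finset.sum_add_distrib]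
    simp

/-- the largest eigenvalue of a traceless symmetric matrix controls the matrix -/
lemma optn {n : ℕ} (hn : 0 < n) (K : Fin n → Fin n → ℝ) (hs : ∀ p q, K p q = K q p)
    (ht : ∑ r, K r r = 0) : ∃ c : Fin n → ℝ, ∑ p, (c p) ^ 2 = 1 ∧ ‖K‖ ≤ n * qf K c := by
  have hn0 : (0 : ℝ) < n := by exact_mod_cast hn
  have hne : Nonempty (Fin n) := ⟨⟨0, hn⟩⟩
  by_contra hcon
  push Not at hcon
  obtain ⟨X, hX⟩ : ∃ X : ℝ, X = ‖K‖ := ⟨_, rfl⟩
  have hX0 : 0 ≤ X := by rw [hX]; exact norm_nonneg _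
  rw [← hX] at hcon
  -- the diagonal
  have hd : ∀ p, n * K p p < X := by
    intro p
    have h1 := hcon (fun r => if r = p then 1 else 0) (by simp)
    have h2 : qf K (fun r => if r = p then 1 else 0) = K p p := by
      unfold qf
      simp
    rwa [h2] at h1
  have hd2 : ∀ p, -(n * K p p) ≤ (n - 1) * X := by
    intro p
    have h1 : ∑ r ∈ Finset.univ.erase p, K r r = -K p p := by
      have h2 := Finset.add_sum_erase Finset.univ (fun r => K r r) (Finset.mem_univ p)
      linarith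
    have h3 : ∑ r ∈ Finset.univ.erase p, n * K r r ≤ ∑ _r ∈ Finset.univ.erase p, X :=
      Finset.sum_le_sum fun r _ => (hd r).le
    rw [← Finset.mul_sum, h1, Finset.sum_const, Finset.card_erase_of_mem (Finset.mem_univ p),
      Finset.card_univ, Fintype.card_fin, nsmul_eq_mul, Nat.cast_sub hn] at h3
    push_cast at h3
    linarith
  have hXpos : 0 < X := by
    by_contra h
    have hX1 : X = 0 := le_antisymm (not_lt.1 h) hX0
    have h1 := hd ⟨0, hn⟩
    have h2 := hd2 ⟨0, hn⟩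
    rw [hX1] at h1 h2
    linarith
  have hpq : ∀ p q, |K p q| < X := by
    intro p q
    by_cases hpq : p = q
    · subst hpq
      rw [abs_lt]
      have h1 := hd p
      have h2 := hd2 p
      constructor
      · have : -(n * K p p) < n * X := by nlinarith
        nlinarith
      · have : n * K p p < n * X := by
          have : X ≤ n * X := by
            have : (1 : ℝ) ≤ n := by exact_mod_cast hn
            nlinarith
          linarith
        nlinarith
    · obtain ⟨s, hs1⟩ : ∃ s : ℝ, s * s = 1 / 2 := ⟨Real.sqrt (1 / 2), Real.mul_self_sqrt (by norm_num)⟩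
      have h1 := (hd2 p)
      have h2 := (hd2 q)
      obtain ⟨e1, e2⟩ := qf_two K hpq s s
      obtain ⟨e3, e4⟩ := qf_two K hpq s (-s)
      have h3 := hcon _ (by rw [e2]; nlinarith)
      have h4 := hcon _ (by rw [e4]; nlinarith)
      rw [e1] at h3
      rw [e3] at h4
      have e5 : s * s * K p p + s * s * K p q + s * s * K q p + s * s * K q q =
          (K p p + K q q) / 2 + K p q := by
        rw [hs1, hs q p]
        ring
      have e6 : s * s * K p p + s * -s * K p q + -s * s * K q p + -s * -s * K q q =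
          (K p p + K q q) / 2 - K p q := by
        have : s * s * K p p + s * -s * K p q + -s * s * K q p + -s * -s * K q q =
          (s * s) * K p p - (s * s) * K p q - (s * s) * K q p + (s * s) * K q q := by ring
        rw [this, hs1, hs q p]
        ring
      rw [e5] at h3
      rw [e6] at h4
      rw [abs_lt]
      constructor
      · have : n * (-K p q) < n * X := by nlinarith
        nlinarith
      · have : n * K p q < n * X := by nlinarith
        nlinarith
  have h5 : X < X := by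
    conv_lhs => rw [hX]
    rw [pi_norm_lt_iff hXpos]
    intro p
    rw [pi_norm_lt_iff hXpos]
    intro q
    exact hpq p q
  exact lt_irrefl _ h5

section forms

variable {H : Type} [NormedAddCommGroup H] [InnerProductSpace ℝ H] {a b b' : H →L[ℝ] H →L[ℝ] ℝ}

/-- the value of the trial space with a combination of `n` eigenvectors -/
theorem trialn (hF : Fm a b) {e : ℕ → H} {E : ℕ → ℝ} (hE : Eg a b e E) (h1 : 0 < E 1)
    (hF' : Fm a b') {e' : ℕ → H} {E' : ℕ → ℝ} (hE' : Eg a b' e' E') (h0' : E' 0 = 0)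
    (h1' : 0 < E' 1) {k : H →L[ℝ] H →L[ℝ] ℝ}
    (hk : ∀ v, b v v + k v v ≤ b' v v) {ρ : ℝ} (hρ0 : 0 ≤ ρ)
    (hρ : ∀ v, (b' v (e' 0) - b v (e' 0)) ^ 2 ≤ ρ * b v v) (m : ℕ) {n : ℕ}
    (c : Fin n → ℝ) (hc : ∑ p, (c p) ^ 2 = 1) :
    (∑ l ∈ Finset.range (m + 1), (E (l + 1))⁻¹) - ((E (m + 1))⁻¹ - (E (m + n))⁻¹) -
      ρ * (∑ l ∈ Finset.range (m + 1), (E (l + 1))⁻¹) +
      (∑ l ∈ Finset.range m, k (e (l + 1)) (e (l + 1)) * (E (l + 1))⁻¹) +
      qf (fun p q : Fin n => k (e (m + 1 + p)) (e (m + 1 + q)) *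
        ((Real.sqrt (E (m + 1 + p)))⁻¹ * (Real.sqrt (E (m + 1 + q)))⁻¹)) c ≤
    ∑ l ∈ Finset.range (m + 1), (E' (l + 1))⁻¹ := by
  have hpos : ∀ l, 0 < E (l + 1) := fun l => h1.trans_le (hE.mono (by omega))
  obtain ⟨r, hr⟩ : ∃ r : ℕ → ℝ, r = fun l => (Real.sqrt (E l))⁻¹ := ⟨_, rfl⟩
  have hr2 : ∀ l, r (l + 1) * r (l + 1) = (E (l + 1))⁻¹ := by
    intro l
    rw [hr]
    simp only
    rw [← mul_inv, Real.mul_self_sqrt (hpos l).le]
  have hr3 : ∀ p : Fin n, r (m + 1 + p) * r (m + 1 + p) = (E (m + 1 + p))⁻¹ := by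
    intro p
    have : m + 1 + (p : ℕ) = (m + p) + 1 := by omega
    rw [this]
    exact hr2 _
  obtain ⟨w, hw⟩ : ∃ w : H, w = ∑ p : Fin n, (c p * r (m + 1 + p)) • e (m + 1 + p) := ⟨_, rfl⟩
  obtain ⟨v, hv⟩ : ∃ v : ℕ → H, v = fun l => if l = m then w else r (l + 1) • e (l + 1) := ⟨_, rfl⟩
  have hvm : v m = w := by simp [hv]
  have hvl : ∀ l, l < m → v l = r (l + 1) • e (l + 1) := fun l hl => by simp [hv, hl.ne]
  have hor : ∀ l n, n ≠ l → b (e l) (e n) = 0 := fun l n h => by
    rw [hE.orth, if_neg (Ne.symm h)]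
  have hoo : ∀ l, b (e l) (e l) = 1 := fun l => by rw [hE.orth, if_pos rfl]
  have lin : ∀ (q : H →L[ℝ] H →L[ℝ] ℝ) (x : H), q w x =
      ∑ p : Fin n, (c p * r (m + 1 + p)) * q (e (m + 1 + p)) x := by
    intro q x
    rw [hw, map_sum, _root_.sum_apply]
    exact Finset.sum_congr rfl fun p _ => by rw [map_smul, _root_.smul_apply, smul_eq_mul]
  have lin2 : ∀ (q : H →L[ℝ] H →L[ℝ] ℝ) (x : H), q x w =
      ∑ p : Fin n, (c p * r (m + 1 + p)) * q x (e (m + 1 + p)) := by
    intro q x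
    rw [hw, map_sum]
    exact Finset.sum_congr rfl fun p _ => by rw [map_smul, smul_eq_mul]
  have bew : ∀ q : Fin n, b (e (m + 1 + q)) w = c q * r (m + 1 + q) := by
    intro q
    rw [lin2, Finset.sum_eq_single q]
    · rw [hoo, mul_one]
    · intro p _ hp
      rw [hor _ _ (by
        intro h
        apply hp
        apply Fin.ext
        omega), mul_zero]
    · intro h
      exact absurd (Finset.mem_univ q) h
  have bww : b w w = ∑ p : Fin n, (c p) ^ 2 * (E (m + 1 + p))⁻¹ := by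
    rw [lin]
    refine Finset.sum_congr rfl fun p _ => ?_
    rw [bew, ← hr3 p]
    ring
  have aww : a w w = 1 := by
    rw [lin, ← hc]
    refine Finset.sum_congr rfl fun p _ => ?_
    rw [hE.eig, bew]
    have h3 := hr3 p
    have h4 : E (m + 1 + p) ≠ 0 := by
      have : m + 1 + (p : ℕ) = (m + p) + 1 := by omega
      rw [this]
      exact (hpos _).ne'
    have h5 : r (m + 1 + p) * r (m + 1 + p) * E (m + 1 + p) = 1 := by
      rw [h3, inv_mul_cancel₀ h4]
    linear_combination (c p) ^ 2 * h5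
  have alw : ∀ l, l < m → b (e (l + 1)) w = 0 := by
    intro l hl
    rw [lin2]
    refine Finset.sum_eq_zero fun p _ => ?_
    rw [hor _ _ (by omega), mul_zero]
  have hval : ∀ k < m + 1, ∀ l < m + 1, a (v k) (v l) = if k = l then 1 else 0 := by
    intro k hk l hl
    rcases Nat.lt_succ_iff_lt_or_eq.1 hk with hk' | rfl
    · rcases Nat.lt_succ_iff_lt_or_eq.1 hl with hl' | rfl
      · rw [hvl k hk', hvl l hl', map_smul, map_smul, _root_.smul_apply, hE.eig, hE.orth]
        by_cases hkl : k = l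
        · subst hkl
          simp only [if_true, smul_eq_mul, mul_one]
          have h3 := hr2 k
          have h4 := (hpos k).ne'
          calc r (k + 1) * (r (k + 1) * E (k + 1)) = (r (k + 1) * r (k + 1)) * E (k + 1) := by ring
            _ = 1 := by rw [h3, inv_mul_cancel₀ h4]
        · rw [if_neg (by omega), if_neg hkl]
          simp
      · rw [hvl k hk', hvm, if_neg hk'.ne, map_smul, _root_.smul_apply, hE.eig, alw k hk']
        simp
    · rcases Nat.lt_succ_iff_lt_or_eq.1 hl with hl' | rfl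
      · rw [hvl l hl', hvm, if_neg hl'.ne', hF.sa, map_smul, _root_.smul_apply, hE.eig, alw l hl']
        simp
      · rw [hvm, if_pos rfl, aww]
  have hky := ky_fan hF' hE' h1' hval
  refine le_trans ?_ hky
  have hz : ∀ l, b (e (l + 1)) (e' 0) = 0 := by
    intro l
    have h3 := hE.eig (l + 1) (e' 0)
    rw [hF.sa, hE'.eig, h0', zero_mul] at h3
    rcases mul_eq_zero.1 h3.symm with h | h
    · exact absurd h (hpos l).ne'
    · exact h
  have hz2 : ∀ l < m + 1, b (v l) (e' 0) = 0 := by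
    intro l hl
    rcases Nat.lt_succ_iff_lt_or_eq.1 hl with hl' | rfl
    · rw [hvl l hl', map_smul, _root_.smul_apply, hz, smul_zero]
    · rw [hvm, lin]
      refine Finset.sum_eq_zero fun p _ => ?_
      have : l + 1 + (p : ℕ) = (l + p) + 1 := by omega
      rw [this, hz, mul_zero]
  have hterm : ∀ l ∈ Finset.range (m + 1), (1 - ρ) * b (v l) (v l) + k (v l) (v l) ≤
      b' (v l) (v l) - (b' (v l) (e' 0)) ^ 2 := by
    intro l hl
    have h3 := hk (v l)
    have h4 := hρ (v l)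
    rw [hz2 l (Finset.mem_range.1 hl), sub_zero] at h4
    linarith
  refine le_trans ?_ (Finset.sum_le_sum hterm)
  rw [Finset.sum_add_distrib, ← Finset.mul_sum]
  have hb1 : ∑ l ∈ Finset.range (m + 1), b (v l) (v l) =
      (∑ l ∈ Finset.range m, (E (l + 1))⁻¹) + b w w := by
    rw [Finset.sum_range_succ, hvm]
    congr 1
    refine Finset.sum_congr rfl fun l hl => ?_
    rw [hvl l (Finset.mem_range.1 hl), map_smul, map_smul, _root_.smul_apply, hoo, smul_eq_mul,
      smul_eq_mul, mul_one, hr2]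
  have kww : k w w = qf (fun p q : Fin n => k (e (m + 1 + p)) (e (m + 1 + q)) *
      ((Real.sqrt (E (m + 1 + p)))⁻¹ * (Real.sqrt (E (m + 1 + q)))⁻¹)) c := by
    rw [lin]
    unfold qf
    refine Finset.sum_congr rfl fun p _ => ?_
    rw [lin2, Finset.mul_sum]
    refine Finset.sum_congr rfl fun q _ => ?_
    rw [hr]
    ring
  have hk1 : ∑ l ∈ Finset.range (m + 1), k (v l) (v l) =
      (∑ l ∈ Finset.range m, k (e (l + 1)) (e (l + 1)) * (E (l + 1))⁻¹) +
        qf (fun p q : Fin n => k (e (m + 1 + p)) (e (m + 1 + q)) *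
      ((Real.sqrt (E (m + 1 + p)))⁻¹ * (Real.sqrt (E (m + 1 + q)))⁻¹)) c := by
    rw [Finset.sum_range_succ, hvm, kww]
    congr 1
    refine Finset.sum_congr rfl fun l hl => ?_
    rw [hvl l (Finset.mem_range.1 hl), map_smul, map_smul, _root_.smul_apply, smul_eq_mul,
      smul_eq_mul, ← hr2]
    ring
  rw [hb1, hk1]
  have hT : ∑ l ∈ Finset.range (m + 1), (E (l + 1))⁻¹ =
      (∑ l ∈ Finset.range m, (E (l + 1))⁻¹) + (E (m + 1))⁻¹ := Finset.sum_range_succ _ _
  have hle1 : b w w ≤ (E (m + 1))⁻¹ := by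
    rw [bww]
    calc ∑ p : Fin n, (c p) ^ 2 * (E (m + 1 + p))⁻¹ ≤ ∑ p : Fin n, (c p) ^ 2 * (E (m + 1))⁻¹ :=
          Finset.sum_le_sum fun p _ => mul_le_mul_of_nonneg_left
            (inv_anti₀ (hpos m) (hE.mono (by omega))) (sq_nonneg _)
      _ = (E (m + 1))⁻¹ := by rw [← Finset.sum_mul, hc, one_mul]
  have hle2 : (E (m + n))⁻¹ ≤ b w w := by
    rw [bww]
    calc (E (m + n))⁻¹ = ∑ p : Fin n, (c p) ^ 2 * (E (m + n))⁻¹ := by
          rw [← Finset.sum_mul, hc, one_mul]
      _ ≤ ∑ p : Fin n, (c p) ^ 2 * (E (m + 1 + p))⁻¹ := by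
          refine Finset.sum_le_sum fun p _ => mul_le_mul_of_nonneg_left ?_ (sq_nonneg _)
          have h5 := p.2
          have h6 : m + 1 + (p : ℕ) = (m + p) + 1 := by omega
          refine inv_anti₀ ?_ (hE.mono (by omega))
          rw [h6]
          exact hpos _
  rw [hT]
  have h9 : ρ * b w w ≤ ρ * (E (m + 1))⁻¹ := mul_le_mul_of_nonneg_left hle1 hρ0
  nlinarith

end forms

variable {M : Type} [MetricSpace M] [CompactSpace M] [MeasurableSpace M] [BorelSpace M]
  {μ : Measure M} [IsFiniteMeasure μ] {H : Type} [NormedAddCommGroup H] [InnerProductSpace ℝ H]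
  {i : H →L[ℝ] Lp ℝ 2 μ} {a : H →L[ℝ] H →L[ℝ] ℝ} {b : C(M, ℝ) → H →L[ℝ] H →L[ℝ] ℝ}

/-- **a narrow cluster gives a cone** -/
theorem incn [CompleteSpace H] (hS : Sf μ i a) (hB : IsB μ i b) (h0 : ∀ φ, Ev a (b φ) 0 = 0)
    (h1 : ∀ φ, 0 < Ev a (b φ) 1) (m : ℕ) {n : ℕ} (hn : 0 < n) {ι : Type} [Fintype ι]
    (h : ι → C(M, ℝ)) {R H0 : ℝ}
    (hH : ∀ j, ‖h j‖ ≤ H0) (hH0 : 0 ≤ H0) {φ : C(M, ℝ)} {e : ℕ → H} {E : ℕ → ℝ}
    (hE : Eg a (b φ) e E) (hR : (E 1)⁻¹ ≤ R) {γ s : ℝ}
    (hs : (E (m + 1))⁻¹ - (E (m + n))⁻¹ ≤ s) {δ : ℝ} (hδ : Fintype.card ι * H0 * δ ≤ 1)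
    (hc : ∀ τ : ι → ℝ, γ * ‖τ‖ ≤ ‖∑ j, τ j • tl n (Km b n m (h j) φ e E)‖) :
    φ ∈ Cone (Tm a b m) h ((m + 1) * (H0 * R)) (γ / n)
      (12 * (Fintype.card ι * H0) ^ 2 * ((m + 1) * R)) δ s := by
  obtain ⟨hF, -, hexp, -⟩ := Pool.Agent.Q205.QLim.facts μ i a b hS hB
  have hn0 : (0 : ℝ) < n := by exact_mod_cast hn
  have hEv : ∀ l, Ev a (b φ) l = E l :=
    fun l => Pool.Agent.Y592.QE.mm H a (b φ) (hF φ) e E hE l
  have hE1 : 0 < E 1 := by rw [← hEv]; exact h1 φ
  have hpos : ∀ l, 0 < E (l + 1) := fun l => hE1.trans_le (hE.mono (by omega))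
  have hinv : ∀ l, (E (l + 1))⁻¹ ≤ R := fun l => (inv_anti₀ hE1 (hE.mono (by omega))).trans hR
  have hinv0 : ∀ l, 0 ≤ (E (l + 1))⁻¹ := fun l => (inv_pos.2 (hpos l)).le
  have hR0 : 0 ≤ R := (hinv0 0).trans (hinv 0)
  have hu : ∀ l, b φ (e l) (e l) = 1 := fun l => by rw [hE.orth, if_pos rfl]
  have hkb : ∀ j l n, |kf b (h j * ex φ) (e l) (e n)| ≤ H0 := fun j l n =>
    (kf_unit hS hB (h j) φ (hu l) (hu n)).trans (hH j)
  have hkq : ∀ j l, |kf b (h j * ex φ) (e (l + 1)) (e (l + 1)) * (E (l + 1))⁻¹| ≤ H0 * R := by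
    intro j l
    rw [abs_mul, abs_of_nonneg (hinv0 l)]
    exact mul_le_mul (hkb j _ _) (hinv l) (hinv0 l) hH0
  have hdiag : ∀ j (q : Fin n), |Km b n m (h j) φ e E q q| ≤ H0 * R := by
    intro j q
    have e1 : m + 1 + (q : ℕ) = (m + q) + 1 := by omega
    have h2 : Km b n m (h j) φ e E q q =
        kf b (h j * ex φ) (e (m + q + 1)) (e (m + q + 1)) * (E (m + q + 1))⁻¹ := by
      unfold Km
      rw [e1, ← mul_inv, Real.mul_self_sqrt (hpos _).le]
    rw [h2]
    exact hkq j _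
  obtain ⟨p, hp⟩ : ∃ p : ι → ℝ, p = fun j => (∑ l ∈ Finset.range m,
      kf b (h j * ex φ) (e (l + 1)) (e (l + 1)) * (E (l + 1))⁻¹) +
    (∑ r, Km b n m (h j) φ e E r r) / n := ⟨_, rfl⟩
  refine ⟨p, ?_, fun τ hτ => ?_⟩
  · rw [pi_norm_le_iff_of_nonneg (by positivity)]
    intro j
    rw [Real.norm_eq_abs, hp]
    simp only
    refine (abs_add_le _ _).trans ?_
    have k1 : |∑ l ∈ Finset.range m, kf b (h j * ex φ) (e (l + 1)) (e (l + 1)) * (E (l + 1))⁻¹| ≤
        m * (H0 * R) := by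
      refine (Finset.abs_sum_le_sum_abs _ _).trans ?_
      refine (Finset.sum_le_sum fun l _ => hkq j l).trans (le_of_eq ?_)
      rw [Finset.sum_const, Finset.card_range, nsmul_eq_mul]
    have k4 : |(∑ r, Km b n m (h j) φ e E r r) / n| ≤ H0 * R := by
      rw [abs_div, abs_of_pos hn0, div_le_iff₀ hn0]
      refine (Finset.abs_sum_le_sum_abs _ _).trans ?_
      refine (Finset.sum_le_sum fun q _ => hdiag j q).trans (le_of_eq ?_)
      rw [Finset.sum_const, Finset.card_univ, Fintype.card_fin, nsmul_eq_mul]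
      ring
    linarith
  · obtain ⟨g, hg⟩ : ∃ g : C(M, ℝ), g = ∑ j, τ j • h j := ⟨_, rfl⟩
    have hmv : mv h φ τ = φ + g := by rw [hg]; rfl
    have hgn : ‖g‖ ≤ Fintype.card ι * H0 * ‖τ‖ := by
      rw [hg]
      refine (norm_sum_le _ _).trans ?_
      calc ∑ j, ‖τ j • h j‖ ≤ ∑ _j : ι, ‖τ‖ * H0 := by
            refine Finset.sum_le_sum fun j _ => ?_
            rw [norm_smul]
            exact mul_le_mul (norm_le_pi_norm τ j) (hH j) (norm_nonneg _) (norm_nonneg _)
        _ = _ := by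
            rw [Finset.sum_const, Finset.card_univ, nsmul_eq_mul]
            ring
    have hg1 : ‖g‖ ≤ 1 := by
      refine hgn.trans (le_trans ?_ hδ)
      exact mul_le_mul_of_nonneg_left hτ (by positivity)
    obtain ⟨e', E', hE'⟩ := tSp H a (b (φ + g)) (hF _)
    have hEv' : ∀ l, Ev a (b (φ + g)) l = E' l :=
      fun l => Pool.Agent.Y592.QE.mm H a (b (φ + g)) (hF _) e' E' hE' l
    have hu' : b (φ + g) (e' 0) (e' 0) = 1 := by rw [hE'.orth, if_pos rfl]
    have hks : ∀ u w : H, kf b (g * ex φ) u w = ∑ j, τ j * kf b (h j * ex φ) u w := by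
      intro u w
      rw [hg]
      exact kf_sum hB h τ φ u w
    -- the masses of the cluster
    obtain ⟨K, hK⟩ : ∃ K : Fin n → Fin n → ℝ, K = Km b n m g φ e E := ⟨_, rfl⟩
    have hKs : K = ∑ j, τ j • Km b n m (h j) φ e E := by
      rw [hK]
      funext r q
      rw [Finset.sum_apply, Finset.sum_apply]
      simp only [Pi.smul_apply, smul_eq_mul]
      unfold Km
      rw [hks, Finset.sum_mul]
      exact Finset.sum_congr rfl fun j _ => by ring
    have hKsym : ∀ r q, K r q = K q r := by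
      intro r q
      rw [hK]
      unfold Km
      rw [kf_symm hB _ (e (m + 1 + r)) (e (m + 1 + q))]
      ring
    have htlK : tl n K = ∑ j, τ j • tl n (Km b n m (h j) φ e E) := by
      rw [hKs, map_sum]
      exact Finset.sum_congr rfl fun j _ => map_smul _ _ _
    obtain ⟨c, hc1, hc2⟩ := optn hn (tl n K) (by
      intro r q
      rw [tl_apply, tl_apply, hKsym]
      by_cases hrq : r = q
      · rw [if_pos hrq, if_pos hrq.symm]
      · rw [if_neg hrq, if_neg (Ne.symm hrq)]) (by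
      simp only [tl_apply, if_true]
      rw [Finset.sum_sub_distrib, Finset.sum_const, Finset.card_univ, Fintype.card_fin,
        nsmul_eq_mul, mul_div_cancel₀ _ hn0.ne', sub_self])
    have hqt : qf (tl n K) c = qf K c - (∑ r, K r r) / n := by
      have e1 : ∀ r q, c r * c q * tl n K r q = c r * c q * K r q -
          if r = q then (c r) ^ 2 * ((∑ r, K r r) / n) else 0 := by
        intro r q
        rw [tl_apply]
        by_cases hrq : r = q
        · subst hrq
          rw [if_pos rfl, if_pos rfl]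
          ring
        · rw [if_neg hrq, if_neg hrq]
          ring
      unfold qf
      rw [Finset.sum_congr rfl fun r _ => Finset.sum_congr rfl fun q _ => e1 r q]
      simp only [Finset.sum_sub_distrib, Finset.sum_ite_eq, Finset.mem_univ, if_true]
      rw [← Finset.sum_mul, hc1, one_mul]
    have key := trialn (hF φ) hE hE1 (hF (φ + g)) hE' (by rw [← hEv']; exact h0 _)
      (by rw [← hEv']; exact h1 _) (k := kf b (g * ex φ)) (kf_low hS hB g φ)
      (by positivity : 0 ≤ 12 * ‖g‖ ^ 2) (b_diff hS hB g φ hg1 hu') m c hc1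
    have hT : Tm a b m φ = ∑ l ∈ Finset.range (m + 1), (E (l + 1))⁻¹ :=
      Finset.sum_congr rfl fun l _ => by rw [hEv]
    have hT' : Tm a b m (φ + g) = ∑ l ∈ Finset.range (m + 1), (E' (l + 1))⁻¹ :=
      Finset.sum_congr rfl fun l _ => by rw [hEv']
    rw [hmv, hT, hT']
    refine le_trans ?_ key
    have r1 : 12 * ‖g‖ ^ 2 * (∑ l ∈ Finset.range (m + 1), (E (l + 1))⁻¹) ≤
        12 * (Fintype.card ι * H0) ^ 2 * ((m + 1) * R) * ‖τ‖ ^ 2 := by
      have r2 : ∑ l ∈ Finset.range (m + 1), (E (l + 1))⁻¹ ≤ (m + 1) * R := by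
        refine (Finset.sum_le_sum fun l _ => hinv l).trans (le_of_eq ?_)
        rw [Finset.sum_const, Finset.card_range, nsmul_eq_mul]
        push_cast
        ring
      have r3 : ‖g‖ ^ 2 ≤ (Fintype.card ι * H0 * ‖τ‖) ^ 2 :=
        pow_le_pow_left₀ (norm_nonneg _) hgn 2
      calc 12 * ‖g‖ ^ 2 * (∑ l ∈ Finset.range (m + 1), (E (l + 1))⁻¹) ≤
          12 * (Fintype.card ι * H0 * ‖τ‖) ^ 2 * ((m + 1) * R) :=
            mul_le_mul (mul_le_mul_of_nonneg_left r3 (by norm_num)) r2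
              (Finset.sum_nonneg fun l _ => hinv0 l) (by positivity)
        _ = _ := by ring
    have r4 : ∑ j, p j * τ j = (∑ l ∈ Finset.range m,
        kf b (g * ex φ) (e (l + 1)) (e (l + 1)) * (E (l + 1))⁻¹) + (∑ r, K r r) / n := by
      have r5 : ∑ l ∈ Finset.range m, kf b (g * ex φ) (e (l + 1)) (e (l + 1)) * (E (l + 1))⁻¹ =
          ∑ j, τ j * ∑ l ∈ Finset.range m,
            kf b (h j * ex φ) (e (l + 1)) (e (l + 1)) * (E (l + 1))⁻¹ := by
        simp only [hks, Finset.sum_mul, Finset.mul_sum]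
        rw [Finset.sum_comm]
        refine Finset.sum_congr rfl fun j _ => Finset.sum_congr rfl fun l _ => ?_
        ring
      have r6 : (∑ r, K r r) / n = ∑ j, τ j * ((∑ r, Km b n m (h j) φ e E r r) / n) := by
        rw [hKs]
        simp only [Finset.sum_apply, Pi.smul_apply, smul_eq_mul]
        rw [Finset.sum_comm, Finset.sum_div]
        refine Finset.sum_congr rfl fun j _ => ?_
        rw [← Finset.mul_sum]
        ring
      rw [r5, r6, ← Finset.sum_add_distrib]
      refine Finset.sum_congr rfl fun j _ => ?_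
      rw [hp]
      ring
    have r8 := hc τ
    rw [← htlK] at r8
    have r9 : γ / n * ‖τ‖ ≤ qf (tl n K) c := by
      rw [div_mul_eq_mul_div, div_le_iff₀ hn0]
      linarith
    have r10 : qf (fun p q : Fin n => kf b (g * ex φ) (e (m + 1 + p)) (e (m + 1 + q)) *
        ((Real.sqrt (E (m + 1 + p)))⁻¹ * (Real.sqrt (E (m + 1 + q)))⁻¹)) c = qf K c := by
      rw [hK]
      rfl
    rw [r10, r4]
    linarith

end Pool.Agent.H992.LR
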