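import Pool.Agent.H992.LR.Nd

/-!
# Level repulsion: the local estimate and compact sets
-/

set_option autoImplicit false

open Set Filter Topology MeasureTheory
open Pool.Agent.Y262.QE Pool.Agent.Y264.QR
open Pool.Agent.Q233.GLV (kf kf_apply kf_lin kf_int kf_symm ex kf_ex)
open Pool.Agent.Q205.Baire (unf)

noncomputable section

namespace Pool.Agent.H992.LR

/-! ### local estimates and compact sets -/

section cpt

variable {X : Type} [TopologicalSpace X] [MeasurableSpace X]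

/-- local estimates give estimates on compact sets -/
lemma compact_bound (P : Measure X) {K : Set X} (hK : IsCompact K) (G : ℝ → Set X) (n : ℕ)
    (h : ∀ x ∈ K, ∃ U ∈ 𝓝 x, ∃ C : ℝ, 0 ≤ C ∧ ∀ s : ℝ, 0 ≤ s →
      P (U ∩ G s) ≤ ENNReal.ofReal (C * s ^ n)) :
    ∃ C : ℝ, 0 ≤ C ∧ ∀ s : ℝ, 0 ≤ s → P (K ∩ G s) ≤ ENNReal.ofReal (C * s ^ n) := by
  refine hK.induction_on (p := fun A => ∃ C : ℝ, 0 ≤ C ∧ ∀ s : ℝ, 0 ≤ s →
    P (A ∩ G s) ≤ ENNReal.ofReal (C * s ^ n)) ?_ ?_ ?_ ?_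
  · exact ⟨0, le_rfl, fun s _ => by simp⟩
  · rintro A B hAB ⟨C, hC, hB⟩
    exact ⟨C, hC, fun s hs => (measure_mono (inter_subset_inter_left _ hAB)).trans (hB s hs)⟩
  · rintro A B ⟨C, hC, hA⟩ ⟨C', hC', hB⟩
    refine ⟨C + C', by positivity, fun s hs => ?_⟩
    rw [union_inter_distrib_right, add_mul, ENNReal.ofReal_add (by positivity) (by positivity)]
    exact (measure_union_le _ _).trans (add_le_add (hA s hs) (hB s hs))
  · intro x hx
    obtain ⟨U, hU, h1⟩ := h x hx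
    exact ⟨U, mem_nhdsWithin_of_mem_nhds hU, h1⟩

/-- the trivial case of the local estimate -/
lemma local_pos (P : Measure X) [IsFiniteMeasure P] {F : X → ℝ} (hF : Continuous F) {x : X}
    (hx : 0 < F x) (n : ℕ) : ∃ U ∈ 𝓝 x, ∃ C : ℝ, 0 ≤ C ∧ ∀ s : ℝ, 0 ≤ s →
      P (U ∩ {y | F y ≤ s}) ≤ ENNReal.ofReal (C * s ^ n) := by
  obtain ⟨γ, hγ⟩ : ∃ γ, γ = F x / 2 := ⟨_, rfl⟩
  have hγ0 : 0 < γ := by rw [hγ]; positivity
  refine ⟨{y | γ < F y}, (isOpen_lt continuous_const hF).mem_nhds (by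
    show γ < F x
    rw [hγ]; linarith), P.real univ / γ ^ n, by positivity, fun s hs => ?_⟩
  by_cases h : s ≤ γ
  · have h1 : {y | γ < F y} ∩ {y | F y ≤ s} = ∅ := by
      ext y
      refine iff_of_false (fun hy => ?_) (notMem_empty y)
      have h2 : γ < F y := hy.1
      have h3 : F y ≤ s := hy.2
      linarith
    rw [h1, measure_empty]
    exact zero_le
  · push Not at h
    refine (measure_mono (subset_univ _)).trans ?_
    have h1 : P univ = ENNReal.ofReal (P.real univ) := by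
      rw [Measure.real, ENNReal.ofReal_toReal (measure_ne_top P univ)]
    rw [h1]
    refine ENNReal.ofReal_le_ofReal ?_
    have h2 : γ ^ n ≤ s ^ n := pow_le_pow_left₀ hγ0.le h.le n
    have h3 : 0 < γ ^ n := by positivity
    calc P.real univ = P.real univ / γ ^ n * γ ^ n := by field_simp
      _ ≤ P.real univ / γ ^ n * s ^ n := mul_le_mul_of_nonneg_left h2 (by positivity)

end cpt

variable {M : Type} [MetricSpace M] [CompactSpace M] [MeasurableSpace M] [BorelSpace M]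
  {μ : Measure M} [IsFiniteMeasure μ] {H : Type} [NormedAddCommGroup H] [InnerProductSpace ℝ H]
  {i : H →L[ℝ] Lp ℝ 2 μ} {a : H →L[ℝ] H →L[ℝ] ℝ} {b : C(M, ℝ) → H →L[ℝ] H →L[ℝ] ℝ}

/-- the lower bound for the matrix of the two directions -/
lemma mat_low {α₀ α₁ β₀ β₁ B d : ℝ} (hB : 0 < B) (h1 : |α₀| ≤ B) (h2 : |α₁| ≤ B) (h3 : |β₀| ≤ B)
    (h4 : |β₁| ≤ B) (hd0 : 0 < d) (hd : d ≤ |α₀ * β₁ - α₁ * β₀|) (τ : Fin 2 → ℝ) :
    d / (2 * B) * ‖τ‖ ≤ Real.sqrt ((τ 0 * α₀ + τ 1 * α₁) ^ 2 + (τ 0 * β₀ + τ 1 * β₁) ^ 2) := by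
  obtain ⟨x, hx⟩ : ∃ x, x = τ 0 * α₀ + τ 1 * α₁ := ⟨_, rfl⟩
  obtain ⟨y, hy⟩ : ∃ y, y = τ 0 * β₀ + τ 1 * β₁ := ⟨_, rfl⟩
  obtain ⟨r, hr⟩ : ∃ r, r = Real.sqrt (x ^ 2 + y ^ 2) := ⟨_, rfl⟩
  rw [← hx, ← hy, ← hr]
  have hr0 : 0 ≤ r := by rw [hr]; exact Real.sqrt_nonneg _
  have hxr : |x| ≤ r := by
    rw [hr]
    exact Real.abs_le_sqrt (by nlinarith [sq_nonneg y])
  have hyr : |y| ≤ r := by
    rw [hr]
    exact Real.abs_le_sqrt (by nlinarith [sq_nonneg x])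
  have e0 : τ 0 * (α₀ * β₁ - α₁ * β₀) = x * β₁ - y * α₁ := by rw [hx, hy]; ring
  have e1 : τ 1 * (α₀ * β₁ - α₁ * β₀) = y * α₀ - x * β₀ := by rw [hx, hy]; ring
  have k0 : |τ 0| * d ≤ 2 * B * r := by
    calc |τ 0| * d ≤ |τ 0| * |α₀ * β₁ - α₁ * β₀| := mul_le_mul_of_nonneg_left hd (abs_nonneg _)
      _ = |x * β₁ - y * α₁| := by rw [← abs_mul, e0]
      _ ≤ |x| * |β₁| + |y| * |α₁| := by
          rw [← abs_mul, ← abs_mul]; exact abs_sub _ _
      _ ≤ r * B + r * B := by gcongr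
      _ = _ := by ring
  have k1 : |τ 1| * d ≤ 2 * B * r := by
    calc |τ 1| * d ≤ |τ 1| * |α₀ * β₁ - α₁ * β₀| := mul_le_mul_of_nonneg_left hd (abs_nonneg _)
      _ = |y * α₀ - x * β₀| := by rw [← abs_mul, e1]
      _ ≤ |y| * |α₀| + |x| * |β₀| := by
          rw [← abs_mul, ← abs_mul]; exact abs_sub _ _
      _ ≤ r * B + r * B := by gcongr
      _ = _ := by ring
  have k2 : ‖τ‖ ≤ 2 * B * r / d := by
    rw [pi_norm_le_iff_of_nonneg (by positivity)]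
    intro j
    rw [Real.norm_eq_abs, le_div_iff₀ hd0]
    fin_cases j
    · exact k0
    · exact k1
  calc d / (2 * B) * ‖τ‖ ≤ d / (2 * B) * (2 * B * r / d) :=
        mul_le_mul_of_nonneg_left k2 (by positivity)
    _ = r := by field_simp

lemma tm_cont (hS : Sf μ i a) (hB : IsB μ i b) (h1 : ∀ φ, 0 < Ev a (b φ) 1) (m : ℕ) :
    Continuous (Tm a b m) := by
  obtain ⟨hF, -, hexp, -⟩ := Pool.Agent.Q205.QLim.facts μ i a b hS hB
  obtain ⟨-, hmon, -, hEc, -⟩ := tLip M μ H a b hF hexp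
  refine continuous_finsetSum _ fun l _ => (hEc (l + 1)).inv₀ fun φ => ?_
  exact ((h1 φ).trans_le (hmon φ 1 (l + 1) (by omega))).ne'

/-- **the local estimate near a double eigenvalue** -/
theorem local_zero [CompleteSpace H] (hS : Sf μ i a) (hB : IsB μ i b)
    (h0 : ∀ φ, Ev a (b φ) 0 = 0) (h1 : ∀ φ, 0 < Ev a (b φ) 1) (hpz : PZ μ i a b)
    [MeasurableSpace C(M, ℝ)] [BorelSpace C(M, ℝ)] (P : Measure C(M, ℝ)) [IsFiniteMeasure P]
    (g : ℕ → C(M, ℝ)) (hg : Dense (Submodule.span ℝ (range g) : Set C(M, ℝ)))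
    (hP : ∀ p q, g p ≠ g q → BoundedAlong P ![g p, g q]) (φ₀ : C(M, ℝ)) (m : ℕ)
    (heq : Ev a (b φ₀) (m + 2) = Ev a (b φ₀) (m + 1)) :
    ∃ U ∈ 𝓝 φ₀, ∃ C : ℝ, 0 ≤ C ∧ ∀ s : ℝ, 0 ≤ s →
      P (U ∩ {φ | unf μ a b (m + 2) φ - unf μ a b (m + 1) φ ≤ s}) ≤ ENNReal.ofReal (C * s ^ 2) := by
  obtain ⟨hF, hA, hexp, -⟩ := Pool.Agent.Q205.QLim.facts μ i a b hS hB
  obtain ⟨-, hmon, -, hEc, -⟩ := tLip M μ H a b hF hexp
  have hpos : ∀ φ l, 0 < Ev a (b φ) (l + 1) := fun φ l =>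
    (h1 φ).trans_le (hmon φ 1 (l + 1) (by omega))
  obtain ⟨N, d, hd, hnd⟩ := nd hS hB hpz g hg φ₀ m (hpos φ₀ m) heq
  -- the constants
  obtain ⟨H0, hH0⟩ : ∃ H0 : ℝ, H0 = ∑ p ∈ Finset.range N, ‖g p‖ := ⟨_, rfl⟩
  have hH00 : 0 ≤ H0 := by rw [hH0]; exact Finset.sum_nonneg fun _ _ => norm_nonneg _
  have hgH : ∀ p < N, ‖g p‖ ≤ H0 := by
    intro p hp
    rw [hH0]
    exact Finset.single_le_sum (f := fun p => ‖g p‖) (fun _ _ => norm_nonneg _)
      (Finset.mem_range.2 hp)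
  obtain ⟨R, hR⟩ : ∃ R : ℝ, R = (Ev a (b φ₀) 1)⁻¹ + 1 := ⟨_, rfl⟩
  have hR0 : 0 < R := by rw [hR]; have := inv_pos.2 (h1 φ₀); linarith
  have hRU : ∀ᶠ φ in 𝓝 φ₀, (Ev a (b φ) 1)⁻¹ ≤ R := by
    have h2 : Continuous fun φ => (Ev a (b φ) 1)⁻¹ := (hEc 1).inv₀ fun φ => (h1 φ).ne'
    have h3 := (h2.tendsto φ₀).eventually_lt_const (show (Ev a (b φ₀) 1)⁻¹ < R by rw [hR]; linarith)
    filter_upwards [h3] with φ hφ using hφ.le
  -- the factor between the gaps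
  obtain ⟨W, hW⟩ : ∃ W : C(M, ℝ) → ℝ, W = fun φ => 4 * Real.pi / ((∫ x, Real.exp (φ x) ∂μ) *
    (Ev a (b φ) (m + 1) * Ev a (b φ) (m + 2))) := ⟨_, rfl⟩
  have hWpos : ∀ φ, 0 < W φ := by
    intro φ
    rw [hW]
    have := hA φ
    have := hpos φ m
    have := hpos φ (m + 1)
    positivity
  have hWc : Continuous W := by
    rw [hW]
    refine continuous_const.div ((Pool.Agent.Q205.Baire.cont_int μ).mul
      ((hEc (m + 1)).mul (hEc (m + 2)))) fun φ => ?_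
    have := hA φ
    have := hpos φ m
    have := hpos φ (m + 1)
    positivity
  obtain ⟨w, hw⟩ : ∃ w : ℝ, w = W φ₀ + 1 := ⟨_, rfl⟩
  have hw0 : 0 < w := by rw [hw]; have := hWpos φ₀; linarith
  have hWU : ∀ᶠ φ in 𝓝 φ₀, W φ ≤ w := by
    have h3 := (hWc.tendsto φ₀).eventually_lt_const (show W φ₀ < w by rw [hw]; linarith)
    filter_upwards [h3] with φ hφ using hφ.le
  -- the cones
  obtain ⟨B, hBd⟩ : ∃ B : ℝ, B = H0 * R + 1 := ⟨_, rfl⟩
  have hB0 : 0 < B := by rw [hBd]; positivity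
  obtain ⟨δ, hδ⟩ : ∃ δ : ℝ, δ = 1 / (2 * H0 + 1) := ⟨_, rfl⟩
  have hδ0 : 0 < δ := by rw [hδ]; positivity
  obtain ⟨Co, hCo⟩ : ∃ Co : ℕ → ℕ → ℝ → Set C(M, ℝ), Co = fun p q s =>
    Cone (Tm a b m) ![g p, g q] ((m + 1) * (H0 * R)) (d / (2 * B))
      (12 * (Fintype.card (Fin 2) * H0) ^ 2 * ((m + 1) * R)) δ s := ⟨_, rfl⟩
  have hmeas : ∀ p q, ∃ K : ℝ, 0 ≤ K ∧ (g p ≠ g q → ∀ s : ℝ, 0 ≤ s →
      P (Co p q s) ≤ ENNReal.ofReal (K * s ^ 2)) := by
    intro p q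
    by_cases hpq : g p = g q
    · exact ⟨0, le_rfl, fun h => absurd hpq h⟩
    · obtain ⟨K, hK, h2⟩ := cone_measure (hP p q hpq) (L := (m + 1) * (H0 * R))
        (c := d / (2 * B)) (C := 12 * (Fintype.card (Fin 2) * H0) ^ 2 * ((m + 1) * R)) (δ := δ)
        (by positivity) (by positivity) hδ0 (tm_cont hS hB h1 m)
      refine ⟨K, hK, fun _ s hs => ?_⟩
      have h3 := h2 s hs
      rw [Fintype.card_fin] at h3
      rw [hCo]
      exact h3
  choose Kc hKc0 hKc using hmeas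
  refine ⟨_, hnd.and (hRU.and hWU), w ^ 2 * ∑ p ∈ Finset.range N, ∑ q ∈ Finset.range N, Kc p q,
    mul_nonneg (sq_nonneg _) (Finset.sum_nonneg fun _ _ => Finset.sum_nonneg fun _ _ => hKc0 _ _),
    fun s hs => ?_⟩
  classical
  have hsub : ({φ | ((∀ (e : ℕ → H) (E : ℕ → ℝ), Eg a (b φ) e E →
      ∃ p < N, ∃ q < N, d ≤ |al b m (g p) φ e E * be b m (g q) φ e E -
        al b m (g q) φ e E * be b m (g p) φ e E|) ∧ (Ev a (b φ) 1)⁻¹ ≤ R ∧ W φ ≤ w)} ∩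
      {φ | unf μ a b (m + 2) φ - unf μ a b (m + 1) φ ≤ s}) ⊆
      ⋃ p ∈ Finset.range N, ⋃ q ∈ (Finset.range N).filter (fun q => g p ≠ g q), Co p q (w * s) := by
    rintro φ ⟨⟨hφ1, hφ2, hφ3⟩, hφ4⟩
    obtain ⟨e, E, hE⟩ := tSp H a (b φ) (hF φ)
    have hEv : ∀ l, Ev a (b φ) l = E l :=
      fun l => Pool.Agent.Y592.QE.mm H a (b φ) (hF φ) e E hE l
    obtain ⟨p, hp, q, hq, hdet⟩ := hφ1 e E hE
    have hpq : g p ≠ g q := by
      intro h
      rw [h, sub_self, abs_zero] at hdet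
      linarith
    refine mem_iUnion₂.2 ⟨p, Finset.mem_range.2 hp, mem_iUnion₂.2 ⟨q, Finset.mem_filter.2
      ⟨Finset.mem_range.2 hq, hpq⟩, ?_⟩⟩
    rw [hCo]
    have hE1 : 0 < E 1 := by rw [← hEv]; exact h1 φ
    have hEp : ∀ l, 0 < E (l + 1) := fun l => by rw [← hEv]; exact hpos φ l
    have hRE : (E 1)⁻¹ ≤ R := by rw [← hEv]; exact hφ2
    have hinv : ∀ l, (E (l + 1))⁻¹ ≤ R := fun l =>
      (inv_anti₀ hE1 (hE.mono (by omega))).trans hRE
    have hu : ∀ l, b φ (e l) (e l) = 1 := fun l => by rw [hE.orth, if_pos rfl]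
    have hkb : ∀ r < N, ∀ l n, |kf b (g r * ex φ) (e l) (e n)| ≤ H0 := fun r hr l n =>
      (kf_unit hS hB (g r) φ (hu l) (hu n)).trans (hgH r hr)
    have hala : ∀ r < N, |al b m (g r) φ e E| ≤ B := by
      intro r hr
      have k1 : ∀ l, |kf b (g r * ex φ) (e (l + 1)) (e (l + 1)) * (E (l + 1))⁻¹| ≤ H0 * R := by
        intro l
        rw [abs_mul, abs_of_pos (inv_pos.2 (hEp l))]
        exact mul_le_mul (hkb r hr _ _) (hinv l) (inv_pos.2 (hEp l)).le hH00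
      have k2 := abs_le.1 (k1 m)
      have k3 := abs_le.1 (k1 (m + 1))
      unfold al
      rw [abs_le, hBd]
      constructor <;> linarith [k2.1, k2.2, k3.1, k3.2]
    have hbea : ∀ r < N, |be b m (g r) φ e E| ≤ B := by
      intro r hr
      unfold be
      have k1 : |(Real.sqrt (E (m + 1)))⁻¹ * (Real.sqrt (E (m + 2)))⁻¹| ≤ R := by
        have k2 : (Real.sqrt (E (m + 1)))⁻¹ ≤ Real.sqrt R := by
          rw [← Real.sqrt_inv]
          exact Real.sqrt_le_sqrt (hinv m)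
        have k3 : (Real.sqrt (E (m + 2)))⁻¹ ≤ Real.sqrt R := by
          rw [← Real.sqrt_inv]
          exact Real.sqrt_le_sqrt (hinv (m + 1))
        rw [abs_of_nonneg (by positivity)]
        calc (Real.sqrt (E (m + 1)))⁻¹ * (Real.sqrt (E (m + 2)))⁻¹ ≤ Real.sqrt R * Real.sqrt R :=
              mul_le_mul k2 k3 (by positivity) (Real.sqrt_nonneg _)
          _ = R := Real.mul_self_sqrt hR0.le
      rw [abs_mul, hBd]
      have := mul_le_mul (hkb r hr (m + 1) (m + 2)) k1 (abs_nonneg _) hH00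
      linarith
    refine inc hS hB h0 h1 m ![g p, g q] (H0 := H0) ?_ hH00 hE hRE ?_ ?_ ?_
    · intro j
      fin_cases j
      · exact hgH p hp
      · exact hgH q hq
    · -- the gap
      have g1 : W φ * (unf μ a b (m + 2) φ - unf μ a b (m + 1) φ) = (E (m + 1))⁻¹ - (E (m + 2))⁻¹ := by
        unfold unf
        rw [hW]
        simp only [hEv]
        have a1 := (hA φ).ne'
        have a2 := (hEp m).ne'
        have a3 := (hEp (m + 1)).ne'
        have a4 := Real.pi_ne_zero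
        field_simp
      rw [← g1]
      have g2 : 0 ≤ unf μ a b (m + 2) φ - unf μ a b (m + 1) φ := by
        unfold unf
        rw [← mul_sub, hEv, hEv]
        refine mul_nonneg (div_nonneg (hA φ).le (by positivity)) ?_
        linarith [hE.mono (show m + 1 ≤ m + 2 by omega)]
      exact mul_le_mul hφ3 hφ4 g2 hw0.le
    · rw [hδ, Fintype.card_fin]
      push_cast
      rw [mul_one_div, div_le_one (by positivity)]
      linarith
    · intro τ
      have k1 := mat_low hB0 (hala p hp) (hala q hq) (hbea p hp) (hbea q hq) hd hdet τ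
      simp only [Fin.sum_univ_two, Matrix.cons_val_zero, Matrix.cons_val_one]
      exact k1
  refine (measure_mono hsub).trans ?_
  refine (measure_biUnion_finset_le _ _).trans ?_
  have hws : 0 ≤ w * s := by positivity
  have hone : ∀ p ∈ Finset.range N, P (⋃ q ∈ (Finset.range N).filter (fun q => g p ≠ g q),
      Co p q (w * s)) ≤ ENNReal.ofReal (∑ q ∈ Finset.range N, Kc p q * (w * s) ^ 2) := by
    intro p _
    refine (measure_biUnion_finset_le _ _).trans ?_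
    have h2 : ∑ q ∈ (Finset.range N).filter (fun q => g p ≠ g q), P (Co p q (w * s)) ≤
        ∑ q ∈ (Finset.range N).filter (fun q => g p ≠ g q), ENNReal.ofReal (Kc p q * (w * s) ^ 2) :=
      Finset.sum_le_sum fun q hq => hKc p q (Finset.mem_filter.1 hq).2 (w * s) hws
    refine h2.trans ?_
    rw [ENNReal.ofReal_sum_of_nonneg fun q _ => mul_nonneg (hKc0 p q) (sq_nonneg _)]
    exact Finset.sum_le_sum_of_subset (Finset.filter_subset _ _)
  refine (Finset.sum_le_sum hone).trans ?_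
  rw [← ENNReal.ofReal_sum_of_nonneg fun p _ => Finset.sum_nonneg fun q _ =>
    mul_nonneg (hKc0 p q) (sq_nonneg _)]
  refine ENNReal.ofReal_le_ofReal (le_of_eq ?_)
  simp only [← Finset.sum_mul]
  ring

/-- **the estimate of the gaps on compact sets** -/
theorem gap_bound [CompleteSpace H] (hS : Sf μ i a) (hB : IsB μ i b)
    (h0 : ∀ φ, Ev a (b φ) 0 = 0) (h1 : ∀ φ, 0 < Ev a (b φ) 1) (hpz : PZ μ i a b)
    [MeasurableSpace C(M, ℝ)] [BorelSpace C(M, ℝ)] (P : Measure C(M, ℝ)) [IsFiniteMeasure P]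
    (g : ℕ → C(M, ℝ)) (hg : Dense (Submodule.span ℝ (range g) : Set C(M, ℝ)))
    (hP : ∀ p q, g p ≠ g q → BoundedAlong P ![g p, g q]) {K : Set C(M, ℝ)} (hK : IsCompact K)
    (j : ℕ) : ∃ C : ℝ, 0 ≤ C ∧ ∀ s : ℝ, 0 ≤ s →
      P (K ∩ {φ | unf μ a b (j + 1) φ - unf μ a b j φ ≤ s}) ≤ ENNReal.ofReal (C * s ^ 2) := by
  obtain ⟨hF, hA, hexp, -⟩ := Pool.Agent.Q205.QLim.facts μ i a b hS hB
  obtain ⟨-, hmon, -, hEc, -⟩ := tLip M μ H a b hF hexp
  have hcont : Continuous fun φ => unf μ a b (j + 1) φ - unf μ a b j φ :=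
    (Pool.Agent.K7.H58.RM.unf_cont μ i a b hS hB _).sub
      (Pool.Agent.K7.H58.RM.unf_cont μ i a b hS hB _)
  have hfac : ∀ φ : C(M, ℝ), 0 < (∫ x, Real.exp (φ x) ∂μ) / (4 * Real.pi) := fun φ =>
    div_pos (hA φ) (by positivity)
  refine compact_bound P hK (fun s => {φ | unf μ a b (j + 1) φ - unf μ a b j φ ≤ s}) 2 ?_
  intro φ₀ _
  rcases (hmon φ₀ j (j + 1) (Nat.le_succ j)).lt_or_eq with h | h
  · refine local_pos P hcont ?_ 2
    unfold unf
    rw [← mul_sub]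
    exact mul_pos (hfac φ₀) (by linarith)
  · cases j with
    | zero =>
      rw [h0] at h
      exact absurd h.symm (h1 φ₀).ne'
    | succ m => exact local_zero hS hB h0 h1 hpz P g hg hP φ₀ m h.symm

end Pool.Agent.H992.LR
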