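import Pool.Agent.H992.LR.Cl3
import Pool.Agent.H992.LR.Loc

/-!
# Clusters of levels: the local estimate and compact sets
-/

set_option autoImplicit false
set_option linter.unusedSectionVars false

open Set Filter Topology MeasureTheory
open Pool.Agent.Y262.QE Pool.Agent.Y264.QR
open Pool.Agent.Q233.GLV (kf kf_apply kf_lin kf_int kf_symm ex kf_ex)
open Pool.Agent.Q205.Baire (unf)

noncomputable section

namespace Pool.Agent.H992.LR

variable {M : Type} [MetricSpace M] [CompactSpace M] [MeasurableSpace M] [BorelSpace M]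
  {μ : Measure M} [IsFiniteMeasure μ] {H : Type} [NormedAddCommGroup H] [InnerProductSpace ℝ H]
  {i : H →L[ℝ] Lp ℝ 2 μ} {a : H →L[ℝ] H →L[ℝ] ℝ} {b : C(M, ℝ) → H →L[ℝ] H →L[ℝ] ℝ}

/-- **the local estimate near a multiple eigenvalue** -/
theorem local_cl [CompleteSpace H] (hS : Sf μ i a) (hB : IsB μ i b)
    (h0 : ∀ φ, Ev a (b φ) 0 = 0) (h1 : ∀ φ, 0 < Ev a (b φ) 1) {n d : ℕ} (hn : 0 < n)
    (hrk : Rk a b n d)
    [MeasurableSpace C(M, ℝ)] [BorelSpace C(M, ℝ)] (P : Measure C(M, ℝ)) [IsFiniteMeasure P]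
    (g : ℕ → C(M, ℝ)) (hg : Dense (Submodule.span ℝ (range g) : Set C(M, ℝ)))
    (hP : ∀ J : Fin d → ℕ, Function.Injective (fun j => g (J j)) →
      BoundedAlong P fun j => g (J j)) (φ₀ : C(M, ℝ)) (m : ℕ)
    (heq : ∀ p < n, Ev a (b φ₀) (m + 1 + p) = Ev a (b φ₀) (m + 1)) :
    ∃ U ∈ 𝓝 φ₀, ∃ C : ℝ, 0 ≤ C ∧ ∀ s : ℝ, 0 ≤ s →
      P (U ∩ {φ | unf μ a b (m + n) φ - unf μ a b (m + 1) φ ≤ s}) ≤ ENNReal.ofReal (C * s ^ d) := by
  obtain ⟨hF, hA, hexp, -⟩ := Pool.Agent.Q205.QLim.facts μ i a b hS hB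
  obtain ⟨-, hmon, -, hEc, -⟩ := tLip M μ H a b hF hexp
  obtain ⟨k, rfl⟩ : ∃ k, n = k + 1 := ⟨n - 1, by omega⟩
  have hpos : ∀ φ l, 0 < Ev a (b φ) (l + 1) := fun φ l =>
    (h1 φ).trans_le (hmon φ 1 (l + 1) (by omega))
  obtain ⟨N, γ, hγ, hnd⟩ := ndn hS hB hn hrk g hg φ₀ m (hpos φ₀ m) heq
  -- the constants
  obtain ⟨H0, hH0⟩ : ∃ H0 : ℝ, H0 = ∑ p ∈ Finset.range N, ‖g p‖ := ⟨_, rfl⟩
  have hH00 : 0 ≤ H0 := by rw [hH0]; exact Finset.sum_nonneg fun _ _ => norm_nonneg _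
  have hgH : ∀ p < N, ‖g p‖ ≤ H0 := by
    intro p hp
    rw [hH0]
    exact Finset.single_le_sum (f := fun p => ‖g p‖) (fun _ _ => norm_nonneg _)
      (Finset.mem_range.2 hp)
  obtain ⟨R, hR⟩ : ∃ R : ℝ, R = (Ev a (b φ₀) 1)⁻¹ + 1 := ⟨_, rfl⟩
  have hR0 : 0 < R := by rw [hR]; have := inv_pos.2 (h1 φ₀); linarith
  have hRU : ∀ᶠ φ in 𝓝 φ₀, (Ev a (b φ) 1)⁻¹ ≤ R := by
    have h2 : Continuous fun φ => (Ev a (b φ) 1)⁻¹ := (hEc 1).inv₀ fun φ => (h1 φ).ne'
    have h3 := (h2.tendsto φ₀).eventually_lt_const (show (Ev a (b φ₀) 1)⁻¹ < R by rw [hR]; linarith)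
    filter_upwards [h3] with φ hφ using hφ.le
  -- the factor between the gaps
  obtain ⟨W, hW⟩ : ∃ W : C(M, ℝ) → ℝ, W = fun φ => 4 * Real.pi / ((∫ x, Real.exp (φ x) ∂μ) *
    (Ev a (b φ) (m + 1) * Ev a (b φ) (m + k + 1))) := ⟨_, rfl⟩
  have hWpos : ∀ φ, 0 < W φ := by
    intro φ
    rw [hW]
    have := hA φ
    have := hpos φ m
    have := hpos φ (m + k)
    positivity
  have hWc : Continuous W := by
    rw [hW]
    refine continuous_const.div ((Pool.Agent.Q205.Baire.cont_int μ).mul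
      ((hEc (m + 1)).mul (hEc (m + k + 1)))) fun φ => ?_
    have := hA φ
    have := hpos φ m
    have := hpos φ (m + k)
    positivity
  obtain ⟨w, hw⟩ : ∃ w : ℝ, w = W φ₀ + 1 := ⟨_, rfl⟩
  have hw0 : 0 < w := by rw [hw]; have := hWpos φ₀; linarith
  have hWU : ∀ᶠ φ in 𝓝 φ₀, W φ ≤ w := by
    have h3 := (hWc.tendsto φ₀).eventually_lt_const (show W φ₀ < w by rw [hw]; linarith)
    filter_upwards [h3] with φ hφ using hφ.le
  -- the cones
  obtain ⟨δ, hδ⟩ : ∃ δ : ℝ, δ = 1 / (d * H0 + 1) := ⟨_, rfl⟩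
  have hδ0 : 0 < δ := by rw [hδ]; positivity
  obtain ⟨Co, hCo⟩ : ∃ Co : (Fin d → Fin N) → ℝ → Set C(M, ℝ), Co = fun J s =>
    Cone (Tm a b m) (fun j => g (J j)) ((m + 1) * (H0 * R)) (γ / (k + 1 : ℕ))
      (12 * (Fintype.card (Fin d) * H0) ^ 2 * ((m + 1) * R)) δ s := ⟨_, rfl⟩
  have hmeas : ∀ J : Fin d → Fin N, ∃ K : ℝ, 0 ≤ K ∧
      (Function.Injective (fun j => g (J j)) → ∀ s : ℝ, 0 ≤ s →
      P (Co J s) ≤ ENNReal.ofReal (K * s ^ d)) := by
    intro J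
    by_cases hpq : Function.Injective (fun j => g (J j))
    · obtain ⟨K, hK, h2⟩ := cone_measure (hP (fun j => J j) hpq) (L := (m + 1) * (H0 * R))
        (c := γ / (k + 1 : ℕ)) (C := 12 * (Fintype.card (Fin d) * H0) ^ 2 * ((m + 1) * R)) (δ := δ)
        (by positivity) (by positivity) hδ0 (tm_cont hS hB h1 m)
      refine ⟨K, hK, fun _ s hs => ?_⟩
      have h3 := h2 s hs
      rw [Fintype.card_fin] at h3
      rw [hCo]
      simp only [Fintype.card_fin]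
      exact h3
    · exact ⟨0, le_rfl, fun h => absurd h hpq⟩
  choose Kc hKc0 hKc using hmeas
  refine ⟨_, hnd.and (hRU.and hWU), w ^ d * ∑ J, Kc J,
    mul_nonneg (by positivity) (Finset.sum_nonneg fun _ _ => hKc0 _),
    fun s hs => ?_⟩
  classical
  have hsub : ({φ | ((∀ (e : ℕ → H) (E : ℕ → ℝ), Eg a (b φ) e E →
      ∃ J : Fin d → ℕ, (∀ j, J j < N) ∧ ∀ τ : Fin d → ℝ,
        γ * ‖τ‖ ≤ ‖∑ j, τ j • tl (k + 1) (Km b (k + 1) m (g (J j)) φ e E)‖) ∧
      (Ev a (b φ) 1)⁻¹ ≤ R ∧ W φ ≤ w)} ∩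
      {φ | unf μ a b (m + (k + 1)) φ - unf μ a b (m + 1) φ ≤ s}) ⊆
      ⋃ J ∈ (Finset.univ : Finset (Fin d → Fin N)).filter
        (fun J => Function.Injective (fun j => g (J j))), Co J (w * s) := by
    rintro φ ⟨⟨hφ1, hφ2, hφ3⟩, hφ4⟩
    obtain ⟨e, E, hE⟩ := tSp H a (b φ) (hF φ)
    have hEv : ∀ l, Ev a (b φ) l = E l :=
      fun l => Pool.Agent.Y592.QE.mm H a (b φ) (hF φ) e E hE l
    obtain ⟨J, hJN, hJ⟩ := hφ1 e E hE
    have hinj : Function.Injective (fun j => g (J j)) := by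
      intro j j' hjj
      by_contra hne
      obtain ⟨e1, e2⟩ : (∀ r, ((Pi.single j (1 : ℝ) - Pi.single j' 1 : Fin d → ℝ)) r =
          (if r = j then 1 else 0) - if r = j' then 1 else 0) ∧
          (1 : ℝ) ≤ ‖(Pi.single j (1 : ℝ) - Pi.single j' 1 : Fin d → ℝ)‖ := by
        have e1 : ∀ r, ((Pi.single j (1 : ℝ) - Pi.single j' 1 : Fin d → ℝ)) r =
            (if r = j then 1 else 0) - if r = j' then 1 else 0 := by
          intro r
          rw [Pi.sub_apply, Pi.single_apply, Pi.single_apply]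
        refine ⟨e1, ?_⟩
        have h2 := norm_le_pi_norm (Pi.single j (1 : ℝ) - Pi.single j' 1 : Fin d → ℝ) j
        rw [e1, if_pos rfl, if_neg hne] at h2
        simpa using h2
      have h3 := hJ (Pi.single j (1 : ℝ) - Pi.single j' 1)
      have h4 : ∑ r, ((Pi.single j (1 : ℝ) - Pi.single j' 1 : Fin d → ℝ)) r •
          tl (k + 1) (Km b (k + 1) m (g (J r)) φ e E) = 0 := by
        simp only [e1, sub_smul, ite_smul, one_smul, zero_smul, Finset.sum_sub_distrib,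
          Finset.sum_ite_eq', Finset.mem_univ, if_true]
        have hjj' : g (J j) = g (J j') := hjj
        rw [hjj', sub_self]
      rw [h4, norm_zero] at h3
      nlinarith
    obtain ⟨J', hJ'⟩ : ∃ J' : Fin d → Fin N, J' = fun j => ⟨J j, hJN j⟩ := ⟨_, rfl⟩
    have hJJ : ∀ j, ((J' j : Fin N) : ℕ) = J j := fun j => by rw [hJ']
    refine mem_iUnion₂.2 ⟨J', Finset.mem_filter.2 ⟨Finset.mem_univ _, ?_⟩, ?_⟩
    · simp only [hJJ]
      exact hinj
    rw [hCo]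
    simp only [hJJ]
    have hE1 : 0 < E 1 := by rw [← hEv]; exact h1 φ
    have hEp : ∀ l, 0 < E (l + 1) := fun l => by rw [← hEv]; exact hpos φ l
    have hRE : (E 1)⁻¹ ≤ R := by rw [← hEv]; exact hφ2
    refine incn hS hB h0 h1 m hn (fun j => g (J j)) (H0 := H0) (fun j => hgH _ (hJN j)) hH00 hE
      hRE ?_ ?_ hJ
    · -- the gap
      have e5 : m + (k + 1) = m + k + 1 := by omega
      have g1 : W φ * (unf μ a b (m + (k + 1)) φ - unf μ a b (m + 1) φ) =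
          (E (m + 1))⁻¹ - (E (m + (k + 1)))⁻¹ := by
        rw [e5]
        unfold unf
        rw [hW]
        simp only [hEv]
        have a1 := (hA φ).ne'
        have a2 := (hEp m).ne'
        have a3 := (hEp (m + k)).ne'
        have a4 := Real.pi_ne_zero
        field_simp
      rw [← g1]
      have g2 : 0 ≤ unf μ a b (m + (k + 1)) φ - unf μ a b (m + 1) φ := by
        unfold unf
        rw [← mul_sub, hEv, hEv]
        refine mul_nonneg (div_nonneg (hA φ).le (by positivity)) ?_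
        linarith [hE.mono (show m + 1 ≤ m + (k + 1) by omega)]
      exact mul_le_mul hφ3 hφ4 g2 hw0.le
    · rw [hδ, Fintype.card_fin, mul_one_div, div_le_one (by positivity)]
      linarith
  refine (measure_mono hsub).trans ?_
  refine (measure_biUnion_finset_le _ _).trans ?_
  have hws : 0 ≤ w * s := by positivity
  have h2 : ∑ J ∈ (Finset.univ : Finset (Fin d → Fin N)).filter
        (fun J => Function.Injective (fun j => g (J j))), P (Co J (w * s)) ≤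
      ∑ J ∈ (Finset.univ : Finset (Fin d → Fin N)).filter
        (fun J => Function.Injective (fun j => g (J j))), ENNReal.ofReal (Kc J * (w * s) ^ d) :=
    Finset.sum_le_sum fun J hJ => hKc J (Finset.mem_filter.1 hJ).2 (w * s) hws
  refine h2.trans ?_
  refine (Finset.sum_le_sum_of_subset (Finset.filter_subset _ _)).trans ?_
  rw [← ENNReal.ofReal_sum_of_nonneg fun J _ => mul_nonneg (hKc0 J) (by positivity)]
  refine ENNReal.ofReal_le_ofReal (le_of_eq ?_)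
  rw [← Finset.sum_mul, mul_pow]
  ring

/-- **the estimate of the clusters on compact sets** -/
theorem gap_cl [CompleteSpace H] (hS : Sf μ i a) (hB : IsB μ i b)
    (h0 : ∀ φ, Ev a (b φ) 0 = 0) (h1 : ∀ φ, 0 < Ev a (b φ) 1) {k d : ℕ} (hk : 0 < k)
    (hrk : Rk a b (k + 1) d)
    [MeasurableSpace C(M, ℝ)] [BorelSpace C(M, ℝ)] (P : Measure C(M, ℝ)) [IsFiniteMeasure P]
    (g : ℕ → C(M, ℝ)) (hg : Dense (Submodule.span ℝ (range g) : Set C(M, ℝ)))
    (hP : ∀ J : Fin d → ℕ, Function.Injective (fun j => g (J j)) →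
      BoundedAlong P fun j => g (J j)) {K : Set C(M, ℝ)} (hK : IsCompact K)
    (j : ℕ) : ∃ C : ℝ, 0 ≤ C ∧ ∀ s : ℝ, 0 ≤ s →
      P (K ∩ {φ | unf μ a b (j + k) φ - unf μ a b j φ ≤ s}) ≤ ENNReal.ofReal (C * s ^ d) := by
  obtain ⟨hF, hA, hexp, -⟩ := Pool.Agent.Q205.QLim.facts μ i a b hS hB
  obtain ⟨-, hmon, -, hEc, -⟩ := tLip M μ H a b hF hexp
  have hcont : Continuous fun φ => unf μ a b (j + k) φ - unf μ a b j φ :=
    (Pool.Agent.K7.H58.RM.unf_cont μ i a b hS hB _).sub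
      (Pool.Agent.K7.H58.RM.unf_cont μ i a b hS hB _)
  have hfac : ∀ φ : C(M, ℝ), 0 < (∫ x, Real.exp (φ x) ∂μ) / (4 * Real.pi) := fun φ =>
    div_pos (hA φ) (by positivity)
  refine compact_bound P hK (fun s => {φ | unf μ a b (j + k) φ - unf μ a b j φ ≤ s}) d ?_
  intro φ₀ _
  rcases (hmon φ₀ j (j + k) (Nat.le_add_right _ _)).lt_or_eq with h | h
  · refine local_pos P hcont ?_ d
    unfold unf
    rw [← mul_sub]
    exact mul_pos (hfac φ₀) (by linarith)
  · cases j with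
    | zero =>
      rw [h0] at h
      have h2 := hmon φ₀ 1 (0 + k) (by omega)
      have h3 := h1 φ₀
      linarith
    | succ m =>
      obtain ⟨U, hU, C, hC, h2⟩ := local_cl hS hB h0 h1 (n := k + 1) (by omega) hrk P g hg hP φ₀ m (by
        intro p hp
        have h2 := hmon φ₀ (m + 1) (m + 1 + p) (by omega)
        have h3 := hmon φ₀ (m + 1 + p) (m + 1 + k) (by omega)
        linarith)
      refine ⟨U, hU, C, hC, fun s hs => ?_⟩
      have h3 := h2 s hs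
      have e : m + (k + 1) = m + 1 + k := by omega
      rw [e] at h3
      exact h3

end Pool.Agent.H992.LR
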