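import Pool.Agent.H992.LR.Surf2

/-!
# Level repulsion: unique continuation on surfaces
-/

set_option autoImplicit false
set_option linter.unusedSectionVars false

open Set Filter Topology MeasureTheory Metric
open scoped ContDiff ENNReal
open Pool.Agent.Y262.QE Pool.Agent.Y264.QR

noncomputable section

namespace Pool.Agent.H992.LR

/-- unique continuation for weak solutions in the plane -/
theorem WS.ucp {V X Y q : ℂ → ℝ} {C : ℝ} {z0 : ℂ} {R : ℝ} (w : WS (ball z0 R) V X Y q C)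
    {z1 : ℂ} {r : ℝ} (hr : 0 < r) (hz1 : ball z1 r ⊆ ball z0 R)
    (h0 : ∀ᵐ z, z ∈ ball z1 r → V z = 0) : ∀ᵐ z, z ∈ ball z0 R → V z = 0 := by
  have : IsFiniteMeasure ((volume : Measure ℂ).restrict (ball z0 R)) :=
    ⟨by rw [Measure.restrict_apply_univ]; exact measure_ball_lt_top⟩
  have mW : MemLp (Wc X Y) 2 (volume.restrict (ball z0 R)) := by
    unfold Wc
    exact ((w.iX.ofReal (K := ℂ)).sub ((w.iY.ofReal (K := ℂ)).const_mul Complex.I)).const_mul _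
  have h := planar_ucp (V := fun z => (V z : ℂ)) (W := Wc X Y) (q := fun z => ((q z / 4 : ℝ) : ℂ))
    (C := C) (w.iV.ofReal (K := ℂ)) mW ?_ ?_ w.wd1 w.wd2 hr hz1 ?_
  · filter_upwards [h] with z hz hzb
    exact_mod_cast hz hzb
  · have h5 : AEStronglyMeasurable (fun z => q z / 4) (volume.restrict (ball z0 R)) := by
      simp only [div_eq_mul_inv]
      exact w.mq.mul_const _
    exact Complex.continuous_ofReal.comp_aestronglyMeasurable h5
  · filter_upwards [w.bq] with z hz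
    rw [Complex.norm_real, Real.norm_eq_abs, abs_div]
    have : |(4 : ℝ)| = 4 := abs_of_pos (by norm_num)
    rw [this]
    have := abs_nonneg (q z)
    linarith
  · filter_upwards [h0] with z hz hzb
    rw [hz hzb]
    simp

variable {M : Type} [MetricSpace M] [CompactSpace M] [MeasurableSpace M] [BorelSpace M]
  {μ : Measure M} {D : Data M}

lemma open_img (S : D.IsSurf μ) (i : Fin D.N) {W : Set ℂ} (hW : IsOpen W) (hWT : W ⊆ D.T i) :
    IsOpen (D.ψ i '' W) := by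
  have h0 : D.ψ i '' W = D.U i ∩ D.φ i ⁻¹' W := by
    ext x
    constructor
    · rintro ⟨w, hw, rfl⟩
      obtain ⟨h1, h2⟩ := Pool.Agent.Y183.QR.Loc.φψ S (hWT hw)
      refine ⟨h1, ?_⟩
      rw [mem_preimage, h2]
      exact hw
    · rintro ⟨h1, h2⟩
      exact ⟨D.φ i x, h2, S.left i x h1⟩
  rw [h0]
  exact (S.contφ i).isOpen_inter_preimage (S.openU i) hW

/-- the open set where `u` vanishes -/
def Zs (μ : Measure M) (u : M → ℝ) : Set M := {x | ∃ O : Set M, IsOpen O ∧ x ∈ O ∧ ∀ᵐ y ∂μ, y ∈ O → u y = 0}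

lemma Zs_open (u : M → ℝ) : IsOpen (Zs μ u) := by
  rw [isOpen_iff_forall_mem_open]
  rintro x ⟨O, hO, hx, h⟩
  exact ⟨O, fun y hy => ⟨O, hO, hy, h⟩, hO, hx⟩

lemma Zs_univ {u : M → ℝ} (h : Zs μ u = univ) : ∀ᵐ y ∂μ, u y = 0 := by
  rw [ae_iff]
  refine measure_null_of_locally_null _ fun x _ => ?_
  have hx : x ∈ Zs μ u := by rw [h]; exact mem_univ x
  obtain ⟨O, hO, hxO, hO2⟩ := hx
  rw [ae_iff] at hO2
  refine ⟨{y | ¬ u y = 0} ∩ O, inter_mem_nhdsWithin _ (hO.mem_nhds hxO), ?_⟩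
  refine measure_mono_null ?_ hO2
  rintro y ⟨h1, h2⟩ h3
  exact h1 (h3 h2)

/-- a ball in a chart around a point -/
lemma chart_at (S : D.IsSurf μ) (x : M) : ∃ (k : Fin D.N) (z0 : ℂ) (R : ℝ), 0 < R ∧
    closedBall z0 R ⊆ D.T k ∧ D.ψ k z0 = x := by
  obtain ⟨k, hk⟩ := S.cover x
  have h1 : D.φ k x ∈ D.T k := mem_image_of_mem _ hk
  obtain ⟨R, hR, h2⟩ := Metric.nhds_basis_closedBall.mem_iff.1 ((S.openT k).mem_nhds h1)
  exact ⟨k, D.φ k x, R, hR, h2, S.left k x hk⟩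

section ucp

variable [IsFiniteMeasure μ] {i : HF D μ →L[ℝ] Lp ℝ 2 μ}
    {a : HF D μ →L[ℝ] HF D μ →L[ℝ] ℝ} {b : C(M, ℝ) → HF D μ →L[ℝ] HF D μ →L[ℝ] ℝ}

/-- the zero set of an eigenfunction is closed in the sense of measure theory -/
lemma Zs_closed (S : D.IsSurf μ) (hiso : ∀ i, ∀ z ∈ D.T i, ∃ c : ℝ, ∀ v, ‖D.A i z v‖ = c * ‖v‖)
    (hi : ∀ v, i v = v.1.fst) (ha : ∀ u v, a u v = inner ℝ u.1.snd v.1.snd) (hB : IsB μ i b)
    (φ : C(M, ℝ)) (lam : ℝ) (v : HF D μ) (he : ∀ w, a v w = lam * b φ v w) :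
    IsClosed (Zs μ (v.1.fst : M → ℝ)) := by
  refine isClosed_of_closure_subset fun x hx => ?_
  obtain ⟨k, z0, R, hR, hK, rfl⟩ := chart_at S x
  obtain ⟨X, Y, C, w⟩ := chart_ws S hi ha hB φ lam v he hK fun z hz => hiso k z (hK hz)
  have hBT : ball z0 R ⊆ D.T k := ball_subset_closedBall.trans hK
  have hO := open_img S k isOpen_ball hBT
  rw [_root_.mem_closure_iff] at hx
  obtain ⟨y, ⟨z1, hz1, rfl⟩, hy⟩ := hx _ hO ⟨z0, mem_ball_self hR, rfl⟩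
  obtain ⟨O, hOo, hyO, hO2⟩ := hy
  -- a small ball around `z1`
  have h1 : ContinuousAt (D.ψ k) z1 := (S.contψ k).continuousAt ((S.openT k).mem_nhds (hBT hz1))
  have h2 : ∀ᶠ z in 𝓝 z1, D.ψ k z ∈ O ∧ z ∈ ball z0 R :=
    (h1.eventually (hOo.mem_nhds hyO)).and (isOpen_ball.mem_nhds hz1)
  obtain ⟨r, hr, hr2⟩ := Metric.eventually_nhds_iff_ball.1 h2
  have h3 : ∀ᵐ z : ℂ, z ∈ ball z1 r → (v.1.fst : M → ℝ) (D.ψ k z) = 0 := by
    filter_upwards [ae_chart S k hO2] with z hz hzb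
    exact hz (hBT (hr2 z hzb).2) (hr2 z hzb).1
  have h4 := w.ucp hr (fun z hz => (hr2 z hz).2) h3
  have h5 := ae_surf S k isOpen_ball.measurableSet hBT
    (P := fun x => (v.1.fst : M → ℝ) x = 0) h4
  exact ⟨_, hO, ⟨z0, mem_ball_self hR, rfl⟩, h5⟩

/-- an eigenfunction does not vanish on an open set around some point -/
lemma Zs_other (S : D.IsSurf μ) (hiso : ∀ i, ∀ z ∈ D.T i, ∃ c : ℝ, ∀ v, ‖D.A i z v‖ = c * ‖v‖)
    (hi : ∀ v, i v = v.1.fst) (ha : ∀ u v, a u v = inner ℝ u.1.snd v.1.snd) (hB : IsB μ i b)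
    (φ : C(M, ℝ)) (lam : ℝ) (v : HF D μ) (he : ∀ w, a v w = lam * b φ v w)
    (hv : ¬ ∀ᵐ x ∂μ, (v.1.fst : M → ℝ) x = 0) : ∃ O : Set M, IsOpen O ∧ O.Nonempty ∧
      ∀ᵐ x ∂μ, x ∈ O → (v.1.fst : M → ℝ) x ≠ 0 := by
  have hZ : ¬ Zs μ (v.1.fst : M → ℝ) = univ := fun h => hv (Zs_univ h)
  obtain ⟨x, hx⟩ := (ne_univ_iff_exists_notMem _).1 hZ
  obtain ⟨k, z0, R, hR, hK, rfl⟩ := chart_at S x
  obtain ⟨X, Y, C, w⟩ := chart_ws S hi ha hB φ lam v he hK fun z hz => hiso k z (hK hz)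
  have hBT : ball z0 R ⊆ D.T k := ball_subset_closedBall.trans hK
  have hBT2 : ball z0 (R / 2) ⊆ D.T k := (ball_subset_ball (by linarith)).trans hBT
  obtain ⟨G, hG, hGe⟩ := w.cont hR
  by_cases h0 : ∀ z ∈ ball z0 (R / 2), G z = 0
  · exfalso
    refine hx ⟨_, open_img S k isOpen_ball hBT2, ⟨z0, mem_ball_self (by positivity), rfl⟩, ?_⟩
    refine ae_surf S k isOpen_ball.measurableSet hBT2 (P := fun x => (v.1.fst : M → ℝ) x = 0) ?_
    filter_upwards [hGe] with z hz hzb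
    have := hz hzb
    rw [h0 z hzb] at this
    exact_mod_cast this
  · push Not at h0
    obtain ⟨z1, hz1, hG1⟩ := h0
    have h2 : ∀ᶠ z in 𝓝 z1, G z ≠ 0 ∧ z ∈ ball z0 (R / 2) :=
      (hG.continuousAt.eventually_ne hG1).and (isOpen_ball.mem_nhds hz1)
    obtain ⟨r, hr, hr2⟩ := Metric.eventually_nhds_iff_ball.1 h2
    have hsub : ball z1 r ⊆ D.T k := fun z hz => hBT2 (hr2 z hz).2
    refine ⟨_, open_img S k isOpen_ball hsub, ⟨_, z1, mem_ball_self hr, rfl⟩, ?_⟩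
    refine ae_surf S k isOpen_ball.measurableSet hsub (P := fun x => (v.1.fst : M → ℝ) x ≠ 0) ?_
    filter_upwards [hGe] with z hz hzb hcon
    have := hz (hr2 z hzb).2
    rw [hcon] at this
    exact (hr2 z hzb).1 (by rw [← this]; simp)

/-- **the product of two eigenfunctions vanishes only if one of them vanishes** -/
theorem prod_zero [ConnectedSpace M] (S : D.IsSurf μ)
    (hiso : ∀ i, ∀ z ∈ D.T i, ∃ c : ℝ, ∀ v, ‖D.A i z v‖ = c * ‖v‖)
    (hi : ∀ v, i v = v.1.fst) (ha : ∀ u v, a u v = inner ℝ u.1.snd v.1.snd) (hB : IsB μ i b)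
    (φ φ' : C(M, ℝ)) (lam lam' : ℝ) (v v' : HF D μ) (he : ∀ w, a v w = lam * b φ v w)
    (he' : ∀ w, a v' w = lam' * b φ' v' w) (h : ∀ᵐ x ∂μ, i v x * i v' x = 0) :
    (∀ᵐ x ∂μ, i v x = 0) ∨ ∀ᵐ x ∂μ, i v' x = 0 := by
  simp only [hi] at h ⊢
  by_cases hv : ∀ᵐ x ∂μ, (v.1.fst : M → ℝ) x = 0
  · exact Or.inl hv
  · right
    obtain ⟨O, hO, ⟨x, hx⟩, hO2⟩ := Zs_other S hiso hi ha hB φ lam v he hv
    have hne : (Zs μ (v'.1.fst : M → ℝ)).Nonempty := by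
      refine ⟨x, O, hO, hx, ?_⟩
      filter_upwards [hO2, h] with y h1 h2 hy
      exact (mul_eq_zero.1 h2).resolve_left (h1 hy)
    have hcl : IsClopen (Zs μ (v'.1.fst : M → ℝ)) :=
      ⟨Zs_closed S hiso hi ha hB φ' lam' v' he', Zs_open _⟩
    exact Zs_univ (hcl.eq_univ hne)

end ucp

end Pool.Agent.H992.LR
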