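import Pool.Agent.H992.LR.Con3
import Pool.Agent.H992.LR.Surf3

/-!
# Level repulsion: three eigenfunctions of one eigenvalue with `u v = w²`
-/

set_option autoImplicit false
set_option linter.unusedSectionVars false

open Set Filter Topology MeasureTheory Metric
open scoped ContDiff ENNReal
open Pool.Agent.Y262.QE Pool.Agent.Y264.QR

noncomputable section

namespace Pool.Agent.H992.LR

lemma WS.le {B : Set ℂ} {V X Y q : ℂ → ℝ} {C C' : ℝ} (w : WS B V X Y q C) (h : C ≤ C') :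
    WS B V X Y q C' :=
  ⟨w.iV, w.iX, w.iY, w.mq, w.bq.mono fun _ hz => hz.trans h, w.dx, w.dy, w.dl⟩

variable {M : Type} [MetricSpace M] [CompactSpace M] [MeasurableSpace M] [BorelSpace M]
  {μ : Measure M} {D : Data M}

/-- **eigenfunctions of one eigenvalue with `u v = w²` are proportional** -/
theorem conic_surf [ConnectedSpace M] [IsFiniteMeasure μ] {i : HF D μ →L[ℝ] Lp ℝ 2 μ}
    {a : HF D μ →L[ℝ] HF D μ →L[ℝ] ℝ} {b : C(M, ℝ) → HF D μ →L[ℝ] HF D μ →L[ℝ] ℝ}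
    (S : D.IsSurf μ) (hiso : ∀ i, ∀ z ∈ D.T i, ∃ c : ℝ, ∀ v, ‖D.A i z v‖ = c * ‖v‖)
    (hi : ∀ v, i v = v.1.fst) (ha : ∀ u v, a u v = inner ℝ u.1.snd v.1.snd) (hB : IsB μ i b)
    (φ : C(M, ℝ)) (lam : ℝ) (u v w : HF D μ) (hu : ∀ x, a u x = lam * b φ u x)
    (hv : ∀ x, a v x = lam * b φ v x) (hw : ∀ x, a w x = lam * b φ w x)
    (h : ∀ᵐ x ∂μ, i u x * i v x = (i w x) ^ 2) :
    (∀ᵐ x ∂μ, i u x = 0) ∨ ∃ c : ℝ, ∀ᵐ x ∂μ, i v x = c * i u x := by
  by_cases hw0 : ∀ᵐ x ∂μ, (w.1.fst : M → ℝ) x = 0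
  · have h1 : ∀ᵐ x ∂μ, i u x * i v x = 0 := by
      filter_upwards [h, hw0] with x h2 h3
      rw [h2, hi, h3]
      norm_num
    rcases prod_zero S hiso hi ha hB φ φ lam lam u v hu hv h1 with h2 | h2
    · exact Or.inl h2
    · exact Or.inr ⟨0, by
        filter_upwards [h2] with x hx
        rw [hx, zero_mul]⟩
  · right
    obtain ⟨O, hO, ⟨x, hx⟩, hO2⟩ := Zs_other S hiso hi ha hB φ lam w hw hw0
    obtain ⟨k, z0, R, hR, hK, rfl⟩ := chart_at S x
    have hz0 : z0 ∈ D.T k := hK (mem_closedBall_self hR.le)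
    have hcont : ContinuousAt (D.ψ k) z0 := (S.contψ k).continuousAt ((S.openT k).mem_nhds hz0)
    obtain ⟨r, hr, hr2⟩ := Metric.eventually_nhds_iff_ball.1 (hcont.eventually (hO.mem_nhds hx))
    obtain ⟨R₁, hR₁⟩ : ∃ R₁ : ℝ, R₁ = min R r := ⟨_, rfl⟩
    have hR₁0 : 0 < R₁ := by rw [hR₁]; exact lt_min hR hr
    have hK₁ : closedBall z0 R₁ ⊆ D.T k :=
      (closedBall_subset_closedBall (by rw [hR₁]; exact min_le_left _ _)).trans hK
    have hbT : ball z0 R₁ ⊆ D.T k := ball_subset_closedBall.trans hK₁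
    have hbO : ∀ z ∈ ball z0 R₁, D.ψ k z ∈ O := fun z hz =>
      hr2 z (ball_subset_ball (by rw [hR₁]; exact min_le_right _ _) hz)
    obtain ⟨X₁, Y₁, C₁, w₁⟩ := chart_ws S hi ha hB φ lam u hu hK₁ fun z hz => hiso k z (hK₁ hz)
    obtain ⟨X₂, Y₂, C₂, w₂⟩ := chart_ws S hi ha hB φ lam v hv hK₁ fun z hz => hiso k z (hK₁ hz)
    obtain ⟨X₃, Y₃, C₃, w₃⟩ := chart_ws S hi ha hB φ lam w hw hK₁ fun z hz => hiso k z (hK₁ hz)
    obtain ⟨C, hC⟩ : ∃ C : ℝ, C = max C₁ (max C₂ C₃) := ⟨_, rfl⟩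
    have k1 := w₁.le (show C₁ ≤ C by rw [hC]; exact le_max_left _ _)
    have k2 := w₂.le (show C₂ ≤ C by rw [hC]; exact (le_max_left _ _).trans (le_max_right _ _))
    have k3 := w₃.le (show C₃ ≤ C by rw [hC]; exact (le_max_right _ _).trans (le_max_right _ _))
    obtain ⟨z1, r₁, c, hr₁, hsub, hc⟩ := conic_local hR₁0 k1 k2 k3 (by
      filter_upwards [ae_chart S k h] with z hz hzb
      have := hz (hbT hzb)
      simp only [hi] at this
      exact this) (by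
      filter_upwards [ae_chart S k hO2] with z hz hzb
      exact hz (hbT hzb) (hbO z hzb))
    refine ⟨c, ?_⟩
    have hsubT : ball z1 r₁ ⊆ D.T k := hsub.trans hbT
    have hd : ∀ᵐ x ∂μ, ((v - c • u).1.fst : M → ℝ) x = (v.1.fst : M → ℝ) x -
        c * (u.1.fst : M → ℝ) x := by
      have e : ((v - c • u).1.fst : Lp ℝ 2 μ) = v.1.fst - c • u.1.fst := rfl
      rw [e]
      filter_upwards [Lp.coeFn_sub v.1.fst (c • u.1.fst), Lp.coeFn_smul c u.1.fst] with x h1 h2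
      rw [h1, Pi.sub_apply, h2, Pi.smul_apply, smul_eq_mul]
    have heig : ∀ x, a (v - c • u) x = lam * b φ (v - c • u) x := by
      intro x
      simp only [map_sub, map_smul, _root_.sub_apply, _root_.smul_apply, smul_eq_mul, hu, hv]
      ring
    have hne : (Zs μ ((v - c • u).1.fst : M → ℝ)).Nonempty := by
      refine ⟨D.ψ k z1, _, open_img S k isOpen_ball hsubT, ⟨z1, mem_ball_self hr₁, rfl⟩, ?_⟩
      refine ae_surf S k isOpen_ball.measurableSet hsubT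
        (P := fun x => ((v - c • u).1.fst : M → ℝ) x = 0) ?_
      filter_upwards [hc, ae_chart S k hd] with z h1 h2 hz
      rw [h2 (hsubT hz), h1 hz, sub_self]
    have hcl : IsClopen (Zs μ ((v - c • u).1.fst : M → ℝ)) :=
      ⟨Zs_closed S hiso hi ha hB φ lam (v - c • u) heig, Zs_open _⟩
    have hz := Zs_univ (hcl.eq_univ hne)
    filter_upwards [hz, hd] with x h1 h2
    rw [hi, hi]
    linarith

end Pool.Agent.H992.LR
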