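import Mathlib

/-!
# Level repulsion: consequences of the bound for the gaps
-/

set_option autoImplicit false

open Set Filter Topology MeasureTheory
open scoped ENNReal

noncomputable section

namespace Pool.Agent.H992.LR

/-- negative moments from the bound for small values -/
theorem neg_moment {X : Type} [MeasurableSpace X] (P : Measure X) [IsFiniteMeasure P] {F : X → ℝ}
    (hF : Measurable F) {C : ℝ} (hC : 0 ≤ C)
    (h : ∀ s : ℝ, 0 ≤ s → P {x | F x ≤ s} ≤ ENNReal.ofReal (C * s ^ 2)) {p : ℝ} (hp0 : 0 < p)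
    (hp : p < 2) : ∫⁻ x, ENNReal.ofReal (F x) ^ (-p) ∂P < ⊤ := by
  obtain ⟨r, hr⟩ : ∃ r : ℝ, r = (2 : ℝ) ^ p := ⟨_, rfl⟩
  have hr0 : 0 < r := by rw [hr]; positivity
  have hr4 : r < 4 := by
    rw [hr]
    calc (2 : ℝ) ^ p < (2 : ℝ) ^ (2 : ℝ) := Real.rpow_lt_rpow_of_exponent_lt (by norm_num) hp
      _ = 4 := by norm_num
  have hmeas : ∀ s : ℝ, MeasurableSet {x | F x ≤ s} := fun s => hF measurableSet_Iic
  have hz : ∀ᵐ x ∂P, 0 < F x := by
    rw [ae_iff]
    have h1 := h 0 le_rfl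
    simp only [not_lt]
    simpa using h1
  set G : X → ℝ≥0∞ := fun x => 1 + ∑' n : ℕ,
    {x | F x ≤ (1 / 2 : ℝ) ^ n}.indicator (fun _ => ENNReal.ofReal (r ^ (n + 1))) x with hG
  have hle : ∀ᵐ x ∂P, ENNReal.ofReal (F x) ^ (-p) ≤ G x := by
    filter_upwards [hz] with x hx
    rw [ENNReal.ofReal_rpow_of_pos hx]
    by_cases h1 : 1 < F x
    · refine le_trans ?_ (le_add_of_nonneg_right (zero_le))
      rw [← ENNReal.ofReal_one]
      exact ENNReal.ofReal_le_ofReal (Real.rpow_le_one_of_one_le_of_nonpos h1.le (by linarith))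
    · push Not at h1
      obtain ⟨n, hn1, hn2⟩ := exists_nat_pow_near_of_lt_one hx h1 (by norm_num : (0 : ℝ) < 1 / 2)
        (by norm_num)
      refine le_trans ?_ (le_add_of_nonneg_left (zero_le))
      refine le_trans ?_ (ENNReal.le_tsum n)
      have h2 : x ∈ {x | F x ≤ (1 / 2 : ℝ) ^ n} := hn2
      rw [indicator_of_mem h2]
      refine ENNReal.ofReal_le_ofReal ?_
      refine (Real.rpow_le_rpow_of_nonpos (by positivity) hn1.le (by linarith)).trans (le_of_eq ?_)
      rw [hr, one_div, inv_pow, Real.inv_rpow (by positivity), Real.rpow_neg (by positivity), inv_inv,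
        ← Real.rpow_natCast, ← Real.rpow_natCast, ← Real.rpow_mul (by norm_num),
        ← Real.rpow_mul (by norm_num), mul_comm]
  refine (lintegral_mono_ae hle).trans_lt ?_
  rw [hG, lintegral_add_left measurable_const, lintegral_tsum]
  · refine ENNReal.add_lt_top.2 ⟨?_, ?_⟩
    · rw [lintegral_one]
      exact measure_lt_top P univ
    · have hs : Summable fun n : ℕ => r ^ (n + 1) * (C * ((1 / 2 : ℝ) ^ n) ^ 2) := by
        have h1 : Summable fun n : ℕ => (r * C) * (r / 4) ^ n :=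
          (summable_geometric_of_lt_one (by positivity) (by linarith)).mul_left _
        refine h1.congr fun n => ?_
        rw [div_pow, ← pow_mul, mul_comm n 2, pow_mul, pow_succ]
        have : ((1 / 2 : ℝ) ^ 2) ^ n = 1 / 4 ^ n := by
          rw [show ((1 / 2 : ℝ) ^ 2) = 1 / 4 by norm_num, one_div_pow]
        rw [this]
        ring
      refine lt_of_le_of_lt (ENNReal.tsum_le_tsum (g := fun n : ℕ =>
        ENNReal.ofReal (r ^ (n + 1) * (C * ((1 / 2 : ℝ) ^ n) ^ 2))) fun n => ?_) ?_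
      · rw [lintegral_indicator_const (hmeas _), ENNReal.ofReal_mul (by positivity)]
        exact mul_le_mul' le_rfl (h _ (by positivity))
      · rw [← ENNReal.ofReal_tsum_of_nonneg (fun n => by positivity) hs]
        exact ENNReal.ofReal_lt_top
  · intro n
    exact (measurable_const.indicator (hmeas _)).aemeasurable

/-- the sum over the pairs -/
theorem sum_bound {X : Type} [MeasurableSpace X] (P : Measure X) {x : X → ℕ → ℝ}
    (hm : ∀ k, Measurable fun φ => x φ k) {C : ℕ → ℝ} (hC : ∀ j, 0 ≤ C j)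
    (h : ∀ j, ∀ s : ℝ, 0 ≤ s → P {φ | x φ (j + 1) - x φ j ≤ s} ≤ ENNReal.ofReal (C j * s ^ 2))
    (A : ℝ) (hA : 0 ≤ A) (N : ℕ) (s : ℝ) (hs : 0 ≤ s) (G : X → ℝ≥0∞)
    (hG : ∀ᵐ φ ∂P, G φ ≤ ENNReal.ofReal A * ∑ j ∈ Finset.range N,
      {φ | x φ (j + 1) - x φ j ≤ s}.indicator (fun _ => (1 : ℝ≥0∞)) φ) :
    ∫⁻ φ, G φ ∂P ≤ ENNReal.ofReal ((A * ∑ j ∈ Finset.range N, C j) * s ^ 2) := by
  have hmeas : ∀ j, MeasurableSet {φ | x φ (j + 1) - x φ j ≤ s} := fun j =>
    ((hm (j + 1)).sub (hm j)) measurableSet_Iic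
  refine (lintegral_mono_ae hG).trans ?_
  rw [lintegral_const_mul' _ _ ENNReal.ofReal_ne_top, lintegral_finsetSum _ fun j _ =>
    (measurable_const.indicator (hmeas j)), mul_assoc, ENNReal.ofReal_mul hA, Finset.sum_mul,
    ENNReal.ofReal_sum_of_nonneg fun j _ => mul_nonneg (hC j) (sq_nonneg s)]
  refine mul_le_mul' le_rfl (Finset.sum_le_sum fun j _ => ?_)
  rw [lintegral_indicator_const (hmeas j), one_mul]
  exact h j s hs

end Pool.Agent.H992.LR
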