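import Pool.Agent.H992.LR.Cone

/-!
# Level repulsion: random series have bounded laws in finitely many directions
-/

set_option autoImplicit false

open Set Filter Topology MeasureTheory ProbabilityTheory
open scoped NNReal ENNReal

noncomputable section

namespace Pool.Agent.H992.LR

lemma pi_mono' {ι : Type} [Fintype ι] {ν ν' : ι → Measure ℝ}
    (h : ∀ j, ν j ≤ ν' j) : Measure.pi ν ≤ Measure.pi ν' := by
  have h1 : OuterMeasure.pi (fun j => (ν j).toOuterMeasure) ≤
      OuterMeasure.pi (fun j => (ν' j).toOuterMeasure) := by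
    rw [OuterMeasure.le_pi]
    intro s _
    refine (OuterMeasure.pi_pi_le _ _).trans ?_
    exact Finset.prod_le_prod' fun j _ => h j (s j)
  refine Measure.le_iff.2 fun s hs => ?_
  rw [Measure.pi, Measure.pi, toMeasure_apply _ _ hs, toMeasure_apply _ _ hs]
  exact h1 s

lemma pi_smul' {ι : Type} [Fintype ι] (ν : ι → Measure ℝ) [∀ j, IsFiniteMeasure (ν j)]
    (c : ι → ℝ≥0) : Measure.pi (fun j => c j • ν j) = (∏ j, c j) • Measure.pi ν := by
  refine Measure.pi_eq fun s _ => ?_
  rw [Measure.smul_apply, Measure.pi_pi]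
  simp only [Measure.smul_apply, ENNReal.smul_def, smul_eq_mul]
  rw [Finset.prod_mul_distrib]
  push_cast
  rfl

variable {V : Type} [NormedAddCommGroup V] [NormedSpace ℝ V] [CompleteSpace V]
  [MeasurableSpace V] [BorelSpace V] [SecondCountableTopology V]

/-- the sum of a random series is measurable -/
lemma series_meas {Ω : Type} {m0 : MeasurableSpace Ω} (η : ℕ → Ω → ℝ)
    (hm : ∀ n, Measurable (η n)) (hη : ∀ n ω, |η n ω| ≤ 1) (φ₀ : V) (h : ℕ → V)
    (hh : Summable fun n => ‖h n‖) : Measurable fun ω => φ₀ + ∑' n, η n ω • h n := by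
  refine measurable_const.add ?_
  refine measurable_of_tendsto_metrizable
    (f := fun N ω => ∑ n ∈ Finset.range N, η n ω • h n) (fun N => ?_) ?_
  · refine Finset.measurable_fun_sum _ fun n _ => ?_
    exact (hm n).smul_const (h n)
  · rw [tendsto_pi_nhds]
    intro ω
    refine (Summable.of_norm_bounded hh fun n => ?_).hasSum.tendsto_sum_nat
    rw [norm_smul, Real.norm_eq_abs]
    have := hη n ω
    have := norm_nonneg (h n)
    nlinarith

/-- **the law of a random series is bounded in finitely many directions** -/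
theorem series_bounded {Ω : Type} [MeasurableSpace Ω] (Pr : Measure Ω) [IsProbabilityMeasure Pr]
    (η : ℕ → Ω → ℝ) (hm : ∀ n, Measurable (η n)) (hind : iIndepFun η Pr)
    (hη : ∀ n ω, η n ω ∈ Icc (0 : ℝ) 1) (hc : ∀ n, ∃ c : ℝ≥0, Pr.map (η n) ≤ c • volume)
    (φ₀ : V) (h : ℕ → V) (hh : Summable fun n => ‖h n‖) {ι : Type} [Fintype ι] (J : ι → ℕ)
    (hJ : Function.Injective J) :
    BoundedAlong (Pr.map fun ω => φ₀ + ∑' n, η n ω • h n) fun i => h (J i) := by
  classical
  choose c hc using hc
  have habs : ∀ n ω, |η n ω| ≤ 1 := fun n ω => by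
    rw [abs_of_nonneg (hη n ω).1]; exact (hη n ω).2
  obtain ⟨F, hF⟩ : ∃ F : Finset ℕ, F = Finset.univ.image J := ⟨_, rfl⟩
  have hsum : ∀ ω, Summable fun n => η n ω • h n := fun ω =>
    Summable.of_norm_bounded hh fun n => by
      rw [norm_smul, Real.norm_eq_abs]
      have := habs n ω
      have := norm_nonneg (h n)
      nlinarith
  -- the remainder
  set θ : ℕ → Ω → ℝ := fun n ω => if n ∈ F then 0 else η n ω with hθ
  set Y : Ω → V := fun ω => φ₀ + ∑' n, θ n ω • h n with hY
  set Z : Ω → ι → ℝ := fun ω i => η (J i) ω with hZ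
  have hsplit : ∀ ω, φ₀ + ∑' n, η n ω • h n = Y ω + ∑ i, Z ω i • h (J i) := by
    intro ω
    have h1 : ∑' n, η n ω • h n = ∑ n ∈ F, η n ω • h n + ∑' n, θ n ω • h n := by
      rw [← (hsum ω).sum_add_tsum_compl (s := F),
        tsum_subtype ((F : Set ℕ)ᶜ) (fun n => η n ω • h n)]
      congr 1
      refine tsum_congr fun n => ?_
      by_cases hn : n ∈ F
      · have h2 : n ∉ ((F : Set ℕ)ᶜ) := fun h3 => h3 (Finset.mem_coe.2 hn)
        rw [indicator_of_notMem h2, hθ]
        simp [hn]
      · have h2 : n ∈ ((F : Set ℕ)ᶜ) := fun h3 => hn (Finset.mem_coe.1 h3)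
        rw [indicator_of_mem h2, hθ]
        simp [hn]
    have h2 : ∑ n ∈ F, η n ω • h n = ∑ i, Z ω i • h (J i) := by
      rw [hF, Finset.sum_image fun x _ y _ hxy => hJ hxy]
    rw [h1, h2, hY]
    simp only
    abel
  have hYm : Measurable Y := by
    refine series_meas θ (fun n => ?_) (fun n ω => ?_) φ₀ h hh
    · rw [hθ]
      by_cases hn : n ∈ F
      · simp [hn]
      · simpa [hn] using hm n
    · rw [hθ]
      by_cases hn : n ∈ F
      · simp [hn]
      · simpa [hn] using habs n ω
  have hZm : Measurable Z := measurable_pi_lambda _ fun i => hm (J i)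
  -- independence
  have hYZ : IndepFun Y Z Pr := by
    have h1 : Indep (⨆ n ∈ ((F : Set ℕ)ᶜ), MeasurableSpace.comap (η n) inferInstance)
        (⨆ n ∈ (F : Set ℕ), MeasurableSpace.comap (η n) inferInstance) Pr :=
      indep_iSup_of_disjoint (fun n => (hm n).comap_le) hind.iIndep disjoint_compl_left
    refine indep_of_indep_of_le_left (indep_of_indep_of_le_right h1 ?_) ?_
    · rw [← measurable_iff_comap_le]
      refine @measurable_pi_lambda _ _ _ (_) _ _ fun i => ?_
      have h2 : J i ∈ (F : Set ℕ) := by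
        rw [hF]
        simp
      have h3 : MeasurableSpace.comap (η (J i)) inferInstance ≤
          ⨆ n ∈ (F : Set ℕ), MeasurableSpace.comap (η n) inferInstance :=
        le_iSup₂_of_le (J i) h2 le_rfl
      exact (comap_measurable (η (J i))).mono h3 le_rfl
    · rw [← measurable_iff_comap_le]
      refine @series_meas V _ _ _ _ _ _ Ω (_) θ (fun n => ?_) (fun n ω => ?_) φ₀ h hh
      · by_cases hn : n ∈ F
        · have : θ n = fun _ => 0 := by
            funext ω
            simp [hθ, hn]
          rw [this]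
          exact measurable_const
        · have : θ n = η n := by
            funext ω
            simp [hθ, hn]
          rw [this]
          have h2 : n ∈ ((F : Set ℕ)ᶜ) := fun h3 => hn (Finset.mem_coe.1 h3)
          have h3 : MeasurableSpace.comap (η n) inferInstance ≤
              ⨆ n ∈ ((F : Set ℕ)ᶜ), MeasurableSpace.comap (η n) inferInstance :=
            le_iSup₂_of_le n h2 le_rfl
          exact (comap_measurable (η n)).mono h3 le_rfl
      · rw [hθ]
        by_cases hn : n ∈ F
        · simp [hn]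
        · simpa [hn] using habs n ω
  have hlaw : Pr.map (fun ω => (Y ω, Z ω)) = (Pr.map Y).prod (Pr.map Z) :=
    (indepFun_iff_map_prod_eq_prod_map_map hYm.aemeasurable hZm.aemeasurable).1 hYZ
  -- the law of the coefficients
  have hres : ∀ n, Pr.map (η n) ≤ c n • (volume.restrict (Icc (0 : ℝ) 1)) := by
    intro n
    refine Measure.le_iff.2 fun s hs => ?_
    have h1 : Pr.map (η n) s = Pr.map (η n) (s ∩ Icc 0 1) := by
      rw [Measure.map_apply (hm n) hs, Measure.map_apply (hm n) (hs.inter measurableSet_Icc)]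
      congr 1
      ext ω
      exact ⟨fun h => ⟨h, hη n ω⟩, fun h => h.1⟩
    rw [h1, Measure.smul_apply, Measure.restrict_apply hs]
    exact hc n _
  have hZlaw : Pr.map Z ≤ (∏ i, c (J i)) • (volume.restrict (Icc (0 : ι → ℝ) 1)) := by
    have h1 : Pr.map Z = Measure.pi fun i => Pr.map (η (J i)) :=
      (iIndepFun_iff_map_fun_eq_pi_map fun i => (hm (J i)).aemeasurable).1 (hind.precomp hJ)
    have h2 : volume.restrict (Icc (0 : ι → ℝ) 1) =
        Measure.pi fun _ : ι => (volume.restrict (Icc (0 : ℝ) 1)) := by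
      rw [← pi_univ_Icc, volume_pi]
      exact Measure.restrict_pi_pi _ _
    rw [h1, h2, ← pi_smul']
    exact pi_mono' fun i => hres (J i)
  refine ⟨(∏ i, c (J i)) • Pr.map Y, ?_, ?_⟩
  · have : IsProbabilityMeasure (Pr.map Y) := Measure.isProbabilityMeasure_map hYm.aemeasurable
    infer_instance
  · have : IsProbabilityMeasure (Pr.map Y) := Measure.isProbabilityMeasure_map hYm.aemeasurable
    have hcm : Measurable fun q : V × (ι → ℝ) => q.1 + ∑ i, q.2 i • h (J i) :=
      (mv_cont fun i => h (J i)).measurable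
    have h1 : Pr.map (fun ω => φ₀ + ∑' n, η n ω • h n) =
        ((Pr.map Y).prod (Pr.map Z)).map fun q => q.1 + ∑ i, q.2 i • h (J i) := by
      rw [← hlaw, Measure.map_map hcm (hYm.prodMk hZm)]
      congr 1
      funext ω
      exact hsplit ω
    rw [h1]
    refine Measure.map_mono ?_ hcm
    refine (Measure.prod_mono le_rfl hZlaw).trans (le_of_eq ?_)
    rw [ENNReal.smul_def, ENNReal.smul_def, Measure.prod_smul_right, Measure.prod_smul_left]

end Pool.Agent.H992.LR
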