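import Pool.Agent.H992.LR.Loc
import Pool.Agent.H992.LR.Pairs
import Pool.Agent.H992.LR.Series
import Pool.Agent.H992.LR.Surf3
import Pool.Graph.R_pool_sql_team_seeded_3997aac3.Q233.GLV.GTop2
import Pool.Graph.R_pool_sql_team_seeded_35f281b4.K7.H58.RM.Conn

/-!
# Level repulsion: surfaces
-/

set_option autoImplicit false

open Set Filter Topology MeasureTheory ProbabilityTheory
open Pool.Agent.Y262.QE Pool.Agent.Y264.QR
open Pool.Agent.Q205.Baire (unf)
open scoped NNReal ENNReal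

noncomputable section

namespace Pool.Agent.H992.LR

variable {M : Type} [MetricSpace M] [CompactSpace M] [MeasurableSpace M] [BorelSpace M]

/-- a countable subset with the same closed span -/
lemma countable_total (S : Set C(M, ℝ)) (hS : Dense (Submodule.span ℝ S : Set C(M, ℝ))) :
    ∃ T ⊆ S, T.Countable ∧ Dense (Submodule.span ℝ T : Set C(M, ℝ)) := by
  obtain ⟨T, hT1, hT2, hT3⟩ :=
    (TopologicalSpace.IsSeparable.of_separableSpace S).exists_countable_dense_subset
  refine ⟨T, hT1, hT2, ?_⟩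
  have h1 : S ⊆ closure (Submodule.span ℝ T : Set C(M, ℝ)) :=
    hT3.trans (closure_mono Submodule.subset_span)
  have h2 : (Submodule.span ℝ S : Set C(M, ℝ)) ⊆ closure (Submodule.span ℝ T : Set C(M, ℝ)) := by
    have : Submodule.span ℝ S ≤ (Submodule.span ℝ T).topologicalClosure := Submodule.span_le.2 h1
    exact this
  exact (hS.mono h2).of_closure

/-- a sequence with the same span as a total set -/
lemma total_seq (S : Set C(M, ℝ)) (hS : Dense (Submodule.span ℝ S : Set C(M, ℝ))) :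
    ∃ g : ℕ → C(M, ℝ), (∀ p q, g p ≠ g q → g p ∈ S ∧ g q ∈ S) ∧
      Dense (Submodule.span ℝ (range g) : Set C(M, ℝ)) := by
  obtain ⟨T, hTS, hTc, hT⟩ := countable_total S hS
  rcases T.eq_empty_or_nonempty with h | h
  · refine ⟨fun _ => 0, fun p q hpq => absurd rfl hpq, ?_⟩
    have h1 : range (fun _ : ℕ => (0 : C(M, ℝ))) = {0} := range_const
    rw [h1, Submodule.span_zero_singleton]
    rw [h, Submodule.span_empty] at hT
    exact hT
  · obtain ⟨g, hg⟩ := hTc.exists_eq_range h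
    refine ⟨g, fun p q _ => ⟨hTS (hg ▸ mem_range_self p), hTS (hg ▸ mem_range_self q)⟩, ?_⟩
    rw [← hg]
    exact hT

/-- **the gaps of the unfolded levels**: everything which is used below -/
theorem surf_gap [ConnectedSpace M] (μ : Measure M) (D : Data M) (hD : D.IsSurf μ)
    (hI : ∀ i, ∀ z ∈ D.T i, ∃ c : ℝ, ∀ v, ‖D.A i z v‖ = c * ‖v‖) :
    ∃ X : C(M, ℝ) → ℕ → ℝ, (∀ k, Continuous fun φ => X φ k) ∧ (∀ φ, Monotone (X φ)) ∧
      (∀ φ, Tendsto (X φ) atTop atTop) ∧
      (∀ φ (u : ℕ → M → ℝ) (lam : ℕ → ℝ), EigBasis (D.conf fun x => Real.exp (φ x))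
        (wm μ fun x => Real.exp (φ x)) u lam → ∀ k, X φ k =
        (wm μ fun x => Real.exp (φ x)).real univ / (4 * Real.pi) * lam k) ∧
      ∀ [MeasurableSpace C(M, ℝ)] [BorelSpace C(M, ℝ)] (P : Measure C(M, ℝ)) [IsFiniteMeasure P]
        (S : Set C(M, ℝ)), Dense (Submodule.span ℝ S : Set C(M, ℝ)) →
        (∀ h ∈ S, ∀ h' ∈ S, h ≠ h' → BoundedAlong P ![h, h']) → ∀ K : Set C(M, ℝ), IsCompact K →
        ∀ j, ∃ C : ℝ, 0 ≤ C ∧ ∀ s : ℝ, 0 ≤ s →
          P (K ∩ {φ | X φ (j + 1) - X φ j ≤ s}) ≤ ENNReal.ofReal (C * s ^ 2) := by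
  obtain ⟨hf, -⟩ := tFin M μ D hD
  have := hf
  have : Nonempty M := inferInstance
  have : CompleteSpace (HF D μ) := by
    unfold HF
    exact (Submodule.isClosed_topologicalClosure _).completeSpace_coe
  obtain ⟨i, a, hSf, hi, ha⟩ := tPackF M μ D hD inferInstance
  obtain ⟨b, hB, hF, hA, hexp, -⟩ := tFm M μ (HF D μ) i a hSf
  obtain ⟨-, hmon, -, hEc, -⟩ := tLip M μ (HF D μ) a b hF hexp
  have harea : ∀ φ : C(M, ℝ), (wm μ fun x => Real.exp (φ x)).real univ =
      ∫ x, Real.exp (φ x) ∂μ := by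
    intro φ
    have hm : Measurable fun x => Real.exp (φ x) :=
      (Real.continuous_exp.comp φ.continuous).measurable
    have h5 : (wm μ fun x => Real.exp (φ x)).real univ =
        ∫ x, (1 : ℝ) ∂(wm μ fun x => Real.exp (φ x)) := by simp
    rw [h5, integral_wm μ _ hm fun x => (Real.exp_pos _).le]
    simp
  have h0 : ∀ φ, Ev a (b φ) 0 = 0 := by
    intro φ
    obtain ⟨e, E, hE⟩ := tSp (HF D μ) a (b φ) (hF φ)
    rw [Pool.Agent.Y592.QE.mm _ a (b φ) (hF φ) e E hE 0]
    exact Pool.Agent.Q233.GLV.lam_zero hD hSf hi ha hB hF (hA φ) hE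
  have h1 : ∀ φ, 0 < Ev a (b φ) 1 := by
    intro φ
    obtain ⟨e, E, hE⟩ := tSp (HF D μ) a (b φ) (hF φ)
    rw [Pool.Agent.Y592.QE.mm _ a (b φ) (hF φ) e E hE 1]
    exact Pool.Agent.K7.H58.RM.pos_one hD i a hSf hi ha b hB hE
  have hpz : PZ μ i a b := fun φ lam v v' hv hv' hz =>
    prod_zero hD hI hi ha hB φ φ lam lam v v' hv hv' hz
  refine ⟨fun φ k => unf μ a b k φ, fun k => Pool.Agent.K7.H58.RM.unf_cont μ i a b hSf hB k,
    fun φ j k hjk => ?_, fun φ => ?_, fun φ u lam hu k => ?_, ?_⟩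
  · exact mul_le_mul_of_nonneg_left (hmon φ j k hjk) (div_nonneg (hA φ).le (by positivity))
  · obtain ⟨e, E, hE⟩ := tSp (HF D μ) a (b φ) (hF φ)
    have h2 : ∀ k, unf μ a b k φ = (∫ x, Real.exp (φ x) ∂μ) / (4 * Real.pi) * E k := by
      intro k
      unfold unf
      rw [Pool.Agent.Y592.QE.mm _ a (b φ) (hF φ) e E hE k]
    rw [tendsto_congr h2]
    exact hE.tt.const_mul_atTop (div_pos (hA φ) (by positivity))
  · obtain ⟨e, -, he⟩ := tBr M μ D hD i a b hSf hi ha hB hF φ u lam hu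
    rw [harea]
    simp only [unf]
    rw [Pool.Agent.Y592.QE.mm _ a (b φ) (hF φ) e lam he k]
  · intro _ _ P _ S hS hP K hK j
    obtain ⟨g, hg1, hg2⟩ := total_seq S hS
    exact gap_bound hSf hB h0 h1 hpz P g hg2
      (fun p q hpq => hP _ (hg1 p q hpq).1 _ (hg1 p q hpq).2 hpq) hK j

/-- the number of small levels is bounded on compact sets -/
lemma count_bound {X : Type} [TopologicalSpace X] {x : X → ℕ → ℝ}
    (hc : ∀ k, Continuous fun φ => x φ k) (hm : ∀ φ, Monotone (x φ))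
    (ht : ∀ φ, Tendsto (x φ) atTop atTop) {K : Set X} (hK : IsCompact K) (T : ℝ) :
    ∃ N : ℕ, ∀ φ ∈ K, T < x φ N := by
  refine hK.induction_on (p := fun A => ∃ N : ℕ, ∀ φ ∈ A, T < x φ N) ?_ ?_ ?_ ?_
  · exact ⟨0, fun φ h => absurd h (notMem_empty φ)⟩
  · rintro A B hAB ⟨N, hN⟩
    exact ⟨N, fun φ h => hN φ (hAB h)⟩
  · rintro A B ⟨N, hN⟩ ⟨N', hN'⟩
    refine ⟨max N N', fun φ h => ?_⟩
    rcases h with h | h
    · exact (hN φ h).trans_le (hm φ (le_max_left _ _))
    · exact (hN' φ h).trans_le (hm φ (le_max_right _ _))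
  · intro φ _
    obtain ⟨N, hN⟩ := ((ht φ).eventually_gt_atTop T).exists
    exact ⟨{ψ | T < x ψ N}, mem_nhdsWithin_of_mem_nhds
      ((isOpen_lt continuous_const (hc N)).mem_nhds hN), N, fun ψ h => h⟩

/-- the image of a cube under a series is compact -/
lemma series_compact {V : Type} [NormedAddCommGroup V] [NormedSpace ℝ V] [CompleteSpace V]
    (φ₀ : V) (h : ℕ → V) (hh : Summable fun n => ‖h n‖) :
    IsCompact (range fun t : ℕ → Icc (0 : ℝ) 1 => φ₀ + ∑' n, (t n : ℝ) • h n) := by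
  refine isCompact_range (continuous_const.add (continuous_tsum (fun n => ?_) hh fun n t => ?_))
  · exact (continuous_subtype_val.comp (continuous_apply n)).smul continuous_const
  · rw [norm_smul, Real.norm_eq_abs, abs_of_nonneg (t n).2.1]
    have := (t n).2.2
    have := norm_nonneg (h n)
    nlinarith

/-- the affine change of the coefficients -/
lemma law_half {c : ℝ≥0} {ν : Measure ℝ} (h : ν ≤ c • volume) :
    ν.map (fun x => (x + 1) / 2) ≤ (2 * c) • volume := by
  have hm : Measurable fun x : ℝ => (x + 1) / 2 := by fun_prop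
  refine (Measure.map_mono h hm).trans (le_of_eq ?_)
  rw [ENNReal.smul_def, ENNReal.smul_def, Measure.map_smul]
  have h1 : (volume : Measure ℝ).map (fun x => (x + 1) / 2) = (2 : ℝ≥0∞) • volume := by
    have h2 : (fun x : ℝ => (x + 1) / 2) = (fun x => (1 / 2 : ℝ) * x) ∘ fun x => x + 1 := by
      funext x
      simp only [Function.comp_apply]
      ring
    rw [h2, ← Measure.map_map (by fun_prop) (by fun_prop), map_add_right_eq_self,
      Real.map_volume_mul_left (by norm_num)]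
    congr 1
    rw [one_div, inv_inv, abs_of_pos (by norm_num : (0 : ℝ) < 2)]
    simp
  rw [h1, smul_smul]
  congr 1
  push_cast
  ring

end Pool.Agent.H992.LR
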