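import Pool.Agent.H992.LR.Cl4
import Pool.Agent.H992.LR.Con4
import Pool.Agent.H992.LR.Top

/-!
# Clusters of levels: surfaces
-/

set_option autoImplicit false
set_option linter.unusedSectionVars false

open Set Filter Topology MeasureTheory ProbabilityTheory
open Pool.Agent.Y262.QE Pool.Agent.Y264.QR
open Pool.Agent.Q205.Baire (unf)
open scoped NNReal ENNReal

noncomputable section

namespace Pool.Agent.H992.LR

/-- negative moments from the bound for small values -/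
theorem neg_moment_n {X : Type} [MeasurableSpace X] (P : Measure X) [IsFiniteMeasure P] {F : X → ℝ}
    (hF : Measurable F) {C : ℝ} (hC : 0 ≤ C) {d : ℕ} (hd : 0 < d)
    (h : ∀ s : ℝ, 0 ≤ s → P {x | F x ≤ s} ≤ ENNReal.ofReal (C * s ^ d)) {p : ℝ} (hp0 : 0 < p)
    (hp : p < d) : ∫⁻ x, ENNReal.ofReal (F x) ^ (-p) ∂P < ⊤ := by
  obtain ⟨r, hr⟩ : ∃ r : ℝ, r = (2 : ℝ) ^ p := ⟨_, rfl⟩
  obtain ⟨D, hD⟩ : ∃ D : ℝ, D = (2 : ℝ) ^ d := ⟨_, rfl⟩
  have hr0 : 0 < r := by rw [hr]; positivity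
  have hD0 : 0 < D := by rw [hD]; positivity
  have hr4 : r < D := by
    rw [hr, hD]
    calc (2 : ℝ) ^ p < (2 : ℝ) ^ (d : ℝ) := Real.rpow_lt_rpow_of_exponent_lt (by norm_num) hp
      _ = 2 ^ d := Real.rpow_natCast 2 d
  have hmeas : ∀ s : ℝ, MeasurableSet {x | F x ≤ s} := fun s => hF measurableSet_Iic
  have hz : ∀ᵐ x ∂P, 0 < F x := by
    rw [ae_iff]
    have h1 := h 0 le_rfl
    rw [zero_pow hd.ne', mul_zero, ENNReal.ofReal_zero] at h1
    simp only [not_lt]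
    exact le_antisymm h1 zero_le
  set G : X → ℝ≥0∞ := fun x => 1 + ∑' n : ℕ,
    {x | F x ≤ (1 / 2 : ℝ) ^ n}.indicator (fun _ => ENNReal.ofReal (r ^ (n + 1))) x with hG
  have hle : ∀ᵐ x ∂P, ENNReal.ofReal (F x) ^ (-p) ≤ G x := by
    filter_upwards [hz] with x hx
    rw [ENNReal.ofReal_rpow_of_pos hx]
    by_cases h1 : 1 < F x
    · refine le_trans ?_ (le_add_of_nonneg_right (zero_le))
      rw [← ENNReal.ofReal_one]
      exact ENNReal.ofReal_le_ofReal (Real.rpow_le_one_of_one_le_of_nonpos h1.le (by linarith))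
    · push Not at h1
      obtain ⟨n, hn1, hn2⟩ := exists_nat_pow_near_of_lt_one hx h1 (by norm_num : (0 : ℝ) < 1 / 2)
        (by norm_num)
      refine le_trans ?_ (le_add_of_nonneg_left (zero_le))
      refine le_trans ?_ (ENNReal.le_tsum n)
      have h2 : x ∈ {x | F x ≤ (1 / 2 : ℝ) ^ n} := hn2
      rw [indicator_of_mem h2]
      refine ENNReal.ofReal_le_ofReal ?_
      refine (Real.rpow_le_rpow_of_nonpos (by positivity) hn1.le (by linarith)).trans (le_of_eq ?_)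
      rw [hr, one_div, inv_pow, Real.inv_rpow (by positivity), Real.rpow_neg (by positivity), inv_inv,
        ← Real.rpow_natCast, ← Real.rpow_natCast, ← Real.rpow_mul (by norm_num),
        ← Real.rpow_mul (by norm_num), mul_comm]
  refine (lintegral_mono_ae hle).trans_lt ?_
  rw [hG, lintegral_add_left measurable_const, lintegral_tsum]
  · refine ENNReal.add_lt_top.2 ⟨?_, ?_⟩
    · rw [lintegral_one]
      exact measure_lt_top P univ
    · have hs : Summable fun n : ℕ => r ^ (n + 1) * (C * ((1 / 2 : ℝ) ^ n) ^ d) := by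
        have h1 : Summable fun n : ℕ => (r * C) * (r / D) ^ n :=
          (summable_geometric_of_lt_one (by positivity) ((div_lt_one hD0).2 hr4)).mul_left _
        refine h1.congr fun n => ?_
        have h2 : ((1 / 2 : ℝ) ^ n) ^ d = 1 / D ^ n := by
          rw [hD, one_div_pow, one_div_pow, ← pow_mul, ← pow_mul, mul_comm]
        rw [h2, div_pow, pow_succ]
        ring
      refine lt_of_le_of_lt (ENNReal.tsum_le_tsum (g := fun n : ℕ =>
        ENNReal.ofReal (r ^ (n + 1) * (C * ((1 / 2 : ℝ) ^ n) ^ d))) fun n => ?_) ?_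
      · rw [lintegral_indicator_const (hmeas _), ENNReal.ofReal_mul (by positivity)]
        exact mul_le_mul' le_rfl (h _ (by positivity))
      · rw [← ENNReal.ofReal_tsum_of_nonneg (fun n => by positivity) hs]
        exact ENNReal.ofReal_lt_top
  · intro n
    exact (measurable_const.indicator (hmeas _)).aemeasurable

/-- the sum over the clusters -/
theorem sum_bound_n {X : Type} [MeasurableSpace X] (P : Measure X) {F : ℕ → X → ℝ}
    (hm : ∀ j, Measurable (F j)) {C : ℕ → ℝ} (hC : ∀ j, 0 ≤ C j) {d : ℕ}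
    (h : ∀ j, ∀ s : ℝ, 0 ≤ s → P {φ | F j φ ≤ s} ≤ ENNReal.ofReal (C j * s ^ d))
    (A : ℝ) (hA : 0 ≤ A) (N : ℕ) (s : ℝ) (hs : 0 ≤ s) (G : X → ℝ≥0∞)
    (hG : ∀ᵐ φ ∂P, G φ ≤ ENNReal.ofReal A * ∑ j ∈ Finset.range N,
      {φ | F j φ ≤ s}.indicator (fun _ => (1 : ℝ≥0∞)) φ) :
    ∫⁻ φ, G φ ∂P ≤ ENNReal.ofReal ((A * ∑ j ∈ Finset.range N, C j) * s ^ d) := by
  have hmeas : ∀ j, MeasurableSet {φ | F j φ ≤ s} := fun j => (hm j) measurableSet_Iic
  refine (lintegral_mono_ae hG).trans ?_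
  rw [lintegral_const_mul' _ _ ENNReal.ofReal_ne_top, lintegral_finsetSum _ fun j _ =>
    (measurable_const.indicator (hmeas j)), mul_assoc, ENNReal.ofReal_mul hA, Finset.sum_mul,
    ENNReal.ofReal_sum_of_nonneg fun j _ => mul_nonneg (hC j) (by positivity)]
  refine mul_le_mul' le_rfl (Finset.sum_le_sum fun j _ => ?_)
  rw [lintegral_indicator_const (hmeas j), one_mul]
  exact h j s hs

variable {M : Type} [MetricSpace M] [CompactSpace M] [MeasurableSpace M] [BorelSpace M]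

/-- **the clusters of three unfolded levels** -/
theorem surf_cl [ConnectedSpace M] (μ : Measure M) (D : Data M) (hD : D.IsSurf μ)
    (hI : ∀ i, ∀ z ∈ D.T i, ∃ c : ℝ, ∀ v, ‖D.A i z v‖ = c * ‖v‖) :
    ∃ X : C(M, ℝ) → ℕ → ℝ, (∀ k, Continuous fun φ => X φ k) ∧ (∀ φ, Monotone (X φ)) ∧
      (∀ φ, Tendsto (X φ) atTop atTop) ∧
      (∀ φ (u : ℕ → M → ℝ) (lam : ℕ → ℝ), EigBasis (D.conf fun x => Real.exp (φ x))
        (wm μ fun x => Real.exp (φ x)) u lam → ∀ k, X φ k =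
        (wm μ fun x => Real.exp (φ x)).real univ / (4 * Real.pi) * lam k) ∧
      ∀ [MeasurableSpace C(M, ℝ)] [BorelSpace C(M, ℝ)] (P : Measure C(M, ℝ)) [IsFiniteMeasure P]
        (S : Set C(M, ℝ)), Dense (Submodule.span ℝ S : Set C(M, ℝ)) →
        (∀ h : Fin 5 → C(M, ℝ), (∀ l, h l ∈ S) → Function.Injective h → BoundedAlong P h) →
        ∀ K : Set C(M, ℝ), IsCompact K →
        ∀ j, ∃ C : ℝ, 0 ≤ C ∧ ∀ s : ℝ, 0 ≤ s →
          P (K ∩ {φ | X φ (j + 2) - X φ j ≤ s}) ≤ ENNReal.ofReal (C * s ^ 5) := by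
  obtain ⟨hf, -⟩ := tFin M μ D hD
  have := hf
  have : Nonempty M := inferInstance
  have : CompleteSpace (HF D μ) := by
    unfold HF
    exact (Submodule.isClosed_topologicalClosure _).completeSpace_coe
  obtain ⟨i, a, hSf, hi, ha⟩ := tPackF M μ D hD inferInstance
  obtain ⟨b, hB, hF, hA, hexp, -⟩ := tFm M μ (HF D μ) i a hSf
  obtain ⟨-, hmon, -, hEc, -⟩ := tLip M μ (HF D μ) a b hF hexp
  have harea : ∀ φ : C(M, ℝ), (wm μ fun x => Real.exp (φ x)).real univ =
      ∫ x, Real.exp (φ x) ∂μ := by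
    intro φ
    have hm : Measurable fun x => Real.exp (φ x) :=
      (Real.continuous_exp.comp φ.continuous).measurable
    have h5 : (wm μ fun x => Real.exp (φ x)).real univ =
        ∫ x, (1 : ℝ) ∂(wm μ fun x => Real.exp (φ x)) := by simp
    rw [h5, integral_wm μ _ hm fun x => (Real.exp_pos _).le]
    simp
  have h0 : ∀ φ, Ev a (b φ) 0 = 0 := by
    intro φ
    obtain ⟨e, E, hE⟩ := tSp (HF D μ) a (b φ) (hF φ)
    rw [Pool.Agent.Y592.QE.mm _ a (b φ) (hF φ) e E hE 0]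
    exact Pool.Agent.Q233.GLV.lam_zero hD hSf hi ha hB hF (hA φ) hE
  have h1 : ∀ φ, 0 < Ev a (b φ) 1 := by
    intro φ
    obtain ⟨e, E, hE⟩ := tSp (HF D μ) a (b φ) (hF φ)
    rw [Pool.Agent.Y592.QE.mm _ a (b φ) (hF φ) e E hE 1]
    exact Pool.Agent.K7.H58.RM.pos_one hD i a hSf hi ha b hB hE
  have hcz : CZ μ i a b := fun φ lam u v w hu hv hw hz =>
    conic_surf hD hI hi ha hB φ lam u v w hu hv hw hz
  have hrk : Rk a b 3 5 := rk3 hB hF hcz
  refine ⟨fun φ k => unf μ a b k φ, fun k => Pool.Agent.K7.H58.RM.unf_cont μ i a b hSf hB k,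
    fun φ j k hjk => ?_, fun φ => ?_, fun φ u lam hu k => ?_, ?_⟩
  · exact mul_le_mul_of_nonneg_left (hmon φ j k hjk) (div_nonneg (hA φ).le (by positivity))
  · obtain ⟨e, E, hE⟩ := tSp (HF D μ) a (b φ) (hF φ)
    have h2 : ∀ k, unf μ a b k φ = (∫ x, Real.exp (φ x) ∂μ) / (4 * Real.pi) * E k := by
      intro k
      unfold unf
      rw [Pool.Agent.Y592.QE.mm _ a (b φ) (hF φ) e E hE k]
    rw [tendsto_congr h2]
    exact hE.tt.const_mul_atTop (div_pos (hA φ) (by positivity))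
  · obtain ⟨e, -, he⟩ := tBr M μ D hD i a b hSf hi ha hB hF φ u lam hu
    rw [harea]
    simp only [unf]
    rw [Pool.Agent.Y592.QE.mm _ a (b φ) (hF φ) e lam he k]
  · intro _ _ P _ S hS hP K hK j
    obtain ⟨g, hg1, hg2⟩ := total_seq S hS
    refine gap_cl hSf hB h0 h1 (k := 2) (by norm_num) hrk P g hg2 (fun J hJ => ?_) hK j
    refine hP _ (fun l => ?_) hJ
    obtain ⟨l', hl'⟩ : ∃ l' : Fin 5, l' ≠ l := exists_ne l
    exact (hg1 (J l) (J l') fun h => hl' (hJ h).symm).1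

end Pool.Agent.H992.LR
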