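import Pool.Agent.H992.LR.Plane3

/-!
# Level repulsion: weak solutions of `ΔV = q V` in the plane are continuous
-/

set_option autoImplicit false

open Set Filter Topology MeasureTheory Metric
open scoped ContDiff ENNReal ComplexConjugate SchwartzMap Laplacian LineDeriv
open Pool.Agent.Q233.GLV (lap)

noncomputable section

namespace Pool.Agent.H992.LR

lemma fd_mul {a b : ℂ → ℂ} (ha : ContDiff ℝ ∞ a) (hb : ContDiff ℝ ∞ b) (z v : ℂ) :
    fderiv ℝ (fun w => a w * b w) z v = a z * fderiv ℝ b z v + fderiv ℝ a z v * b z := by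
  rw [fderiv_fun_mul (ha.differentiable (by simp) z) (hb.differentiable (by simp) z)]
  simp only [add_apply, smul_apply, smul_eq_mul]
  ring

lemma lapC_mul {a b : ℂ → ℂ} (ha : ContDiff ℝ ∞ a) (hb : ContDiff ℝ ∞ b) (z : ℂ) :
    lapC (fun w => a w * b w) z = a z * lapC b z + 2 * (fderiv ℝ a z 1 * fderiv ℝ b z 1 +
      fderiv ℝ a z Complex.I * fderiv ℝ b z Complex.I) + lapC a z * b z := by
  have key : ∀ v : ℂ, fderiv ℝ (fun w => fderiv ℝ (fun w => a w * b w) w v) z v =
      a z * fderiv ℝ (fun w => fderiv ℝ b w v) z v + 2 * (fderiv ℝ a z v * fderiv ℝ b z v) +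
      fderiv ℝ (fun w => fderiv ℝ a w v) z v * b z := by
    intro v
    have h1 : (fun w => fderiv ℝ (fun w => a w * b w) w v) =
        fun w => a w * fderiv ℝ b w v + fderiv ℝ a w v * b w := by
      funext w
      exact fd_mul ha hb w v
    have d1 : DifferentiableAt ℝ (fun w => a w * fderiv ℝ b w v) z :=
      (ha.mul (dirC hb v)).differentiable (by simp) z
    have d2 : DifferentiableAt ℝ (fun w => fderiv ℝ a w v * b w) z :=
      ((dirC ha v).mul hb).differentiable (by simp) z
    rw [h1, fderiv_fun_add d1 d2, add_apply, fd_mul ha (dirC hb v), fd_mul (dirC ha v) hb]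
    ring
  unfold lapC
  rw [key, key]
  ring

lemma lap_schwartz (θ : 𝓢(ℂ, ℂ)) (z : ℂ) : (Δ θ) z = lapC θ z := by
  rw [SchwartzMap.laplacian_eq_sum Complex.orthonormalBasisOneI]
  simp only [Fin.sum_univ_two, Complex.coe_orthonormalBasisOneI, Matrix.cons_val_zero,
    Matrix.cons_val_one, Matrix.cons_val_fin_one]
  rfl

lemma int4 {μ : Measure ℂ} {f1 f2 f3 f4 F : ℂ → ℂ} {c2 c3 c4 : ℂ} (i1 : Integrable f1 μ)
    (i2 : Integrable f2 μ) (i3 : Integrable f3 μ) (i4 : Integrable f4 μ)
    (h : ∀ z, F z = f1 z + c2 * f2 z + c3 * f3 z + c4 * f4 z) :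
    ∫ z, F z ∂μ = (∫ z, f1 z ∂μ) + c2 * (∫ z, f2 z ∂μ) + c3 * (∫ z, f3 z ∂μ) +
      c4 * (∫ z, f4 z ∂μ) := by
  have e : F = fun z => ((f1 z + c2 * f2 z) + c3 * f3 z) + c4 * f4 z := funext h
  have k2 := i2.const_mul c2
  have k3 := i3.const_mul c3
  have k4 := i4.const_mul c4
  have k12 : Integrable (fun z => f1 z + c2 * f2 z) μ := i1.add k2
  have k123 : Integrable (fun z => (f1 z + c2 * f2 z) + c3 * f3 z) μ := k12.add k3
  rw [e, integral_add k123 k4, integral_add k12 k3, integral_add i1 k2, integral_const_mul,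
    integral_const_mul, integral_const_mul]

variable {V X Y q : ℂ → ℝ} {C : ℝ}

theorem WS.cont {z0 : ℂ} {R : ℝ} (hR : 0 < R) (w : WS (ball z0 R) V X Y q C) :
    ∃ G : ℂ → ℂ, Continuous G ∧ ∀ᵐ z, z ∈ ball z0 (R / 2) → (V z : ℂ) = G z := by
  set B := ball z0 R with hBdef
  have hB : MeasurableSet B := isOpen_ball.measurableSet
  have : IsFiniteMeasure ((volume : Measure ℂ).restrict B) :=
    ⟨by rw [Measure.restrict_apply_univ]; exact measure_ball_lt_top⟩
  have iV : IntegrableOn V B := w.iV.integrable (by norm_num)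
  have iX : IntegrableOn X B := w.iX.integrable (by norm_num)
  have iY : IntegrableOn Y B := w.iY.integrable (by norm_num)
  have iQ : IntegrableOn (fun z => q z * V z) B := w.iqV.integrable (by norm_num)
  -- the cutoff
  let χ : ContDiffBump z0 := ⟨R / 2, 3 * R / 4, by positivity, by linarith⟩
  set a : ℂ → ℂ := fun z => ((χ z : ℝ) : ℂ) with ha_def
  have ha : ContDiff ℝ ∞ a := Complex.ofRealCLM.contDiff.comp χ.contDiff
  have hac : HasCompactSupport a := χ.hasCompactSupport.comp_left (g := fun x : ℝ => (x : ℂ)) (by simp)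
  have hats : tsupport a ⊆ B := by
    have h1 : Function.support a ⊆ Function.support χ := by
      intro z hz hz2
      refine hz ?_
      show ((χ z : ℝ) : ℂ) = 0
      rw [hz2]
      simp
    refine (closure_mono h1).trans ?_
    show tsupport χ ⊆ B
    rw [χ.tsupport_eq]
    exact closedBall_subset_ball (by show 3 * R / 4 < R; linarith)
  have ha1 : ∀ z ∈ ball z0 (R / 2), a z = 1 := by
    intro z hz
    have : χ z = 1 := χ.one_of_mem_closedBall (ball_subset_closedBall hz)
    simp [ha_def, this]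
  set a1 : ℂ → ℂ := fun z => fderiv ℝ a z 1 with ha1_def
  set a2 : ℂ → ℂ := fun z => fderiv ℝ a z Complex.I with ha2_def
  have sa1 : ContDiff ℝ ∞ a1 := dirC ha 1
  have sa2 : ContDiff ℝ ∞ a2 := dirC ha Complex.I
  have ca1 : HasCompactSupport a1 := fd_supp hac 1
  have ca2 : HasCompactSupport a2 := fd_supp hac Complex.I
  have ta1 : tsupport a1 ⊆ B := (fd_ts 1).trans hats
  have ta2 : tsupport a2 ⊆ B := (fd_ts Complex.I).trans hats
  have cl : Continuous (lapC a) := lapC_cont ha
  have kl : HasCompactSupport (lapC a) := lapC_supp hac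
  set h0 : ℂ → ℂ := fun z => a z * ((q z * V z : ℝ) : ℂ) + 2 * (a1 z * (X z : ℂ) + a2 z * (Y z : ℂ))
    + lapC a z * (V z : ℂ) with hh0
  set g0 : ℂ → ℂ := fun z => a z * (V z : ℂ) with hg0
  have off : ∀ z, z ∉ B → a z = 0 ∧ a1 z = 0 ∧ a2 z = 0 ∧ lapC a z = 0 := by
    intro z hz
    refine ⟨image_eq_zero_of_notMem_tsupport fun h => hz (hats h),
      image_eq_zero_of_notMem_tsupport fun h => hz (ta1 h),
      image_eq_zero_of_notMem_tsupport fun h => hz (ta2 h), lapC_off fun h => hz (hats h)⟩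
  have mulLp : ∀ (f : ℂ → ℂ) (U : ℂ → ℝ), Continuous f → HasCompactSupport f →
      MemLp U 2 (volume.restrict B) → MemLp (fun z => f z * (U z : ℂ)) 2 (volume.restrict B) := by
    intro f U hf hfc hU
    obtain ⟨K, hK⟩ := hfc.exists_bound_of_continuous hf
    refine (hU.ofReal (K := ℂ)).of_le_mul (c := K) (hf.aestronglyMeasurable.mul hU.ofReal.1)
      (Eventually.of_forall fun z => ?_)
    rw [norm_mul]
    exact mul_le_mul_of_nonneg_right (hK z) (norm_nonneg _)
  have mg : MemLp g0 2 volume := by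
    have e : g0 = B.indicator g0 := by
      funext z
      by_cases hz : z ∈ B
      · rw [indicator_of_mem hz]
      · rw [indicator_of_notMem hz]
        simp [hg0, (off z hz).1]
    rw [e, memLp_indicator_iff_restrict hB]
    exact mulLp a V ha.continuous hac w.iV
  have mh : MemLp h0 2 volume := by
    have e : h0 = B.indicator h0 := by
      funext z
      by_cases hz : z ∈ B
      · rw [indicator_of_mem hz]
      · rw [indicator_of_notMem hz]
        obtain ⟨e1, e2, e3, e4⟩ := off z hz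
        simp [hh0, e1, e2, e3, e4]
    rw [e, memLp_indicator_iff_restrict hB]
    exact ((mulLp a _ ha.continuous hac w.iqV).add
      (((mulLp a1 X sa1.continuous ca1 w.iX).add (mulLp a2 Y sa2.continuous ca2 w.iY)).const_mul
        2)).add (mulLp _ V cl kl w.iV)
  -- the equation
  have hmain : ∀ θ : 𝓢(ℂ, ℂ), ∫ z, lapC θ z * g0 z = ∫ z, θ z * h0 z := by
    intro θ
    have hθ : ContDiff ℝ ∞ (θ : ℂ → ℂ) := θ.smooth ⊤
    have hφ : ContDiff ℝ ∞ fun z => a z * θ z := ha.mul hθ
    have hφc : HasCompactSupport fun z => a z * θ z := hac.mul_right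
    have hφs : tsupport (fun z => a z * θ z) ⊆ B := (tsupport_mul_subset_left).trans hats
    have A1 := cxl iV iQ w.dl hφ hφc hφs
    have A2 := cxt iV iX w.dx (sa1.mul hθ) ca1.mul_right ((tsupport_mul_subset_left).trans ta1)
    have A3 := cxt iV iY w.dy (sa2.mul hθ) ca2.mul_right ((tsupport_mul_subset_left).trans ta2)
    have j : ∀ (U : ℂ → ℝ) (f : ℂ → ℂ), IntegrableOn U B → Continuous f → HasCompactSupport f →
        Integrable (fun z => (U z : ℂ) * f z) (volume.restrict B) := fun U f hU hf hfc =>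
      mul_integrable hU.ofReal hf hfc
    have e1 : ∫ z, lapC θ z * g0 z = ∫ z in B, lapC θ z * g0 z :=
      (setIntegral_eq_integral_of_forall_compl_eq_zero fun z hz => by
        simp [hg0, (off z hz).1]).symm
    have e2 : ∫ z, θ z * h0 z = ∫ z in B, θ z * h0 z :=
      (setIntegral_eq_integral_of_forall_compl_eq_zero fun z hz => by
        obtain ⟨e1, e2, e3, e4⟩ := off z hz
        simp [hh0, e1, e2, e3, e4]).symm
    have i1 := j V _ iV (lapC_cont hφ) (lapC_supp hφc)
    have i2 := j V _ iV (fd_cont (sa1.mul hθ) 1) (fd_supp ca1.mul_right 1)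
    have i3 := j V _ iV (fd_cont (sa2.mul hθ) Complex.I) (fd_supp ca2.mul_right Complex.I)
    have i4 := j V (fun z => lapC a z * θ z) iV (cl.mul hθ.continuous) kl.mul_right
    have i5 := j (fun z => q z * V z) _ iQ hφ.continuous hφc
    have i6 := j X (fun z => a1 z * θ z) iX (sa1.mul hθ).continuous ca1.mul_right
    have i7 := j Y (fun z => a2 z * θ z) iY (sa2.mul hθ).continuous ca2.mul_right
    have k1 : ∫ z in B, lapC θ z * g0 z = (∫ z in B, (V z : ℂ) * lapC (fun z => a z * θ z) z) +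
        (-2) * (∫ z in B, (V z : ℂ) * fderiv ℝ (fun z => a1 z * θ z) z 1) +
        (-2) * (∫ z in B, (V z : ℂ) * fderiv ℝ (fun z => a2 z * θ z) z Complex.I) +
        1 * ∫ z in B, (V z : ℂ) * (lapC a z * θ z) := by
      refine int4 i1 i2 i3 i4 fun z => ?_
      rw [lapC_mul ha hθ, fd_mul sa1 hθ, fd_mul sa2 hθ]
      simp only [hg0, lapC, ha1_def, ha2_def]
      ring
    have k2 : ∫ z in B, θ z * h0 z = (∫ z in B, ((q z * V z : ℝ) : ℂ) * (a z * θ z)) +
        2 * (∫ z in B, (X z : ℂ) * (a1 z * θ z)) +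
        2 * (∫ z in B, (Y z : ℂ) * (a2 z * θ z)) +
        1 * ∫ z in B, (V z : ℂ) * (lapC a z * θ z) := by
      refine int4 i5 i6 i7 i4 fun z => ?_
      simp only [hh0]
      ring
    rw [e1, e2, k1, k2, A1, A2, A3]
    ring
  obtain ⟨G, hG, hGe⟩ := cont_rep (mg.toLp g0) (mh.toLp h0) (by
    intro θ
    have e1 : ∫ z, (Δ θ) z • (mg.toLp g0 : ℂ → ℂ) z = ∫ z, lapC θ z * g0 z := by
      refine integral_congr_ae ?_
      filter_upwards [mg.coeFn_toLp] with z hz
      rw [hz, lap_schwartz, smul_eq_mul]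
    have e2 : ∫ z, θ z • (mh.toLp h0 : ℂ → ℂ) z = ∫ z, θ z * h0 z := by
      refine integral_congr_ae ?_
      filter_upwards [mh.coeFn_toLp] with z hz
      rw [hz, smul_eq_mul]
    rw [e1, e2, hmain])
  refine ⟨G, hG, ?_⟩
  filter_upwards [hGe, mg.coeFn_toLp] with z h1 h2 hz
  rw [← h1, h2, hg0]
  simp only
  rw [ha1 z hz, one_mul]

end Pool.Agent.H992.LR
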