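import Pool.Agent.H992.LR.Mol
import Pool.Agent.H992.LR.Plane4

/-!
# Level repulsion: products and quotients of weak solutions in the plane
-/

set_option autoImplicit false

open Set Filter Topology MeasureTheory Metric
open scoped ContDiff ENNReal
open Pool.Agent.Q233.GLV (lap dir_smooth)

noncomputable section

namespace Pool.Agent.H992.LR

/-- `X` is the weak derivative of `V` in the direction `u` on `B` -/
def WP (B : Set ℂ) (u : ℂ) (V X : ℂ → ℝ) : Prop :=
  ∀ η : ℂ → ℝ, ContDiff ℝ ∞ η → HasCompactSupport η → tsupport η ⊆ B →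
    ∫ z in B, fderiv ℝ η z u * V z = -∫ z in B, η z * X z

lemma fd_zero {η : ℂ → ℝ} {z : ℂ} (h : z ∉ tsupport η) (u : ℂ) : fderiv ℝ η z u = 0 := by
  rw [fderiv_of_notMem_tsupport ℝ h]
  simp

lemma sub_int {B B' : Set ℂ} (hB : MeasurableSet B) (hBB : B' ⊆ B) {f : ℂ → ℝ}
    (h : ∀ z, z ∉ B' → f z = 0) : ∫ z in B', f z = ∫ z in B, f z :=
  (setIntegral_eq_of_subset_of_forall_sdiff_eq_zero hB hBB fun z hz => h z hz.2).symm

lemma WP.mono {B B' : Set ℂ} (hB : MeasurableSet B) (hBB : B' ⊆ B) {u : ℂ} {V X : ℂ → ℝ}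
    (h : WP B u V X) : WP B' u V X := by
  intro η hη hc hs
  rw [sub_int hB hBB fun z hz => by rw [fd_zero (fun h => hz (hs h)), zero_mul],
    sub_int hB hBB fun z hz => by rw [image_eq_zero_of_notMem_tsupport (fun h => hz (hs h)),
      zero_mul]]
  exact h η hη hc (hs.trans hBB)

/-- the mollified weak derivative -/
lemma ml_weak {B : Set ℂ} (hB : MeasurableSet B) {u : ℂ} {V X : ℂ → ℝ} (iV : IntegrableOn V B)
    (h : WP B u V X) {n : ℕ} {z : ℂ} (hz : closedBall z (1 / ((n : ℝ) + 1)) ⊆ B) :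
    fderiv ℝ (ml n (B.indicator V)) z u = ml n (B.indicator X) z := by
  have hV : LocallyIntegrable (B.indicator V) volume :=
    ((integrable_indicator_iff hB).2 iV).locallyIntegrable
  rw [ml_fderiv n hV]
  unfold ml
  obtain ⟨η, hη⟩ : ∃ η : ℂ → ℝ, η = fun w => rho n (z - w) := ⟨_, rfl⟩
  have hηs : ContDiff ℝ ∞ η := by
    rw [hη]
    exact (rho_smooth n).comp (contDiff_const.sub contDiff_id)
  have hηt : tsupport η ⊆ closedBall z (1 / ((n : ℝ) + 1)) := by
    refine closure_minimal (fun w hw => ?_) isClosed_closedBall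
    by_contra hcon
    rw [mem_closedBall, not_le, dist_comm, dist_eq_norm] at hcon
    refine hw ?_
    rw [hη]
    exact rho_off hcon.le
  have hηc : HasCompactSupport η := HasCompactSupport.of_support_subset_isCompact
    (isCompact_closedBall z (1 / ((n : ℝ) + 1))) ((subset_tsupport η).trans hηt)
  have hηd : ∀ w, fderiv ℝ η w u = -fderiv ℝ (rho n) (z - w) u := by
    intro w
    have h1 : HasFDerivAt (rho n) (fderiv ℝ (rho n) (z - w)) (z - w) :=
      ((rho_smooth n).differentiable (by simp) (z - w)).hasFDerivAt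
    have h2 : HasFDerivAt (fun w : ℂ => z - w) (-(ContinuousLinearMap.id ℝ ℂ)) w :=
      (hasFDerivAt_id w).const_sub z
    have h3 := h1.comp w h2
    have h4 : fderiv ℝ η w =
        (fderiv ℝ (rho n) (z - w)).comp (-(ContinuousLinearMap.id ℝ ℂ)) := by
      rw [hη]
      exact h3.fderiv
    rw [h4]
    simp
  have h1 := h η hηs hηc (hηt.trans hz)
  have e1 : ∫ w, fderiv ℝ (rho n) (z - w) u * B.indicator V w = ∫ w in B, fderiv ℝ (rho n) (z - w) u * V w := by
    rw [← integral_indicator hB]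
    refine integral_congr_ae (Eventually.of_forall fun w => ?_)
    by_cases hw : w ∈ B
    · simp only [indicator_of_mem hw]
    · simp only [indicator_of_notMem hw, mul_zero]
  have e2 : ∫ w, rho n (z - w) * B.indicator X w = ∫ w in B, rho n (z - w) * X w := by
    rw [← integral_indicator hB]
    refine integral_congr_ae (Eventually.of_forall fun w => ?_)
    by_cases hw : w ∈ B
    · simp only [indicator_of_mem hw]
    · simp only [indicator_of_notMem hw, mul_zero]
  rw [e1, e2]
  have e3 : ∫ w in B, fderiv ℝ η w u * V w = -∫ w in B, fderiv ℝ (rho n) (z - w) u * V w := by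
    rw [← integral_neg]
    refine integral_congr_ae (Eventually.of_forall fun w => ?_)
    simp only
    rw [hηd]
    ring
  rw [e3] at h1
  rw [hη] at h1
  linarith

/-- products of sequences which converge in `L²` -/
lemma lim2 {ν : Measure ℂ} {f g : ℕ → ℂ → ℝ} {F G : ℂ → ℝ} (hf : ∀ n, MemLp (f n) 2 ν)
    (hF : MemLp F 2 ν) (hg : ∀ n, MemLp (g n) 2 ν) (hG : MemLp G 2 ν)
    (h1 : Tendsto (fun n => eLpNorm (fun z => f n z - F z) 2 ν) atTop (𝓝 0))
    (h2 : Tendsto (fun n => eLpNorm (fun z => g n z - G z) 2 ν) atTop (𝓝 0)) :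
    Tendsto (fun n => ∫ z, f n z * g n z ∂ν) atTop (𝓝 (∫ z, F z * G z ∂ν)) := by
  have key : ∀ {a b : ℂ → ℝ} (ha : MemLp a 2 ν) (hb : MemLp b 2 ν),
      inner ℝ (ha.toLp a) (hb.toLp b) = ∫ z, a z * b z ∂ν := by
    intro a b ha hb
    rw [L2.inner_def]
    refine integral_congr_ae ?_
    filter_upwards [ha.coeFn_toLp, hb.coeFn_toLp] with z h1 h2
    rw [h1, h2]
    simp [mul_comm]
  have t1 : Tendsto (fun n => (hf n).toLp (f n)) atTop (𝓝 (hF.toLp F)) :=
    (Lp.tendsto_Lp_iff_tendsto_eLpNorm'' f hf F hF).2 h1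
  have t2 : Tendsto (fun n => (hg n).toLp (g n)) atTop (𝓝 (hG.toLp G)) :=
    (Lp.tendsto_Lp_iff_tendsto_eLpNorm'' g hg G hG).2 h2
  have := Filter.Tendsto.inner (𝕜 := ℝ) t1 t2
  simp only [key] at this
  exact this

lemma lim1 {ν : Measure ℂ} {f : ℕ → ℂ → ℝ} {F G : ℂ → ℝ} (hf : ∀ n, MemLp (f n) 2 ν)
    (hF : MemLp F 2 ν) (hG : MemLp G 2 ν)
    (h1 : Tendsto (fun n => eLpNorm (fun z => f n z - F z) 2 ν) atTop (𝓝 0)) :
    Tendsto (fun n => ∫ z, f n z * G z ∂ν) atTop (𝓝 (∫ z, F z * G z ∂ν)) := by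
  refine lim2 (g := fun _ => G) hf hF (fun _ => hG) hG h1 ?_
  simp

/-- smooth approximations of `V` and of its weak derivatives `X u` in the directions `u ∈ D` -/
structure Ap (B : Set ℂ) (V X Y : ℂ → ℝ) (f : ℕ → ℂ → ℝ) : Prop where
  sm : ∀ n, ContDiff ℝ ∞ (f n)
  m0 : ∀ n, MemLp (f n) 2 (volume.restrict B)
  mx : ∀ n, MemLp (fun z => fderiv ℝ (f n) z 1) 2 (volume.restrict B)
  my : ∀ n, MemLp (fun z => fderiv ℝ (f n) z Complex.I) 2 (volume.restrict B)
  t0 : Tendsto (fun n => eLpNorm (fun z => f n z - V z) 2 (volume.restrict B)) atTop (𝓝 0)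
  tx : Tendsto (fun n => eLpNorm (fun z => fderiv ℝ (f n) z 1 - X z) 2 (volume.restrict B)) atTop
    (𝓝 0)
  ty : Tendsto (fun n => eLpNorm (fun z => fderiv ℝ (f n) z Complex.I - Y z) 2
    (volume.restrict B)) atTop (𝓝 0)

variable {z0 : ℂ} {R R' : ℝ}

theorem approx {V X Y : ℂ → ℝ} (iV : MemLp V 2 (volume.restrict (ball z0 R)))
    (iX : MemLp X 2 (volume.restrict (ball z0 R))) (iY : MemLp Y 2 (volume.restrict (ball z0 R)))
    (hX : WP (ball z0 R) 1 V X) (hY : WP (ball z0 R) Complex.I V Y) (hR : R' < R) :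
    ∃ f : ℕ → ℂ → ℝ, Ap (ball z0 R') V X Y f ∧
      ∀ δ : ℝ, (∀ᵐ z, z ∈ ball z0 R → δ ≤ V z) → ∀ n, ∀ z ∈ ball z0 R', δ ≤ f n z := by
  obtain ⟨N, hN⟩ := exists_nat_one_div_lt (sub_pos.2 hR)
  obtain ⟨B, hB⟩ : ∃ B : Set ℂ, B = ball z0 R := ⟨_, rfl⟩
  have hBm : MeasurableSet B := by rw [hB]; exact isOpen_ball.measurableSet
  have hsub : ball z0 R' ⊆ B := by rw [hB]; exact ball_subset_ball hR.le
  rw [← hB] at iV iX iY hX hY ⊢
  have hfin : IsFiniteMeasure ((volume : Measure ℂ).restrict B) :=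
    ⟨by rw [Measure.restrict_apply_univ, hB]; exact measure_ball_lt_top⟩
  have hle : ∀ n : ℕ, 1 / (((n + N : ℕ) : ℝ) + 1) ≤ 1 / ((N : ℝ) + 1) := by
    intro n
    apply one_div_le_one_div_of_le
    · positivity
    · push_cast
      have : (0 : ℝ) ≤ n := Nat.cast_nonneg n
      linarith
  have hin : ∀ (n : ℕ) (z : ℂ), z ∈ ball z0 R' → closedBall z (1 / (((n + N : ℕ) : ℝ) + 1)) ⊆ B := by
    intro n z hz w hw
    rw [hB, mem_ball]
    rw [mem_ball] at hz
    rw [mem_closedBall] at hw
    have := dist_triangle w z z0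
    have := hle n
    linarith
  have mem : ∀ {F : ℂ → ℝ}, MemLp F 2 (volume.restrict B) → MemLp (B.indicator F) 2 volume :=
    fun h => (memLp_indicator_iff_restrict hBm).2 h
  have tend : ∀ {F : ℂ → ℝ} (g : ℕ → ℂ → ℝ), MemLp F 2 (volume.restrict B) →
      (∀ n, ∀ z ∈ ball z0 R', g n z = ml (n + N) (B.indicator F) z) →
      (∀ n, MemLp (g n) 2 (volume.restrict (ball z0 R'))) ∧
      Tendsto (fun n => eLpNorm (fun z => g n z - F z) 2 (volume.restrict (ball z0 R'))) atTop
        (𝓝 0) := by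
    intro F g hF hg
    obtain ⟨h1, h2⟩ := ml_L2 (mem hF)
    have hm : MeasurableSet (ball z0 R') := isOpen_ball.measurableSet
    refine ⟨fun n => ?_, ?_⟩
    · refine ((h1 (n + N)).mono_measure Measure.restrict_le_self).ae_eq ?_
      rw [EventuallyEq, ae_restrict_iff' hm]
      exact Eventually.of_forall fun z hz => (hg n z hz).symm
    · have h3 := h2.comp (tendsto_add_atTop_nat N)
      refine tendsto_of_tendsto_of_tendsto_of_le_of_le tendsto_const_nhds h3
        (fun _ => zero_le) fun n => ?_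
      have h4 : eLpNorm (fun z => g n z - F z) 2 (volume.restrict (ball z0 R')) =
          eLpNorm (fun z => ml (n + N) (B.indicator F) z - B.indicator F z) 2
            (volume.restrict (ball z0 R')) := by
        refine eLpNorm_congr_ae ?_
        rw [EventuallyEq, ae_restrict_iff' hm]
        refine Eventually.of_forall fun z hz => ?_
        rw [hg n z hz, indicator_of_mem (hsub hz)]
      simp only [Function.comp_apply]
      rw [h4]
      exact eLpNorm_mono_measure _ Measure.restrict_le_self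
  have iV1 : IntegrableOn V B := iV.integrable (by norm_num)
  have hloc : LocallyIntegrable (B.indicator V) volume :=
    ((integrable_indicator_iff hBm).2 iV1).locallyIntegrable
  refine ⟨fun n => ml (n + N) (B.indicator V), ⟨fun n => ml_smooth _ hloc,
    (tend _ iV fun n z _ => rfl).1,
    (tend _ iX fun n z hz => ml_weak hBm iV1 hX (hin n z hz)).1,
    (tend _ iY fun n z hz => ml_weak hBm iV1 hY (hin n z hz)).1,
    (tend _ iV fun n z _ => rfl).2,
    (tend _ iX fun n z hz => ml_weak hBm iV1 hX (hin n z hz)).2,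
    (tend _ iY fun n z hz => ml_weak hBm iV1 hY (hin n z hz)).2⟩, fun δ hδ n z hz => ?_⟩
  refine ml_low hloc ?_
  filter_upwards [hδ] with w hw hwb
  have h5 := hin n z hz (ball_subset_closedBall hwb)
  rw [indicator_of_mem h5]
  exact hw h5

/-- the product of a test function and a smooth function -/
lemma test_mul {B : Set ℂ} {η f : ℂ → ℝ} (hη : ContDiff ℝ ∞ η) (hc : HasCompactSupport η)
    (hs : tsupport η ⊆ B) (hf : ContDiff ℝ ∞ f) :
    ContDiff ℝ ∞ (fun z => η z * f z) ∧ HasCompactSupport (fun z => η z * f z) ∧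
      tsupport (fun z => η z * f z) ⊆ B ∧
      ∀ z u, fderiv ℝ (fun z => η z * f z) z u = fderiv ℝ η z u * f z + η z * fderiv ℝ f z u := by
  refine ⟨hη.mul hf, hc.mul_right, (closure_mono (Function.support_mul_subset_left η f)).trans hs,
    fun z u => ?_⟩
  have h1 : DifferentiableAt ℝ η z := hη.differentiable (by simp) z
  have h2 : DifferentiableAt ℝ f z := hf.differentiable (by simp) z
  rw [fderiv_fun_mul h1 h2]
  simp only [_root_.add_apply, _root_.smul_apply, smul_eq_mul]
  ring

/-- multiplication of square integrable functions by test functions -/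
lemma mul_test {ν : Measure ℂ} {η V : ℂ → ℝ} (hη : Continuous η) (hc : HasCompactSupport η)
    (hV : MemLp V 2 ν) : MemLp (fun z => η z * V z) 2 ν := by
  obtain ⟨C, hC⟩ := hη.bounded_above_of_compact_support hc
  refine (hV.const_mul C).mono (hη.aestronglyMeasurable.mul hV.1) (Eventually.of_forall fun z => ?_)
  rw [norm_mul, norm_mul]
  exact mul_le_mul_of_nonneg_right ((hC z).trans (le_abs_self C)) (norm_nonneg _)

lemma fd_comp {η : ℂ → ℝ} (hη : ContDiff ℝ ∞ η) (hc : HasCompactSupport η) (u : ℂ) :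
    Continuous (fun z => fderiv ℝ η z u) ∧ HasCompactSupport (fun z => fderiv ℝ η z u) :=
  ⟨(dir_smooth hη u).continuous, hc.fderiv_apply (𝕜 := ℝ) u⟩

section prod

variable {B : Set ℂ}

/-- the product rule -/
lemma prod_rule {u : ℂ} {U A V X : ℂ → ℝ} (iU : MemLp U 2 (volume.restrict B))
    (iA : MemLp A 2 (volume.restrict B)) (iV : MemLp V 2 (volume.restrict B))
    (iX : MemLp X 2 (volume.restrict B)) (hU : WP B u U A) {f : ℕ → ℂ → ℝ}
    (sm : ∀ n, ContDiff ℝ ∞ (f n)) (m0 : ∀ n, MemLp (f n) 2 (volume.restrict B))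
    (mx : ∀ n, MemLp (fun z => fderiv ℝ (f n) z u) 2 (volume.restrict B))
    (t0 : Tendsto (fun n => eLpNorm (fun z => f n z - V z) 2 (volume.restrict B)) atTop (𝓝 0))
    (tx : Tendsto (fun n => eLpNorm (fun z => fderiv ℝ (f n) z u - X z) 2 (volume.restrict B))
      atTop (𝓝 0)) {η : ℂ → ℝ} (hη : ContDiff ℝ ∞ η) (hc : HasCompactSupport η)
    (hs : tsupport η ⊆ B) :
    ∫ z in B, fderiv ℝ η z u * (U z * V z) = -∫ z in B, η z * (U z * X z + V z * A z) := by
  obtain ⟨cd, sd⟩ := fd_comp hη hc u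
  have m1 : MemLp (fun z => fderiv ℝ η z u * U z) 2 (volume.restrict B) := mul_test cd sd iU
  have m2 : MemLp (fun z => η z * U z) 2 (volume.restrict B) := mul_test hη.continuous hc iU
  have m3 : MemLp (fun z => η z * A z) 2 (volume.restrict B) := mul_test hη.continuous hc iA
  have h1 : ∀ n, (∫ z in B, f n z * (fderiv ℝ η z u * U z)) +
      (∫ z in B, fderiv ℝ (f n) z u * (η z * U z)) + ∫ z in B, f n z * (η z * A z) = 0 := by
    intro n
    obtain ⟨k1, k2, k3, k4⟩ := test_mul hη hc hs (sm n)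
    have h2 := hU _ k1 k2 k3
    simp only [k4] at h2
    have j1 : Integrable (fun z => f n z * (fderiv ℝ η z u * U z)) (volume.restrict B) :=
      (m0 n).integrable_mul m1
    have j2 : Integrable (fun z => fderiv ℝ (f n) z u * (η z * U z)) (volume.restrict B) :=
      (mx n).integrable_mul m2
    rw [← integral_add j1 j2]
    have e1 : ∫ z in B, (f n z * (fderiv ℝ η z u * U z) + fderiv ℝ (f n) z u * (η z * U z)) =
        ∫ z in B, (fderiv ℝ η z u * f n z + η z * fderiv ℝ (f n) z u) * U z := by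
      refine integral_congr_ae (Eventually.of_forall fun z => ?_)
      simp only
      ring
    have e2 : ∫ z in B, f n z * (η z * A z) = ∫ z in B, η z * f n z * A z := by
      refine integral_congr_ae (Eventually.of_forall fun z => ?_)
      simp only
      ring
    rw [e1, e2, h2]
    ring
  have h2 := ((lim1 m0 iV m1 t0).add (lim1 mx iX m2 tx)).add (lim1 m0 iV m3 t0)
  simp only [h1] at h2
  have h3 := tendsto_nhds_unique h2 tendsto_const_nhds
  have i1 : Integrable (fun z => X z * (η z * U z)) (volume.restrict B) := iX.integrable_mul m2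
  have i2 : Integrable (fun z => V z * (η z * A z)) (volume.restrict B) := iV.integrable_mul m3
  have e1 : ∫ z in B, η z * (U z * X z + V z * A z) =
      (∫ z in B, X z * (η z * U z)) + ∫ z in B, V z * (η z * A z) := by
    rw [← integral_add i1 i2]
    refine integral_congr_ae (Eventually.of_forall fun z => ?_)
    simp only
    ring
  have e2 : ∫ z in B, fderiv ℝ η z u * (U z * V z) = ∫ z in B, V z * (fderiv ℝ η z u * U z) := by
    refine integral_congr_ae (Eventually.of_forall fun z => ?_)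
    simp only
    ring
  rw [e1, e2]
  linarith

end prod

end Pool.Agent.H992.LR
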