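import Pool.Agent.H992.LR.Con1

/-!
# Level repulsion: weak solutions `U, V, W` of one equation with `U V = W²`
-/

set_option autoImplicit false

open Set Filter Topology MeasureTheory Metric
open scoped ContDiff ENNReal
open Pool.Agent.Q233.GLV (lap dir_smooth)

noncomputable section

namespace Pool.Agent.H992.LR

variable {z0 : ℂ} {R R' : ℝ}

/-- functions with vanishing weak derivatives are constant -/
theorem wconst {F : ℂ → ℝ} (iF : MemLp F 2 (volume.restrict (ball z0 R)))
    (h1 : WP (ball z0 R) 1 F fun _ => 0) (h2 : WP (ball z0 R) Complex.I F fun _ => 0)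
    (hR : R' < R) : ∃ c : ℝ, ∀ᵐ z, z ∈ ball z0 R' → F z = c := by
  rcases le_or_gt R' 0 with h0 | h0
  · refine ⟨0, Eventually.of_forall fun z hz => ?_⟩
    rw [ball_eq_empty.2 h0] at hz
    exact absurd hz (notMem_empty z)
  obtain ⟨B, hB⟩ : ∃ B : Set ℂ, B = ball z0 R := ⟨_, rfl⟩
  have hBm : MeasurableSet B := by rw [hB]; exact isOpen_ball.measurableSet
  have hsub : ball z0 R' ⊆ B := by rw [hB]; exact ball_subset_ball hR.le
  rw [← hB] at iF h1 h2
  have hfin : IsFiniteMeasure ((volume : Measure ℂ).restrict B) :=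
    ⟨by rw [Measure.restrict_apply_univ, hB]; exact measure_ball_lt_top⟩
  have iF1 : IntegrableOn F B := iF.integrable (by norm_num)
  have hloc : LocallyIntegrable (B.indicator F) volume :=
    ((integrable_indicator_iff hBm).2 iF1).locallyIntegrable
  obtain ⟨N, hN⟩ := exists_nat_one_div_lt (sub_pos.2 hR)
  -- the mollified functions are constant
  have hc : ∀ n, N ≤ n → ∀ z ∈ ball z0 R', ∀ z' ∈ ball z0 R',
      ml n (B.indicator F) z = ml n (B.indicator F) z' := by
    intro n hn z hz z' hz'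
    have hle : 1 / ((n : ℝ) + 1) ≤ 1 / ((N : ℝ) + 1) := by
      apply one_div_le_one_div_of_le
      · positivity
      · have : (N : ℝ) ≤ n := by exact_mod_cast hn
        linarith
    have hin : ∀ z ∈ ball z0 R', closedBall z (1 / ((n : ℝ) + 1)) ⊆ B := by
      intro z hz w hw
      rw [hB, mem_ball]
      rw [mem_ball] at hz
      rw [mem_closedBall] at hw
      have := dist_triangle w z z0
      linarith
    have hz0 : ∀ w, ml n (B.indicator fun _ => (0 : ℝ)) w = 0 := by
      intro w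
      unfold ml
      simp
    refine isOpen_ball.is_const_of_fderiv_eq_zero (convex_ball z0 R').isPreconnected
      ((ml_smooth n hloc).differentiable (by simp)).differentiableOn ?_ hz hz'
    intro w hw
    have e1 := ml_weak hBm iF1 h1 (hin w hw)
    have e2 := ml_weak hBm iF1 h2 (hin w hw)
    rw [hz0] at e1 e2
    refine ContinuousLinearMap.ext fun v => ?_
    have hv : v = v.re • (1 : ℂ) + v.im • Complex.I := by
      simp
    rw [hv, map_add, map_smul, map_smul, e1, e2]
    simp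
  have hae := ml_ae (B.indicator F) hloc
  have hne : ∃ z1 ∈ ball z0 R', Tendsto (fun n => ml n (B.indicator F) z1) atTop
      (𝓝 (B.indicator F z1)) := by
    by_contra hcon
    push Not at hcon
    have h3 : volume (ball z0 R') = 0 := by
      rw [ae_iff] at hae
      refine measure_mono_null (fun z hz => ?_) hae
      exact hcon z hz
    exact (measure_ball_pos volume z0 h0).ne' h3
  obtain ⟨z1, hz1, ht1⟩ := hne
  refine ⟨B.indicator F z1, ?_⟩
  filter_upwards [hae] with z hz hzb
  rw [← indicator_of_mem (hsub hzb) F]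
  refine tendsto_nhds_unique hz (ht1.congr' ?_)
  filter_upwards [eventually_ge_atTop N] with n hn
  exact hc n hn z1 hz1 z hzb

lemma ln_le {ν : Measure ℂ} {f g : ℕ → ℂ → ℝ} {F G : ℂ → ℝ} {K : ℝ}
    (h : ∀ n, ∀ᵐ z ∂ν, |g n z - G z| ≤ K * |f n z - F z|)
    (hf : Tendsto (fun n => eLpNorm (fun z => f n z - F z) 2 ν) atTop (𝓝 0)) :
    Tendsto (fun n => eLpNorm (fun z => g n z - G z) 2 ν) atTop (𝓝 0) := by
  have h1 : Tendsto (fun n => ENNReal.ofReal K * eLpNorm (fun z => f n z - F z) 2 ν) atTop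
      (𝓝 0) := by
    have := ENNReal.Tendsto.const_mul hf (Or.inr (ENNReal.ofReal_ne_top (r := K)))
    rwa [mul_zero] at this
  refine tendsto_of_tendsto_of_tendsto_of_le_of_le tendsto_const_nhds h1 (fun _ => zero_le)
    fun n => ?_
  refine eLpNorm_le_mul_eLpNorm_of_ae_le_mul ?_ 2
  filter_upwards [h n] with z hz
  exact hz

section rules

variable {B : Set ℂ}

/-- the quotient rule -/
lemma quot_rule (hBo : IsOpen B) [IsFiniteMeasure ((volume : Measure ℂ).restrict B)] {u : ℂ}
    {U A V X : ℂ → ℝ} (iU : MemLp U 2 (volume.restrict B))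
    (iA : MemLp A 2 (volume.restrict B)) (iV : MemLp V 2 (volume.restrict B))
    (iX : MemLp X 2 (volume.restrict B)) (hV : WP B u V X) {δ M : ℝ} (hδ : 0 < δ)
    (hδU : ∀ᵐ z ∂(volume.restrict B), δ ≤ U z) (hM : ∀ᵐ z ∂(volume.restrict B), |V z| ≤ M)
    {f : ℕ → ℂ → ℝ}
    (sm : ∀ n, ContDiff ℝ ∞ (f n)) (m0 : ∀ n, MemLp (f n) 2 (volume.restrict B))
    (mx : ∀ n, MemLp (fun z => fderiv ℝ (f n) z u) 2 (volume.restrict B))
    (t0 : Tendsto (fun n => eLpNorm (fun z => f n z - U z) 2 (volume.restrict B)) atTop (𝓝 0))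
    (tx : Tendsto (fun n => eLpNorm (fun z => fderiv ℝ (f n) z u - A z) 2 (volume.restrict B))
      atTop (𝓝 0)) (hfδ : ∀ n, ∀ z ∈ B, δ ≤ f n z) :
    WP B u (fun z => V z / U z) (fun z => (U z * X z - V z * A z) / (U z) ^ 2) := by
  intro η hη hc hs
  have hBm : MeasurableSet B := hBo.measurableSet
  obtain ⟨cd, sd⟩ := fd_comp hη hc u
  have hfa : ∀ n, ∀ᵐ z ∂(volume.restrict B), δ ≤ f n z := fun n => by
    rw [ae_restrict_iff' hBm]
    exact Eventually.of_forall (hfδ n)
  obtain ⟨Cη, hCη⟩ := hη.continuous.bounded_above_of_compact_support hc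
  have hCη0 : 0 ≤ Cη := (norm_nonneg _).trans (hCη 0)
  have m1 : MemLp (fun z => fderiv ℝ η z u * V z) 2 (volume.restrict B) := mul_test cd sd iV
  have m2 : MemLp (fun z => η z * X z) 2 (volume.restrict B) := mul_test hη.continuous hc iX
  -- the inverse functions
  have inv_bd : ∀ {x : ℝ}, δ ≤ x → |x⁻¹| ≤ δ⁻¹ := fun {x} hx => by
    rw [abs_of_pos (inv_pos.2 (hδ.trans_le hx))]
    exact inv_anti₀ hδ hx
  have inv_df : ∀ {x y : ℝ}, δ ≤ x → δ ≤ y → |x⁻¹ - y⁻¹| ≤ (δ⁻¹ * δ⁻¹) * |x - y| := by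
    intro x y hx hy
    have hx0 : x ≠ 0 := (hδ.trans_le hx).ne'
    have hy0 : y ≠ 0 := (hδ.trans_le hy).ne'
    have e : x⁻¹ - y⁻¹ = (x⁻¹ * y⁻¹) * (y - x) := by field_simp
    rw [e, abs_mul, abs_mul, abs_sub_comm y x]
    exact mul_le_mul_of_nonneg_right (mul_le_mul (inv_bd hx) (inv_bd hy) (abs_nonneg _)
      (inv_pos.2 hδ).le) (abs_nonneg _)
  have g0 : ∀ n, MemLp (fun z => (f n z)⁻¹) 2 (volume.restrict B) := fun n => by
    refine MemLp.of_bound ((m0 n).1.aemeasurable.inv.aestronglyMeasurable) δ⁻¹ ?_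
    filter_upwards [hfa n] with z hz using inv_bd hz
  have gU : MemLp (fun z => (U z)⁻¹) 2 (volume.restrict B) := by
    refine MemLp.of_bound (iU.1.aemeasurable.inv.aestronglyMeasurable) δ⁻¹ ?_
    filter_upwards [hδU] with z hz using inv_bd hz
  have s0 : Tendsto (fun n => eLpNorm (fun z => (f n z)⁻¹ - (U z)⁻¹) 2 (volume.restrict B))
      atTop (𝓝 0) := by
    refine ln_le (K := δ⁻¹ * δ⁻¹) (fun n => ?_) t0
    filter_upwards [hfa n, hδU] with z h1 h2 using inv_df h1 h2
  have hM0 : ∀ᵐ z ∂(volume.restrict B), |η z * V z| ≤ Cη * |M| := by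
    filter_upwards [hM] with z hz
    rw [abs_mul]
    exact mul_le_mul (hCη z) (hz.trans (le_abs_self M)) (abs_nonneg _) hCη0
  have g1m : ∀ n, MemLp (fun z => η z * V z * ((f n z)⁻¹) ^ 2) 2 (volume.restrict B) := fun n => by
    refine MemLp.of_bound ?_ (Cη * |M| * (δ⁻¹) ^ 2) ?_
    · exact (hη.continuous.aestronglyMeasurable.mul iV.1).mul ((g0 n).1.pow 2)
    · filter_upwards [hM0, hfa n] with z h1 h2
      rw [Real.norm_eq_abs, abs_mul, abs_pow]
      exact mul_le_mul h1 (pow_le_pow_left₀ (abs_nonneg _) (inv_bd h2) 2) (by positivity)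
        (by positivity)
  have g1U : MemLp (fun z => η z * V z * ((U z)⁻¹) ^ 2) 2 (volume.restrict B) := by
    refine MemLp.of_bound ?_ (Cη * |M| * (δ⁻¹) ^ 2) ?_
    · exact (hη.continuous.aestronglyMeasurable.mul iV.1).mul (gU.1.pow 2)
    · filter_upwards [hM0, hδU] with z h1 h2
      rw [Real.norm_eq_abs, abs_mul, abs_pow]
      exact mul_le_mul h1 (pow_le_pow_left₀ (abs_nonneg _) (inv_bd h2) 2) (by positivity)
        (by positivity)
  have s1 : Tendsto (fun n => eLpNorm (fun z => η z * V z * ((f n z)⁻¹) ^ 2 -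
      η z * V z * ((U z)⁻¹) ^ 2) 2 (volume.restrict B)) atTop (𝓝 0) := by
    refine ln_le (K := Cη * |M| * (2 * δ⁻¹ * (δ⁻¹ * δ⁻¹))) (fun n => ?_) t0
    filter_upwards [hM0, hfa n, hδU] with z h1 h2 h3
    have e : η z * V z * ((f n z)⁻¹) ^ 2 - η z * V z * ((U z)⁻¹) ^ 2 =
        η z * V z * (((f n z)⁻¹ + (U z)⁻¹) * ((f n z)⁻¹ - (U z)⁻¹)) := by ring
    rw [e, abs_mul, abs_mul ((f n z)⁻¹ + (U z)⁻¹), mul_assoc (Cη * |M|), mul_assoc (2 * δ⁻¹)]
    refine mul_le_mul h1 (mul_le_mul ?_ (inv_df h2 h3) (abs_nonneg _) (by positivity))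
      (by positivity) (by positivity)
    refine (abs_add_le _ _).trans ?_
    have := inv_bd h2
    have := inv_bd h3
    linarith
  have h1 : ∀ n, (∫ z in B, (f n z)⁻¹ * (fderiv ℝ η z u * V z)) -
      (∫ z in B, fderiv ℝ (f n) z u * (η z * V z * ((f n z)⁻¹) ^ 2)) +
      ∫ z in B, (f n z)⁻¹ * (η z * X z) = 0 := by
    intro n
    obtain ⟨θ, hθ⟩ : ∃ θ : ℂ → ℝ, θ = fun z => η z * (f n z)⁻¹ := ⟨_, rfl⟩
    have hθs : ContDiff ℝ ∞ θ := by
      rw [contDiff_iff_contDiffAt]
      intro z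
      by_cases hz : z ∈ tsupport η
      · rw [hθ]
        exact hη.contDiffAt.mul ((sm n).contDiffAt.inv (hδ.trans_le (hfδ n z (hs hz))).ne')
      · have h2 : θ =ᶠ[𝓝 z] fun _ => (0 : ℝ) := by
          filter_upwards [(isClosed_tsupport η).isOpen_compl.mem_nhds hz] with w hw
          rw [hθ]
          simp only
          rw [image_eq_zero_of_notMem_tsupport hw, zero_mul]
        exact contDiffAt_const.congr_of_eventuallyEq h2
    have hθt : tsupport θ ⊆ tsupport η := by
      rw [hθ]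
      exact closure_mono (Function.support_mul_subset_left η fun z => (f n z)⁻¹)
    have hθc : HasCompactSupport θ := by
      rw [hθ]
      exact hc.mul_right
    have hθd : ∀ z ∈ B, fderiv ℝ θ z u = fderiv ℝ η z u * (f n z)⁻¹ -
        η z * (fderiv ℝ (f n) z u * ((f n z)⁻¹) ^ 2) := by
      intro z hz
      have hne : f n z ≠ 0 := (hδ.trans_le (hfδ n z hz)).ne'
      have d1 : HasFDerivAt η (fderiv ℝ η z) z := (hη.differentiable (by simp) z).hasFDerivAt
      have d2 : HasFDerivAt (f n) (fderiv ℝ (f n) z) z :=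
        ((sm n).differentiable (by simp) z).hasFDerivAt
      have d3 := d1.mul ((hasDerivAt_inv hne).comp_hasFDerivAt z d2)
      have d4 : fderiv ℝ θ z = η z • (-(f n z ^ 2)⁻¹ • fderiv ℝ (f n) z) +
          (f n z)⁻¹ • fderiv ℝ η z := by
        rw [hθ]
        exact d3.fderiv
      rw [d4]
      simp only [_root_.add_apply, _root_.smul_apply, smul_eq_mul, inv_pow]
      ring
    have h2 := hV θ hθs hθc (hθt.trans hs)
    have i1 : Integrable (fun z => (f n z)⁻¹ * (fderiv ℝ η z u * V z)) (volume.restrict B) :=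
      (g0 n).integrable_mul m1
    have i2 : Integrable (fun z => fderiv ℝ (f n) z u * (η z * V z * ((f n z)⁻¹) ^ 2))
      (volume.restrict B) := (mx n).integrable_mul (g1m n)
    rw [← integral_sub i1 i2]
    have e1 : ∫ z in B, ((f n z)⁻¹ * (fderiv ℝ η z u * V z) -
        fderiv ℝ (f n) z u * (η z * V z * ((f n z)⁻¹) ^ 2)) = ∫ z in B, fderiv ℝ θ z u * V z := by
      refine setIntegral_congr_fun hBm fun z hz => ?_
      rw [hθd z hz]
      ring
    have e2 : ∫ z in B, (f n z)⁻¹ * (η z * X z) = ∫ z in B, θ z * X z := by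
      refine integral_congr_ae (Eventually.of_forall fun z => ?_)
      simp only [hθ]
      ring
    rw [e1, e2, h2]
    ring
  have h2 := ((lim1 g0 gU m1 s0).sub (lim2 mx iA g1m g1U tx s1)).add (lim1 g0 gU m2 s0)
  simp only [h1] at h2
  have h3 := tendsto_nhds_unique h2 tendsto_const_nhds
  have i1 : Integrable (fun z => (U z)⁻¹ * (η z * X z)) (volume.restrict B) := gU.integrable_mul m2
  have i2 : Integrable (fun z => A z * (η z * V z * ((U z)⁻¹) ^ 2)) (volume.restrict B) :=
    iA.integrable_mul g1U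
  have e1 : ∫ z in B, η z * ((U z * X z - V z * A z) / (U z) ^ 2) =
      (∫ z in B, (U z)⁻¹ * (η z * X z)) - ∫ z in B, A z * (η z * V z * ((U z)⁻¹) ^ 2) := by
    rw [← integral_sub i1 i2]
    refine integral_congr_ae ?_
    filter_upwards [hδU] with z hz
    have hne : U z ≠ 0 := (hδ.trans_le hz).ne'
    field_simp
  have e2 : ∫ z in B, fderiv ℝ η z u * (V z / U z) =
      ∫ z in B, (U z)⁻¹ * (fderiv ℝ η z u * V z) := by
    refine integral_congr_ae (Eventually.of_forall fun z => ?_)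
    simp only
    rw [div_eq_mul_inv]
    ring
  rw [e1, e2]
  linarith

variable {q : ℂ → ℝ} {C : ℝ}

/-- the Dirichlet form of a weak solution and of another function -/
lemma lap_rule {U A₁ A₂ V X Y : ℂ → ℝ} (w : WS B U A₁ A₂ q C) (iV : MemLp V 2 (volume.restrict B))
    (iX : MemLp X 2 (volume.restrict B)) (iY : MemLp Y 2 (volume.restrict B)) {f : ℕ → ℂ → ℝ}
    (hf : Ap B V X Y f) {η : ℂ → ℝ} (hη : ContDiff ℝ ∞ η) (hc : HasCompactSupport η)
    (hs : tsupport η ⊆ B) :
    ∫ z in B, η z * (A₁ z * X z + A₂ z * Y z) = -(∫ z in B, η z * (q z * (U z * V z))) -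
      ∫ z in B, (fderiv ℝ η z 1 * (V z * A₁ z) + fderiv ℝ η z Complex.I * (V z * A₂ z)) := by
  obtain ⟨c1, s1⟩ := fd_comp hη hc 1
  obtain ⟨c2, s2⟩ := fd_comp hη hc Complex.I
  have m1 : MemLp (fun z => fderiv ℝ η z 1 * A₁ z) 2 (volume.restrict B) := mul_test c1 s1 w.iX
  have m2 : MemLp (fun z => fderiv ℝ η z Complex.I * A₂ z) 2 (volume.restrict B) :=
    mul_test c2 s2 w.iY
  have m3 : MemLp (fun z => η z * A₁ z) 2 (volume.restrict B) := mul_test hη.continuous hc w.iX
  have m4 : MemLp (fun z => η z * A₂ z) 2 (volume.restrict B) := mul_test hη.continuous hc w.iY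
  have m5 : MemLp (fun z => η z * (q z * U z)) 2 (volume.restrict B) :=
    mul_test hη.continuous hc w.iqV
  have h1 : ∀ n, ((∫ z in B, f n z * (fderiv ℝ η z 1 * A₁ z)) +
      ∫ z in B, fderiv ℝ (f n) z 1 * (η z * A₁ z)) +
      ((∫ z in B, f n z * (fderiv ℝ η z Complex.I * A₂ z)) +
      ∫ z in B, fderiv ℝ (f n) z Complex.I * (η z * A₂ z)) +
      ∫ z in B, f n z * (η z * (q z * U z)) = 0 := by
    intro n
    obtain ⟨k1, k2, k3, k4⟩ := test_mul hη hc hs (hf.sm n)
    obtain ⟨θ, hθ⟩ : ∃ θ : ℂ → ℝ, θ = fun z => η z * f n z := ⟨_, rfl⟩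
    rw [← hθ] at k1 k2 k3 k4
    have hts : ∀ u, tsupport (fun w => fderiv ℝ θ w u) ⊆ B := by
      intro u
      refine Set.Subset.trans ?_ k3
      refine closure_minimal (fun z hz => ?_) (isClosed_tsupport θ)
      by_contra hcon
      exact hz (fd_zero hcon u)
    have d1 := w.dx _ (dir_smooth k1 1) (k2.fderiv_apply (𝕜 := ℝ) 1) (hts 1)
    have d2 := w.dy _ (dir_smooth k1 Complex.I) (k2.fderiv_apply (𝕜 := ℝ) Complex.I)
      (hts Complex.I)
    have d3 := w.dl θ k1 k2 k3
    have j1 : Integrable (fun z => fderiv ℝ (fun w => fderiv ℝ θ w 1) z 1 * U z)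
        (volume.restrict B) := by
      obtain ⟨ca, sa⟩ := fd_comp (dir_smooth k1 1) (k2.fderiv_apply (𝕜 := ℝ) 1) 1
      exact (ca.memLp_of_hasCompactSupport (p := 2) sa).integrable_mul w.iV
    have j2 : Integrable (fun z => fderiv ℝ (fun w => fderiv ℝ θ w Complex.I) z Complex.I * U z)
        (volume.restrict B) := by
      obtain ⟨ca, sa⟩ := fd_comp (dir_smooth k1 Complex.I)
        (k2.fderiv_apply (𝕜 := ℝ) Complex.I) Complex.I
      exact (ca.memLp_of_hasCompactSupport (p := 2) sa).integrable_mul w.iV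
    have e0 : ∫ z in B, lap θ z * U z =
        (∫ z in B, fderiv ℝ (fun w => fderiv ℝ θ w 1) z 1 * U z) +
        ∫ z in B, fderiv ℝ (fun w => fderiv ℝ θ w Complex.I) z Complex.I * U z := by
      rw [← integral_add j1 j2]
      refine integral_congr_ae (Eventually.of_forall fun z => ?_)
      simp only [lap]
      ring
    rw [e0, d1, d2] at d3
    have e1 : (∫ z in B, f n z * (fderiv ℝ η z 1 * A₁ z)) +
        ∫ z in B, fderiv ℝ (f n) z 1 * (η z * A₁ z) = ∫ z in B, fderiv ℝ θ z 1 * A₁ z := by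
      have i1 : Integrable (fun z => f n z * (fderiv ℝ η z 1 * A₁ z)) (volume.restrict B) :=
        (hf.m0 n).integrable_mul m1
      have i2 : Integrable (fun z => fderiv ℝ (f n) z 1 * (η z * A₁ z)) (volume.restrict B) :=
        (hf.mx n).integrable_mul m3
      rw [← integral_add i1 i2]
      refine integral_congr_ae (Eventually.of_forall fun z => ?_)
      simp only [k4]
      ring
    have e2 : (∫ z in B, f n z * (fderiv ℝ η z Complex.I * A₂ z)) +
        ∫ z in B, fderiv ℝ (f n) z Complex.I * (η z * A₂ z) =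
        ∫ z in B, fderiv ℝ θ z Complex.I * A₂ z := by
      have i1 : Integrable (fun z => f n z * (fderiv ℝ η z Complex.I * A₂ z))
        (volume.restrict B) := (hf.m0 n).integrable_mul m2
      have i2 : Integrable (fun z => fderiv ℝ (f n) z Complex.I * (η z * A₂ z))
        (volume.restrict B) := (hf.my n).integrable_mul m4
      rw [← integral_add i1 i2]
      refine integral_congr_ae (Eventually.of_forall fun z => ?_)
      simp only [k4]
      ring
    have e3 : ∫ z in B, f n z * (η z * (q z * U z)) = ∫ z in B, θ z * (q z * U z) := by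
      refine integral_congr_ae (Eventually.of_forall fun z => ?_)
      simp only [hθ]
      ring
    rw [e1, e2, e3]
    linarith
  have h2 := (((lim1 hf.m0 iV m1 hf.t0).add (lim1 hf.mx iX m3 hf.tx)).add
    ((lim1 hf.m0 iV m2 hf.t0).add (lim1 hf.my iY m4 hf.ty))).add (lim1 hf.m0 iV m5 hf.t0)
  simp only [h1] at h2
  have h3 := tendsto_nhds_unique h2 tendsto_const_nhds
  have i1 : Integrable (fun z => V z * (fderiv ℝ η z 1 * A₁ z)) (volume.restrict B) :=
    iV.integrable_mul m1
  have i2 : Integrable (fun z => V z * (fderiv ℝ η z Complex.I * A₂ z)) (volume.restrict B) :=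
    iV.integrable_mul m2
  have i3 : Integrable (fun z => X z * (η z * A₁ z)) (volume.restrict B) := iX.integrable_mul m3
  have i4 : Integrable (fun z => Y z * (η z * A₂ z)) (volume.restrict B) := iY.integrable_mul m4
  have e1 : ∫ z in B, η z * (A₁ z * X z + A₂ z * Y z) =
      (∫ z in B, X z * (η z * A₁ z)) + ∫ z in B, Y z * (η z * A₂ z) := by
    rw [← integral_add i3 i4]
    refine integral_congr_ae (Eventually.of_forall fun z => ?_)
    simp only
    ring
  have e2 : ∫ z in B, η z * (q z * (U z * V z)) = ∫ z in B, V z * (η z * (q z * U z)) := by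
    refine integral_congr_ae (Eventually.of_forall fun z => ?_)
    simp only
    ring
  have e3 : ∫ z in B, (fderiv ℝ η z 1 * (V z * A₁ z) + fderiv ℝ η z Complex.I * (V z * A₂ z)) =
      (∫ z in B, V z * (fderiv ℝ η z 1 * A₁ z)) +
      ∫ z in B, V z * (fderiv ℝ η z Complex.I * A₂ z) := by
    rw [← integral_add i1 i2]
    refine integral_congr_ae (Eventually.of_forall fun z => ?_)
    simp only
    ring
  rw [e1, e2, e3]
  linarith

end rules

end Pool.Agent.H992.LR
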