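import Pool.Agent.H992.LR.Con2

/-!
# Level repulsion: weak solutions with `U V = W²` are proportional
-/

set_option autoImplicit false

open Set Filter Topology MeasureTheory Metric
open scoped ContDiff ENNReal
open Pool.Agent.Q233.GLV (lap dir_smooth lap_off)

noncomputable section

namespace Pool.Agent.H992.LR

variable {z0 : ℂ} {R R' : ℝ} {q : ℂ → ℝ} {C : ℝ}

lemma WS.mono {B B' : Set ℂ} (hB : MeasurableSet B) (hBB : B' ⊆ B) {V X Y : ℂ → ℝ}
    (w : WS B V X Y q C) : WS B' V X Y q C := by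
  have hm : (volume : Measure ℂ).restrict B' ≤ volume.restrict B := Measure.restrict_mono_set _ hBB
  refine ⟨w.iV.mono_measure hm, w.iX.mono_measure hm, w.iY.mono_measure hm, w.mq.mono_measure hm,
    ae_mono hm w.bq, ?_, ?_, ?_⟩
  · exact WP.mono hB hBB w.dx
  · exact WP.mono hB hBB w.dy
  · intro η hη hc hs
    rw [sub_int hB hBB fun z hz => by
        rw [lap_off (isClosed_tsupport η) (fun w hw => image_eq_zero_of_notMem_tsupport hw)
          (fun h => hz (hs h)), zero_mul],
      sub_int hB hBB fun z hz => by rw [image_eq_zero_of_notMem_tsupport (fun h => hz (hs h)),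
        zero_mul]]
    exact w.dl η hη hc (hs.trans hBB)

/-- functions which are orthogonal to all test functions vanish -/
lemma test_zero {B : Set ℂ} (hB : IsOpen B) {f : ℂ → ℝ} (hf : IntegrableOn f B)
    (h : ∀ η : ℂ → ℝ, ContDiff ℝ ∞ η → HasCompactSupport η → tsupport η ⊆ B →
      ∫ z in B, η z * f z = 0) : ∀ᵐ z, z ∈ B → f z = 0 := by
  refine hB.ae_eq_zero_of_integral_contDiff_smul_eq_zero hf.locallyIntegrableOn
    fun η hη hc hs => ?_
  have h1 := h η hη hc hs
  rw [← setIntegral_eq_integral_of_forall_compl_eq_zero (s := B)]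
  · exact h1
  · intro z hz
    rw [image_eq_zero_of_notMem_tsupport (fun h => hz (hs h)), zero_smul]

/-- **the gradients of three solutions of one equation with `U V = W²`** -/
theorem conic_grad {B : Set ℂ} (hBo : IsOpen B) [IsFiniteMeasure ((volume : Measure ℂ).restrict B)]
    {U A₁ A₂ V X Y W Z₁ Z₂ : ℂ → ℝ} (wU : WS B U A₁ A₂ q C) (wV : WS B V X Y q C)
    (wW : WS B W Z₁ Z₂ q C) {fU fV fW : ℕ → ℂ → ℝ} (aU : Ap B U A₁ A₂ fU) (aV : Ap B V X Y fV)
    (aW : Ap B W Z₁ Z₂ fW) (h : ∀ᵐ z ∂(volume.restrict B), U z * V z = (W z) ^ 2) :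
    ∀ᵐ z ∂(volume.restrict B), U z * X z - V z * A₁ z = 0 ∧ U z * Y z - V z * A₂ z = 0 := by
  have hBm : MeasurableSet B := hBo.measurableSet
  -- integrability
  have ii : ∀ {f g : ℂ → ℝ}, MemLp f 2 (volume.restrict B) → MemLp g 2 (volume.restrict B) →
      Integrable (fun z => f z * g z) (volume.restrict B) := fun hf hg => hf.integrable_mul hg
  -- the first derivatives
  have P1 : ∀ᵐ z, z ∈ B → U z * X z + V z * A₁ z - 2 * (W z * Z₁ z) = 0 := by
    refine test_zero hBo (((ii wU.iV wV.iX).add (ii wV.iV wU.iX)).sub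
      ((ii wW.iV wW.iX).const_mul 2)) fun η hη hc hs => ?_
    have h1 := prod_rule wU.iV wU.iX wV.iV wV.iX wU.dx aV.sm aV.m0 aV.mx aV.t0 aV.tx hη hc hs
    have h2 := prod_rule wW.iV wW.iX wW.iV wW.iX wW.dx aW.sm aW.m0 aW.mx aW.t0 aW.tx hη hc hs
    have h3 : ∫ z in B, fderiv ℝ η z 1 * (U z * V z) = ∫ z in B, fderiv ℝ η z 1 * (W z * W z) := by
      refine integral_congr_ae ?_
      filter_upwards [h] with z hz
      rw [hz]
      ring
    have k1 : Integrable (fun z => η z * (U z * X z + V z * A₁ z)) (volume.restrict B) := by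
      have e : (fun z => η z * (U z * X z + V z * A₁ z)) = fun z => (η z * U z) * X z +
          (η z * V z) * A₁ z := by funext z; ring
      rw [e]
      exact (ii (mul_test hη.continuous hc wU.iV) wV.iX).add
        (ii (mul_test hη.continuous hc wV.iV) wU.iX)
    have k2 : Integrable (fun z => η z * (W z * Z₁ z + W z * Z₁ z)) (volume.restrict B) := by
      have e : (fun z => η z * (W z * Z₁ z + W z * Z₁ z)) = fun z => (η z * W z) * Z₁ z +
          (η z * W z) * Z₁ z := by funext z; ring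
      rw [e]
      exact (ii (mul_test hη.continuous hc wW.iV) wW.iX).add
        (ii (mul_test hη.continuous hc wW.iV) wW.iX)
    have h4 : ∫ z in B, η z * (U z * X z + V z * A₁ z - 2 * (W z * Z₁ z)) =
        (∫ z in B, η z * (U z * X z + V z * A₁ z)) - ∫ z in B, η z * (W z * Z₁ z + W z * Z₁ z) := by
      rw [← integral_sub k1 k2]
      refine integral_congr_ae (Eventually.of_forall fun z => ?_)
      simp only
      ring
    rw [h4]
    linarith
  have P2 : ∀ᵐ z, z ∈ B → U z * Y z + V z * A₂ z - 2 * (W z * Z₂ z) = 0 := by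
    refine test_zero hBo (((ii wU.iV wV.iY).add (ii wV.iV wU.iY)).sub
      ((ii wW.iV wW.iY).const_mul 2)) fun η hη hc hs => ?_
    have h1 := prod_rule wU.iV wU.iY wV.iV wV.iY wU.dy aV.sm aV.m0 aV.my aV.t0 aV.ty hη hc hs
    have h2 := prod_rule wW.iV wW.iY wW.iV wW.iY wW.dy aW.sm aW.m0 aW.my aW.t0 aW.ty hη hc hs
    have h3 : ∫ z in B, fderiv ℝ η z Complex.I * (U z * V z) =
        ∫ z in B, fderiv ℝ η z Complex.I * (W z * W z) := by
      refine integral_congr_ae ?_
      filter_upwards [h] with z hz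
      rw [hz]
      ring
    have k1 : Integrable (fun z => η z * (U z * Y z + V z * A₂ z)) (volume.restrict B) := by
      have e : (fun z => η z * (U z * Y z + V z * A₂ z)) = fun z => (η z * U z) * Y z +
          (η z * V z) * A₂ z := by funext z; ring
      rw [e]
      exact (ii (mul_test hη.continuous hc wU.iV) wV.iY).add
        (ii (mul_test hη.continuous hc wV.iV) wU.iY)
    have k2 : Integrable (fun z => η z * (W z * Z₂ z + W z * Z₂ z)) (volume.restrict B) := by
      have e : (fun z => η z * (W z * Z₂ z + W z * Z₂ z)) = fun z => (η z * W z) * Z₂ z +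
          (η z * W z) * Z₂ z := by funext z; ring
      rw [e]
      exact (ii (mul_test hη.continuous hc wW.iV) wW.iY).add
        (ii (mul_test hη.continuous hc wW.iV) wW.iY)
    have h4 : ∫ z in B, η z * (U z * Y z + V z * A₂ z - 2 * (W z * Z₂ z)) =
        (∫ z in B, η z * (U z * Y z + V z * A₂ z)) - ∫ z in B, η z * (W z * Z₂ z + W z * Z₂ z) := by
      rw [← integral_sub k1 k2]
      refine integral_congr_ae (Eventually.of_forall fun z => ?_)
      simp only
      ring
    rw [h4]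
    linarith
  have P1' : ∀ᵐ z ∂(volume.restrict B), U z * X z + V z * A₁ z - 2 * (W z * Z₁ z) = 0 :=
    (ae_restrict_iff' hBm).2 P1
  have P2' : ∀ᵐ z ∂(volume.restrict B), U z * Y z + V z * A₂ z - 2 * (W z * Z₂ z) = 0 :=
    (ae_restrict_iff' hBm).2 P2
  -- the Dirichlet forms
  have P3 : ∀ᵐ z, z ∈ B → (Z₁ z * Z₁ z + Z₂ z * Z₂ z) - (A₁ z * X z + A₂ z * Y z) = 0 := by
    refine test_zero hBo (((ii wW.iX wW.iX).add (ii wW.iY wW.iY)).sub
      ((ii wU.iX wV.iX).add (ii wU.iY wV.iY))) fun η hη hc hs => ?_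
    have h1 := lap_rule wU wV.iV wV.iX wV.iY aV hη hc hs
    have h2 := lap_rule wV wU.iV wU.iX wU.iY aU hη hc hs
    have h3 := lap_rule wW wW.iV wW.iX wW.iY aW hη hc hs
    obtain ⟨c1, s1⟩ := fd_comp hη hc 1
    obtain ⟨c2, s2⟩ := fd_comp hη hc Complex.I
    have tt : ∀ {θ f g : ℂ → ℝ}, Continuous θ → HasCompactSupport θ →
        MemLp f 2 (volume.restrict B) → MemLp g 2 (volume.restrict B) →
        Integrable (fun z => θ z * (f z * g z)) (volume.restrict B) := by
      intro θ f g h1 h2 hf hg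
      have e : (fun z => θ z * (f z * g z)) = fun z => (θ z * f z) * g z := by funext z; ring
      rw [e]
      exact ii (mul_test h1 h2 hf) hg
    have e1 : ∫ z in B, η z * (q z * (U z * V z)) = ∫ z in B, η z * (q z * (W z * W z)) := by
      refine integral_congr_ae ?_
      filter_upwards [h] with z hz
      rw [hz]
      ring
    have e2 : ∫ z in B, η z * (q z * (V z * U z)) = ∫ z in B, η z * (q z * (W z * W z)) := by
      refine integral_congr_ae ?_
      filter_upwards [h] with z hz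
      rw [mul_comm (V z), hz]
      ring
    have e3 : (∫ z in B, (fderiv ℝ η z 1 * (V z * A₁ z) + fderiv ℝ η z Complex.I * (V z * A₂ z))) +
        (∫ z in B, (fderiv ℝ η z 1 * (U z * X z) + fderiv ℝ η z Complex.I * (U z * Y z))) =
        2 * ∫ z in B, (fderiv ℝ η z 1 * (W z * Z₁ z) + fderiv ℝ η z Complex.I * (W z * Z₂ z)) := by
      have j1 : Integrable (fun z => fderiv ℝ η z 1 * (V z * A₁ z) +
          fderiv ℝ η z Complex.I * (V z * A₂ z)) (volume.restrict B) :=
        (tt c1 s1 wV.iV wU.iX).add (tt c2 s2 wV.iV wU.iY)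
      have j2 : Integrable (fun z => fderiv ℝ η z 1 * (U z * X z) +
          fderiv ℝ η z Complex.I * (U z * Y z)) (volume.restrict B) :=
        (tt c1 s1 wU.iV wV.iX).add (tt c2 s2 wU.iV wV.iY)
      rw [← integral_add j1 j2, ← integral_const_mul]
      refine integral_congr_ae ?_
      filter_upwards [P1', P2'] with z h5 h6
      linear_combination fderiv ℝ η z 1 * h5 + fderiv ℝ η z Complex.I * h6
    have e4 : ∫ z in B, η z * (X z * A₁ z + Y z * A₂ z) =
        ∫ z in B, η z * (A₁ z * X z + A₂ z * Y z) := by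
      refine integral_congr_ae (Eventually.of_forall fun z => ?_)
      simp only
      ring
    have k1 : Integrable (fun z => η z * (Z₁ z * Z₁ z + Z₂ z * Z₂ z)) (volume.restrict B) := by
      simp only [mul_add]
      exact (tt hη.continuous hc wW.iX wW.iX).add (tt hη.continuous hc wW.iY wW.iY)
    have k2 : Integrable (fun z => η z * (A₁ z * X z + A₂ z * Y z)) (volume.restrict B) := by
      simp only [mul_add]
      exact (tt hη.continuous hc wU.iX wV.iX).add (tt hη.continuous hc wU.iY wV.iY)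
    have h4 : ∫ z in B, η z * ((Z₁ z * Z₁ z + Z₂ z * Z₂ z) - (A₁ z * X z + A₂ z * Y z)) =
        (∫ z in B, η z * (Z₁ z * Z₁ z + Z₂ z * Z₂ z)) -
          ∫ z in B, η z * (A₁ z * X z + A₂ z * Y z) := by
      rw [← integral_sub k1 k2]
      refine integral_congr_ae (Eventually.of_forall fun z => ?_)
      simp only
      ring
    rw [h4]
    rw [e4] at h2
    linarith
  have P3' : ∀ᵐ z ∂(volume.restrict B),
      (Z₁ z * Z₁ z + Z₂ z * Z₂ z) - (A₁ z * X z + A₂ z * Y z) = 0 := (ae_restrict_iff' hBm).2 P3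
  filter_upwards [h, P1', P2', P3'] with z h0 h1 h2 h3
  have h4 : (U z * X z - V z * A₁ z) ^ 2 + (U z * Y z - V z * A₂ z) ^ 2 = 0 := by
    have e1 : U z * X z + V z * A₁ z = 2 * (W z * Z₁ z) := by linarith
    have e2 : U z * Y z + V z * A₂ z = 2 * (W z * Z₂ z) := by linarith
    have e3 : (U z * X z - V z * A₁ z) ^ 2 + (U z * Y z - V z * A₂ z) ^ 2 =
        (U z * X z + V z * A₁ z) ^ 2 + (U z * Y z + V z * A₂ z) ^ 2 -
          4 * (U z * V z) * (A₁ z * X z + A₂ z * Y z) := by ring
    rw [e3, e1, e2, h0]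
    have e4 : A₁ z * X z + A₂ z * Y z = Z₁ z * Z₁ z + Z₂ z * Z₂ z := by linarith
    rw [e4]
    ring
  constructor
  · nlinarith [sq_nonneg (U z * X z - V z * A₁ z), sq_nonneg (U z * Y z - V z * A₂ z)]
  · nlinarith [sq_nonneg (U z * X z - V z * A₁ z), sq_nonneg (U z * Y z - V z * A₂ z)]

/-- **solutions with `U V = W²` are proportional** -/
theorem conic_const {U A₁ A₂ V X Y W Z₁ Z₂ : ℂ → ℝ} (wU : WS (ball z0 R) U A₁ A₂ q C)
    (wV : WS (ball z0 R) V X Y q C) (wW : WS (ball z0 R) W Z₁ Z₂ q C)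
    (h : ∀ᵐ z, z ∈ ball z0 R → U z * V z = (W z) ^ 2) {δ M : ℝ} (hδ : 0 < δ)
    (hδU : ∀ᵐ z, z ∈ ball z0 R → δ ≤ U z) (hM : ∀ᵐ z, z ∈ ball z0 R → |V z| ≤ M) (hR : R' < R) :
    ∃ c : ℝ, ∀ᵐ z, z ∈ ball z0 R' → V z = c * U z := by
  obtain ⟨r, hr1, hr2⟩ := exists_between hR
  obtain ⟨fU, aU, hfU⟩ := approx wU.iV wU.iX wU.iY wU.dx wU.dy hr2
  obtain ⟨fV, aV, -⟩ := approx wV.iV wV.iX wV.iY wV.dx wV.dy hr2
  obtain ⟨fW, aW, -⟩ := approx wW.iV wW.iX wW.iY wW.dx wW.dy hr2
  have hBm : MeasurableSet (ball z0 R) := isOpen_ball.measurableSet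
  have hsub : ball z0 r ⊆ ball z0 R := ball_subset_ball hr2.le
  have wU' := wU.mono hBm hsub
  have wV' := wV.mono hBm hsub
  have wW' := wW.mono hBm hsub
  have hfin : IsFiniteMeasure ((volume : Measure ℂ).restrict (ball z0 r)) :=
    ⟨by rw [Measure.restrict_apply_univ]; exact measure_ball_lt_top⟩
  have toR : ∀ {P : ℂ → Prop}, (∀ᵐ z, z ∈ ball z0 R → P z) →
      ∀ᵐ z ∂(volume.restrict (ball z0 r)), P z := by
    intro P hP
    rw [ae_restrict_iff' isOpen_ball.measurableSet]
    filter_upwards [hP] with z hz hzb using hz (hsub hzb)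
  have hg := conic_grad isOpen_ball wU' wV' wW' aU aV aW (toR h)
  have q1 := quot_rule isOpen_ball wU'.iV wU'.iX wV'.iV wV'.iX wV'.dx hδ (toR hδU) (toR hM)
    aU.sm aU.m0 aU.mx aU.t0 aU.tx (hfU δ hδU)
  have q2 := quot_rule isOpen_ball wU'.iV wU'.iY wV'.iV wV'.iY wV'.dy hδ (toR hδU) (toR hM)
    aU.sm aU.m0 aU.my aU.t0 aU.ty (hfU δ hδU)
  have iF : MemLp (fun z => V z / U z) 2 (volume.restrict (ball z0 r)) := by
    refine MemLp.of_bound ?_ (M / δ) ?_
    · exact (wV'.iV.1.aemeasurable.div wU'.iV.1.aemeasurable).aestronglyMeasurable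
    · filter_upwards [toR hM, toR hδU] with z h1 h2
      rw [Real.norm_eq_abs, abs_div, abs_of_pos (hδ.trans_le h2)]
      exact div_le_div₀ ((abs_nonneg _).trans h1) h1 hδ h2
  obtain ⟨c, hc⟩ := wconst iF (fun η hη hc hs => by
      rw [q1 η hη hc hs]
      congr 1
      refine integral_congr_ae ?_
      filter_upwards [hg] with z hz
      rw [hz.1, zero_div]) (fun η hη hc hs => by
      rw [q2 η hη hc hs]
      congr 1
      refine integral_congr_ae ?_
      filter_upwards [hg] with z hz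
      rw [hz.2, zero_div]) hr1
  refine ⟨c, ?_⟩
  filter_upwards [hc, hδU] with z h1 h2 hz
  have h3 := h2 (hsub (ball_subset_ball hr1.le hz))
  rw [← h1 hz, div_mul_cancel₀ _ (hδ.trans_le h3).ne']

lemma WS.neg {B : Set ℂ} {V X Y : ℂ → ℝ} (w : WS B V X Y q C) :
    WS B (fun z => -V z) (fun z => -X z) (fun z => -Y z) q C := by
  refine ⟨w.iV.neg, w.iX.neg, w.iY.neg, w.mq, w.bq, ?_, ?_, ?_⟩
  · intro η hη hc hs
    have := w.dx η hη hc hs
    simp only [mul_neg, integral_neg]
    rw [this]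
  · intro η hη hc hs
    have := w.dy η hη hc hs
    simp only [mul_neg, integral_neg]
    rw [this]
  · intro η hη hc hs
    have := w.dl η hη hc hs
    simp only [mul_neg, integral_neg]
    rw [this]

/-- near a point where `W ≠ 0` -/
theorem conic_local {U A₁ A₂ V X Y W Z₁ Z₂ : ℂ → ℝ} (hR0 : 0 < R) (wU : WS (ball z0 R) U A₁ A₂ q C)
    (wV : WS (ball z0 R) V X Y q C) (wW : WS (ball z0 R) W Z₁ Z₂ q C)
    (h : ∀ᵐ z, z ∈ ball z0 R → U z * V z = (W z) ^ 2)
    (hW : ∀ᵐ z, z ∈ ball z0 R → W z ≠ 0) :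
    ∃ (z1 : ℂ) (r c : ℝ), 0 < r ∧ ball z1 r ⊆ ball z0 R ∧
      ∀ᵐ z, z ∈ ball z1 r → V z = c * U z := by
  obtain ⟨GU, hGU, hU⟩ := wU.cont hR0
  obtain ⟨GV, hGV, hV⟩ := wV.cont hR0
  -- a point where `U ≠ 0`
  have hex : ∃ z1 ∈ ball z0 (R / 2), (GU z1).re ≠ 0 := by
    by_contra hcon
    push Not at hcon
    have h1 : volume (ball z0 (R / 2)) = 0 := by
      have h2 : ∀ᵐ z, z ∉ ball z0 (R / 2) := by
        filter_upwards [hU, h, hW] with z h3 h4 h5 hz
        have hzR : z ∈ ball z0 R := ball_subset_ball (by linarith) hz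
        have h6 := h4 hzR
        have h7 : U z = 0 := by
          have := hcon z hz
          rw [← h3 hz] at this
          exact_mod_cast this
        rw [h7, zero_mul] at h6
        exact h5 hzR (by
          have := h6.symm
          exact pow_eq_zero_iff (two_ne_zero) |>.1 this)
      rw [ae_iff] at h2
      refine measure_mono_null (fun z hz => ?_) h2
      exact not_not.2 hz
    exact (measure_ball_pos volume z0 (by positivity)).ne' h1
  obtain ⟨z1, hz1, hne⟩ := hex
  obtain ⟨δ, hδ⟩ : ∃ δ : ℝ, δ = |(GU z1).re| / 2 := ⟨_, rfl⟩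
  have hδ0 : 0 < δ := by rw [hδ]; positivity
  have hcU : Continuous fun z => (GU z).re := Complex.continuous_re.comp hGU
  have hcV : Continuous fun z => |(GV z).re| := (Complex.continuous_re.comp hGV).abs
  have hball : ∀ᶠ z in 𝓝 z1, z ∈ ball z0 (R / 2) := isOpen_ball.mem_nhds hz1
  have hbV : ∀ᶠ z in 𝓝 z1, |(GV z).re| < |(GV z1).re| + 1 :=
    hcV.continuousAt.eventually_lt_const (by linarith)
  have hUre : ∀ᵐ z, z ∈ ball z0 (R / 2) → U z = (GU z).re := by
    filter_upwards [hU] with z hz hzb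
    rw [← hz hzb, Complex.ofReal_re]
  have hVre : ∀ᵐ z, z ∈ ball z0 (R / 2) → V z = (GV z).re := by
    filter_upwards [hV] with z hz hzb
    rw [← hz hzb, Complex.ofReal_re]
  have hhalf : ball z0 (R / 2) ⊆ ball z0 R := ball_subset_ball (by linarith)
  rcases lt_or_gt_of_ne hne with hneg | hpos
  · have hbU : ∀ᶠ z in 𝓝 z1, δ < -(GU z).re := by
      refine hcU.neg.continuousAt.eventually_const_lt ?_
      show δ < -(GU z1).re
      rw [hδ, abs_of_neg hneg]
      linarith
    obtain ⟨r, hr, hr2⟩ := Metric.eventually_nhds_iff_ball.1 ((hball.and hbV).and hbU)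
    have hsub : ball z1 r ⊆ ball z0 (R / 2) := fun z hz => (hr2 z hz).1.1
    have hsub2 : ball z1 r ⊆ ball z0 R := hsub.trans hhalf
    have hBm : MeasurableSet (ball z0 R) := isOpen_ball.measurableSet
    obtain ⟨c, hc⟩ := conic_const (R' := r / 2) (wU.mono hBm hsub2).neg (wV.mono hBm hsub2).neg
      (wW.mono hBm hsub2) (δ := δ) (M := |(GV z1).re| + 1) (by
        filter_upwards [h] with z hz hzb
        rw [neg_mul_neg]
        exact hz (hsub2 hzb)) hδ0 (by
        filter_upwards [hUre] with z hz hzb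
        rw [hz (hsub hzb)]
        exact (hr2 z hzb).2.le) (by
        filter_upwards [hVre] with z hz hzb
        rw [abs_neg, hz (hsub hzb)]
        exact (hr2 z hzb).1.2.le) (by linarith)
    refine ⟨z1, r / 2, c, by positivity, (ball_subset_ball (by linarith)).trans hsub2, ?_⟩
    filter_upwards [hc] with z hz hzb
    have := hz hzb
    linarith
  · have hbU : ∀ᶠ z in 𝓝 z1, δ < (GU z).re := by
      refine hcU.continuousAt.eventually_const_lt ?_
      rw [hδ, abs_of_pos hpos]
      linarith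
    obtain ⟨r, hr, hr2⟩ := Metric.eventually_nhds_iff_ball.1 ((hball.and hbV).and hbU)
    have hsub : ball z1 r ⊆ ball z0 (R / 2) := fun z hz => (hr2 z hz).1.1
    have hsub2 : ball z1 r ⊆ ball z0 R := hsub.trans hhalf
    have hBm : MeasurableSet (ball z0 R) := isOpen_ball.measurableSet
    obtain ⟨c, hc⟩ := conic_const (R' := r / 2) (wU.mono hBm hsub2) (wV.mono hBm hsub2)
      (wW.mono hBm hsub2) (δ := δ) (M := |(GV z1).re| + 1) (by
        filter_upwards [h] with z hz hzb
        exact hz (hsub2 hzb)) hδ0 (by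
        filter_upwards [hUre] with z hz hzb
        rw [hz (hsub hzb)]
        exact (hr2 z hzb).2.le) (by
        filter_upwards [hVre] with z hz hzb
        rw [hz (hsub hzb)]
        exact (hr2 z hzb).1.2.le) (by linarith)
    refine ⟨z1, r / 2, c, by positivity, (ball_subset_ball (by linarith)).trans hsub2, ?_⟩
    filter_upwards [hc] with z hz hzb
    exact hz hzb

end Pool.Agent.H992.LR
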