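import Mathlib

/-!
# Level repulsion: functions with a cone at most points of small sets only
-/

set_option autoImplicit false

open Set Filter Topology MeasureTheory

noncomputable section

namespace Pool.Agent.H992.LR

variable {V : Type} [NormedAddCommGroup V] [NormedSpace ℝ V] {ι : Type} [Fintype ι]

/-- the point `φ + ∑ τ i • h i` -/
def mv (h : ι → V) (φ : V) (τ : ι → ℝ) : V := φ + ∑ i, τ i • h i

lemma mv_mv (h : ι → V) (φ : V) (τ τ' : ι → ℝ) : mv h (mv h φ τ) τ' = mv h φ (τ + τ') := by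
  simp only [mv, Pi.add_apply, add_smul, Finset.sum_add_distrib]
  abel

lemma mv_zero (h : ι → V) (φ : V) : mv h φ 0 = φ := by
  simp [mv]

lemma mv_cont (h : ι → V) : Continuous fun q : V × (ι → ℝ) => mv h q.1 q.2 := by
  unfold mv
  fun_prop

/-- the points at which the function `T` has, up to the error `s`, an upward cone over an affine
function in the space of the directions `h i` -/
def Cone (T : V → ℝ) (h : ι → V) (L c C δ s : ℝ) : Set V :=
  {φ | ∃ p : ι → ℝ, ‖p‖ ≤ L ∧ ∀ τ : ι → ℝ, ‖τ‖ ≤ δ →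
    T φ - s + (∑ i, p i * τ i) + c * ‖τ‖ - C * ‖τ‖ ^ 2 ≤ T (mv h φ τ)}

lemma cone_closed {T : V → ℝ} (hT : Continuous T) (h : ι → V) (L c C δ s : ℝ) :
    IsClosed (Cone T h L c C δ s) := by
  rw [← isSeqClosed_iff_isClosed]
  intro φs φ hφs hφ
  choose p hp1 hp2 using hφs
  have hp3 : ∀ n, p n ∈ Metric.closedBall (0 : ι → ℝ) L := fun n => by
    rw [mem_closedBall_zero_iff]
    exact hp1 n
  obtain ⟨q, hq, k, hk, hkq⟩ := (isCompact_closedBall (0 : ι → ℝ) L).tendsto_subseq hp3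
  rw [mem_closedBall_zero_iff] at hq
  refine ⟨q, hq, fun τ hτ => ?_⟩
  have hφ' : Tendsto (fun n => φs (k n)) atTop (𝓝 φ) := hφ.comp hk.tendsto_atTop
  have e1 : Tendsto (fun n => T (φs (k n)) - s + (∑ i, p (k n) i * τ i) +
      c * ‖τ‖ - C * ‖τ‖ ^ 2) atTop
      (𝓝 (T φ - s + (∑ i, q i * τ i) + c * ‖τ‖ - C * ‖τ‖ ^ 2)) := by
    have a1 := (hT.tendsto φ).comp hφ'
    have a2 : Tendsto (fun n => ∑ i, p (k n) i * τ i) atTop (𝓝 (∑ i, q i * τ i)) := by
      refine tendsto_finsetSum _ fun i _ => ?_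
      exact (((continuous_apply i).tendsto q).comp hkq).mul_const _
    exact (((a1.sub_const s).add a2).add_const _).sub_const _
  have e2 : Tendsto (fun n => T (mv h (φs (k n)) τ)) atTop (𝓝 (T (mv h φ τ))) :=
    (hT.tendsto _).comp (hφ'.add_const _)
  exact le_of_tendsto_of_tendsto' e1 e2 fun n => hp2 (k n) τ hτ

/-- two points of a cone set have different slopes -/
lemma cone_two {T : V → ℝ} {h : ι → V} {c C δ s : ℝ} (hc : 0 < c)
    {ψ : V} {t t' p p' : ι → ℝ}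
    (ht : ∀ τ : ι → ℝ, ‖τ‖ ≤ δ →
      T (mv h ψ t) - s + (∑ i, p i * τ i) + c * ‖τ‖ - C * ‖τ‖ ^ 2 ≤ T (mv h (mv h ψ t) τ))
    (ht' : ∀ τ : ι → ℝ, ‖τ‖ ≤ δ →
      T (mv h ψ t') - s + (∑ i, p' i * τ i) + c * ‖τ‖ - C * ‖τ‖ ^ 2 ≤ T (mv h (mv h ψ t') τ))
    (h3 : ‖t' - t‖ ≤ δ) (h4 : ‖t' - t‖ * (4 * C) ≤ c) (h5 : 4 * s / c < ‖t' - t‖) :
    c < Fintype.card ι * ‖p' - p‖ := by
  obtain ⟨τ, hτ⟩ : ∃ τ, τ = t' - t := ⟨_, rfl⟩
  rw [← hτ] at h3 h4 h5
  have e1 := ht τ h3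
  have e2 := ht' (-τ) (by rwa [norm_neg])
  rw [mv_mv, show t + τ = t' by rw [hτ]; abel] at e1
  rw [mv_mv, show t' + -τ = t by rw [hτ]; abel, norm_neg] at e2
  have e3 : ∑ i, p' i * (-τ) i = -∑ i, p' i * τ i := by
    rw [← Finset.sum_neg_distrib]
    exact Finset.sum_congr rfl fun i _ => by rw [Pi.neg_apply]; ring
  rw [e3] at e2
  have n0 := norm_nonneg τ
  have n1 := norm_nonneg (p' - p)
  have k1 : ∑ i, p' i * τ i - ∑ i, p i * τ i ≤ Fintype.card ι * (‖p' - p‖ * ‖τ‖) := by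
    rw [← Finset.sum_sub_distrib, ← nsmul_eq_mul]
    refine Finset.sum_le_card_nsmul _ _ _ fun i _ => ?_
    rw [← sub_mul]
    refine (le_abs_self _).trans ?_
    rw [abs_mul]
    exact mul_le_mul (norm_le_pi_norm (p' - p) i) (norm_le_pi_norm τ i) (abs_nonneg _) n1
  rw [div_lt_iff₀ hc] at h5
  have k3 : 4 * (C * ‖τ‖ ^ 2) ≤ c * ‖τ‖ := by
    calc 4 * (C * ‖τ‖ ^ 2) = (‖τ‖ * (4 * C)) * ‖τ‖ := by ring
      _ ≤ c * ‖τ‖ := mul_le_mul_of_nonneg_right h4 n0
  have k4 : c * ‖τ‖ < Fintype.card ι * ‖p' - p‖ * ‖τ‖ := by nlinarith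
  exact lt_of_mul_lt_mul_right k4 n0

/-- **the volume of a cone set in the space of the directions** -/
theorem cone_area (ι : Type) [Fintype ι] {L c C δ : ℝ} (hc : 0 < c) (hC : 0 ≤ C) (hδ : 0 < δ) :
    ∃ K : ℝ, 0 ≤ K ∧ ∀ (T : V → ℝ) (h : ι → V) (s : ℝ), 0 ≤ s → ∀ ψ : V,
      volume {t : ι → ℝ | t ∈ Icc (0 : ι → ℝ) 1 ∧ mv h ψ t ∈ Cone T h L c C δ s} ≤
        ENNReal.ofReal (K * s ^ Fintype.card ι) := by
  obtain ⟨N, hN⟩ : ∃ N : ℝ, N = Fintype.card ι := ⟨_, rfl⟩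
  have hN0 : 0 ≤ N := by rw [hN]; positivity
  obtain ⟨ε, hε⟩ : ∃ ε : ℝ, ε = min (min (δ / 2) (c / (8 * (C + 1)))) (c / (2 * (N + 1))) :=
    ⟨_, rfl⟩
  have hε0 : 0 < ε := by
    rw [hε]
    exact lt_min (lt_min (by positivity) (by positivity)) (by positivity)
  have hε1 : 2 * ε ≤ δ := by
    have : ε ≤ δ / 2 := by rw [hε]; exact (min_le_left _ _).trans (min_le_left _ _)
    linarith
  have hε2 : 2 * ε * (4 * C) ≤ c := by
    have h1 : ε ≤ c / (8 * (C + 1)) := by rw [hε]; exact (min_le_left _ _).trans (min_le_right _ _)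
    rw [le_div_iff₀ (by positivity)] at h1
    nlinarith
  have hε3 : N * (2 * ε) ≤ c := by
    have h1 : ε ≤ c / (2 * (N + 1)) := by rw [hε]; exact min_le_right _ _
    rw [le_div_iff₀ (by positivity)] at h1
    nlinarith
  have htb : TotallyBounded ((Icc (0 : ι → ℝ) 1) ×ˢ (Metric.closedBall (0 : ι → ℝ) L)) :=
    (isCompact_Icc.prod (isCompact_closedBall _ _)).totallyBounded
  obtain ⟨F, hF, hcov⟩ := Metric.totallyBounded_iff.1 htb ε hε0
  refine ⟨(hF.toFinset.card : ℝ) * (8 / c) ^ Fintype.card ι, by positivity,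
    fun T h s hs ψ => ?_⟩
  set A : (ι → ℝ) × (ι → ℝ) → Set (ι → ℝ) := fun y =>
    {t | ∃ p : ι → ℝ, (t, p) ∈ Metric.ball y ε ∧ ∀ τ : ι → ℝ, ‖τ‖ ≤ δ →
      T (mv h ψ t) - s + (∑ i, p i * τ i) + c * ‖τ‖ - C * ‖τ‖ ^ 2 ≤ T (mv h (mv h ψ t) τ)} with hA
  have hsub : {t : ι → ℝ | t ∈ Icc (0 : ι → ℝ) 1 ∧ mv h ψ t ∈ Cone T h L c C δ s} ⊆
      ⋃ y ∈ hF.toFinset, A y := by
    rintro t ⟨ht, p, hp1, hp2⟩
    have hmem : (t, p) ∈ (Icc (0 : ι → ℝ) 1) ×ˢ (Metric.closedBall (0 : ι → ℝ) L) :=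
      ⟨ht, by rw [mem_closedBall_zero_iff]; exact hp1⟩
    obtain ⟨y, hy, hyb⟩ := mem_iUnion₂.1 (hcov hmem)
    exact mem_iUnion₂.2 ⟨y, hF.mem_toFinset.2 hy, p, hyb, hp2⟩
  refine (measure_mono hsub).trans ((measure_biUnion_finset_le _ _).trans ?_)
  have hone : ∀ y, volume (A y) ≤ ENNReal.ofReal ((8 / c) ^ Fintype.card ι * s ^ Fintype.card ι) := by
    intro y
    rcases (A y).eq_empty_or_nonempty with h | ⟨t₀, p₀, hb₀, ht₀⟩
    · rw [h, measure_empty]
      exact zero_le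
    · have hin : A y ⊆ Metric.closedBall t₀ (4 * s / c) := by
        rintro t ⟨p, hb, ht⟩
        rw [Metric.mem_closedBall, dist_eq_norm]
        by_contra hcon
        push Not at hcon
        have hd : dist (t, p) (t₀, p₀) < 2 * ε := by
          have := dist_triangle_right (t, p) (t₀, p₀) y
          have h6 := Metric.mem_ball.1 hb
          have h7 := Metric.mem_ball.1 hb₀
          linarith
        rw [Prod.dist_eq, max_lt_iff] at hd
        simp only [dist_eq_norm] at hd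
        have h6 := cone_two hc ht₀ ht (hd.1.le.trans hε1)
          ((mul_le_mul_of_nonneg_right hd.1.le (by positivity)).trans hε2) hcon
        rw [← hN] at h6
        have h7 := mul_le_mul_of_nonneg_left hd.2.le hN0
        linarith
      refine (measure_mono hin).trans ?_
      rw [Real.volume_pi_closedBall _ (by positivity), ← mul_pow]
      refine ENNReal.ofReal_le_ofReal (le_of_eq ?_)
      congr 1
      ring
  calc ∑ y ∈ hF.toFinset, volume (A y) ≤
      ∑ y ∈ hF.toFinset, ENNReal.ofReal ((8 / c) ^ Fintype.card ι * s ^ Fintype.card ι) :=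
        Finset.sum_le_sum fun y _ => hone y
    _ = ENNReal.ofReal ((hF.toFinset.card : ℝ) * (8 / c) ^ Fintype.card ι * s ^ Fintype.card ι) := by
      rw [Finset.sum_const, nsmul_eq_mul, mul_assoc, ENNReal.ofReal_mul (Nat.cast_nonneg _),
        ENNReal.ofReal_natCast]

/-- the law `P` is bounded, in the directions `h i`, by the volume of a cube: `P` is at most the law
of `ψ + ∑ t i • h i` for a finite law of `ψ` and the independent uniform `t` in the unit cube -/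
def BoundedAlong [MeasurableSpace V] (P : Measure V) (h : ι → V) : Prop :=
  ∃ Q : Measure V, IsFiniteMeasure Q ∧
    P ≤ (Q.prod (volume.restrict (Icc (0 : ι → ℝ) 1))).map fun q => q.1 + ∑ i, q.2 i • h i

/-- the measure of a cone set -/
theorem cone_measure [MeasurableSpace V] [BorelSpace V] [SecondCountableTopology V]
    {P : Measure V} {h : ι → V} (hP : BoundedAlong P h)
    {L c C δ : ℝ} (hc : 0 < c) (hC : 0 ≤ C) (hδ : 0 < δ) {T : V → ℝ} (hT : Continuous T) :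
    ∃ K : ℝ, 0 ≤ K ∧ ∀ s : ℝ, 0 ≤ s →
      P (Cone T h L c C δ s) ≤ ENNReal.ofReal (K * s ^ Fintype.card ι) := by
  obtain ⟨Q, hQ, hPQ⟩ := hP
  obtain ⟨K, hK, hKs⟩ := cone_area (V := V) ι (L := L) hc hC hδ
  refine ⟨Q.real univ * K, by positivity, fun s hs => ?_⟩
  refine (hPQ _).trans ?_
  have hmv : Continuous fun q : V × (ι → ℝ) => q.1 + ∑ i, q.2 i • h i := mv_cont h
  have hcl := cone_closed hT h L c C δ s
  rw [Measure.map_apply hmv.measurable hcl.measurableSet,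
    Measure.prod_apply (hmv.measurable hcl.measurableSet)]
  calc ∫⁻ ψ, (volume.restrict (Icc (0 : ι → ℝ) 1)) (Prod.mk ψ ⁻¹'
        ((fun q : V × (ι → ℝ) => q.1 + ∑ i, q.2 i • h i) ⁻¹' Cone T h L c C δ s)) ∂Q ≤
      ∫⁻ _, ENNReal.ofReal (K * s ^ Fintype.card ι) ∂Q := by
        refine lintegral_mono fun ψ => ?_
        rw [Measure.restrict_apply' measurableSet_Icc]
        refine le_trans (measure_mono ?_) (hKs T h s hs ψ)
        rintro t ⟨ht1, ht2⟩
        exact ⟨ht2, ht1⟩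
    _ = ENNReal.ofReal (Q.real univ * K * s ^ Fintype.card ι) := by
      rw [lintegral_const, mul_assoc, ENNReal.ofReal_mul measureReal_nonneg, Measure.real,
        ENNReal.ofReal_toReal (measure_ne_top Q univ), mul_comm]

end Pool.Agent.H992.LR
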