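import Pool.Agent.H992.LR.Inc

/-!
# Level repulsion: compactness of the eigenvectors
-/

set_option autoImplicit false

open Set Filter Topology MeasureTheory
open Pool.Agent.Y262.QE Pool.Agent.Y264.QR
open Pool.Agent.Q233.GLV (kf kf_apply kf_lin kf_int kf_symm ex)
open Q101.QG (EV)

noncomputable section

namespace Pool.Agent.H992.LR

section forms

variable {H : Type} [NormedAddCommGroup H] [InnerProductSpace ℝ H]

/-- the distance of an eigenvector of a perturbed form to the eigenspace -/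
theorem proj (a b : H →L[ℝ] H →L[ℝ] ℝ) (hF : Fm a b) (e : ℕ → H) (E : ℕ → ℝ) (hE : Eg a b e E)
    (j : ℕ) : ∃ (S : Finset ℕ) (Q δ₀ : ℝ), (∀ i, i ∈ S ↔ E i = E j) ∧ 0 ≤ Q ∧ 0 < δ₀ ∧
      ∀ δ : ℝ, 0 < δ → δ ≤ δ₀ → ∀ (b' : H →L[ℝ] H →L[ℝ] ℝ) (E' : ℝ) (v : H),
      (∀ x y, b' x y = b' y x) → (∀ x, |b' x x - b x x| ≤ δ * b x x) → |E' - E j| ≤ δ →
      EV a b' E' v → b v v ≤ 2 ∧
        b (v - ∑ i ∈ S, (b v (e i)) • e i) (v - ∑ i ∈ S, (b v (e i)) • e i) ≤ Q * δ ^ 2 := by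
  obtain ⟨N, γ, hγ, hN, hg⟩ := Q101.QG.gap E hE.tt j
  set Q : ℝ := 8 * (|E j| + 1) ^ 2 / γ ^ 2 with hQ
  have hQ0 : 0 ≤ Q := by positivity
  set S : Finset ℕ := (Finset.range N).filter fun i => E i = E j with hS
  have hSm : ∀ i, i ∈ S ↔ E i = E j := by
    intro i
    rw [hS, Finset.mem_filter, Finset.mem_range]
    exact ⟨fun h => h.2, fun h => ⟨hN i h, h⟩⟩
  refine ⟨S, Q, min (1 / 2) (γ / 2), hSm, hQ0, lt_min (by norm_num) (by positivity), ?_⟩
  intro δ hδ0 hδle b' E' v hs hb' hE' hv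
  have hδ1 : δ ≤ 1 / 2 := hδle.trans (min_le_left _ _)
  have hδ2 : δ ≤ γ / 2 := hδle.trans (min_le_right _ _)
  -- the norm of `v`
  have hB0 : 0 ≤ b v v := hF.nb v
  have hB1 : |b v v - 1| ≤ δ * b v v := by
    have := hb' v
    rwa [hv.2, abs_sub_comm] at this
  have hB2 : b v v ≤ 2 := by
    have h1 := (abs_le.1 hB1).2
    nlinarith
  refine ⟨hB2, ?_⟩
  set p : H := ∑ i ∈ S, (b v (e i)) • e i with hp
  set r : H := v - p with hr
  have hbp : ∀ x, b p x = ∑ i ∈ S, b v (e i) * b (e i) x := by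
    intro x
    rw [hp, map_sum, _root_.sum_apply]
    exact Finset.sum_congr rfl fun i _ => by rw [map_smul, _root_.smul_apply, smul_eq_mul]
  have hpe : ∀ l, b p (e l) = if l ∈ S then b v (e l) else 0 := by
    intro l
    rw [hbp]
    simp only [hE.orth, mul_ite, mul_one, mul_zero]
    rw [Finset.sum_ite_eq']
  have hre : ∀ l, b r (e l) = if l ∈ S then 0 else b v (e l) := by
    intro l
    rw [hr, map_sub, _root_.sub_apply, hpe]
    split_ifs <;> ring
  -- the remainder is small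
  refine le_of_tendsto (hE.sum r) ?_
  filter_upwards with F
  have h1 : ∀ i ∈ F, (b r (e i)) ^ 2 ≤ (2 / γ * E') ^ 2 * ((b' - b) v (e i)) ^ 2 := by
    intro i hi
    rw [hre]
    split_ifs with h2
    · rw [zero_pow two_ne_zero]; positivity
    · have h3 : E i ≠ E j := fun h => h2 ((hSm i).2 h)
      have h4 : γ / 2 ≤ |E i - E'| := by
        have h5 := hg i h3
        have h6 : |E i - E j| ≤ |E i - E'| + |E' - E j| := abs_sub_le _ _ _
        linarith
      have h5 : (E i - E') * b v (e i) = E' * (b' - b) v (e i) := by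
        rw [_root_.sub_apply, _root_.sub_apply]
        have h6 := hE.eig i v
        have h7 := hv.1 (e i)
        rw [hF.sa, hF.sb (e i) v] at h6
        linear_combination h7 - h6
      have h6 : (γ / 2) ^ 2 * (b v (e i)) ^ 2 ≤ (E' * (b' - b) v (e i)) ^ 2 := by
        rw [← h5, mul_pow, ← sq_abs (E i - E')]
        exact mul_le_mul_of_nonneg_right (pow_le_pow_left₀ (by positivity) h4 2) (sq_nonneg _)
      have h7 : (b v (e i)) ^ 2 = (2 / γ) ^ 2 * ((γ / 2) ^ 2 * (b v (e i)) ^ 2) := by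
        field_simp
      have h8 : (2 / γ * E') ^ 2 * ((b' - b) v (e i)) ^ 2 =
          (2 / γ) ^ 2 * (E' * (b' - b) v (e i)) ^ 2 := by ring
      rw [h7, h8]
      exact mul_le_mul_of_nonneg_left h6 (by positivity)
  have h2 : ∑ i ∈ F, ((b' - b) v (e i)) ^ 2 ≤ δ ^ 2 * b v v := by
    refine Q101.QG.bes b (b' - b) hF.sb ?_ δ hδ0 ?_ e hE.orth v F
    · intro x y
      simp only [_root_.sub_apply]
      rw [hs, hF.sb]
    · intro x
      simp only [_root_.sub_apply]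
      exact hb' x
  have hE2 : E' ^ 2 ≤ (|E j| + 1) ^ 2 := by
    rw [← sq_abs E']
    refine pow_le_pow_left₀ (abs_nonneg _) ?_ 2
    have h3 : |E'| ≤ |E j| + |E' - E j| := by
      have := abs_add_le (E j) (E' - E j)
      rwa [add_sub_cancel] at this
    linarith
  calc ∑ i ∈ F, (b r (e i)) ^ 2 ≤ ∑ i ∈ F, (2 / γ * E') ^ 2 * ((b' - b) v (e i)) ^ 2 :=
        Finset.sum_le_sum h1
    _ = (2 / γ * E') ^ 2 * ∑ i ∈ F, ((b' - b) v (e i)) ^ 2 := by rw [Finset.mul_sum]
    _ ≤ (2 / γ * E') ^ 2 * (δ ^ 2 * b v v) := mul_le_mul_of_nonneg_left h2 (sq_nonneg _)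
    _ ≤ (2 / γ * E') ^ 2 * (δ ^ 2 * 2) := by gcongr
    _ = 8 / γ ^ 2 * δ ^ 2 * E' ^ 2 := by ring
    _ ≤ 8 / γ ^ 2 * δ ^ 2 * (|E j| + 1) ^ 2 := by gcongr
    _ = Q * δ ^ 2 := by rw [hQ]; ring

/-- the limit of a form on sums of convergent and of small vectors -/
lemma form_lim (b k : H →L[ℝ] H →L[ℝ] ℝ) (hb : ∀ u v, b u v = b v u)
    (hk : ∀ u v, k u v = k v u) {K : ℝ} (hK : ∀ v, |k v v| ≤ K * b v v)
    {p p' r r' : ℕ → H} {v w : H} (hp : Tendsto p atTop (𝓝 v)) (hp' : Tendsto p' atTop (𝓝 w))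
    (hr : Tendsto (fun n => b (r n) (r n)) atTop (𝓝 0))
    (hr' : Tendsto (fun n => b (r' n) (r' n)) atTop (𝓝 0)) :
    Tendsto (fun n => k (p n + r n) (p' n + r' n)) atTop (𝓝 (k v w)) := by
  have h0 : ∀ (x y : ℕ → H), Tendsto (fun n => K ^ 2 * (b (x n) (x n) * b (y n) (y n))) atTop (𝓝 0) →
      Tendsto (fun n => k (x n) (y n)) atTop (𝓝 0) := by
    intro x y h
    have h1 : Tendsto (fun n => (k (x n) (y n)) ^ 2) atTop (𝓝 0) :=
      squeeze_zero (fun n => sq_nonneg _) (fun n => cs2 b k hb hk hK (x n) (y n)) h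
    have h2 := h1.sqrt
    rw [Real.sqrt_zero] at h2
    simp only [Real.sqrt_sq_eq_abs] at h2
    exact (tendsto_zero_iff_abs_tendsto_zero _).2 h2
  have hc : ∀ q : H →L[ℝ] H →L[ℝ] ℝ, Continuous fun x : H × H => q x.1 x.2 := fun q => by fun_prop
  have c1 : ∀ (q : H →L[ℝ] H →L[ℝ] ℝ) {x y : ℕ → H} {x' y' : H}, Tendsto x atTop (𝓝 x') →
      Tendsto y atTop (𝓝 y') → Tendsto (fun n => q (x n) (y n)) atTop (𝓝 (q x' y')) := by
    intro q x y x' y' hx hy
    exact ((hc q).tendsto (x', y')).comp (hx.prodMk_nhds hy)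
  have t1 := c1 k hp hp'
  have t2 : Tendsto (fun n => k (p n) (r' n)) atTop (𝓝 0) := by
    refine h0 _ _ ?_
    have := ((c1 b hp hp).mul hr').const_mul (K ^ 2)
    simpa using this
  have t3 : Tendsto (fun n => k (r n) (p' n)) atTop (𝓝 0) := by
    refine h0 _ _ ?_
    have := (hr.mul (c1 b hp' hp')).const_mul (K ^ 2)
    simpa using this
  have t4 : Tendsto (fun n => k (r n) (r' n)) atTop (𝓝 0) := by
    refine h0 _ _ ?_
    have := (hr.mul hr').const_mul (K ^ 2)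
    simpa using this
  have t5 := ((t1.add t2).add t3).add t4
  simp only [add_zero] at t5
  refine t5.congr fun n => ?_
  simp only [map_add, _root_.add_apply]
  ring

end forms

variable {M : Type} [MetricSpace M] [CompactSpace M] [MeasurableSpace M] [BorelSpace M]
  {μ : Measure M} [IsFiniteMeasure μ] {H : Type} [NormedAddCommGroup H] [InnerProductSpace ℝ H]
  {i : H →L[ℝ] Lp ℝ 2 μ} {a : H →L[ℝ] H →L[ℝ] ℝ} {b : C(M, ℝ) → H →L[ℝ] H →L[ℝ] ℝ}

/-- the eigenvectors of a convergent sequence of conformal factors subconverge -/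
theorem comp [CompleteSpace H] (hS : Sf μ i a) (hB : IsB μ i b) {φ₀ : C(M, ℝ)} {φs : ℕ → C(M, ℝ)}
    (hφ : Tendsto φs atTop (𝓝 φ₀)) {es : ℕ → ℕ → H} {Es : ℕ → ℕ → ℝ}
    (hE : ∀ n, Eg a (b (φs n)) (es n) (Es n)) {k : ℕ} (J : Fin (k + 1) → ℕ) (lam : ℝ)
    (hJ : ∀ q, Ev a (b φ₀) (J q) = lam) :
    ∃ (κ : ℕ → ℕ) (v : Fin (k + 1) → H), StrictMono κ ∧
      (∀ q x, a (v q) x = lam * b φ₀ (v q) x) ∧
      ∀ (g : C(M, ℝ)) (q q' : Fin (k + 1)), Tendsto (fun n =>
        kf b (g * ex (φs (κ n))) (es (κ n) (J q)) (es (κ n) (J q'))) atTop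
        (𝓝 (kf b (g * ex φ₀) (v q) (v q'))) := by
  obtain ⟨hF, -, hexp, -⟩ := Pool.Agent.Q205.QLim.facts μ i a b hS hB
  obtain ⟨f, F, hf⟩ := tSp H a (b φ₀) (hF φ₀)
  have hEv0 : ∀ l, Ev a (b φ₀) l = F l :=
    fun l => Pool.Agent.Y592.QE.mm H a (b φ₀) (hF φ₀) f F hf l
  have hEvs : ∀ n l, Ev a (b (φs n)) l = Es n l :=
    fun n l => Pool.Agent.Y592.QE.mm H a (b (φs n)) (hF _) (es n) (Es n) (hE n) l
  have hEc := (tLip M μ H a b hF hexp).2.2.2.1
  have hEs : ∀ l, Tendsto (fun n => Es n l) atTop (𝓝 (F l)) := by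
    intro l
    have h1 := ((hEc l).tendsto φ₀).comp hφ
    rw [hEv0] at h1
    exact h1.congr fun n => hEvs n l
  obtain ⟨S, Q, δ₀, hSm, hQ, hδ₀, hpr⟩ := proj a (b φ₀) (hF φ₀) f F hf (J 0)
  have hFJ : ∀ q, F (J q) = F (J 0) := fun q => by rw [← hEv0, ← hEv0, hJ, hJ]
  have hlam : lam = F (J 0) := by rw [← hEv0, hJ]
  -- the distance of the forms
  set d : ℕ → ℝ := fun n => Real.exp ‖φs n - φ₀‖ - 1 with hd
  have hd0 : Tendsto d atTop (𝓝 0) := by
    have h1 : Continuous fun ψ : C(M, ℝ) => Real.exp ‖ψ - φ₀‖ - 1 := by fun_prop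
    have h2 := (h1.tendsto φ₀).comp hφ
    rwa [sub_self, norm_zero, Real.exp_zero, sub_self] at h2
  have hdn : ∀ n, 0 ≤ d n := fun n => by
    have := Real.one_le_exp (norm_nonneg (φs n - φ₀))
    rw [hd]
    simp only
    linarith
  have hbd : ∀ n x, |b (φs n) x x - b φ₀ x x| ≤ d n * b φ₀ x x := by
    intro n x
    have h0 := (hF φ₀).nb x
    have h1 := hexp (φs n) φ₀ x
    have h2 := hexp φ₀ (φs n) x
    rw [norm_sub_rev] at h2
    have h3 : 0 ≤ d n := hdn n
    rw [abs_le]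
    have e1 : Real.exp ‖φs n - φ₀‖ = d n + 1 := by rw [hd]; ring
    rw [e1] at h1 h2
    refine ⟨?_, by linarith⟩
    by_cases h4 : b (φs n) x x ≤ b φ₀ x x
    · have h5 := mul_le_mul_of_nonneg_left h4 h3
      linarith
    · have h5 : 0 ≤ d n * b φ₀ x x := by positivity
      linarith [not_le.1 h4]
  -- the gauge
  set δs : ℕ → ℝ := fun n => d n + (∑ q, |Es n (J q) - F (J 0)|) + 1 / ((n : ℝ) + 1) with hδs
  have hδs0 : Tendsto δs atTop (𝓝 0) := by
    have h1 : Tendsto (fun n => ∑ q, |Es n (J q) - F (J 0)|) atTop (𝓝 (∑ q : Fin (k + 1), 0)) := by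
      refine tendsto_finsetSum _ fun q _ => ?_
      have := ((hEs (J q)).sub_const (F (J 0))).abs
      rwa [hFJ q, sub_self, abs_zero] at this
    rw [Finset.sum_const_zero] at h1
    have h2 : Tendsto (fun n : ℕ => 1 / ((n : ℝ) + 1)) atTop (𝓝 0) :=
      tendsto_one_div_add_atTop_nhds_zero_nat
    have := (hd0.add h1).add h2
    rw [add_zero, add_zero] at this
    exact this
  have hsq : ∀ n q, |Es n (J q) - F (J 0)| ≤ ∑ q, |Es n (J q) - F (J 0)| := fun n q =>
    Finset.single_le_sum (f := fun q => |Es n (J q) - F (J 0)|) (fun _ _ => abs_nonneg _)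
      (Finset.mem_univ q)
  have hsn : ∀ n, 0 ≤ ∑ q, |Es n (J q) - F (J 0)| := fun n =>
    Finset.sum_nonneg fun _ _ => abs_nonneg _
  have hev : ∀ᶠ n in atTop, ∀ q, b φ₀ (es n (J q)) (es n (J q)) ≤ 2 ∧
      b φ₀ (es n (J q) - ∑ l ∈ S, (b φ₀ (es n (J q)) (f l)) • f l)
        (es n (J q) - ∑ l ∈ S, (b φ₀ (es n (J q)) (f l)) • f l) ≤ Q * (δs n) ^ 2 := by
    filter_upwards [hδs0.eventually_lt_const hδ₀] with n hn q
    have hp1 : 0 < 1 / ((n : ℝ) + 1) := by positivity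
    have h1 := hdn n
    have h2 := hsn n
    refine hpr (δs n) (by rw [hδs]; simp only; linarith) hn.le (b (φs n)) (Es n (J q)) _
      (hF _).sb (fun x => (hbd n x).trans ?_) ?_ ⟨(hE n).eig (J q), ?_⟩
    · refine mul_le_mul_of_nonneg_right ?_ ((hF φ₀).nb x)
      rw [hδs]
      simp only
      linarith
    · refine (hsq n q).trans ?_
      rw [hδs]
      simp only
      linarith
    · rw [(hE n).orth, if_pos rfl]
  obtain ⟨n₀, hn₀⟩ := eventually_atTop.1 hev
  -- the coefficients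
  set X : ℕ → Fin (k + 1) → S → ℝ := fun n q l => b φ₀ (es (n + n₀) (J q)) (f l) with hX
  have hXb : ∀ n, X n ∈ Metric.closedBall (0 : Fin (k + 1) → S → ℝ) 2 := by
    intro n
    rw [mem_closedBall_zero_iff, pi_norm_le_iff_of_nonneg (by norm_num)]
    intro q
    rw [pi_norm_le_iff_of_nonneg (by norm_num)]
    intro l
    rw [Real.norm_eq_abs, hX]
    simp only
    have h1 := cs2 (b φ₀) (b φ₀) (hF φ₀).sb (hF φ₀).sb (K := 1)
      (fun x => by rw [abs_of_nonneg ((hF φ₀).nb x), one_mul]) (es (n + n₀) (J q)) (f l)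
    rw [hf.orth (l : ℕ) l, if_pos rfl, mul_one] at h1
    have h2 := (hn₀ (n + n₀) (by omega) q).1
    refine abs_le_of_sq_le_sq ?_ (by norm_num)
    linarith
  obtain ⟨c, -, κ, hκ, hκc⟩ :=
    (isCompact_closedBall (0 : Fin (k + 1) → S → ℝ) 2).tendsto_subseq hXb
  have hcl : ∀ (q : Fin (k + 1)) (l : S), Tendsto (fun n => b φ₀ (es (κ n + n₀) (J q)) (f l)) atTop (𝓝 (c q l)) := by
    intro q l
    have h1 := ((continuous_apply l).tendsto (c q)).comp
      (((continuous_apply q).tendsto c).comp hκc)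
    exact h1
  refine ⟨fun n => κ n + n₀, fun q => ∑ l : S, c q l • f l, fun x y hxy =>
    Nat.add_lt_add_right (hκ hxy) n₀, ?_, ?_⟩
  · intro q x
    have h1 : a (∑ l : S, c q l • f l) x = ∑ l : S, c q l * (F l * b φ₀ (f l) x) := by
      rw [map_sum, _root_.sum_apply]
      exact Finset.sum_congr rfl fun l _ => by rw [map_smul, _root_.smul_apply, smul_eq_mul, hf.eig]
    have h2 : b φ₀ (∑ l : S, c q l • f l) x = ∑ l : S, c q l * b φ₀ (f l) x := by
      rw [map_sum, _root_.sum_apply]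
      exact Finset.sum_congr rfl fun l _ => by rw [map_smul, _root_.smul_apply, smul_eq_mul]
    rw [h1, h2, Finset.mul_sum]
    refine Finset.sum_congr rfl fun l _ => ?_
    rw [(hSm l).1 l.2, hlam]
    ring
  · intro g q q'
    set p : Fin (k + 1) → ℕ → H := fun q n =>
      ∑ l ∈ S, (b φ₀ (es (κ n + n₀) (J q)) (f l)) • f l with hp
    have hpl : ∀ q, Tendsto (p q) atTop (𝓝 (∑ l : S, c q l • f l)) := by
      intro q
      have h1 : ∀ n, p q n = ∑ l : S, (b φ₀ (es (κ n + n₀) (J q)) (f l)) • f l := fun n =>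
        (Finset.sum_coe_sort S fun l => (b φ₀ (es (κ n + n₀) (J q)) (f l)) • f l).symm
      rw [tendsto_congr h1]
      exact tendsto_finsetSum _ fun l _ => (hcl q l).smul_const _
    have hκt : Tendsto (fun n => κ n + n₀) atTop atTop :=
      tendsto_atTop_mono (fun n => Nat.le_add_right _ _) hκ.tendsto_atTop
    have hrl : ∀ q, Tendsto (fun n => b φ₀ (es (κ n + n₀) (J q) - p q n)
        (es (κ n + n₀) (J q) - p q n)) atTop (𝓝 0) := by
      intro q
      have h1 : Tendsto (fun n => Q * (δs (κ n + n₀)) ^ 2) atTop (𝓝 0) := by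
        have := ((hδs0.comp hκt).pow 2).const_mul Q
        simpa using this
      exact squeeze_zero (fun n => (hF φ₀).nb _)
        (fun n => (hn₀ (κ n + n₀) (by omega) q).2) h1
    have h1 := form_lim (b φ₀) (kf b (g * ex φ₀)) (hF φ₀).sb (kf_symm hB _) (kf_dom hS hB g φ₀)
      (hpl q) (hpl q') (hrl q) (hrl q')
    simp only [add_sub_cancel] at h1
    have h2 : Tendsto (fun n => (kf b (g * ex (φs (κ n + n₀))) - kf b (g * ex φ₀))
        (es (κ n + n₀) (J q)) (es (κ n + n₀) (J q'))) atTop (𝓝 0) := by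
      have h3 : ∀ n, ((kf b (g * ex (φs (κ n + n₀))) - kf b (g * ex φ₀))
          (es (κ n + n₀) (J q)) (es (κ n + n₀) (J q'))) ^ 2 ≤
          (‖g‖ * d (κ n + n₀)) ^ 2 * (2 * 2) := by
        intro n
        have h4 := cs2 (b φ₀) (kf b (g * ex (φs (κ n + n₀))) - kf b (g * ex φ₀)) (hF φ₀).sb
          (fun x y => by
            simp only [_root_.sub_apply]
            rw [kf_symm hB, kf_symm hB (g * ex φ₀)])
          (K := ‖g‖ * d (κ n + n₀)) (fun x => by
            simp only [_root_.sub_apply]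
            rw [kf_kap hB, kf_kap hB]
            exact Q101.QG.kap_lip μ i b hB g φ₀ (φs (κ n + n₀)) x)
          (es (κ n + n₀) (J q)) (es (κ n + n₀) (J q'))
        refine h4.trans ?_
        have h5 := (hn₀ (κ n + n₀) (by omega) q).1
        have h6 := (hn₀ (κ n + n₀) (by omega) q').1
        have h7 := (hF φ₀).nb (es (κ n + n₀) (J q))
        have h8 := (hF φ₀).nb (es (κ n + n₀) (J q'))
        gcongr
      have h4 : Tendsto (fun n => (‖g‖ * d (κ n + n₀)) ^ 2 * (2 * 2)) atTop (𝓝 0) := by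
        have := (((hd0.comp hκt).const_mul ‖g‖).pow 2).mul_const (2 * 2)
        simpa using this
      have h5 := (squeeze_zero (fun n => sq_nonneg _) h3 h4).sqrt
      rw [Real.sqrt_zero] at h5
      simp only [Real.sqrt_sq_eq_abs] at h5
      exact (tendsto_zero_iff_abs_tendsto_zero _).2 h5
    have h3 := h2.add h1
    rw [zero_add] at h3
    refine h3.congr fun n => ?_
    simp only [_root_.sub_apply]
    ring

end Pool.Agent.H992.LR
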