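import Pool.Agent.H992.LR.KF

/-!
# Level repulsion: rotated trial vectors
-/

set_option autoImplicit false

open Set Filter Topology
open Pool.Agent.Y262.QE

noncomputable section

namespace Pool.Agent.H992.LR

/-- the largest eigenvalue of a symmetric matrix with two rows -/
lemma opt (A B G : ℝ) : ∃ c s : ℝ, c ^ 2 + s ^ 2 = 1 ∧
    c ^ 2 * A + s ^ 2 * B + 2 * c * s * G = (A + B) / 2 + Real.sqrt (((A - B) / 2) ^ 2 + G ^ 2) := by
  obtain ⟨α, hα⟩ : ∃ α, α = (A - B) / 2 := ⟨_, rfl⟩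
  rw [← hα]
  set r := Real.sqrt (α ^ 2 + G ^ 2) with hr
  have hr0 : 0 ≤ r := Real.sqrt_nonneg _
  have hr2 : r ^ 2 = α ^ 2 + G ^ 2 := Real.sq_sqrt (by positivity)
  rcases hr0.eq_or_lt with h0 | h0
  · have h1 : α ^ 2 + G ^ 2 = 0 := by rw [← hr2, ← h0]; norm_num
    have h2 : α = 0 := by nlinarith [sq_nonneg α, sq_nonneg G]
    refine ⟨1, 0, by norm_num, ?_⟩
    rw [← h0]
    have : A = B := by linarith
    rw [this]
    ring
  · obtain ⟨z, hz⟩ := IsAlgClosed.exists_pow_nat_eq (⟨α / r, G / r⟩ : ℂ) two_pos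
    have h1 : z.re ^ 2 - z.im ^ 2 = α / r := by
      have := congrArg Complex.re hz
      simp [sq] at this
      nlinarith
    have h2 : 2 * z.re * z.im = G / r := by
      have := congrArg Complex.im hz
      simp [sq] at this
      nlinarith
    have h3 : (z.re ^ 2 + z.im ^ 2) ^ 2 = 1 := by
      have : (z.re ^ 2 + z.im ^ 2) ^ 2 = (z.re ^ 2 - z.im ^ 2) ^ 2 + (2 * z.re * z.im) ^ 2 := by ring
      rw [this, h1, h2, div_pow (α) r 2, div_pow G r 2, ← add_div, ← hr2]
      exact div_self (by positivity)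
    have h4 : z.re ^ 2 + z.im ^ 2 = 1 := by
      have h5 : 0 ≤ z.re ^ 2 + z.im ^ 2 := by positivity
      nlinarith
    refine ⟨z.re, z.im, h4, ?_⟩
    have h5 : z.re ^ 2 * A + z.im ^ 2 * B + 2 * z.re * z.im * G =
        (z.re ^ 2 + z.im ^ 2) * ((A + B) / 2) + (z.re ^ 2 - z.im ^ 2) * α +
          (2 * z.re * z.im) * G := by
      rw [hα]
      ring
    rw [h5, h4, h1, h2, one_mul]
    have h6 : α / r * α + G / r * G = r := by
      have : α / r * α + G / r * G = (α ^ 2 + G ^ 2) / r := by ring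
      rw [this, ← hr2]
      field_simp
    linarith

variable {H : Type} [NormedAddCommGroup H] [InnerProductSpace ℝ H] {a b b' : H →L[ℝ] H →L[ℝ] ℝ}

/-- the value of the rotated trial space -/
theorem trial (hF : Fm a b) {e : ℕ → H} {E : ℕ → ℝ} (hE : Eg a b e E) (h1 : 0 < E 1)
    (hF' : Fm a b') {e' : ℕ → H} {E' : ℕ → ℝ} (hE' : Eg a b' e' E') (h0' : E' 0 = 0)
    (h1' : 0 < E' 1) {k : H →L[ℝ] H →L[ℝ] ℝ} (hks : ∀ u v, k u v = k v u)
    (hk : ∀ v, b v v + k v v ≤ b' v v) {ρ : ℝ} (hρ0 : 0 ≤ ρ)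
    (hρ : ∀ v, (b' v (e' 0) - b v (e' 0)) ^ 2 ≤ ρ * b v v) (m : ℕ) :
    (∑ l ∈ Finset.range (m + 1), (E (l + 1))⁻¹) - ((E (m + 1))⁻¹ - (E (m + 2))⁻¹) -
      ρ * (∑ l ∈ Finset.range (m + 1), (E (l + 1))⁻¹) +
      (∑ l ∈ Finset.range m, k (e (l + 1)) (e (l + 1)) * (E (l + 1))⁻¹) +
      ((k (e (m + 1)) (e (m + 1)) * (E (m + 1))⁻¹ + k (e (m + 2)) (e (m + 2)) * (E (m + 2))⁻¹) / 2 +
      Real.sqrt (((k (e (m + 1)) (e (m + 1)) * (E (m + 1))⁻¹ -
        k (e (m + 2)) (e (m + 2)) * (E (m + 2))⁻¹) / 2) ^ 2 +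
        (k (e (m + 1)) (e (m + 2)) * ((Real.sqrt (E (m + 1)))⁻¹ * (Real.sqrt (E (m + 2)))⁻¹)) ^ 2)) ≤
    ∑ l ∈ Finset.range (m + 1), (E' (l + 1))⁻¹ := by
  have hpos : ∀ l, 0 < E (l + 1) := fun l => h1.trans_le (hE.mono (by omega))
  set A := k (e (m + 1)) (e (m + 1)) * (E (m + 1))⁻¹ with hA
  set B := k (e (m + 2)) (e (m + 2)) * (E (m + 2))⁻¹ with hB
  set G := k (e (m + 1)) (e (m + 2)) * ((Real.sqrt (E (m + 1)))⁻¹ * (Real.sqrt (E (m + 2)))⁻¹)
    with hG
  obtain ⟨c, s, hcs, hopt⟩ := opt A B G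
  set r : ℕ → ℝ := fun l => (Real.sqrt (E l))⁻¹ with hr
  have hr2 : ∀ l, r (l + 1) * r (l + 1) = (E (l + 1))⁻¹ := by
    intro l
    rw [hr]
    simp only
    rw [← mul_inv, Real.mul_self_sqrt (hpos l).le]
  set w : H := (c * r (m + 1)) • e (m + 1) + (s * r (m + 2)) • e (m + 2) with hw
  set v : ℕ → H := fun l => if l = m then w else r (l + 1) • e (l + 1) with hv
  have hvm : v m = w := by simp [hv]
  have hvl : ∀ l, l < m → v l = r (l + 1) • e (l + 1) := fun l hl => by simp [hv, hl.ne]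
  -- orthogonality
  have hor : ∀ l n, n ≠ l → b (e l) (e n) = 0 := fun l n h => by
    rw [hE.orth, if_neg (Ne.symm h)]
  have hoo : ∀ l, b (e l) (e l) = 1 := fun l => by rw [hE.orth, if_pos rfl]
  have bww : b w w = c ^ 2 * (E (m + 1))⁻¹ + s ^ 2 * (E (m + 2))⁻¹ := by
    rw [hw]
    simp only [map_add, map_smul, add_apply, smul_apply, smul_eq_mul, hoo,
      hor (m + 1) (m + 2) (by omega), hor (m + 2) (m + 1) (by omega)]
    rw [← hr2 m, ← hr2 (m + 1)]
    ring
  have hval : ∀ k < m + 1, ∀ l < m + 1, a (v k) (v l) = if k = l then 1 else 0 := by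
    intro k hk l hl
    rcases Nat.lt_succ_iff_lt_or_eq.1 hk with hk' | rfl
    · rcases Nat.lt_succ_iff_lt_or_eq.1 hl with hl' | rfl
      · rw [hvl k hk', hvl l hl', map_smul, map_smul, smul_apply, hE.eig, hE.orth]
        by_cases hkl : k = l
        · subst hkl
          simp only [if_true, smul_eq_mul, mul_one]
          have h3 := hr2 k
          have h4 := (hpos k).ne'
          calc r (k + 1) * (r (k + 1) * E (k + 1)) = (r (k + 1) * r (k + 1)) * E (k + 1) := by ring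
            _ = 1 := by rw [h3, inv_mul_cancel₀ h4]
        · rw [if_neg (by omega), if_neg hkl]
          simp
      · rw [hvl k hk', hvm, hw, if_neg hk'.ne]
        simp only [map_add, map_smul, smul_apply, smul_eq_mul, hE.eig,
          hor (k + 1) (l + 1) (by omega), hor (k + 1) (l + 2) (by omega)]
        ring
    · rcases Nat.lt_succ_iff_lt_or_eq.1 hl with hl' | rfl
      · rw [hvl l hl', hvm, hw, if_neg hl'.ne']
        simp only [map_add, map_smul, add_apply, smul_apply, smul_eq_mul, hE.eig,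
          hor (k + 1) (l + 1) (by omega), hor (k + 2) (l + 1) (by omega)]
        ring
      · rw [hvm, if_pos rfl, hw]
        simp only [map_add, map_smul, add_apply, smul_apply, smul_eq_mul, hE.eig, hoo,
          hor (l + 1) (l + 2) (by omega), hor (l + 2) (l + 1) (by omega)]
        have h3 := hr2 l
        have h4 := hr2 (l + 1)
        have h5 := (hpos l).ne'
        have h6 := (hpos (l + 1)).ne'
        have e1 : r (l + 1) * r (l + 1) * E (l + 1) = 1 := by rw [h3, inv_mul_cancel₀ h5]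
        have e2 : r (l + 2) * r (l + 2) * E (l + 2) = 1 := by rw [h4, inv_mul_cancel₀ h6]
        linear_combination c ^ 2 * e1 + s ^ 2 * e2 + hcs
  have hky := ky_fan hF' hE' h1' hval
  refine le_trans ?_ hky
  -- the vectors are orthogonal to the constants
  have hz : ∀ l, b (e (l + 1)) (e' 0) = 0 := by
    intro l
    have h3 := hE.eig (l + 1) (e' 0)
    rw [hF.sa, hE'.eig, h0', zero_mul] at h3
    rcases mul_eq_zero.1 h3.symm with h | h
    · exact absurd h (hpos l).ne'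
    · exact h
  have hz2 : ∀ l < m + 1, b (v l) (e' 0) = 0 := by
    intro l hl
    rcases Nat.lt_succ_iff_lt_or_eq.1 hl with hl' | rfl
    · rw [hvl l hl', map_smul, smul_apply, hz, smul_zero]
    · rw [hvm, hw]
      simp only [map_add, map_smul, add_apply, smul_apply, hz, smul_zero, add_zero]
  have hterm : ∀ l ∈ Finset.range (m + 1), (1 - ρ) * b (v l) (v l) + k (v l) (v l) ≤
      b' (v l) (v l) - (b' (v l) (e' 0)) ^ 2 := by
    intro l hl
    have h3 := hk (v l)
    have h4 := hρ (v l)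
    rw [hz2 l (Finset.mem_range.1 hl), sub_zero] at h4
    linarith
  refine le_trans ?_ (Finset.sum_le_sum hterm)
  rw [Finset.sum_add_distrib, ← Finset.mul_sum]
  have hb1 : ∑ l ∈ Finset.range (m + 1), b (v l) (v l) =
      (∑ l ∈ Finset.range m, (E (l + 1))⁻¹) + (c ^ 2 * (E (m + 1))⁻¹ + s ^ 2 * (E (m + 2))⁻¹) := by
    rw [Finset.sum_range_succ, hvm, bww]
    congr 1
    refine Finset.sum_congr rfl fun l hl => ?_
    rw [hvl l (Finset.mem_range.1 hl), map_smul, map_smul, smul_apply, hoo, smul_eq_mul,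
      smul_eq_mul, mul_one, hr2]
  have hk1 : ∑ l ∈ Finset.range (m + 1), k (v l) (v l) =
      (∑ l ∈ Finset.range m, k (e (l + 1)) (e (l + 1)) * (E (l + 1))⁻¹) +
        (c ^ 2 * A + s ^ 2 * B + 2 * c * s * G) := by
    rw [Finset.sum_range_succ, hvm]
    congr 1
    · refine Finset.sum_congr rfl fun l hl => ?_
      rw [hvl l (Finset.mem_range.1 hl), map_smul, map_smul, smul_apply, smul_eq_mul,
        smul_eq_mul, ← hr2]
      ring
    · rw [hw]
      simp only [map_add, map_smul, add_apply, smul_apply, smul_eq_mul]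
      rw [hks (e (m + 2)) (e (m + 1)), hA, hB, hG, ← hr2 m, ← hr2 (m + 1)]
      simp only [hr]
      ring
  rw [hb1, hk1, hopt]
  have hT : ∑ l ∈ Finset.range (m + 1), (E (l + 1))⁻¹ =
      (∑ l ∈ Finset.range m, (E (l + 1))⁻¹) + (E (m + 1))⁻¹ := Finset.sum_range_succ _ _
  have hg : (E (m + 2))⁻¹ ≤ (E (m + 1))⁻¹ := inv_anti₀ (hpos m) (hE.mono (by omega))
  have hs2 : s ^ 2 ≤ 1 := by nlinarith [sq_nonneg c]
  have hc2 : c ^ 2 = 1 - s ^ 2 := by linarith
  set x := (E (m + 1))⁻¹ with hx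
  set y := (E (m + 2))⁻¹ with hy
  set T0 := ∑ l ∈ Finset.range m, (E (l + 1))⁻¹ with hT0
  rw [hT, hc2]
  have h7 : 0 ≤ s ^ 2 * (x - y) := mul_nonneg (sq_nonneg _) (by linarith)
  have h8 : s ^ 2 * (x - y) ≤ x - y := by nlinarith
  nlinarith [mul_nonneg hρ0 h7]

end Pool.Agent.H992.LR
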