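import Pool.Graph.R_pool_sql_team_seeded_3997aac3.Q233.GLV.Frm
import Pool.Graph.R_pool_sql_team_seeded_35f281b4.K7.H58.RM.Bai
import Pool.Agent.H992.LR.TR
import Pool.Agent.H992.LR.Cone

/-!
# Level repulsion: small gaps give cones
-/

set_option autoImplicit false

open Set Filter Topology MeasureTheory
open Pool.Agent.Y262.QE Pool.Agent.Y264.QR
open Pool.Agent.Q233.GLV (kf kf_apply kf_lin kf_int kf_symm ex)

noncomputable section

namespace Pool.Agent.H992.LR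

section forms

variable {H : Type} [NormedAddCommGroup H] [InnerProductSpace ℝ H]

/-- Cauchy-Schwarz for a form which is dominated by another one -/
lemma cs2 (b k : H →L[ℝ] H →L[ℝ] ℝ) (hb : ∀ u v, b u v = b v u) (hk : ∀ u v, k u v = k v u)
    {K : ℝ} (hK : ∀ v, |k v v| ≤ K * b v v) (x y : H) :
    (k x y) ^ 2 ≤ K ^ 2 * (b x x * b y y) := by
  have h1 : ∀ t : ℝ, 0 ≤ (K * b x x) * (t * t) + (-2 * k x y) * t + K * b y y := by
    intro t
    have h2 := Q101.QG.cs b k hb hk K hK (t • x) y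
    rw [Q101.QG.sm, map_smul, smul_apply, smul_eq_mul] at h2
    have h3 := le_abs_self (t * k x y)
    nlinarith
  have h2 := discrim_le_zero h1
  rw [discrim] at h2
  nlinarith

end forms

variable {M : Type} [MetricSpace M] [CompactSpace M] [MeasurableSpace M] [BorelSpace M]
  {μ : Measure M} [IsFiniteMeasure μ] {H : Type} [NormedAddCommGroup H] [InnerProductSpace ℝ H]
  {i : H →L[ℝ] Lp ℝ 2 μ} {a : H →L[ℝ] H →L[ℝ] ℝ} {b : C(M, ℝ) → H →L[ℝ] H →L[ℝ] ℝ}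

lemma ex_apply (φ : C(M, ℝ)) (x : M) : (ex φ) x = Real.exp (φ x) := rfl

lemma kf_kap (hB : IsB μ i b) (g φ : C(M, ℝ)) (v : H) : kf b (g * ex φ) v v = kap μ i g φ v := by
  rw [kf_apply hB]
  unfold kap
  refine integral_congr_ae (Eventually.of_forall fun x => ?_)
  simp only [ContinuousMap.mul_apply, ex_apply]
  ring

lemma kf_dom (hS : Sf μ i a) (hB : IsB μ i b) (g φ : C(M, ℝ)) (v : H) :
    |kf b (g * ex φ) v v| ≤ ‖g‖ * b φ v v := by
  obtain ⟨-, -, -, hk⟩ := Pool.Agent.Q205.QLim.facts μ i a b hS hB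
  obtain ⟨k, -, h2, -⟩ := hk g
  rw [kf_kap hB, ← (h2 φ v).1]
  exact (h2 φ v).2

lemma kf_cs (hS : Sf μ i a) (hB : IsB μ i b) (g φ : C(M, ℝ)) (u w : H) :
    (kf b (g * ex φ) u w) ^ 2 ≤ ‖g‖ ^ 2 * (b φ u u * b φ w w) := by
  obtain ⟨hF, -, -, -⟩ := Pool.Agent.Q205.QLim.facts μ i a b hS hB
  exact cs2 (b φ) _ (hF φ).sb (kf_symm hB _) (kf_dom hS hB g φ) u w

lemma kf_unit (hS : Sf μ i a) (hB : IsB μ i b) (g φ : C(M, ℝ)) {u w : H} (hu : b φ u u = 1)
    (hw : b φ w w = 1) : |kf b (g * ex φ) u w| ≤ ‖g‖ := by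
  have h1 := kf_cs hS hB g φ u w
  rw [hu, hw, one_mul, mul_one] at h1
  exact abs_le_of_sq_le_sq h1 (norm_nonneg _)

lemma kf_low (hS : Sf μ i a) (hB : IsB μ i b) (g φ : C(M, ℝ)) (v : H) :
    b φ v v + kf b (g * ex φ) v v ≤ b (φ + g) v v := by
  obtain ⟨-, -, -, hk⟩ := Pool.Agent.Q205.QLim.facts μ i a b hS hB
  obtain ⟨k, -, h2, h3⟩ := hk g
  have h4 := h3 φ v 1
  rw [one_smul, one_mul, (h2 φ v).1, ← kf_kap hB] at h4
  exact h4

lemma kf_sum (hB : IsB μ i b) {ι : Type} [Fintype ι] (h : ι → C(M, ℝ)) (τ : ι → ℝ)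
    (φ : C(M, ℝ)) (u w : H) :
    kf b ((∑ j, τ j • h j) * ex φ) u w = ∑ j, τ j * kf b (h j * ex φ) u w := by
  rw [kf_apply hB]
  have e1 : ∀ j ∈ Finset.univ, Integrable (fun x => τ j * ((h j * ex φ) x * (i u x * i w x))) μ :=
    fun j _ => (kf_int (h j * ex φ) u w).const_mul (τ j)
  have e2 : ∑ j, τ j * kf b (h j * ex φ) u w =
      ∑ j, ∫ x, τ j * ((h j * ex φ) x * (i u x * i w x)) ∂μ := by
    refine Finset.sum_congr rfl fun j _ => ?_
    rw [integral_const_mul, kf_apply hB]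
  rw [e2, ← integral_finsetSum _ e1]
  refine integral_congr_ae (Eventually.of_forall fun x => ?_)
  simp only [ContinuousMap.mul_apply, ContinuousMap.sum_apply, ContinuousMap.smul_apply, smul_eq_mul]
  rw [Finset.sum_mul, Finset.sum_mul]
  exact Finset.sum_congr rfl fun j _ => by ring

lemma b_diff (hS : Sf μ i a) (hB : IsB μ i b) (g φ : C(M, ℝ)) (hg : ‖g‖ ≤ 1) {w : H}
    (hw : b (φ + g) w w = 1) (v : H) :
    (b (φ + g) v w - b φ v w) ^ 2 ≤ (12 * ‖g‖ ^ 2) * b φ v v := by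
  obtain ⟨hF, -, hexp, -⟩ := Pool.Agent.Q205.QLim.facts μ i a b hS hB
  have n0 := norm_nonneg g
  have hu : ∀ x, b (φ + g) x x ≤ Real.exp ‖g‖ * b φ x x := fun x => by
    have := hexp (φ + g) φ x
    rwa [add_sub_cancel_left] at this
  have hl : ∀ x, b φ x x ≤ Real.exp ‖g‖ * b (φ + g) x x := fun x => by
    have := hexp φ (φ + g) x
    rwa [sub_add_cancel_left, norm_neg] at this
  have he : 1 ≤ Real.exp ‖g‖ := Real.one_le_exp n0
  have he2 : Real.exp ‖g‖ - 1 ≤ 2 * ‖g‖ := by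
    have h1 := Real.abs_exp_sub_one_le (x := ‖g‖) (by rwa [abs_of_nonneg n0])
    rw [abs_of_nonneg n0] at h1
    exact (le_abs_self _).trans h1
  have hd : ∀ x, |(b (φ + g) - b φ) x x| ≤ (2 * ‖g‖) * b φ x x := by
    intro x
    have h0 := (hF φ).nb x
    have h0' := (hF (φ + g)).nb x
    rw [_root_.sub_apply, _root_.sub_apply, abs_le]
    have h1 := hu x
    have h2 := hl x
    have h3 : (Real.exp ‖g‖ - 1) * b φ x x ≤ 2 * ‖g‖ * b φ x x := mul_le_mul_of_nonneg_right he2 h0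
    refine ⟨?_, by linarith⟩
    by_cases h4 : b (φ + g) x x ≤ b φ x x
    · have h5 : (Real.exp ‖g‖ - 1) * b (φ + g) x x ≤ (Real.exp ‖g‖ - 1) * b φ x x :=
        mul_le_mul_of_nonneg_left h4 (by linarith)
      linarith
    · have h5 : 0 ≤ 2 * ‖g‖ * b φ x x := by positivity
      linarith [not_le.1 h4]
  have h1 := cs2 (b φ) (b (φ + g) - b φ) (hF φ).sb (fun x y => by
    rw [_root_.sub_apply, _root_.sub_apply, _root_.sub_apply, _root_.sub_apply, (hF φ).sb,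
      (hF (φ + g)).sb]) hd v w
  rw [_root_.sub_apply, _root_.sub_apply] at h1
  have h2 : b φ w w ≤ 3 := by
    have h3 := hl w
    rw [hw, mul_one] at h3
    have h4 : Real.exp ‖g‖ ≤ Real.exp 1 := Real.exp_le_exp.2 hg
    linarith [Real.exp_one_lt_d9]
  refine h1.trans ?_
  have h3 := (hF φ).nb v
  calc (2 * ‖g‖) ^ 2 * (b φ v v * b φ w w) ≤ (2 * ‖g‖) ^ 2 * (b φ v v * 3) := by gcongr
    _ = _ := by ring

/-- the sum of the first inverse eigenvalues -/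
def Tm (a : H →L[ℝ] H →L[ℝ] ℝ) (b : C(M, ℝ) → H →L[ℝ] H →L[ℝ] ℝ) (m : ℕ) (φ : C(M, ℝ)) : ℝ :=
  ∑ l ∈ Finset.range (m + 1), (Ev a (b φ) (l + 1))⁻¹

/-- **a small gap gives a cone** -/
theorem inc [CompleteSpace H] (hS : Sf μ i a) (hB : IsB μ i b) (h0 : ∀ φ, Ev a (b φ) 0 = 0)
    (h1 : ∀ φ, 0 < Ev a (b φ) 1) (m : ℕ) {ι : Type} [Fintype ι] (h : ι → C(M, ℝ)) {R H0 : ℝ}
    (hH : ∀ j, ‖h j‖ ≤ H0) (hH0 : 0 ≤ H0) {φ : C(M, ℝ)} {e : ℕ → H} {E : ℕ → ℝ}
    (hE : Eg a (b φ) e E) (hR : (E 1)⁻¹ ≤ R) {c s : ℝ}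
    (hs : (E (m + 1))⁻¹ - (E (m + 2))⁻¹ ≤ s) {δ : ℝ} (hδ : Fintype.card ι * H0 * δ ≤ 1)
    (hc : ∀ τ : ι → ℝ, c * ‖τ‖ ≤ Real.sqrt
      ((∑ j, τ j * ((kf b (h j * ex φ) (e (m + 1)) (e (m + 1)) * (E (m + 1))⁻¹ -
        kf b (h j * ex φ) (e (m + 2)) (e (m + 2)) * (E (m + 2))⁻¹) / 2)) ^ 2 +
      (∑ j, τ j * (kf b (h j * ex φ) (e (m + 1)) (e (m + 2)) *
        ((Real.sqrt (E (m + 1)))⁻¹ * (Real.sqrt (E (m + 2)))⁻¹))) ^ 2)) :
    φ ∈ Cone (Tm a b m) h ((m + 1) * (H0 * R)) c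
      (12 * (Fintype.card ι * H0) ^ 2 * ((m + 1) * R)) δ s := by
  obtain ⟨hF, -, hexp, -⟩ := Pool.Agent.Q205.QLim.facts μ i a b hS hB
  have hEv : ∀ l, Ev a (b φ) l = E l :=
    fun l => Pool.Agent.Y592.QE.mm H a (b φ) (hF φ) e E hE l
  have hE1 : 0 < E 1 := by rw [← hEv]; exact h1 φ
  have hpos : ∀ l, 0 < E (l + 1) := fun l => hE1.trans_le (hE.mono (by omega))
  have hinv : ∀ l, (E (l + 1))⁻¹ ≤ R := fun l => (inv_anti₀ hE1 (hE.mono (by omega))).trans hR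
  have hinv0 : ∀ l, 0 ≤ (E (l + 1))⁻¹ := fun l => (inv_pos.2 (hpos l)).le
  have hR0 : 0 ≤ R := (hinv0 0).trans (hinv 0)
  have hu : ∀ l, b φ (e l) (e l) = 1 := fun l => by rw [hE.orth, if_pos rfl]
  have hkb : ∀ j l n, |kf b (h j * ex φ) (e l) (e n)| ≤ H0 := fun j l n =>
    (kf_unit hS hB (h j) φ (hu l) (hu n)).trans (hH j)
  have hkq : ∀ j l, |kf b (h j * ex φ) (e (l + 1)) (e (l + 1)) * (E (l + 1))⁻¹| ≤ H0 * R := by
    intro j l
    rw [abs_mul, abs_of_nonneg (hinv0 l)]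
    exact mul_le_mul (hkb j _ _) (hinv l) (hinv0 l) hH0
  set p : ι → ℝ := fun j => (∑ l ∈ Finset.range m,
      kf b (h j * ex φ) (e (l + 1)) (e (l + 1)) * (E (l + 1))⁻¹) +
    (kf b (h j * ex φ) (e (m + 1)) (e (m + 1)) * (E (m + 1))⁻¹ +
      kf b (h j * ex φ) (e (m + 2)) (e (m + 2)) * (E (m + 2))⁻¹) / 2 with hp
  refine ⟨p, ?_, fun τ hτ => ?_⟩
  · rw [pi_norm_le_iff_of_nonneg (by positivity)]
    intro j
    rw [Real.norm_eq_abs, hp]
    simp only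
    refine (abs_add_le _ _).trans ?_
    have k1 : |∑ l ∈ Finset.range m, kf b (h j * ex φ) (e (l + 1)) (e (l + 1)) * (E (l + 1))⁻¹| ≤
        m * (H0 * R) := by
      refine (Finset.abs_sum_le_sum_abs _ _).trans ?_
      refine (Finset.sum_le_sum fun l _ => hkq j l).trans (le_of_eq ?_)
      rw [Finset.sum_const, Finset.card_range, nsmul_eq_mul]
    have k2 := abs_le.1 (hkq j m)
    have k3 := abs_le.1 (hkq j (m + 1))
    have k4 : |(kf b (h j * ex φ) (e (m + 1)) (e (m + 1)) * (E (m + 1))⁻¹ +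
        kf b (h j * ex φ) (e (m + 2)) (e (m + 2)) * (E (m + 2))⁻¹) / 2| ≤ H0 * R := by
      rw [abs_le]
      constructor <;> linarith [k2.1, k2.2, k3.1, k3.2]
    linarith
  · obtain ⟨g, hg⟩ : ∃ g : C(M, ℝ), g = ∑ j, τ j • h j := ⟨_, rfl⟩
    have hmv : mv h φ τ = φ + g := by rw [hg]; rfl
    have hgn : ‖g‖ ≤ Fintype.card ι * H0 * ‖τ‖ := by
      rw [hg]
      refine (norm_sum_le _ _).trans ?_
      calc ∑ j, ‖τ j • h j‖ ≤ ∑ _j : ι, ‖τ‖ * H0 := by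
            refine Finset.sum_le_sum fun j _ => ?_
            rw [norm_smul]
            exact mul_le_mul (norm_le_pi_norm τ j) (hH j) (norm_nonneg _) (norm_nonneg _)
        _ = _ := by
            rw [Finset.sum_const, Finset.card_univ, nsmul_eq_mul]
            ring
    have hg1 : ‖g‖ ≤ 1 := by
      refine hgn.trans (le_trans ?_ hδ)
      exact mul_le_mul_of_nonneg_left hτ (by positivity)
    obtain ⟨e', E', hE'⟩ := tSp H a (b (φ + g)) (hF _)
    have hEv' : ∀ l, Ev a (b (φ + g)) l = E' l :=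
      fun l => Pool.Agent.Y592.QE.mm H a (b (φ + g)) (hF _) e' E' hE' l
    have hu' : b (φ + g) (e' 0) (e' 0) = 1 := by rw [hE'.orth, if_pos rfl]
    have key := trial (hF φ) hE hE1 (hF (φ + g)) hE' (by rw [← hEv']; exact h0 _)
      (by rw [← hEv']; exact h1 _) (k := kf b (g * ex φ)) (kf_symm hB _) (kf_low hS hB g φ)
      (by positivity : 0 ≤ 12 * ‖g‖ ^ 2) (b_diff hS hB g φ hg1 hu') m
    have hT : Tm a b m φ = ∑ l ∈ Finset.range (m + 1), (E (l + 1))⁻¹ :=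
      Finset.sum_congr rfl fun l _ => by rw [hEv]
    have hT' : Tm a b m (φ + g) = ∑ l ∈ Finset.range (m + 1), (E' (l + 1))⁻¹ :=
      Finset.sum_congr rfl fun l _ => by rw [hEv']
    rw [hmv, hT, hT']
    refine le_trans ?_ key
    have hks : ∀ u w : H, kf b (g * ex φ) u w = ∑ j, τ j * kf b (h j * ex φ) u w := by
      intro u w
      rw [hg]
      exact kf_sum hB h τ φ u w
    have r1 : 12 * ‖g‖ ^ 2 * (∑ l ∈ Finset.range (m + 1), (E (l + 1))⁻¹) ≤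
        12 * (Fintype.card ι * H0) ^ 2 * ((m + 1) * R) * ‖τ‖ ^ 2 := by
      have r2 : ∑ l ∈ Finset.range (m + 1), (E (l + 1))⁻¹ ≤ (m + 1) * R := by
        refine (Finset.sum_le_sum fun l _ => hinv l).trans (le_of_eq ?_)
        rw [Finset.sum_const, Finset.card_range, nsmul_eq_mul]
        push_cast
        ring
      have r3 : ‖g‖ ^ 2 ≤ (Fintype.card ι * H0 * ‖τ‖) ^ 2 :=
        pow_le_pow_left₀ (norm_nonneg _) hgn 2
      calc 12 * ‖g‖ ^ 2 * (∑ l ∈ Finset.range (m + 1), (E (l + 1))⁻¹) ≤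
          12 * (Fintype.card ι * H0 * ‖τ‖) ^ 2 * ((m + 1) * R) :=
            mul_le_mul (mul_le_mul_of_nonneg_left r3 (by norm_num)) r2
              (Finset.sum_nonneg fun l _ => hinv0 l) (by positivity)
        _ = _ := by ring
    have r4 : ∑ j, p j * τ j = (∑ l ∈ Finset.range m,
        kf b (g * ex φ) (e (l + 1)) (e (l + 1)) * (E (l + 1))⁻¹) +
        ((kf b (g * ex φ) (e (m + 1)) (e (m + 1)) * (E (m + 1))⁻¹ +
          kf b (g * ex φ) (e (m + 2)) (e (m + 2)) * (E (m + 2))⁻¹) / 2) := by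
      simp only [hp, hks]
      have r5 : ∑ l ∈ Finset.range m, (∑ j, τ j * kf b (h j * ex φ) (e (l + 1)) (e (l + 1))) *
          (E (l + 1))⁻¹ = ∑ j, τ j * ∑ l ∈ Finset.range m,
            kf b (h j * ex φ) (e (l + 1)) (e (l + 1)) * (E (l + 1))⁻¹ := by
        simp only [Finset.sum_mul, Finset.mul_sum]
        rw [Finset.sum_comm]
        refine Finset.sum_congr rfl fun j _ => Finset.sum_congr rfl fun l _ => ?_
        ring
      rw [r5, Finset.sum_mul, Finset.sum_mul, ← Finset.sum_add_distrib, Finset.sum_div,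
        ← Finset.sum_add_distrib]
      refine Finset.sum_congr rfl fun j _ => ?_
      ring
    have r6 : (kf b (g * ex φ) (e (m + 1)) (e (m + 1)) * (E (m + 1))⁻¹ -
        kf b (g * ex φ) (e (m + 2)) (e (m + 2)) * (E (m + 2))⁻¹) / 2 =
        ∑ j, τ j * ((kf b (h j * ex φ) (e (m + 1)) (e (m + 1)) * (E (m + 1))⁻¹ -
        kf b (h j * ex φ) (e (m + 2)) (e (m + 2)) * (E (m + 2))⁻¹) / 2) := by
      simp only [hks]
      rw [Finset.sum_mul, Finset.sum_mul, ← Finset.sum_sub_distrib, Finset.sum_div]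
      refine Finset.sum_congr rfl fun j _ => ?_
      ring
    have r7 : kf b (g * ex φ) (e (m + 1)) (e (m + 2)) *
        ((Real.sqrt (E (m + 1)))⁻¹ * (Real.sqrt (E (m + 2)))⁻¹) =
        ∑ j, τ j * (kf b (h j * ex φ) (e (m + 1)) (e (m + 2)) *
        ((Real.sqrt (E (m + 1)))⁻¹ * (Real.sqrt (E (m + 2)))⁻¹)) := by
      simp only [hks]
      rw [Finset.sum_mul]
      refine Finset.sum_congr rfl fun j _ => ?_
      ring
    have r8 := hc τ
    rw [← r6, ← r7] at r8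
    rw [r4]
    linarith

end Pool.Agent.H992.LR
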