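import Pool.Graph.R_seed8.Y264.QR.All

/-!
# Level repulsion: Ky Fan's inequality for the sums of the inverse eigenvalues
-/

set_option autoImplicit false

open Set Filter Topology
open Pool.Agent.Y262.QE

noncomputable section

namespace Pool.Agent.H992.LR

variable {H : Type} [NormedAddCommGroup H] [InnerProductSpace ℝ H] {a b : H →L[ℝ] H →L[ℝ] ℝ}

/-- Bessel's inequality for a nonnegative form -/
lemma bessel (sa : ∀ u v, a u v = a v u) (na : ∀ v, 0 ≤ a v v) {v : ℕ → H} {j : ℕ}
    (hv : ∀ k < j, ∀ l < j, a (v k) (v l) = if k = l then 1 else 0) (u : H) :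
    ∑ k ∈ Finset.range j, (a u (v k)) ^ 2 ≤ a u u := by
  set p : H := ∑ k ∈ Finset.range j, a u (v k) • v k with hp
  have h1 : ∀ l ∈ Finset.range j, a p (v l) = a u (v l) := by
    intro l hl
    rw [hp, map_sum, _root_.sum_apply]
    have : ∀ k ∈ Finset.range j, a (a u (v k) • v k) (v l) = if k = l then a u (v l) else 0 := by
      intro k hk
      rw [map_smul, smul_apply, hv k (Finset.mem_range.1 hk) l (Finset.mem_range.1 hl), smul_eq_mul]
      by_cases hkl : k = l
      · simp [hkl]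
      · simp [hkl]
    rw [Finset.sum_congr rfl this]
    simp [Finset.mem_range.1 hl]
  have h2 : a p p = ∑ k ∈ Finset.range j, (a u (v k)) ^ 2 := by
    have : a p p = a p (∑ k ∈ Finset.range j, a u (v k) • v k) := by rw [← hp]
    rw [this, map_sum]
    refine Finset.sum_congr rfl fun k hk => ?_
    rw [map_smul, h1 k hk, smul_eq_mul, sq]
  have h3 : a u p = ∑ k ∈ Finset.range j, (a u (v k)) ^ 2 := by
    rw [hp, map_sum]
    refine Finset.sum_congr rfl fun k hk => ?_
    rw [map_smul, smul_eq_mul, sq]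
  have h4 := na (u - p)
  simp only [map_sub, sub_apply] at h4
  rw [sa p u, h2, h3] at h4
  linarith

/-- Bessel's inequality for the eigenvectors -/
lemma bessel_e (hF : Fm a b) {e : ℕ → H} {E : ℕ → ℝ} (hE : Eg a b e E) (n : ℕ) (v : H) :
    ∑ l ∈ Finset.range n, E l * (b v (e l)) ^ 2 ≤ a v v := by
  set p : H := ∑ l ∈ Finset.range n, b v (e l) • e l with hp
  have h1 : a p v = ∑ l ∈ Finset.range n, E l * (b v (e l)) ^ 2 := by
    rw [hp, map_sum, _root_.sum_apply]
    refine Finset.sum_congr rfl fun l _ => ?_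
    rw [map_smul, smul_apply, hE.eig, smul_eq_mul, hF.sb (e l) v]
    ring
  have h2 : a p p = ∑ l ∈ Finset.range n, E l * (b v (e l)) ^ 2 := by
    have : a p p = ∑ l ∈ Finset.range n, b v (e l) * a (e l) p := by
      have h : a p p = a p (∑ l ∈ Finset.range n, b v (e l) • e l) := by rw [← hp]
      rw [h, map_sum]
      refine Finset.sum_congr rfl fun l _ => ?_
      rw [map_smul, smul_eq_mul, hF.sa p (e l)]
    rw [this]
    refine Finset.sum_congr rfl fun l hl => ?_
    rw [hE.eig, hp, map_sum]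
    have h3 : ∀ k ∈ Finset.range n, b (e l) (b v (e k) • e k) = if k = l then b v (e l) else 0 := by
      intro k _
      rw [map_smul, hE.orth, smul_eq_mul]
      by_cases hkl : k = l
      · simp [hkl]
      · simp [hkl, Ne.symm hkl]
    rw [Finset.sum_congr rfl h3]
    simp only [Finset.sum_ite_eq', hl, if_true]
    ring
  have h4 := hF.na (v - p)
  simp only [map_sub, sub_apply] at h4
  rw [hF.sa v p, h1, h2] at h4
  linarith

/-- Ky Fan's inequality for the inverse eigenvalues -/
theorem ky_fan (hF : Fm a b) {e : ℕ → H} {E : ℕ → ℝ} (hE : Eg a b e E)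
    (h1 : 0 < E 1) {j : ℕ} {v : ℕ → H}
    (hv : ∀ k < j, ∀ l < j, a (v k) (v l) = if k = l then 1 else 0) :
    ∑ k ∈ Finset.range j, (b (v k) (v k) - (b (v k) (e 0)) ^ 2) ≤
      ∑ l ∈ Finset.range j, (E (l + 1))⁻¹ := by
  rcases Nat.eq_zero_or_pos j with rfl | hj
  · simp
  have hpos : ∀ l, 0 < E (l + 1) := fun l => h1.trans_le (hE.mono (by omega))
  set w : ℕ → ℝ := fun l => E (l + 1) * ∑ k ∈ Finset.range j, (b (v k) (e (l + 1))) ^ 2 with hw
  have w0 : ∀ l, 0 ≤ w l := fun l => mul_nonneg (hpos l).le (Finset.sum_nonneg fun k _ => sq_nonneg _)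
  have w1 : ∀ l, w l ≤ 1 := by
    intro l
    have h2 := bessel hF.sa hF.na hv (e (l + 1))
    simp only [hE.eig, hE.orth, if_true, mul_one] at h2
    have h3 : ∑ k ∈ Finset.range j, (E (l + 1) * b (e (l + 1)) (v k)) ^ 2 = E (l + 1) * w l := by
      rw [hw]
      simp only
      rw [Finset.mul_sum, Finset.mul_sum]
      refine Finset.sum_congr rfl fun k _ => ?_
      rw [hF.sb (e (l + 1)) (v k)]
      ring
    rw [h3] at h2
    have := hpos l
    nlinarith
  have w2 : ∀ n, ∑ l ∈ Finset.range n, w l ≤ j := by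
    intro n
    have h2 : ∑ l ∈ Finset.range n, w l =
        ∑ k ∈ Finset.range j, ∑ l ∈ Finset.range n, E (l + 1) * (b (v k) (e (l + 1))) ^ 2 := by
      rw [Finset.sum_comm]
      refine Finset.sum_congr rfl fun l _ => ?_
      rw [hw]
      simp only
      rw [Finset.mul_sum]
    rw [h2]
    calc ∑ k ∈ Finset.range j, ∑ l ∈ Finset.range n, E (l + 1) * (b (v k) (e (l + 1))) ^ 2 ≤
        ∑ k ∈ Finset.range j, (1 : ℝ) := by
          refine Finset.sum_le_sum fun k hk => ?_
          have h3 := bessel_e hF hE (n + 1) (v k)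
          rw [hv k (Finset.mem_range.1 hk) k (Finset.mem_range.1 hk), if_pos rfl,
            Finset.sum_range_succ'] at h3
          have h4 : 0 ≤ E 0 * (b (v k) (e 0)) ^ 2 := by
            refine mul_nonneg ?_ (sq_nonneg _)
            have h5 := hF.na (e 0)
            rw [hE.eig, hE.orth, if_pos rfl, mul_one] at h5
            exact h5
          linarith
      _ = j := by simp
  -- the sum of the squares
  have hs : HasSum (fun l => ∑ k ∈ Finset.range j, (b (v k) (e (l + 1))) ^ 2)
      (∑ k ∈ Finset.range j, (b (v k) (v k) - (b (v k) (e 0)) ^ 2)) := by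
    refine hasSum_sum fun k _ => ?_
    have h2 := hE.sum (v k)
    rw [← hasSum_nat_add_iff' 1] at h2
    simpa using h2
  refine le_of_tendsto hs.tendsto_sum_nat ?_
  filter_upwards [eventually_ge_atTop j] with n hn
  have h3 : ∑ l ∈ Finset.range n, ∑ k ∈ Finset.range j, (b (v k) (e (l + 1))) ^ 2 =
      ∑ l ∈ Finset.range n, w l * (E (l + 1))⁻¹ := by
    refine Finset.sum_congr rfl fun l _ => ?_
    rw [hw]
    simp only
    have := (hpos l).ne'
    field_simp
  rw [h3]
  obtain ⟨j', rfl⟩ : ∃ j', j = j' + 1 := ⟨j - 1, by omega⟩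
  set t : ℝ := (E (j' + 1))⁻¹ with ht
  have ht0 : 0 < t := inv_pos.2 (hpos j')
  have h4 : ∑ l ∈ Finset.range n, w l * ((E (l + 1))⁻¹ - t) ≤
      ∑ l ∈ Finset.range (j' + 1), ((E (l + 1))⁻¹ - t) := by
    rw [← Finset.sum_range_add_sum_Ico _ hn]
    have h5 : ∑ l ∈ Finset.Ico (j' + 1) n, w l * ((E (l + 1))⁻¹ - t) ≤ 0 := by
      refine Finset.sum_nonpos fun l hl => ?_
      have h6 := (Finset.mem_Ico.1 hl).1
      have h7 : (E (l + 1))⁻¹ ≤ t := inv_anti₀ (hpos j') (hE.mono (by omega))
      exact mul_nonpos_of_nonneg_of_nonpos (w0 l) (by linarith)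
    have h6 : ∑ l ∈ Finset.range (j' + 1), w l * ((E (l + 1))⁻¹ - t) ≤
        ∑ l ∈ Finset.range (j' + 1), ((E (l + 1))⁻¹ - t) := by
      refine Finset.sum_le_sum fun l hl => ?_
      have h7 : t ≤ (E (l + 1))⁻¹ :=
        inv_anti₀ (hpos l) (hE.mono (by have := Finset.mem_range.1 hl; omega))
      have := w1 l
      nlinarith
    linarith
  have h8 : ∑ l ∈ Finset.range n, w l * ((E (l + 1))⁻¹ - t) =
      ∑ l ∈ Finset.range n, w l * (E (l + 1))⁻¹ - t * ∑ l ∈ Finset.range n, w l := by
    rw [Finset.mul_sum, ← Finset.sum_sub_distrib]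
    exact Finset.sum_congr rfl fun l _ => by ring
  have h9 : ∑ l ∈ Finset.range (j' + 1), ((E (l + 1))⁻¹ - t) =
      ∑ l ∈ Finset.range (j' + 1), (E (l + 1))⁻¹ - t * ((j' + 1 : ℕ) : ℝ) := by
    rw [Finset.sum_sub_distrib]
    simp
    ring
  rw [h8, h9] at h4
  have h10 := w2 n
  nlinarith

end Pool.Agent.H992.LR
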