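import Mathlib

/-!
# Level repulsion: mollification of square integrable functions in the plane
-/

set_option autoImplicit false

open Set Filter Topology MeasureTheory Metric
open scoped ContDiff ENNReal

noncomputable section

namespace Pool.Agent.H992.LR

/-- bump functions -/
def bm (n : ℕ) : ContDiffBump (0 : ℂ) where
  rIn := 1 / (2 * ((n : ℝ) + 1))
  rOut := 1 / ((n : ℝ) + 1)
  rIn_pos := by positivity
  rIn_lt_rOut := by
    apply one_div_lt_one_div_of_lt
    · positivity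
    · have : (0 : ℝ) ≤ n := Nat.cast_nonneg n
      linarith

/-- the mollifier -/
def rho (n : ℕ) : ℂ → ℝ := (bm n).normed volume

lemma rho_smooth (n : ℕ) : ContDiff ℝ ∞ (rho n) := (bm n).contDiff_normed

lemma rho_nonneg (n : ℕ) (z : ℂ) : 0 ≤ rho n z := (bm n).nonneg_normed z

lemma rho_supp (n : ℕ) : HasCompactSupport (rho n) := (bm n).hasCompactSupport_normed

lemma rho_int (n : ℕ) : ∫ z, rho n z = 1 := (bm n).integral_normed

lemma rho_off {n : ℕ} {z : ℂ} (h : 1 / ((n : ℝ) + 1) ≤ ‖z‖) : rho n z = 0 := by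
  unfold rho
  rw [ContDiffBump.normed, (bm n).zero_of_le_dist (by rw [dist_zero_right]; exact h), zero_div]

lemma rho_integrable (n : ℕ) : Integrable (rho n) :=
  (rho_smooth n).continuous.integrable_of_hasCompactSupport (rho_supp n)

/-- the mollified function -/
def ml (n : ℕ) (g : ℂ → ℝ) (z : ℂ) : ℝ := ∫ w, rho n (z - w) * g w

lemma ml_conv (n : ℕ) (g : ℂ → ℝ) :
    ml n g = convolution (rho n) g (ContinuousLinearMap.lsmul ℝ ℝ) volume := by
  funext z
  rw [convolution_lsmul_swap]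
  rfl

lemma ml_smooth (n : ℕ) {g : ℂ → ℝ} (hg : LocallyIntegrable g volume) : ContDiff ℝ ∞ (ml n g) := by
  rw [ml_conv]
  exact (rho_supp n).contDiff_convolution_left _ (rho_smooth n) hg

lemma ml_fderiv (n : ℕ) {g : ℂ → ℝ} (hg : LocallyIntegrable g volume) (z u : ℂ) :
    fderiv ℝ (ml n g) z u = ∫ w, fderiv ℝ (rho n) (z - w) u * g w := by
  have hd : ContDiff ℝ 1 (rho n) := (rho_smooth n).of_le (by simp)
  have h1 := (rho_supp n).hasFDerivAt_convolution_left (ContinuousLinearMap.lsmul ℝ ℝ) hd hg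
    (μ := volume) z
  have h2 : ConvolutionExistsAt (fderiv ℝ (rho n)) g z
      (ContinuousLinearMap.precompL ℂ (ContinuousLinearMap.lsmul ℝ ℝ : ℝ →L[ℝ] ℝ →L[ℝ] ℝ)) volume :=
    ((rho_supp n).fderiv ℝ).convolutionExists_left _ (hd.continuous_fderiv (by norm_num)) hg z
  have h3 := convolutionExistsAt_iff_integrable_swap.mp h2
  rw [ml_conv, h1.fderiv, convolution_eq_swap, ContinuousLinearMap.integral_apply h3]
  rfl

lemma ml_ae (g : ℂ → ℝ) (hg : LocallyIntegrable g volume) :
    ∀ᵐ z, Tendsto (fun n => ml n g z) atTop (𝓝 (g z)) := by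
  have h1 : Tendsto (fun n : ℕ => (bm n).rOut) atTop (𝓝 0) :=
    tendsto_one_div_add_atTop_nhds_zero_nat
  have h2 := ContDiffBump.ae_convolution_tendsto_right_of_locallyIntegrable (φ := bm) (K := 2)
    h1 (Eventually.of_forall fun n => by
      show 1 / ((n : ℝ) + 1) ≤ 2 * (1 / (2 * ((n : ℝ) + 1)))
      refine le_of_eq ?_
      field_simp) hg
  filter_upwards [h2] with z hz
  refine hz.congr fun n => ?_
  rw [ml_conv]
  rfl

/-- lower bounds -/
lemma ml_low {n : ℕ} {g : ℂ → ℝ} (hg : LocallyIntegrable g volume) {z : ℂ} {δ : ℝ}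
    (h : ∀ᵐ w, w ∈ ball z (1 / ((n : ℝ) + 1)) → δ ≤ g w) : δ ≤ ml n g z := by
  have hi : Integrable fun w => rho n (z - w) := (rho_integrable n).comp_sub_left z
  have e1 : δ = ∫ w, rho n (z - w) * δ := by
    rw [integral_mul_const, integral_sub_left_eq_self (rho n) volume z, rho_int, one_mul]
  have h2 : Integrable fun w => rho n (z - w) * g w := by
    have h3 := (rho_supp n).convolutionExists_left (ContinuousLinearMap.lsmul ℝ ℝ)
      (rho_smooth n).continuous hg z
    exact convolutionExistsAt_iff_integrable_swap.mp h3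
  rw [e1]
  unfold ml
  refine integral_mono_ae (hi.mul_const δ) h2 ?_
  filter_upwards [h] with w hw
  by_cases hwb : w ∈ ball z (1 / ((n : ℝ) + 1))
  · exact mul_le_mul_of_nonneg_left (hw hwb) (rho_nonneg n _)
  · have : rho n (z - w) = 0 := rho_off (by
      rw [mem_ball, not_lt, dist_comm, dist_eq_norm] at hwb
      exact hwb)
    simp [this]

/-- translations are continuous in `L²` -/
theorem transl2 (g : ℂ → ℝ) (hg : MemLp g 2 volume) (η : ℝ≥0∞) (hη : 0 < η) :
    ∃ ε : ℝ, 0 < ε ∧ ∀ t : ℂ, ‖t‖ < ε → eLpNorm (fun z => g (z - t) - g z) 2 volume ≤ η := by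
  let G : ℂ → C(ℂ, ℂ) := fun t => ⟨fun z => z - t, by fun_prop⟩
  have hG : Continuous G := ContinuousMap.continuous_of_continuous_uncurry _ (by
    show Continuous fun p : ℂ × ℂ => p.2 - p.1
    fun_prop)
  have hmp : ∀ t, MeasurePreserving (G t) volume volume := fun t =>
    measurePreserving_sub_right volume t
  have hc : Continuous fun t => Lp.compMeasurePreserving (G t) (hmp t) (hg.toLp g) :=
    Continuous.compMeasurePreservingLp continuous_const hG hmp (by norm_num)
  have h0 := hc.tendsto 0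
  rw [EMetric.tendsto_nhds] at h0
  have h1 := h0 η hη
  rw [Metric.eventually_nhds_iff] at h1
  obtain ⟨ε, hε, h2⟩ := h1
  refine ⟨ε, hε, fun t ht => ?_⟩
  have h3 := h2 (y := t) (by simpa [dist_eq_norm] using ht)
  rw [Lp.edist_def] at h3
  have hcoe : ∀ s : ℂ, (Lp.compMeasurePreserving (G s) (hmp s) (hg.toLp g) : ℂ → ℝ) =ᵐ[volume]
      fun z => g (z - s) := by
    intro s
    have e1 := Lp.coeFn_compMeasurePreserving (hg.toLp g) (hmp s)
    have e2 : (fun z => (hg.toLp g : ℂ → ℝ) (G s z)) =ᵐ[volume] fun z => g (G s z) :=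
      (hmp s).quasiMeasurePreserving.ae_eq_comp hg.coeFn_toLp
    exact e1.trans e2
  have h4 : eLpNorm (fun z => g (z - t) - g z) 2 volume =
      eLpNorm ((Lp.compMeasurePreserving (G t) (hmp t) (hg.toLp g) : ℂ → ℝ) -
        (Lp.compMeasurePreserving (G 0) (hmp 0) (hg.toLp g) : ℂ → ℝ)) 2 volume := by
    apply eLpNorm_congr_ae
    filter_upwards [hcoe t, hcoe 0] with z h5 h6
    rw [Pi.sub_apply, h5, h6, sub_zero]
  rw [h4]
  exact h3.le

/-- Jensen's inequality -/
lemma jen (n : ℕ) {f : ℂ → ℝ≥0∞} (hf : AEMeasurable f volume) :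
    (∫⁻ t, ‖rho n t‖ₑ * f t) ^ (2 : ℝ) ≤ ∫⁻ t, ‖rho n t‖ₑ * f t ^ (2 : ℝ) := by
  have hm : Measurable fun t => ‖rho n t‖ₑ := (rho_smooth n).continuous.measurable.enorm
  have h1 : ∫⁻ t, ‖rho n t‖ₑ = 1 := by
    rw [← ofReal_integral_norm_eq_lintegral_enorm (rho_integrable n)]
    have : ∫ x, ‖rho n x‖ = 1 := by
      rw [← rho_int n]
      refine integral_congr_ae (Filter.Eventually.of_forall fun w => ?_)
      exact Real.norm_of_nonneg (rho_nonneg n w)
    rw [this, ENNReal.ofReal_one]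
  have h2 := ENNReal.lintegral_mul_le_Lp_mul_Lq volume (p := 2) (q := 2)
    (by rw [Real.holderConjugate_iff]; norm_num)
    (f := fun t => ‖rho n t‖ₑ ^ (1 / 2 : ℝ)) (g := fun t => ‖rho n t‖ₑ ^ (1 / 2 : ℝ) * f t)
    (hm.pow_const _).aemeasurable ((hm.pow_const _).aemeasurable.mul hf)
  have e1 : ∀ t, ((fun t => ‖rho n t‖ₑ ^ (1 / 2 : ℝ)) * fun t => ‖rho n t‖ₑ ^ (1 / 2 : ℝ) * f t) t =
      ‖rho n t‖ₑ * f t := by
    intro t
    rw [Pi.mul_apply, ← mul_assoc, ← ENNReal.rpow_add_of_nonneg _ _ (by norm_num) (by norm_num)]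
    norm_num
  have e2 : ∀ t, (‖rho n t‖ₑ ^ (1 / 2 : ℝ)) ^ (2 : ℝ) = ‖rho n t‖ₑ := by
    intro t
    rw [← ENNReal.rpow_mul]
    norm_num
  have e3 : ∀ t, (‖rho n t‖ₑ ^ (1 / 2 : ℝ) * f t) ^ (2 : ℝ) = ‖rho n t‖ₑ * f t ^ (2 : ℝ) := by
    intro t
    rw [ENNReal.mul_rpow_of_nonneg _ _ (by norm_num), e2]
  rw [lintegral_congr e1, lintegral_congr e2, lintegral_congr e3, h1, ENNReal.one_rpow,
    one_mul] at h2
  calc (∫⁻ t, ‖rho n t‖ₑ * f t) ^ (2 : ℝ) ≤
      ((∫⁻ t, ‖rho n t‖ₑ * f t ^ (2 : ℝ)) ^ (1 / 2 : ℝ)) ^ (2 : ℝ) :=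
        ENNReal.rpow_le_rpow h2 (by norm_num)
    _ = _ := by
        rw [← ENNReal.rpow_mul]
        norm_num

/-- the mollification error in `L²` -/
theorem ml_err (n : ℕ) (g : ℂ → ℝ) (hgm : StronglyMeasurable g) (hg : MemLp g 2 volume) (η : ℝ≥0∞)
    (h : ∀ t : ℂ, ‖t‖ < 1 / ((n : ℝ) + 1) → eLpNorm (fun z => g (z - t) - g z) 2 volume ≤ η) :
    eLpNorm (fun z => ml n g z - g z) 2 volume ≤ η := by
  have hloc : LocallyIntegrable g volume := hg.locallyIntegrable (by norm_num)
  have hρm : Measurable fun t => ‖rho n t‖ₑ := (rho_smooth n).continuous.measurable.enorm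
  have hρ1' : ∫⁻ t, ‖rho n t‖ₑ = 1 := by
    rw [← ofReal_integral_norm_eq_lintegral_enorm (rho_integrable n)]
    have : ∫ x, ‖rho n x‖ = 1 := by
      rw [← rho_int n]
      refine integral_congr_ae (Filter.Eventually.of_forall fun w => ?_)
      exact Real.norm_of_nonneg (rho_nonneg n w)
    rw [this, ENNReal.ofReal_one]
  have hnorm : ∀ f : ℂ → ℝ, eLpNorm f 2 volume = (∫⁻ z, ‖f z‖ₑ ^ (2 : ℝ)) ^ (1 / 2 : ℝ) := by
    intro f
    rw [eLpNorm_eq_lintegral_rpow_enorm_toReal (by norm_num) (by norm_num)]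
    norm_num
  have hpt : ∀ z, ‖ml n g z - g z‖ₑ ≤ ∫⁻ t, ‖rho n t‖ₑ * ‖g (z - t) - g z‖ₑ := by
    intro z
    have hi1 : Integrable fun t => rho n t * g (z - t) :=
      (rho_supp n).convolutionExists_left (ContinuousLinearMap.lsmul ℝ ℝ)
        (rho_smooth n).continuous hloc z
    have hi2 : Integrable fun t => rho n t * g z := (rho_integrable n).mul_const _
    have e0 : ml n g z = ∫ t, rho n t * g (z - t) := by
      rw [ml_conv]
      rfl
    have e1 : ml n g z - g z = ∫ t, rho n t * (g (z - t) - g z) := by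
      have : ∫ t, rho n t * g z = g z := by rw [integral_mul_const, rho_int, one_mul]
      calc ml n g z - g z = (∫ t, rho n t * g (z - t)) - ∫ t, rho n t * g z := by rw [this, e0]
        _ = ∫ t, (rho n t * g (z - t) - rho n t * g z) := (integral_sub hi1 hi2).symm
        _ = _ := by simp only [mul_sub]
    rw [e1]
    refine (enorm_integral_le_lintegral_enorm _).trans (le_of_eq ?_)
    refine lintegral_congr fun t => ?_
    rw [enorm_mul]
  have hdm : ∀ z, Measurable fun t => ‖g (z - t) - g z‖ₑ := fun z =>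
    ((hgm.comp_measurable (measurable_const.sub measurable_id)).sub stronglyMeasurable_const).enorm
  have hmm : Measurable fun q : ℂ × ℂ => ‖rho n q.2‖ₑ * ‖g (q.1 - q.2) - g q.1‖ₑ ^ (2 : ℝ) :=
    (hρm.comp measurable_snd).mul ((((hgm.comp_measurable (measurable_fst.sub measurable_snd)).sub
      (hgm.comp_measurable measurable_fst)).enorm).pow_const _)
  rw [hnorm]
  have hmain : ∫⁻ z, ‖ml n g z - g z‖ₑ ^ (2 : ℝ) ≤ η ^ (2 : ℝ) := by
    calc ∫⁻ z, ‖ml n g z - g z‖ₑ ^ (2 : ℝ)
        ≤ ∫⁻ z, ∫⁻ t, ‖rho n t‖ₑ * ‖g (z - t) - g z‖ₑ ^ (2 : ℝ) :=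
          lintegral_mono fun z => (ENNReal.rpow_le_rpow (hpt z) (by norm_num)).trans
            (jen n (hdm z).aemeasurable)
      _ = ∫⁻ t, ∫⁻ z, ‖rho n t‖ₑ * ‖g (z - t) - g z‖ₑ ^ (2 : ℝ) :=
          lintegral_lintegral_swap hmm.aemeasurable
      _ ≤ ∫⁻ t, ‖rho n t‖ₑ * η ^ (2 : ℝ) := by
          refine lintegral_mono fun t => ?_
          simp only
          have hmt : Measurable fun z => ‖g (z - t) - g z‖ₑ ^ (2 : ℝ) :=
            (((hgm.comp_measurable (measurable_id.sub_const t)).sub hgm).enorm).pow_const _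
          rw [lintegral_const_mul _ hmt]
          by_cases ht : 1 / ((n : ℝ) + 1) ≤ ‖t‖
          · rw [rho_off ht]; simp
          · gcongr
            have h5 := h t (not_le.1 ht)
            rw [hnorm] at h5
            have h6 := ENNReal.rpow_le_rpow h5 (z := 2) (by norm_num)
            rw [← ENNReal.rpow_mul] at h6
            norm_num at h6 ⊢
            exact h6
      _ = η ^ (2 : ℝ) := by rw [lintegral_mul_const _ hρm, hρ1', one_mul]
  have h6 := ENNReal.rpow_le_rpow hmain (z := 1 / 2) (by norm_num)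
  refine h6.trans (le_of_eq ?_)
  rw [← ENNReal.rpow_mul]
  norm_num

lemma ml_congr (n : ℕ) {g g' : ℂ → ℝ} (h : g =ᵐ[volume] g') : ml n g = ml n g' := by
  funext z
  unfold ml
  refine integral_congr_ae ?_
  filter_upwards [h] with w hw
  rw [hw]

/-- **mollification converges in `L²`** -/
theorem ml_L2 {g : ℂ → ℝ} (hg : MemLp g 2 volume) :
    (∀ n, MemLp (ml n g) 2 volume) ∧
      Tendsto (fun n => eLpNorm (fun z => ml n g z - g z) 2 volume) atTop (𝓝 0) := by
  obtain ⟨g', hg', he⟩ := hg.1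
  have hg2 : MemLp g' 2 volume := hg.ae_eq he
  have e1 : ∀ n, ml n g = ml n g' := fun n => ml_congr n he
  have e2 : ∀ n, eLpNorm (fun z => ml n g z - g z) 2 volume =
      eLpNorm (fun z => ml n g' z - g' z) 2 volume := by
    intro n
    refine eLpNorm_congr_ae ?_
    filter_upwards [he] with z hz
    rw [e1, hz]
  simp only [e2]
  constructor
  · intro n
    rw [e1]
    have hc : Continuous (ml n g') := (ml_smooth n (hg2.locallyIntegrable (by norm_num))).continuous
    have hshift : ∀ t : ℂ, eLpNorm (fun z => g' (z - t)) 2 volume = eLpNorm g' 2 volume := by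
      intro t
      exact eLpNorm_comp_measurePreserving hg2.1 (measurePreserving_sub_right volume t)
    have h1 := ml_err n g' hg' hg2 (2 * eLpNorm g' 2 volume) fun t _ => by
      refine (eLpNorm_sub_le (hg'.comp_measurable (measurable_id.sub_const t)).aestronglyMeasurable
        hg2.1 (by norm_num)).trans ?_
      show eLpNorm (fun z => g' (z - t)) 2 volume + eLpNorm g' 2 volume ≤ _
      rw [hshift, two_mul]
    have h2 : MemLp (fun z => ml n g' z - g' z) 2 volume :=
      ⟨hc.aestronglyMeasurable.sub hg2.1, h1.trans_lt (ENNReal.mul_lt_top (by norm_num) hg2.2)⟩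
    have h3 := h2.add hg2
    refine h3.ae_eq (Eventually.of_forall fun z => ?_)
    simp
  · rw [ENNReal.tendsto_nhds_zero]
    intro η hη
    obtain ⟨ε, hε, h1⟩ := transl2 g' hg2 η hη
    have h2 : Tendsto (fun n : ℕ => 1 / ((n : ℝ) + 1)) atTop (𝓝 0) :=
      tendsto_one_div_add_atTop_nhds_zero_nat
    filter_upwards [h2.eventually_lt_const hε] with n hn
    exact ml_err n g' hg' hg2 η fun t ht => h1 t (ht.trans hn)

end Pool.Agent.H992.LR
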