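import Pool.Agent.H992.LR.Cpt

/-!
# Level repulsion: the masses of two eigenvectors are nondegenerate
-/

set_option autoImplicit false

open Set Filter Topology MeasureTheory
open Pool.Agent.Y262.QE Pool.Agent.Y264.QR
open Pool.Agent.Q233.GLV (kf kf_apply kf_lin kf_int kf_symm ex kf_ex)
open Q101.QG (EV)

noncomputable section

namespace Pool.Agent.H992.LR

variable {M : Type} [MetricSpace M] [CompactSpace M] [MeasurableSpace M] [BorelSpace M]
  {μ : Measure M} [IsFiniteMeasure μ] {H : Type} [NormedAddCommGroup H] [InnerProductSpace ℝ H]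
  {i : H →L[ℝ] Lp ℝ 2 μ} {a : H →L[ℝ] H →L[ℝ] ℝ} {b : C(M, ℝ) → H →L[ℝ] H →L[ℝ] ℝ}

/-- half the difference of the masses of two eigenvectors -/
def al (b : C(M, ℝ) → H →L[ℝ] H →L[ℝ] ℝ) (m : ℕ) (g φ : C(M, ℝ)) (e : ℕ → H) (E : ℕ → ℝ) : ℝ :=
  (kf b (g * ex φ) (e (m + 1)) (e (m + 1)) * (E (m + 1))⁻¹ -
    kf b (g * ex φ) (e (m + 2)) (e (m + 2)) * (E (m + 2))⁻¹) / 2

/-- the mixed mass of two eigenvectors -/
def be (b : C(M, ℝ) → H →L[ℝ] H →L[ℝ] ℝ) (m : ℕ) (g φ : C(M, ℝ)) (e : ℕ → H) (E : ℕ → ℝ) : ℝ :=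
  kf b (g * ex φ) (e (m + 1)) (e (m + 2)) *
    ((Real.sqrt (E (m + 1)))⁻¹ * (Real.sqrt (E (m + 2)))⁻¹)

/-- products of eigenvectors vanish only if one factor vanishes -/
def PZ (μ : Measure M) (i : H →L[ℝ] Lp ℝ 2 μ) (a : H →L[ℝ] H →L[ℝ] ℝ)
    (b : C(M, ℝ) → H →L[ℝ] H →L[ℝ] ℝ) : Prop :=
  ∀ (φ : C(M, ℝ)) (lam : ℝ) (v v' : H), (∀ w, a v w = lam * b φ v w) →
    (∀ w, a v' w = lam * b φ v' w) → (∀ᵐ x ∂μ, (i v : M → ℝ) x * (i v' : M → ℝ) x = 0) →
    (∀ᵐ x ∂μ, (i v : M → ℝ) x = 0) ∨ (∀ᵐ x ∂μ, (i v' : M → ℝ) x = 0)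

lemma b_zero (hB : IsB μ i b) {φ : C(M, ℝ)} {v : H} (h : ∀ᵐ x ∂μ, (i v : M → ℝ) x = 0) :
    b φ v v = 0 := by
  rw [hB]
  refine integral_eq_zero_of_ae ?_
  filter_upwards [h] with x hx
  rw [hx]
  simp

lemma i_comb (c : ℝ) (v w : H) : ∀ᵐ x ∂μ, (i (v - c • w) : M → ℝ) x =
    (i v : M → ℝ) x - c * (i w : M → ℝ) x := by
  rw [map_sub, map_smul]
  filter_upwards [Lp.coeFn_sub (i v) (c • i w), Lp.coeFn_smul c (i w)] with x h1 h2
  rw [h1, Pi.sub_apply, h2, Pi.smul_apply, smul_eq_mul]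

/-- no traceless quadratic form of two orthonormal eigenvectors vanishes -/
theorem quad (hB : IsB μ i b) (hF : ∀ φ, Fm a (b φ)) (hpz : PZ μ i a b) {φ : C(M, ℝ)} {lam : ℝ}
    {v w : H} (hv : ∀ x, a v x = lam * b φ v x) (hw : ∀ x, a w x = lam * b φ w x)
    (hvv : b φ v v = 1) (hww : b φ w w = 1) (hvw : b φ v w = 0) {x y : ℝ} (hxy : x ≠ 0 ∨ y ≠ 0)
    (h : ∀ᵐ z ∂μ, x * (((i v : M → ℝ) z * (i v : M → ℝ) z - (i w : M → ℝ) z * (i w : M → ℝ) z) / 2) +
      y * ((i v : M → ℝ) z * (i w : M → ℝ) z) = 0) : False := by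
  by_cases hx : x = 0
  · have hy : y ≠ 0 := by
      rcases hxy with h1 | h1
      · exact absurd hx h1
      · exact h1
    have h1 : ∀ᵐ z ∂μ, (i v : M → ℝ) z * (i w : M → ℝ) z = 0 := by
      filter_upwards [h] with z hz
      rw [hx, zero_mul, zero_add] at hz
      exact (mul_eq_zero.1 hz).resolve_left hy
    rcases hpz φ lam v w hv hw h1 with h2 | h2
    · exact one_ne_zero (hvv.symm.trans (b_zero hB h2))
    · exact one_ne_zero (hww.symm.trans (b_zero hB h2))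
  · obtain ⟨D, hD⟩ : ∃ D, D = Real.sqrt (x ^ 2 + y ^ 2) := ⟨_, rfl⟩
    have hD2 : D ^ 2 = x ^ 2 + y ^ 2 := by rw [hD]; exact Real.sq_sqrt (by positivity)
    obtain ⟨r1, hr1⟩ : ∃ r, r = (-y + D) / x := ⟨_, rfl⟩
    obtain ⟨r2, hr2⟩ : ∃ r, r = (-y - D) / x := ⟨_, rfl⟩
    have e1 : x * (r1 + r2) = -2 * y := by
      rw [hr1, hr2]
      field_simp
      ring
    have e2 : r1 * r2 = -1 := by
      rw [hr1, hr2]
      field_simp
      linear_combination -hD2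
    have hev : ∀ r : ℝ, ∀ z, a (v - r • w) z = lam * b φ (v - r • w) z := by
      intro r z
      simp only [map_sub, map_smul, _root_.sub_apply, _root_.smul_apply, smul_eq_mul, hv, hw]
      ring
    have hnb : ∀ r : ℝ, b φ (v - r • w) (v - r • w) = 1 + r ^ 2 := by
      intro r
      simp only [map_sub, map_smul, _root_.sub_apply, _root_.smul_apply, smul_eq_mul, hvv, hww,
        hvw, (hF φ).sb w v]
      ring
    have hno : ∀ r : ℝ, ¬ ∀ᵐ z ∂μ, (i (v - r • w) : M → ℝ) z = 0 := by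
      intro r hr
      have h1 := b_zero hB (φ := φ) hr
      rw [hnb] at h1
      nlinarith [sq_nonneg r]
    have h1 : ∀ᵐ z ∂μ, (i (v - r1 • w) : M → ℝ) z * (i (v - r2 • w) : M → ℝ) z = 0 := by
      filter_upwards [h, i_comb (i := i) r1 v w, i_comb (i := i) r2 v w] with z hz h2 h3
      rw [h2, h3]
      have h4 : x * (((i v : M → ℝ) z - r1 * (i w : M → ℝ) z) *
          ((i v : M → ℝ) z - r2 * (i w : M → ℝ) z)) = 0 := by
        have : x * (((i v : M → ℝ) z - r1 * (i w : M → ℝ) z) *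
            ((i v : M → ℝ) z - r2 * (i w : M → ℝ) z)) =
            x * ((i v : M → ℝ) z * (i v : M → ℝ) z) -
              (x * (r1 + r2)) * ((i v : M → ℝ) z * (i w : M → ℝ) z) +
              x * (r1 * r2) * ((i w : M → ℝ) z * (i w : M → ℝ) z) := by ring
        rw [this, e1, e2]
        linarith
      exact (mul_eq_zero.1 h4).resolve_left hx
    rcases hpz φ lam _ _ (hev r1) (hev r2) h1 with h2 | h2
    · exact hno r1 h2
    · exact hno r2 h2

/-- **nondegeneracy** near a multiple eigenvalue -/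
theorem nd [CompleteSpace H] (hS : Sf μ i a) (hB : IsB μ i b) (hpz : PZ μ i a b)
    (g : ℕ → C(M, ℝ)) (hg : Dense (Submodule.span ℝ (range g) : Set C(M, ℝ))) (φ₀ : C(M, ℝ))
    (m : ℕ) (hpos : 0 < Ev a (b φ₀) (m + 1)) (heq : Ev a (b φ₀) (m + 2) = Ev a (b φ₀) (m + 1)) :
    ∃ (N : ℕ) (d : ℝ), 0 < d ∧ ∀ᶠ φ in 𝓝 φ₀, ∀ (e : ℕ → H) (E : ℕ → ℝ), Eg a (b φ) e E →
      ∃ p < N, ∃ q < N, d ≤ |al b m (g p) φ e E * be b m (g q) φ e E -
        al b m (g q) φ e E * be b m (g p) φ e E| := by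
  obtain ⟨hF, -, hexp, -⟩ := Pool.Agent.Q205.QLim.facts μ i a b hS hB
  have hEc := (tLip M μ H a b hF hexp).2.2.2.1
  by_contra hcon
  push Not at hcon
  have h1 : ∀ n : ℕ, ∃ (φ : C(M, ℝ)) (e : ℕ → H) (E : ℕ → ℝ), dist φ φ₀ < 1 / ((n : ℝ) + 1) ∧
      Eg a (b φ) e E ∧ ∀ p < n, ∀ q < n, |al b m (g p) φ e E * be b m (g q) φ e E -
        al b m (g q) φ e E * be b m (g p) φ e E| < 1 / ((n : ℝ) + 1) := by
    intro n
    have h2 := hcon n (1 / ((n : ℝ) + 1)) (by positivity)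
    have h3 := h2.and_eventually (Metric.ball_mem_nhds φ₀ (by positivity : 0 < 1 / ((n : ℝ) + 1)))
    obtain ⟨φ, ⟨e, E, h4, h5⟩, h6⟩ := h3.exists
    exact ⟨φ, e, E, h6, h4, h5⟩
  choose φs es Es hd hE hsm using h1
  have hφ : Tendsto φs atTop (𝓝 φ₀) := by
    rw [tendsto_iff_dist_tendsto_zero]
    exact squeeze_zero (fun n => dist_nonneg) (fun n => (hd n).le)
      tendsto_one_div_add_atTop_nhds_zero_nat
  obtain ⟨lam, hlam⟩ : ∃ lam, lam = Ev a (b φ₀) (m + 1) := ⟨_, rfl⟩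
  have hlam0 : 0 < lam := by rw [hlam]; exact hpos
  obtain ⟨κ, v, hκ, hv, hlim⟩ := comp hS hB hφ hE ![m + 1, m + 2] lam (by
    intro q
    fin_cases q
    · exact hlam.symm
    · exact heq.trans hlam.symm)
  have hκt := hκ.tendsto_atTop
  have e0 : (![m + 1, m + 2] : Fin 2 → ℕ) 0 = m + 1 := rfl
  have e1 : (![m + 1, m + 2] : Fin 2 → ℕ) 1 = m + 2 := rfl
  have l00 := fun g => hlim g 0 0
  have l01 := fun g => hlim g 0 1
  have l11 := fun g => hlim g 1 1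
  simp only [e0, e1] at l00 l01 l11
  have hone : ∀ (φ : C(M, ℝ)) (x y : H), kf b (1 * ex φ) x y = b φ x y := by
    intro φ x y
    rw [one_mul, kf_ex hB]
  have b00 : b φ₀ (v 0) (v 0) = 1 := by
    have h2 := l00 1
    simp only [hone, (hE _).orth, if_true] at h2
    exact tendsto_nhds_unique h2 tendsto_const_nhds
  have b11 : b φ₀ (v 1) (v 1) = 1 := by
    have h2 := l11 1
    simp only [hone, (hE _).orth, if_true] at h2
    exact tendsto_nhds_unique h2 tendsto_const_nhds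
  have b01 : b φ₀ (v 0) (v 1) = 0 := by
    have h2 := l01 1
    have h3 : m + 1 ≠ m + 2 := by omega
    simp only [hone, (hE _).orth, if_neg h3] at h2
    exact tendsto_nhds_unique h2 tendsto_const_nhds
  -- the limits
  have hEvs : ∀ n l, Ev a (b (φs n)) l = Es n l :=
    fun n l => Pool.Agent.Y592.QE.mm H a (b (φs n)) (hF _) (es n) (Es n) (hE n) l
  have hE1 : Tendsto (fun n => Es (κ n) (m + 1)) atTop (𝓝 lam) := by
    have h2 := ((hEc (m + 1)).tendsto φ₀).comp (hφ.comp hκt)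
    rw [← hlam] at h2
    exact h2.congr fun n => hEvs _ _
  have hE2 : Tendsto (fun n => Es (κ n) (m + 2)) atTop (𝓝 lam) := by
    have h2 := ((hEc (m + 2)).tendsto φ₀).comp (hφ.comp hκt)
    rw [heq, ← hlam] at h2
    exact h2.congr fun n => hEvs _ _
  have hA : ∀ f : C(M, ℝ), Tendsto (fun n => al b m f (φs (κ n)) (es (κ n)) (Es (κ n))) atTop
      (𝓝 ((kf b (f * ex φ₀) (v 0) (v 0) * lam⁻¹ - kf b (f * ex φ₀) (v 1) (v 1) * lam⁻¹) / 2)) :=
    fun f => (((l00 f).mul (hE1.inv₀ hlam0.ne')).sub ((l11 f).mul (hE2.inv₀ hlam0.ne'))).div_const 2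
  have hBe : ∀ f : C(M, ℝ), Tendsto (fun n => be b m f (φs (κ n)) (es (κ n)) (Es (κ n))) atTop
      (𝓝 (kf b (f * ex φ₀) (v 0) (v 1) * ((Real.sqrt lam)⁻¹ * (Real.sqrt lam)⁻¹))) := by
    intro f
    have h2 : Real.sqrt lam ≠ 0 := (Real.sqrt_pos.2 hlam0).ne'
    exact (l01 f).mul ((hE1.sqrt.inv₀ h2).mul (hE2.sqrt.inv₀ h2))
  set A : ℕ → ℝ := fun p => (kf b (g p * ex φ₀) (v 0) (v 0) * lam⁻¹ -
    kf b (g p * ex φ₀) (v 1) (v 1) * lam⁻¹) / 2 with hAd
  set B : ℕ → ℝ := fun p => kf b (g p * ex φ₀) (v 0) (v 1) *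
    ((Real.sqrt lam)⁻¹ * (Real.sqrt lam)⁻¹) with hBd
  have hdet : ∀ p q, A p * B q - A q * B p = 0 := by
    intro p q
    have h2 := ((((hA (g p)).mul (hBe (g q))).sub ((hA (g q)).mul (hBe (g p)))).abs)
    have h3 : Tendsto (fun n => 1 / ((κ n : ℝ) + 1)) atTop (𝓝 0) :=
      tendsto_one_div_add_atTop_nhds_zero_nat.comp hκt
    have h4 : |A p * B q - A q * B p| ≤ 0 := by
      refine le_of_tendsto_of_tendsto h2 h3 ?_
      filter_upwards [hκt.eventually_gt_atTop (max p q)] with n hn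
      exact (hsm (κ n) p ((le_max_left _ _).trans_lt hn) q ((le_max_right _ _).trans_lt hn)).le
    exact abs_eq_zero.1 (le_antisymm h4 (abs_nonneg _))
  obtain ⟨x, y, hxy, hxyp⟩ : ∃ x y : ℝ, (x ≠ 0 ∨ y ≠ 0) ∧ ∀ p, x * A p + y * B p = 0 := by
    by_cases h2 : ∀ p, A p = 0 ∧ B p = 0
    · exact ⟨1, 0, Or.inl one_ne_zero, fun p => by rw [(h2 p).1]; ring⟩
    · push Not at h2
      obtain ⟨p₀, hp₀⟩ := h2
      refine ⟨B p₀, -A p₀, ?_, fun p => ?_⟩
      · by_cases h3 : A p₀ = 0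
        · exact Or.inl (hp₀ h3)
        · exact Or.inr (neg_ne_zero.2 h3)
      · have := hdet p p₀
        linarith
  have hsl : (Real.sqrt lam)⁻¹ * (Real.sqrt lam)⁻¹ = lam⁻¹ := by
    rw [← mul_inv, Real.mul_self_sqrt hlam0.le]
  -- the quadratic form vanishes
  obtain ⟨W, hW⟩ : ∃ W : M → ℝ, W = fun z =>
      x * ((Real.exp (φ₀ z) * ((i (v 0) : M → ℝ) z * (i (v 0) : M → ℝ) z) -
        Real.exp (φ₀ z) * ((i (v 1) : M → ℝ) z * (i (v 1) : M → ℝ) z)) / 2) +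
      y * (Real.exp (φ₀ z) * ((i (v 0) : M → ℝ) z * (i (v 1) : M → ℝ) z)) := ⟨_, rfl⟩
  have ci := fun u w : H => Pool.Agent.Q233.RSP.cross_int (μ := μ) (i := i) φ₀ u w
  have hWi : Integrable W μ := by
    rw [hW]
    exact ((((ci _ _).sub (ci _ _)).div_const 2).const_mul x).add ((ci _ _).const_mul y)
  have hz := Pool.Agent.Q233.RSP.zero_of_total μ hWi (range g) hg (by
    rintro _ ⟨p, rfl⟩
    have h2 := hxyp p
    simp only [hAd, hBd, hsl] at h2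
    have h3 : x * ((kf b (g p * ex φ₀) (v 0) (v 0) - kf b (g p * ex φ₀) (v 1) (v 1)) / 2) +
        y * kf b (g p * ex φ₀) (v 0) (v 1) = 0 := by
      have h4 : lam⁻¹ * (x * ((kf b (g p * ex φ₀) (v 0) (v 0) -
          kf b (g p * ex φ₀) (v 1) (v 1)) / 2) + y * kf b (g p * ex φ₀) (v 0) (v 1)) = 0 := by
        linarith
      exact (mul_eq_zero.1 h4).resolve_left (inv_pos.2 hlam0).ne'
    have j1 : Integrable (fun z => x * (((g p * ex φ₀) z * (i (v 0) z * i (v 0) z) -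
        (g p * ex φ₀) z * (i (v 1) z * i (v 1) z)) / 2)) μ :=
      (((kf_int (g p * ex φ₀) (v 0) (v 0)).sub
        (kf_int (g p * ex φ₀) (v 1) (v 1))).div_const 2).const_mul x
    have j2 : Integrable (fun z => y * ((g p * ex φ₀) z * (i (v 0) z * i (v 1) z))) μ :=
      (kf_int (g p * ex φ₀) (v 0) (v 1)).const_mul y
    rw [kf_apply hB, kf_apply hB, kf_apply hB, ← integral_sub (kf_int _ _ _) (kf_int _ _ _),
      ← integral_div, ← integral_const_mul, ← integral_const_mul, ← integral_add j1 j2] at h3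
    rw [← h3, hW]
    refine integral_congr_ae (Eventually.of_forall fun z => ?_)
    simp only [ContinuousMap.mul_apply, ex_apply]
    ring)
  refine quad hB hF hpz (hv 0) (hv 1) b00 b11 b01 hxy ?_
  filter_upwards [hz] with z hz
  rw [hW] at hz
  simp only [Pi.zero_apply] at hz
  have h2 : Real.exp (φ₀ z) * (x * (((i (v 0) : M → ℝ) z * (i (v 0) : M → ℝ) z -
      (i (v 1) : M → ℝ) z * (i (v 1) : M → ℝ) z) / 2) +
      y * ((i (v 0) : M → ℝ) z * (i (v 1) : M → ℝ) z)) = 0 := by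
    linarith
  exact (mul_eq_zero.1 h2).resolve_left (Real.exp_pos _).ne'

end Pool.Agent.H992.LR
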