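import Pool.Graph.R_pool_sql_team_seeded_64922ed1.Results.MP_b3ccf3_an.StrongUniqueContinuation

/-!
# Level repulsion: unique continuation in the plane, part one

Reduction of the unique continuation for `|∂̄u| ≤ C|u|` in one complex variable to the theorem in two
variables.
-/

set_option autoImplicit false

open Set Filter Topology MeasureTheory
open scoped ContDiff ENNReal
open Pool.Agent.X100.SUC

noncomputable section

namespace Pool.Agent.H992.LR

/-- `∂̄ φ` -/
def db (φ : ℂ → ℂ) (z : ℂ) : ℂ :=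
  (1 / 2) * (fderiv ℝ φ z 1 + Complex.I * fderiv ℝ φ z Complex.I)

/-- `∂̄ G = H` on `B` in the sense of distributions -/
def WD (B : Set ℂ) (G H : ℂ → ℂ) : Prop :=
  ∀ φ : ℂ → ℂ, ContDiff ℝ ∞ φ → HasCompactSupport φ → tsupport φ ⊆ B →
    ∫ z in B, G z * db φ z = -∫ z in B, H z * φ z

lemma db_off {φ : ℂ → ℂ} {z : ℂ} (hz : z ∉ tsupport φ) : db φ z = 0 := by
  unfold db
  rw [fderiv_of_notMem_tsupport ℝ hz]
  simp

/-- slices of test functions -/
def sl (φ : (Fin 2 → ℂ) → ℂ) (b : ℂ) (a : ℂ) : ℂ := φ ![a, b]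

/-- the affine map -/
lemma aff_der (b a : ℂ) : HasFDerivAt (fun a : ℂ => (![a, b] : Fin 2 → ℂ))
    ((ContinuousLinearMap.single ℝ (fun _ : Fin 2 => ℂ) 0)) a := by
  rw [hasFDerivAt_pi']
  intro i
  fin_cases i
  · simp only [Fin.zero_eta, Matrix.cons_val_zero]
    have : (ContinuousLinearMap.proj (R := ℝ) 0 : (Fin 2 → ℂ) →L[ℝ] ℂ).comp
        (ContinuousLinearMap.single ℝ (fun _ : Fin 2 => ℂ) 0) = ContinuousLinearMap.id ℝ ℂ := by
      ext x; simp
    rw [this]
    exact hasFDerivAt_id a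
  · simp only [Fin.mk_one, Matrix.cons_val_one, Matrix.cons_val_fin_one]
    have : (ContinuousLinearMap.proj (R := ℝ) 1 : (Fin 2 → ℂ) →L[ℝ] ℂ).comp
        (ContinuousLinearMap.single ℝ (fun _ : Fin 2 => ℂ) 0) = 0 := by
      ext x; simp
    rw [this]
    exact hasFDerivAt_const b a

lemma aff_der' (b a : ℂ) : HasFDerivAt (fun b : ℂ => (![a, b] : Fin 2 → ℂ))
    ((ContinuousLinearMap.single ℝ (fun _ : Fin 2 => ℂ) 1)) b := by
  rw [hasFDerivAt_pi']
  intro i
  fin_cases i
  · simp only [Fin.zero_eta, Matrix.cons_val_zero]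
    have : (ContinuousLinearMap.proj (R := ℝ) 0 : (Fin 2 → ℂ) →L[ℝ] ℂ).comp
        (ContinuousLinearMap.single ℝ (fun _ : Fin 2 => ℂ) 1) = 0 := by
      ext x; simp
    rw [this]
    exact hasFDerivAt_const a b
  · simp only [Fin.mk_one, Matrix.cons_val_one, Matrix.cons_val_fin_one]
    have : (ContinuousLinearMap.proj (R := ℝ) 1 : (Fin 2 → ℂ) →L[ℝ] ℂ).comp
        (ContinuousLinearMap.single ℝ (fun _ : Fin 2 => ℂ) 1) = ContinuousLinearMap.id ℝ ℂ := by
      ext x; simp
    rw [this]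
    exact hasFDerivAt_id b

lemma aff_smooth (b : ℂ) : ContDiff ℝ ∞ (fun a : ℂ => (![a, b] : Fin 2 → ℂ)) := by
  rw [contDiff_pi]
  intro i
  fin_cases i
  · exact contDiff_id
  · exact contDiff_const

lemma aff_smooth' (a : ℂ) : ContDiff ℝ ∞ (fun b : ℂ => (![a, b] : Fin 2 → ℂ)) := by
  rw [contDiff_pi]
  intro i
  fin_cases i
  · exact contDiff_const
  · exact contDiff_id

lemma aff_cont2 : Continuous fun p : ℂ × ℂ => (![p.1, p.2] : Fin 2 → ℂ) := by
  rw [continuous_pi_iff]
  intro i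
  fin_cases i
  · simpa using continuous_fst
  · simpa using continuous_snd

lemma dbar0 {φ : (Fin 2 → ℂ) → ℂ} (hφ : ContDiff ℝ ∞ φ) (a b : ℂ) :
    dbar 0 φ ![a, b] = db (fun a => φ ![a, b]) a := by
  have h1 := ((hφ.differentiable (by simp)) ![a, b]).hasFDerivAt.comp a (aff_der b a)
  have h2 : fderiv ℝ (fun a => φ ![a, b]) a =
      (fderiv ℝ φ ![a, b]).comp (ContinuousLinearMap.single ℝ (fun _ : Fin 2 => ℂ) 0) := h1.fderiv
  unfold dbar db
  rw [h2]
  simp

lemma dbar1 {φ : (Fin 2 → ℂ) → ℂ} (hφ : ContDiff ℝ ∞ φ) (a b : ℂ) :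
    dbar 1 φ ![a, b] = db (fun b => φ ![a, b]) b := by
  have h1 := ((hφ.differentiable (by simp)) ![a, b]).hasFDerivAt.comp b (aff_der' b a)
  have h2 : fderiv ℝ (fun b => φ ![a, b]) b =
      (fderiv ℝ φ ![a, b]).comp (ContinuousLinearMap.single ℝ (fun _ : Fin 2 => ℂ) 1) := h1.fderiv
  unfold dbar db
  rw [h2]
  simp

lemma fd_cont {φ : ℂ → ℂ} (hφ : ContDiff ℝ ∞ φ) (v : ℂ) : Continuous fun z => fderiv ℝ φ z v :=
  (hφ.continuous_fderiv (by simp)).clm_apply continuous_const

lemma fd_supp {φ : ℂ → ℂ} (hc : HasCompactSupport φ) (v : ℂ) :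
    HasCompactSupport fun z => fderiv ℝ φ z v := hc.fderiv_apply (𝕜 := ℝ) v

lemma db_cont {φ : ℂ → ℂ} (hφ : ContDiff ℝ ∞ φ) : Continuous (db φ) := by
  unfold db
  exact continuous_const.mul ((fd_cont hφ 1).add (continuous_const.mul (fd_cont hφ Complex.I)))

lemma db_supp {φ : ℂ → ℂ} (hc : HasCompactSupport φ) : HasCompactSupport (db φ) := by
  refine HasCompactSupport.intro hc fun z hz => db_off hz

/-- the integral of `∂̄ φ` vanishes -/
lemma db_int {φ : ℂ → ℂ} (hφ : ContDiff ℝ ∞ φ) (hc : HasCompactSupport φ) :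
    ∫ z, db φ z = 0 := by
  have hi : ∀ v : ℂ, Integrable fun z => fderiv ℝ φ z v := fun v =>
    (fd_cont hφ v).integrable_of_hasCompactSupport (fd_supp hc v)
  have h1 : ∀ v : ℂ, ∫ z, fderiv ℝ φ z v = 0 := by
    intro v
    have h2 := integral_mul_fderiv_eq_neg_fderiv_mul_of_integrable (μ := (volume : Measure ℂ))
      (𝕜 := ℂ) (f := fun _ : ℂ => (1 : ℂ)) (g := φ) (v := v)
      (by simp) (by simpa using hi v)
      (by simpa using hφ.continuous.integrable_of_hasCompactSupport hc)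
      (fun x _ => differentiableAt_const _) (fun x _ => hφ.differentiable (by simp) x)
    simpa using h2
  unfold db
  rw [integral_const_mul, integral_add (hi 1) ((hi Complex.I).const_mul _), integral_const_mul,
    h1, h1]
  simp

lemma slice_integrable {G : ℂ → ℂ} (hG : Integrable G) {g : (Fin 2 → ℂ) → ℂ} (hg : Continuous g)
    (hgc : HasCompactSupport g) :
    Integrable (fun p : ℂ × ℂ => G p.1 * g ![p.1, p.2]) (volume.prod volume) := by
  obtain ⟨C, hC⟩ := hgc.exists_bound_of_continuous hg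
  obtain ⟨R, hR⟩ := hgc.isBounded.subset_closedBall 0
  have hI : Integrable (fun b : ℂ => (Metric.closedBall (0 : ℂ) R).indicator (fun _ => C) b) :=
    (integrable_indicator_iff Metric.isClosed_closedBall.measurableSet).2
      (integrableOn_const measure_closedBall_lt_top.ne)
  refine (hG.norm.mul_prod hI).mono' ?_ (Eventually.of_forall fun p => ?_)
  · exact (hG.1.comp_fst).mul (hg.comp aff_cont2).aestronglyMeasurable
  · rw [norm_mul]
    refine mul_le_mul_of_nonneg_left ?_ (norm_nonneg _)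
    by_cases hp : p.2 ∈ Metric.closedBall (0 : ℂ) R
    · rw [indicator_of_mem hp]
      exact hC _
    · rw [indicator_of_notMem hp]
      have : g ![p.1, p.2] = 0 := by
        refine image_eq_zero_of_notMem_tsupport fun h => hp ?_
        have h2 := hR h
        rw [mem_closedBall_zero_iff] at h2 ⊢
        exact (norm_le_pi_norm (![p.1, p.2] : Fin 2 → ℂ) 1).trans h2
      rw [this, norm_zero]

lemma slice_int {G : ℂ → ℂ} (hG : Integrable G) {g : (Fin 2 → ℂ) → ℂ} (hg : Continuous g)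
    (hgc : HasCompactSupport g) :
    (∫ z : Fin 2 → ℂ, G (z 0) * g z = ∫ b, ∫ a, G a * g ![a, b]) ∧
    ∫ z : Fin 2 → ℂ, G (z 0) * g z = ∫ a, G a * ∫ b, g ![a, b] := by
  have hi := slice_integrable hG hg hgc
  have h0 : ∫ z : Fin 2 → ℂ, G (z 0) * g z = ∫ p : ℂ × ℂ, G p.1 * g ![p.1, p.2] := by
    have h1 := (volume_preserving_finTwoArrow ℂ).symm.integral_comp'
      (g := fun z : Fin 2 → ℂ => G (z 0) * g z)
    rw [← h1]
    rfl
  constructor
  · rw [h0]
    exact integral_prod_symm _ hi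
  · rw [h0]
    rw [Measure.volume_eq_prod, integral_prod _ hi]
    simp only [integral_const_mul]

/-- slices of test functions are test functions -/
lemma slice_test {φ : (Fin 2 → ℂ) → ℂ} (hφ : ContDiff ℝ ∞ φ) (hc : HasCompactSupport φ) {B : Set ℂ}
    (hs : tsupport φ ⊆ {z | z 0 ∈ B}) (b : ℂ) : ContDiff ℝ ∞ (fun a => φ ![a, b]) ∧
    HasCompactSupport (fun a => φ ![a, b]) ∧ tsupport (fun a => φ ![a, b]) ⊆ B := by
  have h0 : tsupport (fun a => φ ![a, b]) ⊆ (fun a : ℂ => (![a, b] : Fin 2 → ℂ)) ⁻¹' tsupport φ :=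
    tsupport_comp_subset_preimage (f := fun a : ℂ => (![a, b] : Fin 2 → ℂ)) φ
      (aff_smooth b).continuous
  refine ⟨hφ.comp (aff_smooth b), ?_, fun a ha => ?_⟩
  · obtain ⟨R, hR⟩ := hc.isBounded.subset_closedBall 0
    refine HasCompactSupport.intro (isCompact_closedBall (0 : ℂ) R) fun a ha => ?_
    refine image_eq_zero_of_notMem_tsupport fun h => ha ?_
    have h2 := hR h
    rw [mem_closedBall_zero_iff] at h2 ⊢
    exact (norm_le_pi_norm (![a, b] : Fin 2 → ℂ) 0).trans h2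
  · have h1 := hs (h0 ha)
    simpa using h1

lemma slice_test' {φ : (Fin 2 → ℂ) → ℂ} (hφ : ContDiff ℝ ∞ φ) (hc : HasCompactSupport φ) (a : ℂ) :
    ContDiff ℝ ∞ (fun b => φ ![a, b]) ∧ HasCompactSupport (fun b => φ ![a, b]) := by
  refine ⟨hφ.comp (aff_smooth' a), ?_⟩
  obtain ⟨R, hR⟩ := hc.isBounded.subset_closedBall 0
  refine HasCompactSupport.intro (isCompact_closedBall (0 : ℂ) R) fun b hb => ?_
  refine image_eq_zero_of_notMem_tsupport fun h => hb ?_
  have h2 := hR h
  rw [mem_closedBall_zero_iff] at h2 ⊢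
  exact (norm_le_pi_norm (![a, b] : Fin 2 → ℂ) 1).trans h2

lemma dbar_cont {j : Fin 2} {φ : (Fin 2 → ℂ) → ℂ} (hφ : ContDiff ℝ ∞ φ) :
    Continuous (dbar j φ) := by
  unfold dbar
  have h : ∀ v : Fin 2 → ℂ, Continuous fun z => fderiv ℝ φ z v := fun v =>
    (hφ.continuous_fderiv (by simp)).clm_apply continuous_const
  exact continuous_const.mul ((h _).add (continuous_const.mul (h _)))

lemma dbar_supp {j : Fin 2} {φ : (Fin 2 → ℂ) → ℂ} (hc : HasCompactSupport φ) :
    HasCompactSupport (dbar j φ) := by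
  refine HasCompactSupport.intro hc fun z hz => ?_
  unfold dbar
  rw [fderiv_of_notMem_tsupport ℝ hz]
  simp

/-- the cylinder over `B` -/
def Cyl (B : Set ℂ) : Set (Fin 2 → ℂ) := {z | z 0 ∈ B}

lemma cyl_int {B : Set ℂ} (hB : MeasurableSet B) {G : ℂ → ℂ} (hG : IntegrableOn G B)
    {g : (Fin 2 → ℂ) → ℂ} (hg : Continuous g) (hgc : HasCompactSupport g) :
    (∫ z in Cyl B, G (z 0) * g z = ∫ b, ∫ a in B, G a * g ![a, b]) ∧
    ∫ z in Cyl B, G (z 0) * g z = ∫ a in B, G a * ∫ b, g ![a, b] := by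
  have hG' : Integrable (B.indicator G) := (integrable_indicator_iff hB).2 hG
  obtain ⟨h1, h2⟩ := slice_int hG' hg hgc
  have hCm : MeasurableSet (Cyl B) := (measurable_pi_apply 0) hB
  have h0 : ∫ z in Cyl B, G (z 0) * g z = ∫ z : Fin 2 → ℂ, B.indicator G (z 0) * g z := by
    rw [← integral_indicator hCm]
    refine integral_congr_ae (Eventually.of_forall fun z => ?_)
    by_cases hz : z 0 ∈ B
    · have : z ∈ Cyl B := hz
      simp only [indicator_of_mem hz, indicator_of_mem this]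
    · have : z ∉ Cyl B := hz
      simp only [indicator_of_notMem hz, indicator_of_notMem this, zero_mul]
  rw [h0]
  constructor
  · rw [h1]
    refine integral_congr_ae (Eventually.of_forall fun b => ?_)
    simp only
    rw [← integral_indicator hB]
    refine integral_congr_ae (Eventually.of_forall fun a => ?_)
    by_cases ha : a ∈ B <;> simp [ha]
  · rw [h2, ← integral_indicator hB]
    refine integral_congr_ae (Eventually.of_forall fun a => ?_)
    by_cases ha : a ∈ B <;> simp [ha]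

end Pool.Agent.H992.LR
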