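import Pool.Agent.H992.LR.Plane1

/-!
# Level repulsion: unique continuation in the plane, part two
-/

set_option autoImplicit false

open Set Filter Topology MeasureTheory Metric
open scoped ContDiff ENNReal ComplexConjugate
open Pool.Agent.X100.SUC

noncomputable section

namespace Pool.Agent.H992.LR

lemma cyl_memLp {B : Set ℂ} (hB : MeasurableSet B) {F : Type} [NormedAddCommGroup F] {G : ℂ → F}
    {p : ℝ≥0∞} (hG : MemLp G p (volume.restrict B)) {K : Set (Fin 2 → ℂ)} (hK : IsCompact K)
    (hKB : K ⊆ Cyl B) : MemLp (fun z : Fin 2 → ℂ => G (z 0)) p (volume.restrict K) := by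
  obtain ⟨R, hR⟩ := hK.isBounded.subset_closedBall 0
  set cB := closedBall (0 : ℂ) R with hcB
  have hcm : MeasurableSet cB := isClosed_closedBall.measurableSet
  have hmp := (volume_preserving_finTwoArrow ℂ).restrict_preimage (hB.prod hcm)
  have hsub : K ⊆ MeasurableEquiv.finTwoArrow ⁻¹' (B ×ˢ cB) := by
    intro z hz
    refine ⟨hKB hz, ?_⟩
    have h2 := hR hz
    rw [hcB, mem_closedBall_zero_iff]
    rw [mem_closedBall_zero_iff] at h2
    exact (norm_le_pi_norm z 1).trans h2
  have : IsFiniteMeasure ((volume : Measure ℂ).restrict cB) :=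
    ⟨by rw [Measure.restrict_apply_univ]; exact measure_closedBall_lt_top⟩
  have h1 := hG.comp_fst ((volume : Measure ℂ).restrict cB)
  rw [Measure.prod_restrict] at h1
  have h2 := h1.comp_measurePreserving hmp
  exact h2.mono_measure (Measure.restrict_mono_set _ hsub)

lemma cyl_ae {B : Set ℂ} {P : ℂ → Prop} (hB : MeasurableSet B)
    (h : ∀ᵐ z ∂((volume : Measure (Fin 2 → ℂ)).restrict (Cyl B)), P (z 0)) :
    ∀ᵐ a ∂((volume : Measure ℂ).restrict B), P a := by
  have hCm : MeasurableSet (Cyl B) := (measurable_pi_apply 0) hB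
  rw [ae_restrict_iff' hCm] at h
  rw [ae_restrict_iff' hB]
  rw [ae_iff] at h ⊢
  have h1 : {z : Fin 2 → ℂ | ¬ (z ∈ Cyl B → P (z 0))} =
      MeasurableEquiv.finTwoArrow ⁻¹' ({a : ℂ | ¬ (a ∈ B → P a)} ×ˢ (univ : Set ℂ)) := by
    ext z
    simp [Cyl, MeasurableEquiv.finTwoArrow]
  rw [h1, (volume_preserving_finTwoArrow ℂ).measure_preimage_equiv, Measure.volume_eq_prod,
    Measure.prod_prod] at h
  rcases mul_eq_zero.1 h with h | h
  · exact h
  · simp at h

lemma cyl_ae' {B : Set ℂ} {P : ℂ → Prop} (hB : MeasurableSet B)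
    (h : ∀ᵐ a ∂((volume : Measure ℂ).restrict B), P a) :
    ∀ᵐ z ∂((volume : Measure (Fin 2 → ℂ)).restrict (Cyl B)), P (z 0) := by
  have hCm : MeasurableSet (Cyl B) := (measurable_pi_apply 0) hB
  rw [ae_restrict_iff' hB] at h
  rw [ae_restrict_iff' hCm]
  rw [ae_iff] at h ⊢
  have h1 : {z : Fin 2 → ℂ | ¬ (z ∈ Cyl B → P (z 0))} =
      MeasurableEquiv.finTwoArrow ⁻¹' ({a : ℂ | ¬ (a ∈ B → P a)} ×ˢ (univ : Set ℂ)) := by
    ext z
    simp [Cyl, MeasurableEquiv.finTwoArrow]
  rw [h1, (volume_preserving_finTwoArrow ℂ).measure_preimage_equiv, Measure.volume_eq_prod,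
    Measure.prod_prod, h, zero_mul]

/-- if `V` vanishes on a part, then so does its derivative -/
lemma zero_der {U : Set ℂ} (hU : IsOpen U) {B : Set ℂ} (hUB : U ⊆ B) {V W : ℂ → ℂ}
    (hW : IntegrableOn W B) (h1 : WD B V W) (h0 : ∀ᵐ z, z ∈ U → V z = 0) :
    ∀ᵐ z, z ∈ U → W z = 0 := by
  refine hU.ae_eq_zero_of_integral_contDiff_smul_eq_zero
    (hW.mono_set hUB).locallyIntegrableOn fun g hg hgc hgs => ?_
  have h2 := h1 (fun z => (g z : ℂ)) (Complex.ofRealCLM.contDiff.comp hg)
    (hgc.comp_left (g := fun x : ℝ => (x : ℂ)) (by simp)) (by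
      refine (closure_mono ?_).trans (hgs.trans hUB)
      intro z hz hz2
      exact hz (by simp [hz2]))
  have hts : tsupport (fun z => (g z : ℂ)) ⊆ U := by
    refine (closure_mono ?_).trans hgs
    intro z hz hz2
    exact hz (by simp [hz2])
  have h3 : ∫ z in B, V z * db (fun z => (g z : ℂ)) z = 0 := by
    refine integral_eq_zero_of_ae ?_
    refine Eventually.filter_mono (ae_mono Measure.restrict_le_self) ?_
    filter_upwards [h0] with z hz
    by_cases hzU : z ∈ U
    · simp [hz hzU]
    · rw [db_off fun h => hzU (hts h)]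
      simp
  rw [h3] at h2
  have h4 : ∫ z in B, W z * (g z : ℂ) = 0 := by
    have := h2.symm
    rwa [neg_eq_zero] at this
  have h5 : ∫ x, g x • W x = ∫ z in B, W z * (g z : ℂ) := by
    rw [← setIntegral_eq_integral_of_forall_compl_eq_zero (s := B)]
    · refine integral_congr_ae (Eventually.of_forall fun z => ?_)
      simp only [Complex.real_smul]
      ring
    · intro z hz
      rw [image_eq_zero_of_notMem_tsupport fun h => hz (hUB (hgs h)), zero_smul]
  rw [h5, h4]

/-- unique continuation in the plane for `∂̄V = W̄`, `∂̄W = q V` -/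
theorem planar_ucp {z0 : ℂ} {R : ℝ} {V W q : ℂ → ℂ} {C : ℝ}
    (hV : MemLp V 2 (volume.restrict (ball z0 R))) (hW : MemLp W 2 (volume.restrict (ball z0 R)))
    (hq : AEStronglyMeasurable q (volume.restrict (ball z0 R)))
    (hqb : ∀ᵐ z ∂(volume.restrict (ball z0 R)), ‖q z‖ ≤ C)
    (h1 : WD (ball z0 R) V (fun z => conj (W z)))
    (h2 : WD (ball z0 R) W (fun z => q z * V z)) {z1 : ℂ} {r : ℝ} (hr : 0 < r)
    (hz1 : ball z1 r ⊆ ball z0 R) (h0 : ∀ᵐ z, z ∈ ball z1 r → V z = 0) :
    ∀ᵐ z, z ∈ ball z0 R → V z = 0 := by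
  set B := ball z0 R with hBdef
  have hB : MeasurableSet B := isOpen_ball.measurableSet
  have : IsFiniteMeasure ((volume : Measure ℂ).restrict B) :=
    ⟨by rw [Measure.restrict_apply_univ]; exact measure_ball_lt_top⟩
  have hcW : MemLp (fun z => conj (W z)) 2 (volume.restrict B) := hW.star
  have hqV : MemLp (fun z => q z * V z) 2 (volume.restrict B) := by
    refine hV.of_le_mul (c := C) (hq.mul hV.1) ?_
    filter_upwards [hqb] with z hz
    rw [norm_mul]
    exact mul_le_mul_of_nonneg_right hz (norm_nonneg _)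
  have iV : IntegrableOn V B := hV.integrable (by norm_num)
  have iW : IntegrableOn W B := hW.integrable (by norm_num)
  have icW : IntegrableOn (fun z => conj (W z)) B := hcW.integrable (by norm_num)
  have iqV : IntegrableOn (fun z => q z * V z) B := hqV.integrable (by norm_num)
  -- the derivative vanishes as well
  have hW0 : ∀ᵐ z, z ∈ ball z1 r → W z = 0 := by
    filter_upwards [zero_der isOpen_ball hz1 icW h1 h0] with z hz hzb
    have := hz hzb
    simpa using this
  set u : (Fin 2 → ℂ) → Fin 2 → ℂ := fun z => ![V (z 0), W (z 0)] with hu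
  set h : Fin 2 → (Fin 2 → ℂ) → Fin 2 → ℂ := fun j z =>
    if j = 0 then ![conj (W (z 0)), q (z 0) * V (z 0)] else 0 with hh
  have hmain := Pool.Agent.Results.MP_b3ccf3_an.StrongUniqueContinuation.result 2 2 le_rfl (Cyl B)
    (isOpen_ball.preimage (continuous_apply 0)) ?_ u h (fun _ => max 1 C) 2 (by norm_num)
    ?_ ?_ ?_ ?_ ?_ ![z1, 0] ?_ ?_
  · have h3 : ∀ᵐ z ∂((volume : Measure (Fin 2 → ℂ)).restrict (Cyl B)), V (z 0) = 0 := by
      filter_upwards [hmain] with z hz
      have := congrFun hz 0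
      simpa [hu] using this
    have h4 := cyl_ae (P := fun a => V a = 0) hB h3
    rwa [ae_restrict_iff' hB] at h4
  · -- connected
    refine ⟨⟨![z1, 0], ?_⟩, ?_⟩
    · show (![z1, 0] : Fin 2 → ℂ) 0 ∈ B
      simpa using hz1 (mem_ball_self hr)
    · have : Convex ℝ (Cyl B) := by
        have := (convex_ball z0 R).linear_preimage
          (LinearMap.proj (R := ℝ) (φ := fun _ : Fin 2 => ℂ) 0)
        exact this
      exact this.isPreconnected
  · -- u in L^2
    intro K hKs hKc
    rw [show ENNReal.ofReal 2 = 2 by norm_num]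
    refine MemLp.of_eval fun c => ?_
    fin_cases c
    · exact cyl_memLp hB hV hKc hKs
    · exact cyl_memLp hB hW hKc hKs
  · -- h in L^1
    intro j K hKs hKc
    have : IsFiniteMeasure ((volume : Measure (Fin 2 → ℂ)).restrict K) :=
      ⟨by rw [Measure.restrict_apply_univ]; exact hKc.measure_lt_top⟩
    rw [show ENNReal.ofReal 1 = 1 by norm_num]
    fin_cases j
    · refine MemLp.of_eval fun c => ?_
      fin_cases c
      · exact (cyl_memLp hB hcW hKc hKs).mono_exponent (by norm_num)
      · exact (cyl_memLp hB hqV hKc hKs).mono_exponent (by norm_num)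
    · simp only [hh]
      exact MemLp.zero'
  · -- weak derivatives
    intro j φ hφ hφc hφs c
    fin_cases j
    · have hsl := fun b => slice_test hφ hφc (B := B) hφs b
      have key : ∀ G H : ℂ → ℂ, IntegrableOn G B → IntegrableOn H B → WD B G H →
          ∫ z in Cyl B, G (z 0) * dbar 0 φ z = -∫ z in Cyl B, H (z 0) * φ z := by
        intro G H hG hH hGH
        rw [(cyl_int hB hG (dbar_cont (j := 0) hφ) (dbar_supp hφc)).1,
          (cyl_int hB hH hφ.continuous hφc).1, ← integral_neg]
        refine integral_congr_ae (Eventually.of_forall fun b => ?_)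
        simp only [dbar0 hφ]
        exact hGH _ (hsl b).1 (hsl b).2.1 (hsl b).2.2
      fin_cases c
      · exact key V (fun z => conj (W z)) iV icW h1
      · exact key W (fun z => q z * V z) iW iqV h2
    · have key : ∀ G : ℂ → ℂ, IntegrableOn G B →
          ∫ z in Cyl B, G (z 0) * dbar 1 φ z = 0 := by
        intro G hG
        rw [(cyl_int hB hG (dbar_cont (j := 1) hφ) (dbar_supp hφc)).2]
        refine integral_eq_zero_of_ae (Eventually.of_forall fun a => ?_)
        simp only [dbar1 hφ, Pi.zero_apply]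
        rw [db_int (slice_test' hφ hφc a).1 (slice_test' hφ hφc a).2, mul_zero]
      fin_cases c
      · have := key V iV
        simpa [hu, hh] using this
      · have := key W iW
        simpa [hu, hh] using this
  · -- the potential
    intro K hKs hKc
    have : IsFiniteMeasure ((volume : Measure (Fin 2 → ℂ)).restrict K) :=
      ⟨by rw [Measure.restrict_apply_univ]; exact hKc.measure_lt_top⟩
    exact memLp_const _
  · -- the inequality
    have h3 := cyl_ae' (P := fun a => ‖q a‖ ≤ C) hB hqb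
    filter_upwards [h3] with z hz
    have hC1 : 1 ≤ max 1 C := le_max_left _ _
    have hC2 : ‖q (z 0)‖ ≤ max 1 C := hz.trans (le_max_right _ _)
    unfold nrm
    rw [← Real.sqrt_sq (by linarith : 0 ≤ max 1 C), ← Real.sqrt_mul (by positivity)]
    refine Real.sqrt_le_sqrt ?_
    simp only [hh, hu, Fin.sum_univ_two]
    simp only [Fin.isValue, ↓reduceIte, Matrix.cons_val_zero, Matrix.cons_val_one,
      Matrix.cons_val_fin_one, one_ne_zero, Pi.zero_apply, norm_zero, RCLike.norm_conj, norm_mul]
    have e1 : (‖q (z 0)‖ * ‖V (z 0)‖) ^ 2 ≤ (max 1 C) ^ 2 * ‖V (z 0)‖ ^ 2 := by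
      rw [mul_pow]
      gcongr
    have e2 : ‖W (z 0)‖ ^ 2 ≤ (max 1 C) ^ 2 * ‖W (z 0)‖ ^ 2 := by
      have : 1 ≤ (max 1 C) ^ 2 := one_le_pow₀ hC1
      nlinarith [sq_nonneg ‖W (z 0)‖]
    linarith
  · show (![z1, 0] : Fin 2 → ℂ) 0 ∈ B
    simpa using hz1 (mem_ball_self hr)
  · -- vanishing to infinite order
    intro N
    have hU : ∀ᵐ z ∂(volume : Measure (Fin 2 → ℂ)), z ∈ Cyl (ball z1 r) → u z = 0 := by
      have hm : MeasurableSet (Cyl (ball z1 r)) :=
        (measurable_pi_apply 0) isOpen_ball.measurableSet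
      rw [← ae_restrict_iff' hm]
      have h4 : ∀ᵐ a ∂((volume : Measure ℂ).restrict (ball z1 r)), V a = 0 ∧ W a = 0 := by
        rw [ae_restrict_iff' isOpen_ball.measurableSet]
        filter_upwards [h0, hW0] with a e1 e2 ha
        exact ⟨e1 ha, e2 ha⟩
      filter_upwards [cyl_ae' (P := fun a => V a = 0 ∧ W a = 0) isOpen_ball.measurableSet h4]
        with z hz
      simp only [hu, hz.1, hz.2]
      ext c
      fin_cases c <;> rfl
    have hev : ∀ᶠ t : ℝ in 𝓝[>] 0, (t ^ N)⁻¹ * ∫ z in Pool.Agent.X100.SUC.eball ![z1, 0] t, nrm (u z) ^ (2 : ℝ) = 0 := by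
      filter_upwards [Ioo_mem_nhdsGT hr] with t ht
      have h5 : ∫ z in Pool.Agent.X100.SUC.eball ![z1, 0] t, nrm (u z) ^ (2 : ℝ) = 0 := by
        have hem : MeasurableSet (Pool.Agent.X100.SUC.eball ![z1, 0] t) := by
          unfold Pool.Agent.X100.SUC.eball
          exact measurableSet_lt (nrm_continuous.comp (by fun_prop)).measurable measurable_const
        rw [setIntegral_congr_ae (g := fun _ => (0 : ℝ)) hem]
        · simp
        · filter_upwards [hU] with z hz hzb
          have h6 : z ∈ Cyl (ball z1 r) := by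
            show z 0 ∈ ball z1 r
            rw [mem_ball, dist_eq_norm]
            have h7 := (norm_le_pi_norm (z - ![z1, 0]) 0).trans (norm_le_nrm (z - ![z1, 0]))
            have h8 : nrm (z - ![z1, 0]) < t := hzb
            simp only [Pi.sub_apply, Matrix.cons_val_zero] at h7
            linarith [ht.2]
          rw [hz h6]
          simp [nrm]
      rw [h5, mul_zero]
    exact (tendsto_congr' hev).2 tendsto_const_nhds

end Pool.Agent.H992.LR
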