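import Mathlib

/-!
# Level repulsion: functions with square integrable Laplacian in the plane are continuous
-/

set_option autoImplicit false

open Set Filter Topology MeasureTheory
open scoped ContDiff ENNReal ComplexConjugate SchwartzMap FourierTransform Laplacian

noncomputable section

namespace Pool.Agent.H992.LR

open TemperedDistribution in
lemma mem_sob (g h : Lp ℂ 2 (volume : Measure ℂ))
    (hgh : ∀ θ : 𝓢(ℂ, ℂ), ∫ z, (Δ θ) z • g z = ∫ z, θ z • h z) :
    MemSobolev 2 2 (g : 𝓢'(ℂ, ℂ)) := by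
  have hL : Δ (g : 𝓢'(ℂ, ℂ)) = (h : 𝓢'(ℂ, ℂ)) := by
    ext θ
    rw [laplacian_apply_apply, Lp.toTemperedDistribution_apply, Lp.toTemperedDistribution_apply]
    exact hgh θ
  have hb : besselPotential ℂ ℂ 2 (g : 𝓢'(ℂ, ℂ)) = (g : 𝓢'(ℂ, ℂ)) +
      fourierMultiplierCLM ℂ (fun x : ℂ ↦ Complex.ofReal (‖x‖ ^ 2)) (g : 𝓢'(ℂ, ℂ)) := by
    have h1 : (fun x : ℂ => (((1 + ‖x‖ ^ 2) ^ ((2 : ℝ) / 2) : ℝ) : ℂ)) =
        fun x : ℂ => ∑ i ∈ (Finset.univ : Finset (Fin 2)),
          (if i = 0 then fun _ : ℂ => (1 : ℂ) else fun x : ℂ => Complex.ofReal (‖x‖ ^ 2)) x := by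
      funext x
      simp [Fin.sum_univ_two]
    unfold besselPotential
    rw [h1]
    rw [fourierMultiplierCLM_sum]
    · simp [Fin.sum_univ_two]
    · intro i _
      fin_cases i
      · simp only [Fin.zero_eta, Fin.isValue, ↓reduceIte]
        fun_prop
      · simp only [Fin.mk_one, Fin.isValue, one_ne_zero, ↓reduceIte]
        fun_prop
  have h2 : fourierMultiplierCLM ℂ (fun x : ℂ ↦ Complex.ofReal (‖x‖ ^ 2)) (g : 𝓢'(ℂ, ℂ)) =
      (-((2 * Real.pi) ^ 2)⁻¹ : ℝ) • (h : 𝓢'(ℂ, ℂ)) := by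
    have h3 := laplacian_eq_fourierMultiplierCLM (g : 𝓢'(ℂ, ℂ))
    rw [hL] at h3
    rw [h3, smul_smul]
    have : (-((2 * Real.pi) ^ 2)⁻¹ * -(2 * Real.pi) ^ 2 : ℝ) = 1 := by
      field_simp
    rw [this, one_smul]
  refine ⟨g + (((-((2 * Real.pi) ^ 2)⁻¹ : ℝ) : ℂ)) • h, ?_⟩
  rw [hb, h2, ← Lp.toTemperedDistributionCLM_apply (g + _), map_add, map_smul,
    Lp.toTemperedDistributionCLM_apply, Lp.toTemperedDistributionCLM_apply, Complex.coe_smul]

lemma fin_rank : (Module.finrank ℝ ℂ : ℝ) < 2 * 2 := by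
  rw [Complex.finrank_real_complex]
  norm_num

open TemperedDistribution in
/-- a square integrable function with square integrable Laplacian is continuous -/
theorem cont_rep (g h : Lp ℂ 2 (volume : Measure ℂ))
    (hgh : ∀ θ : 𝓢(ℂ, ℂ), ∫ z, (Δ θ) z • g z = ∫ z, θ z • h z) :
    ∃ G : ℂ → ℂ, Continuous G ∧ (g : ℂ → ℂ) =ᵐ[volume] G := by
  obtain ⟨v, hv⟩ := (mem_sob g h hgh).fourier_memL1 fin_rank
  set G := Real.Lp.fourierTransformInv v with hG
  have hint : ∀ θ : 𝓢(ℂ, ℂ), ∫ z, θ z • g z = ∫ z, θ z • G z := by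
    intro θ
    have h1 : (g : 𝓢'(ℂ, ℂ)) θ = (𝓕 (g : 𝓢'(ℂ, ℂ))) (𝓕⁻ θ) := by
      rw [TemperedDistribution.fourier_apply]
      simp
    rw [hv, Lp.toTemperedDistribution_apply, Lp.toTemperedDistribution_apply] at h1
    rw [h1]
    have h2 := VectorFourier.integral_bilin_fourierIntegral_eq_flip (f := (θ : ℂ → ℂ))
      (g := (v : ℂ → ℂ)) (μ := volume) (ν := volume) (ContinuousLinearMap.lsmul ℂ ℂ)
      (L := -innerₗ ℂ) Real.continuous_fourierChar
      (by
        have : (fun p : ℂ × ℂ => ((-innerₗ ℂ) p.1) p.2) = fun p : ℂ × ℂ => -(inner ℝ p.1 p.2) := by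
          funext p
          simp
        rw [this]
        exact continuous_inner.neg) θ.integrable
      (L1.integrable_coeFn v)
    refine Eq.trans ?_ (h2.trans ?_)
    · rw [SchwartzMap.fourierInv_coe]
      rfl
    · have h4 : (-innerₗ ℂ : ℂ →ₗ[ℝ] ℂ →ₗ[ℝ] ℝ).flip = -innerₗ ℂ := by
        ext x; simp [real_inner_comm]
      rw [h4, hG]
      refine integral_congr_ae (Eventually.of_forall fun x => ?_)
      simp only [Real.Lp.fourierTransformInv_apply]
      rfl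
  refine ⟨G, G.continuous, ?_⟩
  have hgl : LocallyIntegrable (g : ℂ → ℂ) volume :=
    (Lp.memLp g).locallyIntegrable (by norm_num)
  refine ae_eq_of_integral_contDiff_smul_eq hgl G.continuous.locallyIntegrable fun θ hθ hθc => ?_
  have hc : HasCompactSupport fun z => ((θ z : ℝ) : ℂ) :=
    hθc.comp_left (g := fun x : ℝ => (x : ℂ)) (by simp)
  have h3 := hint (hc.toSchwartzMap (Complex.ofRealCLM.contDiff.comp hθ))
  simp only [Complex.real_smul]
  exact h3

end Pool.Agent.H992.LR
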