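import Pool.Agent.H992.LR.Plane2
import Pool.Agent.H992.LR.Sob
import Pool.Graph.R_pool_sql_team_seeded_3997aac3.Q233.GLV.Osc1

/-!
# Level repulsion: weak solutions of `ΔV = q V` in the plane
-/

set_option autoImplicit false

open Set Filter Topology MeasureTheory Metric
open scoped ContDiff ENNReal ComplexConjugate SchwartzMap
open Pool.Agent.Q233.GLV (lap)

noncomputable section

namespace Pool.Agent.H992.LR

/-- a real function `V` on `B` with the weak derivatives `X`, `Y` and `ΔV = q V` -/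
structure WS (B : Set ℂ) (V X Y q : ℂ → ℝ) (C : ℝ) : Prop where
  iV : MemLp V 2 (volume.restrict B)
  iX : MemLp X 2 (volume.restrict B)
  iY : MemLp Y 2 (volume.restrict B)
  mq : AEStronglyMeasurable q (volume.restrict B)
  bq : ∀ᵐ z ∂(volume.restrict B), |q z| ≤ C
  dx : ∀ η : ℂ → ℝ, ContDiff ℝ ∞ η → HasCompactSupport η → tsupport η ⊆ B →
    ∫ z in B, fderiv ℝ η z 1 * V z = -∫ z in B, η z * X z
  dy : ∀ η : ℂ → ℝ, ContDiff ℝ ∞ η → HasCompactSupport η → tsupport η ⊆ B →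
    ∫ z in B, fderiv ℝ η z Complex.I * V z = -∫ z in B, η z * Y z
  dl : ∀ η : ℂ → ℝ, ContDiff ℝ ∞ η → HasCompactSupport η → tsupport η ⊆ B →
    ∫ z in B, lap η z * V z = ∫ z in B, η z * (q z * V z)

/-- the complex Laplacian -/
def lapC (φ : ℂ → ℂ) (z : ℂ) : ℂ :=
  fderiv ℝ (fun w => fderiv ℝ φ w 1) z 1 + fderiv ℝ (fun w => fderiv ℝ φ w Complex.I) z Complex.I

lemma dirC {φ : ℂ → ℂ} (hφ : ContDiff ℝ ∞ φ) (v : ℂ) : ContDiff ℝ ∞ fun w => fderiv ℝ φ w v :=
  (hφ.fderiv_right (m := ∞) (by simp)).clm_apply contDiff_const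

lemma fd_ts {φ : ℂ → ℂ} (v : ℂ) : tsupport (fun w => fderiv ℝ φ w v) ⊆ tsupport φ := by
  refine closure_minimal (fun z hz => ?_) (isClosed_tsupport φ)
  by_contra h
  refine hz ?_
  show fderiv ℝ φ z v = 0
  rw [fderiv_of_notMem_tsupport ℝ h]
  simp

lemma lapC_cont {φ : ℂ → ℂ} (hφ : ContDiff ℝ ∞ φ) : Continuous (lapC φ) :=
  (fd_cont (dirC hφ 1) 1).add (fd_cont (dirC hφ Complex.I) Complex.I)

lemma lapC_off {φ : ℂ → ℂ} {z : ℂ} (hz : z ∉ tsupport φ) : lapC φ z = 0 := by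
  unfold lapC
  rw [fderiv_of_notMem_tsupport ℝ fun h => hz (fd_ts 1 h),
    fderiv_of_notMem_tsupport ℝ fun h => hz (fd_ts Complex.I h)]
  simp

lemma lapC_supp {φ : ℂ → ℂ} (hc : HasCompactSupport φ) : HasCompactSupport (lapC φ) :=
  HasCompactSupport.intro hc fun _ hz => lapC_off hz

lemma re_fd {φ : ℂ → ℂ} (hφ : ContDiff ℝ ∞ φ) (z v : ℂ) :
    fderiv ℝ (fun z => (φ z).re) z v = (fderiv ℝ φ z v).re := by
  have h := (Complex.reCLM.hasFDerivAt.comp z (hφ.differentiable (by simp) z).hasFDerivAt).fderiv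
  have h2 : fderiv ℝ (fun z => (φ z).re) z = Complex.reCLM.comp (fderiv ℝ φ z) := h
  rw [h2]
  rfl

lemma im_fd {φ : ℂ → ℂ} (hφ : ContDiff ℝ ∞ φ) (z v : ℂ) :
    fderiv ℝ (fun z => (φ z).im) z v = (fderiv ℝ φ z v).im := by
  have h := (Complex.imCLM.hasFDerivAt.comp z (hφ.differentiable (by simp) z).hasFDerivAt).fderiv
  have h2 : fderiv ℝ (fun z => (φ z).im) z = Complex.imCLM.comp (fderiv ℝ φ z) := h
  rw [h2]
  rfl

lemma re_lap {φ : ℂ → ℂ} (hφ : ContDiff ℝ ∞ φ) (z : ℂ) :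
    lap (fun z => (φ z).re) z = (lapC φ z).re := by
  unfold lap lapC
  simp only [re_fd hφ]
  rw [re_fd (dirC hφ 1), re_fd (dirC hφ Complex.I), Complex.add_re]

lemma im_lap {φ : ℂ → ℂ} (hφ : ContDiff ℝ ∞ φ) (z : ℂ) :
    lap (fun z => (φ z).im) z = (lapC φ z).im := by
  unfold lap lapC
  simp only [im_fd hφ]
  rw [im_fd (dirC hφ 1), im_fd (dirC hφ Complex.I), Complex.add_im]

lemma re_test {φ : ℂ → ℂ} (hφ : ContDiff ℝ ∞ φ) (hc : HasCompactSupport φ) {B : Set ℂ}
    (hs : tsupport φ ⊆ B) : ContDiff ℝ ∞ (fun z => (φ z).re) ∧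
    HasCompactSupport (fun z => (φ z).re) ∧ tsupport (fun z => (φ z).re) ⊆ B := by
  have hsub : Function.support (fun z => (φ z).re) ⊆ Function.support φ := by
    intro z hz hz2
    refine hz ?_
    show (φ z).re = 0
    rw [hz2]
    rfl
  exact ⟨Complex.reCLM.contDiff.comp hφ, hc.comp_left (g := Complex.re) rfl,
    (closure_mono hsub).trans hs⟩

lemma im_test {φ : ℂ → ℂ} (hφ : ContDiff ℝ ∞ φ) (hc : HasCompactSupport φ) {B : Set ℂ}
    (hs : tsupport φ ⊆ B) : ContDiff ℝ ∞ (fun z => (φ z).im) ∧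
    HasCompactSupport (fun z => (φ z).im) ∧ tsupport (fun z => (φ z).im) ⊆ B := by
  have hsub : Function.support (fun z => (φ z).im) ⊆ Function.support φ := by
    intro z hz hz2
    refine hz ?_
    show (φ z).im = 0
    rw [hz2]
    rfl
  exact ⟨Complex.imCLM.contDiff.comp hφ, hc.comp_left (g := Complex.im) rfl,
    (closure_mono hsub).trans hs⟩

lemma mul_integrable {μ : Measure ℂ} {V : ℂ → ℂ} (iV : Integrable V μ) {f : ℂ → ℂ}
    (hf : Continuous f) (hc : HasCompactSupport f) : Integrable (fun z => V z * f z) μ := by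
  obtain ⟨C, hC⟩ := hc.exists_bound_of_continuous hf
  exact iV.mul_bdd (c := C) hf.aestronglyMeasurable (Eventually.of_forall hC)

lemma split_int {μ : Measure ℂ} {V : ℂ → ℝ} (iV : Integrable V μ) {f : ℂ → ℂ}
    (hf : Continuous f) (hc : HasCompactSupport f) : ∫ z, (V z : ℂ) * f z ∂μ =
    ((∫ z, (f z).re * V z ∂μ : ℝ) : ℂ) + Complex.I * ((∫ z, (f z).im * V z ∂μ : ℝ) : ℂ) := by
  obtain ⟨C, hC⟩ := hc.exists_bound_of_continuous hf
  have i1 : Integrable (fun z => (f z).re * V z) μ :=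
    iV.bdd_mul (c := C) (Complex.continuous_re.comp hf).aestronglyMeasurable
      (Eventually.of_forall fun z => (Complex.abs_re_le_norm _).trans (hC z))
  have i2 : Integrable (fun z => (f z).im * V z) μ :=
    iV.bdd_mul (c := C) (Complex.continuous_im.comp hf).aestronglyMeasurable
      (Eventually.of_forall fun z => (Complex.abs_im_le_norm _).trans (hC z))
  rw [← integral_complex_ofReal, ← integral_complex_ofReal, ← integral_const_mul, ← integral_add]
  · refine integral_congr_ae (Eventually.of_forall fun z => ?_)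
    apply Complex.ext <;> simp <;> ring
  · exact i1.ofReal
  · exact i2.ofReal.const_mul _

lemma cxt {B : Set ℂ} {V X : ℂ → ℝ} {v : ℂ} (iV : IntegrableOn V B) (iX : IntegrableOn X B)
    (h : ∀ η : ℂ → ℝ, ContDiff ℝ ∞ η → HasCompactSupport η → tsupport η ⊆ B →
      ∫ z in B, fderiv ℝ η z v * V z = -∫ z in B, η z * X z) {φ : ℂ → ℂ} (hφ : ContDiff ℝ ∞ φ)
    (hc : HasCompactSupport φ) (hs : tsupport φ ⊆ B) :
    ∫ z in B, (V z : ℂ) * fderiv ℝ φ z v = -∫ z in B, (X z : ℂ) * φ z := by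
  obtain ⟨a1, a2, a3⟩ := re_test hφ hc hs
  obtain ⟨b1, b2, b3⟩ := im_test hφ hc hs
  have e1 := h _ a1 a2 a3
  have e2 := h _ b1 b2 b3
  simp only [re_fd hφ] at e1
  simp only [im_fd hφ] at e2
  rw [split_int iV (fd_cont hφ v) (fd_supp hc v), split_int iX hφ.continuous hc, e1, e2]
  push_cast
  ring

lemma cxl {B : Set ℂ} {V Q : ℂ → ℝ} (iV : IntegrableOn V B) (iQ : IntegrableOn Q B)
    (h : ∀ η : ℂ → ℝ, ContDiff ℝ ∞ η → HasCompactSupport η → tsupport η ⊆ B →
      ∫ z in B, lap η z * V z = ∫ z in B, η z * Q z) {φ : ℂ → ℂ} (hφ : ContDiff ℝ ∞ φ)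
    (hc : HasCompactSupport φ) (hs : tsupport φ ⊆ B) :
    ∫ z in B, (V z : ℂ) * lapC φ z = ∫ z in B, (Q z : ℂ) * φ z := by
  obtain ⟨a1, a2, a3⟩ := re_test hφ hc hs
  obtain ⟨b1, b2, b3⟩ := im_test hφ hc hs
  have e1 := h _ a1 a2 a3
  have e2 := h _ b1 b2 b3
  simp only [re_lap hφ] at e1
  simp only [im_lap hφ] at e2
  rw [split_int iV (lapC_cont hφ) (lapC_supp hc), split_int iQ hφ.continuous hc, e1, e2]

lemma sym2 {φ : ℂ → ℂ} (hφ : ContDiff ℝ ∞ φ) (z : ℂ) :
    fderiv ℝ (fun w => fderiv ℝ φ w Complex.I) z 1 =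
      fderiv ℝ (fun w => fderiv ℝ φ w 1) z Complex.I := by
  have hd : DifferentiableAt ℝ (fderiv ℝ φ) z :=
    (hφ.fderiv_right (m := ∞) (by simp)).differentiable (by simp) z
  have h1 : ∀ v u : ℂ, fderiv ℝ (fun w => fderiv ℝ φ w v) z u = fderiv ℝ (fderiv ℝ φ) z u v := by
    intro v u
    rw [fderiv_clm_apply hd (differentiableAt_const v)]
    simp
  rw [h1, h1]
  have h2 : IsSymmSndFDerivAt ℝ φ z :=
    hφ.contDiffAt.isSymmSndFDerivAt (by
      have h3 : ((2 : ℕ∞) : WithTop ℕ∞) ≤ ((⊤ : ℕ∞) : WithTop ℕ∞) := WithTop.coe_le_coe.2 le_top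
      simpa using h3)
  exact h2 _ _

variable {B : Set ℂ} {V X Y q : ℂ → ℝ} {C : ℝ}

lemma WS.iqV (w : WS B V X Y q C) : MemLp (fun z => q z * V z) 2 (volume.restrict B) := by
  refine w.iV.of_le_mul (c := C) (w.mq.mul w.iV.1) ?_
  filter_upwards [w.bq] with z hz
  rw [norm_mul]
  exact mul_le_mul_of_nonneg_right hz (norm_nonneg _)

/-- the complex derivative -/
def Wc (X Y : ℂ → ℝ) (z : ℂ) : ℂ := (1 / 2) * ((X z : ℂ) - Complex.I * (Y z : ℂ))

lemma WS.wd1 [IsFiniteMeasure ((volume : Measure ℂ).restrict B)] (w : WS B V X Y q C) :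
    WD B (fun z => (V z : ℂ)) (fun z => conj (Wc X Y z)) := by
  intro φ hφ hc hs
  have iV : IntegrableOn V B := w.iV.integrable (by norm_num)
  have iX : IntegrableOn X B := w.iX.integrable (by norm_num)
  have iY : IntegrableOn Y B := w.iY.integrable (by norm_num)
  have e1 := cxt iV iX w.dx hφ hc hs
  have e2 := cxt iV iY w.dy hφ hc hs
  have h1 : ∫ z in B, (V z : ℂ) * db φ z = (1 / 2) * ((∫ z in B, (V z : ℂ) * fderiv ℝ φ z 1) +
      Complex.I * ∫ z in B, (V z : ℂ) * fderiv ℝ φ z Complex.I) := by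
    rw [← integral_const_mul, ← integral_add, ← integral_const_mul]
    · refine integral_congr_ae (Eventually.of_forall fun z => ?_)
      simp only [db]
      ring
    · exact mul_integrable iV.ofReal (fd_cont hφ 1) (fd_supp hc 1)
    · exact (mul_integrable iV.ofReal (fd_cont hφ _) (fd_supp hc _)).const_mul _
  have h2 : ∫ z in B, conj (Wc X Y z) * φ z = (1 / 2) * ((∫ z in B, (X z : ℂ) * φ z) +
      Complex.I * ∫ z in B, (Y z : ℂ) * φ z) := by
    rw [← integral_const_mul, ← integral_add, ← integral_const_mul]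
    · refine integral_congr_ae (Eventually.of_forall fun z => ?_)
      simp only [Wc, map_mul, map_sub, Complex.conj_ofReal, Complex.conj_I, map_div₀, map_one,
        map_ofNat]
      ring
    · exact mul_integrable iX.ofReal hφ.continuous hc
    · exact (mul_integrable iY.ofReal hφ.continuous hc).const_mul _
  rw [h1, h2, e1, e2]
  ring

lemma WS.wd2 [IsFiniteMeasure ((volume : Measure ℂ).restrict B)] (w : WS B V X Y q C) :
    WD B (Wc X Y) (fun z => ((q z / 4 : ℝ) : ℂ) * (V z : ℂ)) := by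
  intro φ hφ hc hs
  have iV : IntegrableOn V B := w.iV.integrable (by norm_num)
  have iX : IntegrableOn X B := w.iX.integrable (by norm_num)
  have iY : IntegrableOn Y B := w.iY.integrable (by norm_num)
  have iQ : IntegrableOn (fun z => q z * V z) B := w.iqV.integrable (by norm_num)
  have e0 := cxl iV iQ w.dl hφ hc hs
  have dX : ∀ v, ∫ z in B, (V z : ℂ) * fderiv ℝ (fun w => fderiv ℝ φ w v) z 1 =
      -∫ z in B, (X z : ℂ) * fderiv ℝ φ z v := fun v =>
    cxt iV iX w.dx (dirC hφ v) (fd_supp hc v) ((fd_ts v).trans hs)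
  have dY : ∀ v, ∫ z in B, (V z : ℂ) * fderiv ℝ (fun w => fderiv ℝ φ w v) z Complex.I =
      -∫ z in B, (Y z : ℂ) * fderiv ℝ φ z v := fun v =>
    cxt iV iY w.dy (dirC hφ v) (fd_supp hc v) ((fd_ts v).trans hs)
  have j1 : ∀ v, Integrable (fun z => (X z : ℂ) * fderiv ℝ φ z v) (volume.restrict B) := fun v =>
    mul_integrable iX.ofReal (fd_cont hφ _) (fd_supp hc _)
  have j2 : ∀ v, Integrable (fun z => (Y z : ℂ) * fderiv ℝ φ z v) (volume.restrict B) := fun v =>
    mul_integrable iY.ofReal (fd_cont hφ _) (fd_supp hc _)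
  have h1 : ∫ z in B, Wc X Y z * db φ z = (1 / 4) * (((∫ z in B, (X z : ℂ) * fderiv ℝ φ z 1) +
      ∫ z in B, (Y z : ℂ) * fderiv ℝ φ z Complex.I) + Complex.I *
      ((∫ z in B, (X z : ℂ) * fderiv ℝ φ z Complex.I) -
        ∫ z in B, (Y z : ℂ) * fderiv ℝ φ z 1)) := by
    have k3 : (∫ z in B, ((X z : ℂ) * fderiv ℝ φ z 1 + (Y z : ℂ) * fderiv ℝ φ z Complex.I)) +
        ∫ z in B, Complex.I * ((X z : ℂ) * fderiv ℝ φ z Complex.I - (Y z : ℂ) * fderiv ℝ φ z 1) =
        ∫ z in B, (((X z : ℂ) * fderiv ℝ φ z 1 + (Y z : ℂ) * fderiv ℝ φ z Complex.I) +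
        Complex.I * ((X z : ℂ) * fderiv ℝ φ z Complex.I - (Y z : ℂ) * fderiv ℝ φ z 1)) :=
      (integral_add ((j1 1).add (j2 Complex.I))
        (((j1 Complex.I).sub (j2 1)).const_mul Complex.I)).symm
    rw [← integral_sub (j1 _) (j2 _), ← integral_const_mul, ← integral_add (j1 _) (j2 _), k3,
      ← integral_const_mul]
    refine integral_congr_ae (Eventually.of_forall fun z => ?_)
    simp only [db, Wc]
    have : Complex.I * Complex.I = -1 := Complex.I_mul_I
    linear_combination (-(1 / 4) * (Y z : ℂ) * fderiv ℝ φ z Complex.I) * this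
  have h2 : ∫ z in B, (V z : ℂ) * lapC φ z =
      (∫ z in B, (V z : ℂ) * fderiv ℝ (fun w => fderiv ℝ φ w 1) z 1) +
      ∫ z in B, (V z : ℂ) * fderiv ℝ (fun w => fderiv ℝ φ w Complex.I) z Complex.I := by
    rw [← integral_add]
    · refine integral_congr_ae (Eventually.of_forall fun z => ?_)
      simp only [lapC]
      ring
    · exact mul_integrable iV.ofReal (fd_cont (dirC hφ _) _) (fd_supp (fd_supp hc _) _)
    · exact mul_integrable iV.ofReal (fd_cont (dirC hφ _) _) (fd_supp (fd_supp hc _) _)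
  have h3 : ∫ z in B, ((q z / 4 : ℝ) : ℂ) * (V z : ℂ) * φ z =
      (1 / 4) * ∫ z in B, ((q z * V z : ℝ) : ℂ) * φ z := by
    rw [← integral_const_mul]
    refine integral_congr_ae (Eventually.of_forall fun z => ?_)
    push_cast
    ring
  have h4 := dX Complex.I
  have h5 := dY 1
  simp only [sym2 hφ] at h4
  rw [h1, h3, ← e0, h2, dX 1, dY Complex.I]
  have h6 : ∫ z in B, (X z : ℂ) * fderiv ℝ φ z Complex.I =
      ∫ z in B, (Y z : ℂ) * fderiv ℝ φ z 1 := by
    rw [h4] at h5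
    exact neg_injective h5
  rw [h6]
  ring

end Pool.Agent.H992.LR
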