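import Pool.Agent.H992.LR.Plane4
import Pool.Graph.R_pool_sql_team_seeded_3997aac3.Q233.GLV.Osc4

/-!
# Level repulsion: eigenfunctions of a surface in isothermal charts, part one
-/

set_option autoImplicit false
set_option linter.unusedSectionVars false

open Set Filter Topology MeasureTheory Metric
open scoped ContDiff ENNReal
open Pool.Agent.Y262.QE Pool.Agent.Y264.QR

noncomputable section

namespace Pool.Agent.H992.LR

variable {M : Type} [MetricSpace M] [CompactSpace M] [MeasurableSpace M] [BorelSpace M]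
  {μ : Measure M} {D : Data M}

/-- null sets in the chart -/
lemma ae_chart (S : D.IsSurf μ) (i : Fin D.N) {P : M → Prop} (h : ∀ᵐ x ∂μ, P x) :
    ∀ᵐ z : ℂ, z ∈ D.T i → P (D.ψ i z) := by
  set N : Set M := toMeasurable μ {x | ¬ P x} ∩ D.U i with hN
  have hNm : MeasurableSet N := (measurableSet_toMeasurable _ _).inter (S.openU i).measurableSet
  have hN0 : μ N = 0 := by
    refine measure_mono_null inter_subset_left ?_
    rw [measure_toMeasurable]
    exact h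
  have hNU : N ⊆ D.U i := inter_subset_right
  have h1 := S.area i N hNU hNm
  rw [hN0] at h1
  have him := Pool.Agent.Y960.QE.meas_im S i hNU hNm
  have h2 : volume (D.φ i '' N) = 0 := by
    have h3 := (lintegral_eq_zero_iff' (Pool.Agent.Y960.QE.aemDet S i hNU hNm)).1 h1.symm
    rw [EventuallyEq, ae_restrict_iff' him, ae_iff] at h3
    refine measure_mono_null ?_ h3
    intro z hz hcon
    have h4 := hcon hz
    have h5 : (D.A i z).det ≠ 0 := S.det i z (Pool.Agent.Y960.QE.im_sub hNU hz)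
    simp only [Pi.zero_apply, ENNReal.ofReal_eq_zero] at h4
    exact h5 (abs_eq_zero.1 (le_antisymm h4 (abs_nonneg _)))
  rw [ae_iff]
  refine measure_mono_null ?_ h2
  intro z hz
  simp only [mem_ofPred_eq, Classical.not_imp] at hz
  obtain ⟨hz1, hz2⟩ := hz
  obtain ⟨hU, hφ⟩ := Pool.Agent.Y183.QR.Loc.φψ S hz1
  exact ⟨D.ψ i z, ⟨subset_toMeasurable _ _ hz2, hU⟩, hφ⟩

/-- null sets on the surface -/
lemma ae_surf (S : D.IsSurf μ) (i : Fin D.N) {O : Set ℂ} (hO : MeasurableSet O) (hOT : O ⊆ D.T i)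
    {P : M → Prop} (h : ∀ᵐ z : ℂ, z ∈ O → P (D.ψ i z)) : ∀ᵐ x ∂μ, x ∈ D.ψ i '' O → P x := by
  set Z : Set ℂ := toMeasurable volume {z | ¬ (z ∈ O → P (D.ψ i z))} ∩ O with hZ
  have hZm : MeasurableSet Z := (measurableSet_toMeasurable _ _).inter hO
  have hZ0 : volume Z = 0 := by
    refine measure_mono_null inter_subset_left ?_
    rw [measure_toMeasurable]
    exact h
  obtain ⟨h1, h2, h3⟩ := Pool.Agent.Y183.QR.Loc.meas_img S i hZm (inter_subset_right.trans hOT)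
  have h4 := S.area i _ h2 h1
  rw [h3] at h4
  have h5 : μ (D.ψ i '' Z) = 0 := by
    rw [h4]
    exact setLIntegral_measure_zero _ _ hZ0
  rw [ae_iff]
  refine measure_mono_null ?_ h5
  rintro x hx
  simp only [mem_ofPred_eq, Classical.not_imp] at hx
  obtain ⟨⟨z, hz, rfl⟩, hx2⟩ := hx
  exact ⟨z, ⟨subset_toMeasurable _ _ (show ¬ (z ∈ O → P (D.ψ i z)) from fun h => hx2 (h hz)), hz⟩, rfl⟩

/-- the lower bound of the determinant -/
lemma det_low (S : D.IsSurf μ) {i : Fin D.N} {K : Set ℂ} (hK : IsCompact K) (hs : K ⊆ D.T i) :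
    ∃ δ : ℝ, 0 < δ ∧ ∀ z ∈ K, δ ≤ |(D.A i z).det| := by
  rcases K.eq_empty_or_nonempty with hE | hne
  · exact ⟨1, one_pos, fun z hz => by rw [hE] at hz; exact absurd hz (notMem_empty z)⟩
  · obtain ⟨z₀, hz₀, hmin⟩ := hK.exists_isMinOn hne
      ((Pool.Agent.Y960.QE.contDet S i).mono hs)
    exact ⟨_, abs_pos.2 (S.det i z₀ (hs hz₀)), fun z hz => hmin hz⟩

/-- square integrable functions in the chart -/
lemma memLp_chart (S : D.IsSurf μ) {i : Fin D.N} {K : Set ℂ} (hK : IsCompact K) (hs : K ⊆ D.T i)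
    {δ : ℝ} (hδ : 0 < δ) (hδK : ∀ z ∈ K, δ ≤ |(D.A i z).det|) {h : M → ℝ} (hh : MemLp h 2 μ) :
    MemLp (fun z => h (D.ψ i z)) 2 (volume.restrict K) ∧
    ∫ z in K, (h (D.ψ i z)) ^ 2 ≤ δ⁻¹ * ∫ x, (h x) ^ 2 ∂μ := by
  have hKm : MeasurableSet K := hK.isClosed.measurableSet
  obtain ⟨h', hh', he⟩ := hh.1
  have hh2 : MemLp h' 2 μ := hh.ae_eq he
  have hsq : Integrable (fun x => (h' x) ^ 2) μ := hh2.integrable_sq
  have hae : ∀ᵐ z ∂(volume.restrict K), h (D.ψ i z) = h' (D.ψ i z) := by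
    rw [ae_restrict_iff' hKm]
    filter_upwards [ae_chart S i he] with z hz hzK
    exact hz (hs hzK)
  have hψ : AEMeasurable (D.ψ i) (volume.restrict K) :=
    ((S.contψ i).mono hs).aemeasurable hKm
  have hm : AEStronglyMeasurable (fun z => h' (D.ψ i z)) (volume.restrict K) :=
    (hh'.measurable.comp_aemeasurable hψ).aestronglyMeasurable
  have hi := Pool.Agent.Q233.GLV.integ_K S hK hs (hh'.pow 2) hsq
  have h1 : MemLp (fun z => h' (D.ψ i z)) 2 (volume.restrict K) :=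
    (memLp_two_iff_integrable_sq hm).2 hi
  refine ⟨h1.ae_eq (by filter_upwards [hae] with z hz; exact hz.symm), ?_⟩
  obtain ⟨m1, m2, m3⟩ := Pool.Agent.Y183.QR.Loc.meas_img S i hKm hs
  have h2 : ∫ x in D.ψ i '' K, (h' x) ^ 2 ∂μ = ∫ z in K, (h' (D.ψ i z)) ^ 2 * |(D.A i z).det| := by
    rw [(Pool.Agent.Y960.QE.int_chart M μ D S i).2 _ m1 m2 _ hsq.1, m3]
  have h3 : ∫ x in D.ψ i '' K, (h' x) ^ 2 ∂μ ≤ ∫ x, (h' x) ^ 2 ∂μ :=
    setIntegral_le_integral hsq (Eventually.of_forall fun x => sq_nonneg _)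
  have h4 : ∫ z in K, (h (D.ψ i z)) ^ 2 = ∫ z in K, (h' (D.ψ i z)) ^ 2 :=
    integral_congr_ae (by filter_upwards [hae] with z hz; rw [hz])
  have h5 : ∫ x, (h x) ^ 2 ∂μ = ∫ x, (h' x) ^ 2 ∂μ :=
    integral_congr_ae (by filter_upwards [he] with z hz; rw [hz])
  rw [h4, h5]
  have hdet : ∃ Λ : ℝ, ∀ z ∈ K, |(D.A i z).det| ≤ Λ := by
    obtain ⟨Λ, hΛ⟩ := (hK.image_of_continuousOn ((Pool.Agent.Y960.QE.contDet S i).mono hs)).bddAbove
    exact ⟨Λ, fun z hz => hΛ ⟨z, hz, rfl⟩⟩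
  obtain ⟨Λ, hΛ⟩ := hdet
  have hi2 : IntegrableOn (fun z => (h' (D.ψ i z)) ^ 2 * |(D.A i z).det|) K := by
    refine Integrable.mul_bdd (c := Λ) hi ?_ ?_
    · exact ((Pool.Agent.Y960.QE.contDet S i).mono hs).aestronglyMeasurable hKm
    · rw [ae_restrict_iff' hKm]
      refine Eventually.of_forall fun z hz => ?_
      rw [Real.norm_eq_abs, abs_abs]
      exact hΛ z hz
  have h6 : δ * ∫ z in K, (h' (D.ψ i z)) ^ 2 ≤ ∫ z in K, (h' (D.ψ i z)) ^ 2 * |(D.A i z).det| := by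
    rw [← integral_const_mul]
    refine setIntegral_mono_on (hi.const_mul δ) hi2 hKm fun z hz => ?_
    rw [mul_comm]
    exact mul_le_mul_of_nonneg_left (hδK z hz) (sq_nonneg _)
  rw [inv_mul_eq_div, le_div_iff₀ hδ]
  linarith

/-- the energy in the chart -/
lemma energy_chart (S : D.IsSurf μ) {i : Fin D.N} {K : Set ℂ} (hK : IsCompact K) (hs : K ⊆ D.T i)
    (hc : ∀ z ∈ K, ∃ c : ℝ, ∀ v, ‖D.A i z v‖ = c * ‖v‖) {F : M → ℝ} (hF : D.C1 F)
    (hi : Integrable (fun x => ‖D.gr F x‖ ^ 2) μ) :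
    ∫ z in K, ((fderiv ℝ (fun z => F (D.ψ i z)) z 1) ^ 2 +
      (fderiv ℝ (fun z => F (D.ψ i z)) z Complex.I) ^ 2) ≤ ∫ x, ‖D.gr F x‖ ^ 2 ∂μ := by
  have hKm : MeasurableSet K := hK.isClosed.measurableSet
  obtain ⟨m1, m2, m3⟩ := Pool.Agent.Y183.QR.Loc.meas_img S i hKm hs
  have h2 : ∫ x in D.ψ i '' K, ‖D.gr F x‖ ^ 2 ∂μ =
      ∫ z in K, ‖D.gr F (D.ψ i z)‖ ^ 2 * |(D.A i z).det| := by
    rw [(Pool.Agent.Y960.QE.int_chart M μ D S i).2 _ m1 m2 _ hi.1, m3]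
  have h3 : ∫ x in D.ψ i '' K, ‖D.gr F x‖ ^ 2 ∂μ ≤ ∫ x, ‖D.gr F x‖ ^ 2 ∂μ :=
    setIntegral_le_integral hi (Eventually.of_forall fun x => sq_nonneg _)
  refine le_trans (le_of_eq ?_) h3
  rw [h2]
  refine setIntegral_congr_fun hKm fun z hz => ?_
  have h4 := Pool.Agent.Q233.GLV.gr_K S hs hc (f := fun z => F (D.ψ i z)) hF (fun z _ => rfl) hF hz
  rw [real_inner_self_eq_norm_sq] at h4
  rw [h4]
  ring

end Pool.Agent.H992.LR
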