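import Pool.Agent.H992.LR.Surf1

/-!
# Level repulsion: eigenfunctions of a surface in isothermal charts, part two
-/

set_option autoImplicit false
set_option linter.unusedSectionVars false

open Set Filter Topology MeasureTheory Metric
open scoped ContDiff ENNReal
open Pool.Agent.Y262.QE Pool.Agent.Y264.QR
open Pool.Agent.Q233.GLV (lap)

noncomputable section

namespace Pool.Agent.H992.LR

variable {M : Type} [MetricSpace M] [CompactSpace M] [MeasurableSpace M] [BorelSpace M]
  {μ : Measure M} {D : Data M}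

lemma memLp_cont {K : Set ℂ} (hK : IsCompact K) {u : ℂ → ℝ} (hu : ContinuousOn u K) :
    MemLp u 2 (volume.restrict K) := by
  have hKm : MeasurableSet K := hK.isClosed.measurableSet
  have : IsFiniteMeasure ((volume : Measure ℂ).restrict K) :=
    ⟨by rw [Measure.restrict_apply_univ]; exact hK.measure_lt_top⟩
  obtain ⟨C, hC⟩ := hK.exists_bound_of_continuousOn hu
  refine MemLp.of_bound (hu.aestronglyMeasurable hKm) C ?_
  rw [ae_restrict_iff' hKm]
  exact Eventually.of_forall hC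

lemma inner_toLp {ν : Measure ℂ} {u w : ℂ → ℝ} (hu : MemLp u 2 ν) (hw : MemLp w 2 ν) :
    inner ℝ (hu.toLp u) (hw.toLp w) = ∫ z, u z * w z ∂ν := by
  rw [L2.inner_def]
  refine integral_congr_ae ?_
  filter_upwards [hu.coeFn_toLp, hw.coeFn_toLp] with z h1 h2
  rw [h1, h2]
  simp [mul_comm]

lemma inner_toLp' {ν : Measure ℂ} {u : ℂ → ℝ} (hu : MemLp u 2 ν) (W : Lp ℝ 2 ν) :
    inner ℝ (hu.toLp u) W = ∫ z, u z * W z ∂ν := by
  rw [L2.inner_def]
  refine integral_congr_ae ?_
  filter_upwards [hu.coeFn_toLp] with z h1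
  rw [h1]
  simp [mul_comm]

lemma norm_toLp {ν : Measure ℂ} {u : ℂ → ℝ} (hu : MemLp u 2 ν) :
    ‖hu.toLp u‖ ^ 2 = ∫ z, (u z) ^ 2 ∂ν := by
  rw [← real_inner_self_eq_norm_sq, inner_toLp]
  refine integral_congr_ae (Eventually.of_forall fun z => ?_)
  simp only
  ring

lemma norm_toLpM {E : Type} [NormedAddCommGroup E] [InnerProductSpace ℝ E] (U : Lp E 2 μ) :
    ∫ x, ‖U x‖ ^ 2 ∂μ = ‖U‖ ^ 2 := by
  rw [← real_inner_self_eq_norm_sq, L2.inner_def]
  refine integral_congr_ae (Eventually.of_forall fun z => ?_)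
  simp only
  rw [real_inner_self_eq_norm_sq]

/-- a test function vanishes off the ball -/
lemma set_eq {B K : Set ℂ} (hKm : MeasurableSet K) (hBK : B ⊆ K) {u : ℂ → ℝ}
    (h : ∀ z, z ∉ B → u z = 0) : ∫ z in B, u z = ∫ z in K, u z := by
  exact (setIntegral_eq_of_subset_of_forall_sdiff_eq_zero hKm hBK fun z hz => h z hz.2).symm

theorem chart_ws (S : D.IsSurf μ) [IsFiniteMeasure μ] {i : HF D μ →L[ℝ] Lp ℝ 2 μ}
    {a : HF D μ →L[ℝ] HF D μ →L[ℝ] ℝ} {b : C(M, ℝ) → HF D μ →L[ℝ] HF D μ →L[ℝ] ℝ}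
    (hi : ∀ v, i v = v.1.fst) (ha : ∀ u v, a u v = inner ℝ u.1.snd v.1.snd) (hB : IsB μ i b)
    (φ : C(M, ℝ)) (lam : ℝ) (v : HF D μ) (he : ∀ w, a v w = lam * b φ v w) {k : Fin D.N}
    {z0 : ℂ} {R : ℝ} (hK : closedBall z0 R ⊆ D.T k)
    (hc : ∀ z ∈ closedBall z0 R, ∃ c : ℝ, ∀ v, ‖D.A k z v‖ = c * ‖v‖) :
    ∃ (X Y : ℂ → ℝ) (C : ℝ), WS (ball z0 R) (fun z => (v.1.fst : M → ℝ) (D.ψ k z)) X Y
      (fun z => -(lam * (Real.exp (φ (D.ψ k z)) * |(D.A k z).det|))) C := by
  set K := closedBall z0 R with hKdef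
  have hKc : IsCompact K := isCompact_closedBall z0 R
  have hKm : MeasurableSet K := hKc.isClosed.measurableSet
  have hBK : ball z0 R ⊆ K := ball_subset_closedBall
  have hfin : IsFiniteMeasure ((volume : Measure ℂ).restrict K) :=
    ⟨by rw [Measure.restrict_apply_univ]; exact hKc.measure_lt_top⟩
  obtain ⟨hden1, hden2⟩ := tDenF M μ D S
  obtain ⟨F, f, hf, hlim⟩ := hden2 v.1 v.2
  have grad := Pool.Agent.Y708.QE.gradient M μ D S
  obtain ⟨δ, hδ, hδK⟩ := det_low S hKc hK
  set g : ℕ → ℂ → ℝ := fun n z => F n (D.ψ k z) with hgdef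
  have hg : ∀ n, ContDiffOn ℝ 1 (g n) (D.T k) := fun n => (hf n).1 k
  have hgK : ∀ n, ContinuousOn (g n) K := fun n => (hg n).continuousOn.mono hK
  have hdK : ∀ n (u : ℂ), ContinuousOn (fun z => fderiv ℝ (g n) z u) K := fun n u =>
    (((hg n).continuousOn_fderiv_of_isOpen (S.openT k) le_rfl).mono hK).clm_apply
      continuousOn_const
  have mg : ∀ n, MemLp (g n) 2 (volume.restrict K) := fun n => memLp_cont hKc (hgK n)
  have md : ∀ n (u : ℂ), MemLp (fun z => fderiv ℝ (g n) z u) 2 (volume.restrict K) := fun n u =>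
    memLp_cont hKc (hdK n u)
  have mV : MemLp (fun z => (v.1.fst : M → ℝ) (D.ψ k z)) 2 (volume.restrict K) :=
    (memLp_chart S hKc hK hδ hδK (Lp.memLp v.1.fst)).1
  -- the energy of the differences
  have hen : ∀ n m, ‖(md n 1).toLp _ - (md m 1).toLp _‖ ^ 2 +
      ‖(md n Complex.I).toLp _ - (md m Complex.I).toLp _‖ ^ 2 ≤ ‖f n - f m‖ ^ 2 := by
    intro n m
    obtain ⟨hC, hG⟩ := grad.2.2 (F n) (F m) (hf n).1 (hf m).1 1 (-1)
    have hsnd : (((f n - f m).snd : Lp ℂ 2 μ) : M → ℂ) =ᵐ[μ]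
        D.gr (fun x => 1 * F n x + -1 * F m x) := by
      have e : (f n - f m).snd = (f n).snd - (f m).snd := rfl
      rw [e]
      filter_upwards [Lp.coeFn_sub (f n).snd (f m).snd, (hf n).2.2.2, (hf m).2.2.2] with x h1 h2 h3
      rw [h1, Pi.sub_apply, h2, h3, hG, one_smul, neg_one_smul, sub_eq_add_neg]
    have hen1 : ∫ x, ‖D.gr (fun x => 1 * F n x + -1 * F m x) x‖ ^ 2 ∂μ = ‖(f n - f m).snd‖ ^ 2 := by
      rw [← norm_toLpM]
      refine integral_congr_ae ?_
      filter_upwards [hsnd] with x hx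
      rw [hx]
    have hint : Integrable (fun x => ‖D.gr (fun x => 1 * F n x + -1 * F m x) x‖ ^ 2) μ := by
      refine ((Lp.memLp (f n - f m).snd).integrable_norm_pow (by norm_num)).congr ?_
      filter_upwards [hsnd] with x hx
      rw [hx]
    have hE := energy_chart S hKc hK hc hC hint
    have hder : ∀ z ∈ K, ∀ u : ℂ, fderiv ℝ (fun z => 1 * F n (D.ψ k z) + -1 * F m (D.ψ k z)) z u =
        fderiv ℝ (g n) z u - fderiv ℝ (g m) z u := by
      intro z hz u
      have d1 : DifferentiableAt ℝ (g n) z :=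
        ((hg n).contDiffAt ((S.openT k).mem_nhds (hK hz))).differentiableAt (by norm_num)
      have d2 : DifferentiableAt ℝ (g m) z :=
        ((hg m).contDiffAt ((S.openT k).mem_nhds (hK hz))).differentiableAt (by norm_num)
      have e : (fun z => 1 * F n (D.ψ k z) + -1 * F m (D.ψ k z)) = fun z => g n z - g m z := by
        funext z
        simp only [hgdef]
        ring
      rw [e, fderiv_fun_sub d1 d2, sub_apply]
    have e1 : ∀ u : ℂ, ‖(md n u).toLp _ - (md m u).toLp _‖ ^ 2 =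
        ∫ z in K, (fderiv ℝ (fun z => 1 * F n (D.ψ k z) + -1 * F m (D.ψ k z)) z u) ^ 2 := by
      intro u
      rw [← MemLp.toLp_sub (md n u) (md m u), norm_toLp]
      refine setIntegral_congr_fun hKm fun z hz => ?_
      simp only [Pi.sub_apply]
      rw [hder z hz]
    have i1 : ∀ u : ℂ, IntegrableOn
        (fun z => (fderiv ℝ (fun z => 1 * F n (D.ψ k z) + -1 * F m (D.ψ k z)) z u) ^ 2) K := by
      intro u
      have h1 : IntegrableOn (fun z => (fderiv ℝ (g n) z u - fderiv ℝ (g m) z u) ^ 2) K :=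
        (((hdK n u).sub (hdK m u)).pow 2).integrableOn_compact hKc
      refine h1.congr_fun (fun z hz => ?_) hKm
      simp only
      rw [hder z hz]
    rw [e1, e1, ← integral_add (i1 _) (i1 _)]
    refine hE.trans ?_
    rw [hen1]
    have h5 := (Pool.Agent.Q233.GLV.parts_le (f n - f m)).2
    exact pow_le_pow_left₀ (norm_nonneg _) h5 2
  have hcau : CauchySeq f := hlim.cauchySeq
  have hcx : ∀ u : ℂ, u = 1 ∨ u = Complex.I → CauchySeq fun n => (md n u).toLp _ := by
    intro u hu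
    rw [Metric.cauchySeq_iff] at hcau ⊢
    intro ε hε
    obtain ⟨N, hN⟩ := hcau ε hε
    refine ⟨N, fun m hm n hn => ?_⟩
    have h1 := hN m hm n hn
    rw [dist_eq_norm] at h1 ⊢
    have h2 : ‖(md m u).toLp _ - (md n u).toLp _‖ ^ 2 ≤ ‖f m - f n‖ ^ 2 := by
      rcases hu with rfl | rfl
      · exact le_trans (le_add_of_nonneg_right (sq_nonneg _)) (hen m n)
      · exact le_trans (le_add_of_nonneg_left (sq_nonneg _)) (hen m n)
    exact (abs_le_of_sq_le_sq' h2 (norm_nonneg _)).2.trans_lt h1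
  obtain ⟨X, hX⟩ := cauchySeq_tendsto_of_complete (hcx 1 (Or.inl rfl))
  obtain ⟨Y, hY⟩ := cauchySeq_tendsto_of_complete (hcx Complex.I (Or.inr rfl))
  -- convergence of the functions
  have hV : Tendsto (fun n => (mg n).toLp _) atTop (𝓝 (mV.toLp _)) := by
    rw [tendsto_iff_norm_sub_tendsto_zero]
    have h1 : Tendsto (fun n => Real.sqrt δ⁻¹ * ‖f n - v.1‖) atTop (𝓝 0) := by
      have := (tendsto_iff_norm_sub_tendsto_zero.1 hlim).const_mul (Real.sqrt δ⁻¹)
      rwa [mul_zero] at this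
    refine squeeze_zero (fun _ => norm_nonneg _) (fun n => ?_) h1
    have hm : MemLp (fun x => ((f n).fst - v.1.fst : Lp ℝ 2 μ) x) 2 μ := Lp.memLp _
    obtain ⟨m1, m2⟩ := memLp_chart S hKc hK hδ hδK hm
    have h2 : ‖(mg n).toLp _ - mV.toLp _‖ ^ 2 ≤ δ⁻¹ * ‖f n - v.1‖ ^ 2 := by
      rw [← MemLp.toLp_sub (mg n) mV, norm_toLp]
      have h3 : ∫ z in K, ((g n - fun z => (v.1.fst : M → ℝ) (D.ψ k z)) z) ^ 2 =
          ∫ z in K, (((f n).fst - v.1.fst : Lp ℝ 2 μ) (D.ψ k z)) ^ 2 := by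
        refine integral_congr_ae ?_
        rw [EventuallyEq, ae_restrict_iff' hKm]
        have h4 : ∀ᵐ x ∂μ, ((f n).fst - v.1.fst : Lp ℝ 2 μ) x = F n x - (v.1.fst : M → ℝ) x := by
          filter_upwards [Lp.coeFn_sub (f n).fst v.1.fst, (hf n).2.2.1] with x h5 h6
          rw [h5, Pi.sub_apply, h6]
        filter_upwards [ae_chart S k h4] with z hz hzK
        rw [hz (hK hzK)]
        rfl
      rw [h3]
      refine m2.trans ?_
      refine mul_le_mul_of_nonneg_left ?_ (inv_nonneg.2 hδ.le)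
      have h7 : ∫ x, (((f n).fst - v.1.fst : Lp ℝ 2 μ) x) ^ 2 ∂μ = ‖(f n).fst - v.1.fst‖ ^ 2 := by
        rw [← norm_toLpM]
        refine integral_congr_ae (Eventually.of_forall fun x => ?_)
        simp
      rw [h7]
      have h8 : ‖(f n).fst - v.1.fst‖ ≤ ‖f n - v.1‖ :=
        (Pool.Agent.Q233.GLV.parts_le (f n - v.1)).1
      exact pow_le_pow_left₀ (norm_nonneg _) h8 2
    refine (abs_le_of_sq_le_sq' ?_ (by positivity)).2
    rw [mul_pow, Real.sq_sqrt (inv_nonneg.2 hδ.le)]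
    exact h2
  -- the bound of the coefficient
  obtain ⟨Λ, hΛ⟩ := (hKc.image_of_continuousOn
    ((Pool.Agent.Y960.QE.contDet S k).mono hK)).bddAbove
  have hΛ' : ∀ z ∈ K, |(D.A k z).det| ≤ Λ := fun z hz => hΛ ⟨z, hz, rfl⟩
  have hqc : ContinuousOn (fun z => -(lam * (Real.exp (φ (D.ψ k z)) * |(D.A k z).det|))) K := by
    have h1 : ContinuousOn (fun z => φ (D.ψ k z)) K :=
      φ.continuous.comp_continuousOn ((S.contψ k).mono hK)
    exact (continuousOn_const.mul ((Real.continuous_exp.comp_continuousOn h1).mul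
      ((Pool.Agent.Y960.QE.contDet S k).mono hK))).neg
  obtain ⟨C, hC⟩ := hKc.exists_bound_of_continuousOn hqc
  have hmono : (volume : Measure ℂ).restrict (ball z0 R) ≤ volume.restrict K :=
    Measure.restrict_mono_set _ hBK
  -- test functions
  have htest : ∀ η : ℂ → ℝ, tsupport η ⊆ ball z0 R → ∀ z, z ∉ ball z0 R → η z = 0 :=
    fun η hs z hz => image_eq_zero_of_notMem_tsupport fun h => hz (hs h)
  have hder : ∀ η : ℂ → ℝ, ContDiff ℝ ∞ η → HasCompactSupport η → tsupport η ⊆ ball z0 R →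
      ∀ (u : ℂ) (Z : Lp ℝ 2 ((volume : Measure ℂ).restrict K)),
      Tendsto (fun n => (md n u).toLp _) atTop (𝓝 Z) →
      ∫ z in ball z0 R, fderiv ℝ η z u * (v.1.fst : M → ℝ) (D.ψ k z) =
        -∫ z in ball z0 R, η z * Z z := by
    intro η hη hηc hηs u Z hZ
    have h0 := htest η hηs
    have h0' : ∀ z, z ∉ ball z0 R → fderiv ℝ η z u = 0 := by
      intro z hz
      rw [fderiv_of_notMem_tsupport ℝ fun h => hz (hηs h)]
      simp
    have cη : ContinuousOn η K := hη.continuous.continuousOn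
    have cd : ContinuousOn (fun z => fderiv ℝ η z u) K :=
      (Pool.Agent.Q233.GLV.dir_smooth hη u).continuous.continuousOn
    have mη := memLp_cont hKc cη
    have mdη := memLp_cont hKc cd
    have h1 : ∀ n, inner ℝ (mdη.toLp _) ((mg n).toLp _) +
        inner ℝ (mη.toLp _) ((md n u).toLp _) = 0 := by
      intro n
      rw [inner_toLp, inner_toLp, ← integral_add]
      · exact Pool.Agent.Q233.CPC.ibp0 hKc (S.openT k) hK (P := η) (P' := fderiv ℝ η)
          (fun z => (hη.differentiable (by simp) z).hasFDerivAt)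
          (fun u => (Pool.Agent.Q233.GLV.dir_smooth hη u).continuous)
          (fun z hz => h0 z fun h => hz (hBK h)) (hg n) u
      · exact (cd.mul (hgK n)).integrableOn_compact hKc
      · exact (cη.mul (hdK n u)).integrableOn_compact hKc
    have h2 : Tendsto (fun n => inner ℝ (mdη.toLp _) ((mg n).toLp _) +
        inner ℝ (mη.toLp _) ((md n u).toLp _)) atTop
        (𝓝 (inner ℝ (mdη.toLp _) (mV.toLp _) + inner ℝ (mη.toLp _) Z)) :=
      (tendsto_const_nhds.inner hV).add (tendsto_const_nhds.inner hZ)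
    simp only [h1] at h2
    have h3 := tendsto_nhds_unique h2 tendsto_const_nhds
    rw [inner_toLp, inner_toLp'] at h3
    rw [set_eq hKm hBK (fun z hz => by rw [h0' z hz, zero_mul]),
      set_eq hKm hBK (fun z hz => by rw [h0 z hz, zero_mul])]
    linarith
  refine ⟨X, Y, C, mV.mono_measure hmono, (Lp.memLp X).mono_measure hmono,
    (Lp.memLp Y).mono_measure hmono, ?_, ?_, fun η h1 h2 h3 => hder η h1 h2 h3 1 X hX,
    fun η h1 h2 h3 => hder η h1 h2 h3 Complex.I Y hY, ?_⟩
  · exact (hqc.mono hBK).aestronglyMeasurable isOpen_ball.measurableSet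
  · rw [ae_restrict_iff' isOpen_ball.measurableSet]
    exact Eventually.of_forall fun z hz => hC z (hBK hz)
  · intro η hη hηc hηs
    have h0 := htest η hηs
    have h0K : ∀ z, z ∉ K → η z = 0 := fun z hz => h0 z fun h => hz (hBK h)
    have hlap0 : ∀ z, z ∉ ball z0 R → lap η z = 0 := by
      intro z hz
      have hz' : z ∉ tsupport η := fun h => hz (hηs h)
      exact Pool.Agent.Q233.GLV.lap_off (isClosed_tsupport η)
        (fun w hw => image_eq_zero_of_notMem_tsupport hw) hz'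
    have clap : ContinuousOn (lap η) K := (Pool.Agent.Q233.GLV.lap_cont hη).continuousOn
    have mlap := memLp_cont hKc clap
    obtain ⟨Fη, hF1, hF2, hF3⟩ := Pool.Agent.Q233.GLV.lift_K S hKc hK (hη.of_le (by
      simp)) h0K
    obtain ⟨w, hw, hw1, hw2⟩ := hden1 Fη hF1
    -- the Dirichlet form
    have h4 : ∀ n, inner ℝ w.snd (f n).snd = -inner ℝ (mlap.toLp _) ((mg n).toLp _) := by
      intro n
      have h5 : inner ℝ w.snd (f n).snd = ∫ x, (1 : ℝ) * inner ℝ (D.gr Fη x) (D.gr (F n) x) ∂μ := by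
        rw [L2.inner_def]
        refine integral_congr_ae ?_
        filter_upwards [hw2, (hf n).2.2.2] with x h6 h7
        rw [h6, h7, one_mul]
      rw [h5, Pool.Agent.Q233.GLV.dir_K S hKc hK hc hF1 hF2 hF3 (hf n).1
        aestronglyMeasurable_const, inner_toLp]
      simp only [one_mul]
      rw [Pool.Agent.Q233.GLV.ibp_lap hKc (S.openT k) hK hη h0K (hg n), ← integral_neg]
      refine integral_congr_ae (Eventually.of_forall fun z => ?_)
      simp only [hgdef]
      ring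
    have h5 : Tendsto (fun n => inner ℝ w.snd (f n).snd) atTop (𝓝 (inner ℝ w.snd v.1.snd)) :=
      tendsto_const_nhds.inner (Pool.Agent.Q233.GLV.snd_tend hlim)
    have h6 : Tendsto (fun n => inner ℝ w.snd (f n).snd) atTop
        (𝓝 (-inner ℝ (mlap.toLp _) (mV.toLp _))) := by
      simp only [h4]
      exact (tendsto_const_nhds.inner hV).neg
    have h7 := tendsto_nhds_unique h5 h6
    rw [inner_toLp] at h7
    have h8 := he ⟨w, hw⟩
    rw [ha, hB] at h8
    have h9 : inner ℝ v.1.snd w.snd = inner ℝ w.snd v.1.snd := real_inner_comm _ _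
    simp only at h8
    rw [h9, h7] at h8
    have h10 : ∫ x, Real.exp (φ x) * (i v x * i ⟨w, hw⟩ x) ∂μ =
        ∫ z in K, (Real.exp (φ (D.ψ k z)) * ((v.1.fst : M → ℝ) (D.ψ k z) * η z)) *
          |(D.A k z).det| := by
      have h11 : ∫ x, Real.exp (φ x) * (i v x * i ⟨w, hw⟩ x) ∂μ =
          ∫ x, Real.exp (φ x) * ((v.1.fst : M → ℝ) x * Fη x) ∂μ := by
        refine integral_congr_ae ?_
        rw [hi, hi]
        filter_upwards [hw1] with x hx
        rw [hx]
      rw [h11, Pool.Agent.Q233.GLV.int_KK S hKc hK]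
      · refine setIntegral_congr_fun hKm fun z hz => ?_
        rw [hF2 z (hK hz)]
      · exact (Real.continuous_exp.comp φ.continuous).aestronglyMeasurable.mul
          ((Lp.aestronglyMeasurable _).mul (Pool.Agent.Y708.QE.C1_cont S hF1).aestronglyMeasurable)
      · intro x hx
        rw [hF3 x hx, mul_zero, mul_zero]
    rw [h10] at h8
    rw [set_eq hKm hBK (fun z hz => by rw [hlap0 z hz, zero_mul]),
      set_eq hKm hBK (fun z hz => by rw [h0 z hz, zero_mul])]
    have h12 : ∫ z in K, η z * (-(lam * (Real.exp (φ (D.ψ k z)) * |(D.A k z).det|)) *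
        (v.1.fst : M → ℝ) (D.ψ k z)) = -(lam * ∫ z in K, (Real.exp (φ (D.ψ k z)) *
          ((v.1.fst : M → ℝ) (D.ψ k z) * η z)) * |(D.A k z).det|) := by
      rw [← integral_const_mul, ← integral_neg]
      refine integral_congr_ae (Eventually.of_forall fun z => ?_)
      simp only
      ring
    rw [h12, ← h8, neg_neg]

end Pool.Agent.H992.LR
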